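import Pool.Agent.H76.TH.Defs

/-!
Project THIN, module ArC: the calculus of arithmetical predicates `Ar`.
`Ar P` means `∃ P0, Ar0 P0 ∧ ∀ z a, P z a ↔ P0 z (encode a)`.
For `Ar.comp` use the total primitive recursive function
`n ↦ ((decode n : Option β).map (fun b => encode (f b))).getD 0`.
For `Ar.all` (over `β`) guard with the primitive recursive predicate that `m` is the code of an
element of `β`: `∀ m, (∃ b : β, encode b = m) → P0 z (Nat.pair n m)` (note that
`encode (a, b) = Nat.pair (encode a) (encode b)`).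
-/

set_option autoImplicit false

open Encodable Pool.Agent.H75.EK

namespace Pool.Agent.H76.TH

variable {α β γ : Type} [Primcodable α] [Primcodable β] [Primcodable γ]

theorem Ar.congr {P Q : (ℕ → ℕ) → α → Prop} (h : Ar P) (hPQ : ∀ z a, P z a ↔ Q z a) : Ar Q := by
  obtain ⟨P0, h0, h1⟩ := h
  exact ⟨P0, h0, fun z a => (hPQ z a).symm.trans (h1 z a)⟩

/-- A primitive recursive predicate on codes. -/
theorem ArC_pred {P : α → Prop} (h : PrimrecPred P) :
    ∃ P' : ℕ → Prop, PrimrecPred P' ∧ ∀ a, P a ↔ P' (encode a) := by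
  obtain ⟨hd, hp⟩ := h
  have h1 : Primrec (fun n : ℕ => ((decode n : Option α).map (fun a => decide (P a))).getD false) :=
    Primrec.option_getD.comp
      (Primrec.option_map Primrec.decode (hp.comp Primrec.snd).to₂) (Primrec.const false)
  refine ⟨fun n => ((decode n : Option α).map (fun a => decide (P a))).getD false = true, ?_, ?_⟩
  · exact ⟨inferInstance, h1.of_eq fun n => by simp⟩
  · intro a
    simp only [encodek, Option.map_some, Option.getD_some, decide_eq_true_eq]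

/-- A total primitive recursive function on codes. -/
theorem ArC_fun {f : β → α} (hf : Primrec f) :
    ∃ g : ℕ → ℕ, Primrec g ∧ ∀ b, g (encode b) = encode (f b) := by
  refine ⟨fun n => ((decode n : Option β).map (fun b => encode (f b))).getD 0, ?_, ?_⟩
  · exact Primrec.option_getD.comp
      (Primrec.option_map Primrec.decode (Primrec.encode.comp (hf.comp Primrec.snd)).to₂)
      (Primrec.const 0)
  · intro b
    simp only [encodek, Option.map_some, Option.getD_some]

theorem Ar.dec {P : α → Prop} (h : PrimrecPred P) : Ar (fun _ a => P a) := by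
  obtain ⟨P', hP', h1⟩ := ArC_pred h
  exact ⟨fun _ n => P' n, Ar0.dec hP', fun _ a => h1 a⟩

theorem Ar.not {P : (ℕ → ℕ) → α → Prop} (h : Ar P) : Ar (fun z a => ¬ P z a) := by
  obtain ⟨P0, h0, h1⟩ := h
  exact ⟨_, h0.not, fun z a => not_congr (h1 z a)⟩

theorem Ar.and {P Q : (ℕ → ℕ) → α → Prop} (hP : Ar P) (hQ : Ar Q) :
    Ar (fun z a => P z a ∧ Q z a) := by
  obtain ⟨P0, h0, h1⟩ := hP
  obtain ⟨Q0, g0, g1⟩ := hQ
  exact ⟨_, h0.and g0, fun z a => and_congr (h1 z a) (g1 z a)⟩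

theorem Ar.or {P Q : (ℕ → ℕ) → α → Prop} (hP : Ar P) (hQ : Ar Q) :
    Ar (fun z a => P z a ∨ Q z a) :=
  ((hP.not.and hQ.not).not).congr fun z a => by tauto

theorem Ar.imp {P Q : (ℕ → ℕ) → α → Prop} (hP : Ar P) (hQ : Ar Q) :
    Ar (fun z a => P z a → Q z a) :=
  ((hP.and hQ.not).not).congr fun z a => by tauto

theorem Ar.iff {P Q : (ℕ → ℕ) → α → Prop} (hP : Ar P) (hQ : Ar Q) :
    Ar (fun z a => P z a ↔ Q z a) :=
  ((hP.imp hQ).and (hQ.imp hP)).congr fun z a => by tauto

theorem Ar.comp {P : (ℕ → ℕ) → α → Prop} (hP : Ar P) {f : β → α} (hf : Primrec f) :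
    Ar (fun z b => P z (f b)) := by
  obtain ⟨P0, h0, h1⟩ := hP
  obtain ⟨g, hg, hgf⟩ := ArC_fun hf
  refine ⟨_, Ar0.comp hg h0, fun z b => ?_⟩
  show P z (f b) ↔ P0 z (g (encode b))
  rw [h1, hgf]

theorem Ar.all {P : (ℕ → ℕ) → α → β → Prop} (hP : Ar (fun z (p : α × β) => P z p.1 p.2)) :
    Ar (fun z a => ∀ b, P z a b) := by
  obtain ⟨P0, h0, h1⟩ := hP
  have hR : PrimrecPred (fun n : ℕ => n.unpair.2 ∈ Set.range (encode : β → ℕ)) :=
    (Primcodable.mem_range_encode (α := β)).comp (Primrec.snd.comp Primrec.unpair)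
  have h2 : Ar0 (fun z n => ¬ (n.unpair.2 ∈ Set.range (encode : β → ℕ) ∧ ¬ P0 z n)) :=
    ((Ar0.dec hR).and h0.not).not
  refine ⟨_, h2.all, fun z a => ?_⟩
  simp only [Nat.unpair_pair]
  constructor
  · rintro h m ⟨⟨b, rfl⟩, hb⟩
    exact hb ((h1 z (a, b)).1 (h b))
  · intro h b
    have := h (encode b)
    by_contra hb
    exact this ⟨⟨b, rfl⟩, fun h' => hb ((h1 z (a, b)).2 h')⟩

theorem Ar.ex {P : (ℕ → ℕ) → α → β → Prop} (hP : Ar (fun z (p : α × β) => P z p.1 p.2)) :
    Ar (fun z a => ∃ b, P z a b) :=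
  ((Ar.all (P := fun z a b => ¬ P z a b) hP.not).not).congr fun z a => by push Not; rfl

/-- The values of the real. -/
theorem Ar.val {P : (ℕ → ℕ) → α → ℕ → Prop} (hP : Ar (fun z (p : α × ℕ) => P z p.1 p.2))
    {f : α → ℕ} (hf : Primrec f) : Ar (fun z a => P z a (z (f a))) := by
  have h1 : Ar (fun (z : ℕ → ℕ) (n : ℕ) => z n.unpair.1 = n.unpair.2) :=
    ⟨_, Ar0.orc, fun z a => Iff.rfl⟩
  have h2 : Ar (fun z (p : α × ℕ) => z (f p.1) = p.2) :=
    (h1.comp (f := fun p : α × ℕ => Nat.pair (f p.1) p.2)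
      (Primrec₂.natPair.comp (hf.comp Primrec.fst) Primrec.snd)).congr fun z p => by
        simp only [Nat.unpair_pair]
  have h3 : Ar (fun z a => ∃ y, z (f a) = y ∧ P z a y) :=
    Ar.ex (P := fun z a y => z (f a) = y ∧ P z a y) (h2.and hP)
  refine h3.congr fun z a => ?_
  constructor
  · rintro ⟨y, rfl, h⟩
    exact h
  · intro h
    exact ⟨_, rfl, h⟩

theorem ArC_subst0 {f : β × ℕ → ℕ} {g : (β × ℕ) × ℕ → ℕ} (hf : Primrec f) (hg : Primrec g)
    {P0 : (ℕ → ℕ) → ℕ → Prop} (h0 : Ar0 P0) :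
    Ar (fun z (q : β × ℕ) => P0 (fun i => g ((q.1, i), z (f (q.1, i)))) q.2) := by
  induction h0 with
  | @dec P h => exact Ar.dec (P := fun q : β × ℕ => P q.2) (h.comp Primrec.snd)
  | orc =>
    have hi : Primrec (fun q : β × ℕ => q.2.unpair.1) :=
      Primrec.fst.comp (Primrec.unpair.comp Primrec.snd)
    have hj : Primrec (fun q : β × ℕ => q.2.unpair.2) :=
      Primrec.snd.comp (Primrec.unpair.comp Primrec.snd)
    have h1 : PrimrecPred (fun p : (β × ℕ) × ℕ => g ((p.1.1, p.1.2.unpair.1), p.2) =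
        p.1.2.unpair.2) :=
      Primrec.eq.comp
        (hg.comp (((Primrec.fst.comp Primrec.fst).pair (hi.comp Primrec.fst)).pair Primrec.snd))
        (hj.comp Primrec.fst)
    have h2 := Ar.val (α := β × ℕ)
      (P := fun _ q y => g ((q.1, q.2.unpair.1), y) = q.2.unpair.2)
      (Ar.dec h1) (f := fun q => f (q.1, q.2.unpair.1)) (hf.comp (Primrec.fst.pair hi))
    exact h2
  | not _ ih => exact ih.not
  | and _ _ ihP ihQ => exact ihP.and ihQ
  | @comp P f0 hf0 _ ih =>
    exact ih.comp (f := fun q : β × ℕ => (q.1, f0 q.2))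
      (Primrec.fst.pair (hf0.comp Primrec.snd))
  | @all P _ ih =>
    refine Ar.all (P := fun z (q : β × ℕ) (m : ℕ) =>
      P (fun i => g ((q.1, i), z (f (q.1, i)))) (Nat.pair q.2 m)) ?_
    exact ih.comp (f := fun p : (β × ℕ) × ℕ => (p.1.1, Nat.pair p.1.2 p.2))
      ((Primrec.fst.comp Primrec.fst).pair
        (Primrec₂.natPair.comp (Primrec.snd.comp Primrec.fst) Primrec.snd))

/-- Substitution of a real that is given by a primitive recursive function of finitely many
values of the old real, in the form `z' i = g a i (z (f a i))`. -/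
theorem Ar.subst {P : (ℕ → ℕ) → α → Prop} (hP : Ar P) {f : β × ℕ → ℕ} {g : (β × ℕ) × ℕ → ℕ}
    (hf : Primrec f) (hg : Primrec g) {h : β → α} (hh : Primrec h) :
    Ar (fun z b => P (fun i => g ((b, i), z (f (b, i)))) (h b)) := by
  obtain ⟨P0, h0, h1⟩ := hP
  have h2 := (ArC_subst0 hf hg h0).comp (f := fun b : β => (b, encode (h b)))
    (Primrec.id.pair (Primrec.encode.comp hh))
  exact h2.congr fun z b => (h1 _ _).symm

end Pool.Agent.H76.TH
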