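import Pool.Agent.H76.TH.Defs

/-!
Project THIN, module Bdd: boundedness for closed sets.
Proof. Let `T` be the set of the pairs `(l, s)`, `s` a list of pairs `(m, i)` (newest first) with
`l = res a s.length` for some `a ∈ C`, and for all consecutive entries `(m, j)`, `(_, i)`
of `s`: if `m ≤ l.length` then `K (l.take m) i j`. Extension by one (of both) is a
well-founded relation on `T` (an infinite branch gives `a ∈ C`, `C` closed, with an infinite descending
sequence), and `T` is countable, so its rank function has a countable bound `α`. For `a ∈ C` let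
`h i` be the least rank of a node `(res a s.length, s)` whose consecutive entries `(m, j')`, `(_, i')`
satisfy `K (res a m) i' j'` without restriction and whose newest entry is `(m, i)` for some `m`.
-/

set_option autoImplicit false

open Encodable Pool.Agent.H75.EK Ordinal

namespace Pool.Agent.H76.TH

/-- consecutive entries (newest first) satisfy `P` -/
def bddCh (P : ℕ → ℕ → ℕ → Prop) : List (ℕ × ℕ) → Prop
  | [] => True
  | [_] => True
  | x :: y :: s => P x.1 y.2 x.2 ∧ bddCh P (y :: s)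

theorem bddCh_mono {P Q : ℕ → ℕ → ℕ → Prop} (h : ∀ m i j, P m i j → Q m i j) :
    ∀ s, bddCh P s → bddCh Q s
  | [] => fun _ => trivial
  | [_] => fun _ => trivial
  | _ :: y :: s => fun hs => ⟨h _ _ _ hs.1, bddCh_mono h (y :: s) hs.2⟩

theorem bddCh_tail {P : ℕ → ℕ → ℕ → Prop} {x : ℕ × ℕ} :
    ∀ {s : List (ℕ × ℕ)}, bddCh P (x :: s) → bddCh P s
  | [] => fun _ => trivial
  | _ :: _ => fun h => h.2

/-- the restricted relation -/
def bddR (K : List ℕ → ℕ → ℕ → Prop) (l : List ℕ) (m i j : ℕ) : Prop :=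
  m ≤ l.length → K (l.take m) i j

theorem bdd_take_res {β : Type} (a : ℕ → β) {m n : ℕ} (h : m ≤ n) : (res a n).take m = res a m := by
  unfold res
  rw [← List.map_take, List.take_range, min_eq_left h]

/-- the valid nodes -/
def bddV (K : List ℕ → ℕ → ℕ → Prop) (C : Set (ℕ → ℕ)) (t : List ℕ × List (ℕ × ℕ)) : Prop :=
  (∃ a ∈ C, t.1 = res a t.2.length) ∧ bddCh (bddR K t.1) t.2

/-- extension by one -/
def bddRel (K : List ℕ → ℕ → ℕ → Prop) (C : Set (ℕ → ℕ)) (t' t : List ℕ × List (ℕ × ℕ)) : Prop :=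
  bddV K C t' ∧ (∃ x, t'.2 = x :: t.2) ∧ Pre t.1 t'.1

theorem bdd_closed {C : Set (ℕ → ℕ)} (hC : IsClosed C) {b : ℕ → ℕ} {a : ℕ → ℕ → ℕ}
    (ha : ∀ n, a n ∈ C) (hb : ∀ i, ∀ᶠ n in Filter.atTop, a n i = b i) : b ∈ C := by
  refine hC.mem_of_tendsto (f := a) (b := Filter.atTop) ?_ (Filter.Eventually.of_forall ha)
  rw [tendsto_pi_nhds]
  intro i
  refine tendsto_const_nhds.congr' ?_
  filter_upwards [hb i] with n hn
  exact hn.symm

theorem bdd_wf {K : List ℕ → ℕ → ℕ → Prop} {C : Set (ℕ → ℕ)} (hC : IsClosed C)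
    (h : ∀ a ∈ C, Bk K a) : WellFounded (bddRel K C) := by
  rw [wellFounded_iff_isEmpty_descending_chain]
  constructor
  rintro ⟨f, hf⟩
  -- all nodes `f (n + 1)` are valid
  have hV : ∀ n, bddV K C (f (n + 1)) := fun n => (hf n).1
  choose a haC hal using fun n => (hV n).1
  choose x hx using fun n => (hf (n + 1)).2.1
  have hlen2 : ∀ n, n ≤ (f (n + 1)).2.length := by
    intro n
    induction n with
    | zero => exact Nat.zero_le _
    | succ n ih => rw [hx n, List.length_cons]; omega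
  have hlen1 : ∀ n, (f (n + 1)).1.length = (f (n + 1)).2.length := by
    intro n; rw [hal n, length_res]
  obtain ⟨b, hb⟩ := exists_limit (fun n => (f (n + 1)).1) (fun n => (hf (n + 1)).2.2)
    (fun n => by have := hlen2 n; have := hlen1 n; omega)
  have hbC : b ∈ C := by
    refine bdd_closed hC haC fun i => ?_
    filter_upwards [Filter.eventually_gt_atTop i] with n hn
    have h1 := hlen2 n
    have h2 : res (a n) (f (n + 1)).2.length = res b (f (n + 1)).2.length := by
      rw [← hal n, hb n, hlen1 n]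
    have h3 := congrArg (fun l => l[i]?) h2
    simp only [getElem?_res] at h3
    rw [if_pos (by omega), if_pos (by omega)] at h3
    exact Option.some.inj h3
  obtain ⟨g, hg⟩ := h b hbC
  -- the tails
  have htail : ∀ P n k, bddCh P (f (n + k + 1)).2 → bddCh P (f (n + 1)).2 := by
    intro P n k
    induction k with
    | zero => exact fun h => h
    | succ k ih =>
      intro h
      apply ih
      have := hx (n + k)
      rw [show n + (k + 1) + 1 = n + k + 1 + 1 by ring, this] at h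
      exact bddCh_tail h
  have hdesc : ∀ n, g (x (n + 1)).2 < g (x n).2 := by
    intro n
    have h1 := (hV (n + 2 + (x (n + 1)).1)).2
    have h2 := htail _ (n + 2) (x (n + 1)).1 h1
    rw [show n + 2 + 1 = n + 1 + 1 + 1 by ring, hx (n + 1), hx n] at h2
    have h3 := h2.1
    have h4 := hlen2 (n + 2 + (x (n + 1)).1)
    have h5 := hlen1 (n + 2 + (x (n + 1)).1)
    have h6 := h3 (by omega)
    rw [hb (n + 2 + (x (n + 1)).1), bdd_take_res b (by omega)] at h6
    exact hg _ _ _ h6
  exact (wellFounded_iff_isEmpty_descending_chain.1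
    (wellFounded_lt (α := Ordinal.{0}))).false ⟨fun n => g (x n).2, hdesc⟩

theorem bdd_rank {τ : Type} [Countable τ] (r : τ → τ → Prop) [hwf : IsWellFounded τ r] (t : τ) :
    IsWellFounded.rank r t < ω₁ := by
  induction t using hwf.wf.induction with
  | _ t ih =>
    rw [IsWellFounded.rank_eq]
    apply Ordinal.iSup_lt_omega_one
    rintro ⟨b, hb⟩
    exact (Cardinal.isSuccLimit_omega 1).succ_lt (ih b hb)

theorem bounded_of_closed {K : List ℕ → ℕ → ℕ → Prop} {C : Set (ℕ → ℕ)} (hC : IsClosed C)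
    (h : ∀ a ∈ C, Bk K a) : ∃ α : Ordinal.{0}, α < ω₁ ∧ ∀ a ∈ C, ∃ h : ℕ → Ordinal.{0},
      (∀ i, h i < α) ∧ ∀ n i j, K (res a n) i j → h j < h i := by
  have : IsWellFounded (List ℕ × List (ℕ × ℕ)) (bddRel K C) := ⟨bdd_wf hC h⟩
  let ρ : List ℕ × List (ℕ × ℕ) → Ordinal.{0} := IsWellFounded.rank (bddRel K C)
  refine ⟨⨆ t, Order.succ (ρ t), Ordinal.iSup_lt_omega_one fun t =>
    (Cardinal.isSuccLimit_omega 1).succ_lt (bdd_rank _ t), fun a ha => ?_⟩
  let N : ℕ → Set (List ℕ × List (ℕ × ℕ)) := fun i =>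
    {t | t.1 = res a t.2.length ∧ bddCh (fun m i j => K (res a m) i j) t.2 ∧
      ∃ m s, t.2 = (m, i) :: s}
  have hne : ∀ i, (ρ '' N i).Nonempty := fun i =>
    ⟨_, (res a 1, [(0, i)]), ⟨rfl, trivial, 0, [], rfl⟩, rfl⟩
  refine ⟨fun i => sInf (ρ '' N i), fun i => ?_, fun n i j hK => ?_⟩
  · obtain ⟨t, -, ht⟩ := csInf_mem (hne i)
    dsimp only
    rw [← ht]
    exact (Order.lt_succ _).trans_le (Ordinal.le_iSup (fun t => Order.succ (ρ t)) t)
  · obtain ⟨t, ⟨ht1, ht2, m, s, ht3⟩, ht⟩ := csInf_mem (hne i)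
    dsimp only
    rw [← ht]
    have hch : bddCh (fun m i j => K (res a m) i j) ((n, j) :: t.2) := by
      rw [ht3] at ht2 ⊢
      exact ⟨hK, ht2⟩
    have hmem : ((res a (t.2.length + 1), (n, j) :: t.2) : List ℕ × List (ℕ × ℕ)) ∈ N j :=
      ⟨by simp, hch, n, t.2, rfl⟩
    refine lt_of_le_of_lt (csInf_le' ⟨_, hmem, rfl⟩) ?_
    apply IsWellFounded.rank_lt_of_rel
    refine ⟨⟨⟨a, ha, by simp⟩, ?_⟩, ⟨_, rfl⟩, ?_⟩
    · refine bddCh_mono (fun m' i' j' hK' hm' => ?_) _ hch
      dsimp only at hm' ⊢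
      rw [length_res] at hm'
      rw [bdd_take_res a hm']
      exact hK'
    · dsimp only
      rw [ht1]
      exact pre_res a (by simp)

end Pool.Agent.H76.TH
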