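import Pool.Agent.H76.TH.FmA

/-!
Project THIN, module Cnt: countable levels of the constructible hierarchy are countable.
Induction on `α`: `Lset α` is the union of the `Def (Lset β)`, `β < α`, and `Def A` is countable if `A`
is, by FmA (`Fm` is countable: code it by natural numbers).
-/

set_option autoImplicit false

open FirstOrder Pool.Agent.H75.EK Ordinal

namespace Pool.Agent.H76.TH

/-- A numbering of the formulas. -/
private def Cnt_code : Fm → ℕ
  | Fm.mem i j => 4 * Nat.pair i j
  | Fm.eq i j => 4 * Nat.pair i j + 1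
  | Fm.nand φ ψ => 4 * Nat.pair (Cnt_code φ) (Cnt_code ψ) + 2
  | Fm.ex φ => 4 * Cnt_code φ + 3

private theorem Cnt_code_injective : Function.Injective Cnt_code := by
  intro φ
  induction φ with
  | mem i j =>
    intro ψ h
    cases ψ with
    | mem k l =>
      simp only [Cnt_code] at h
      have h1 : Nat.pair i j = Nat.pair k l := by omega
      rw [Nat.pair_eq_pair] at h1
      rw [h1.1, h1.2]
    | eq k l => simp only [Cnt_code] at h; omega
    | nand a b => simp only [Cnt_code] at h; omega
    | ex a => simp only [Cnt_code] at h; omega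
  | eq i j =>
    intro ψ h
    cases ψ with
    | mem k l => simp only [Cnt_code] at h; omega
    | eq k l =>
      simp only [Cnt_code] at h
      have h1 : Nat.pair i j = Nat.pair k l := by omega
      rw [Nat.pair_eq_pair] at h1
      rw [h1.1, h1.2]
    | nand a b => simp only [Cnt_code] at h; omega
    | ex a => simp only [Cnt_code] at h; omega
  | nand φ χ ih1 ih2 =>
    intro ψ h
    cases ψ with
    | mem k l => simp only [Cnt_code] at h; omega
    | eq k l => simp only [Cnt_code] at h; omega
    | nand a b =>
      simp only [Cnt_code] at h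
      have h1 : Nat.pair (Cnt_code φ) (Cnt_code χ) = Nat.pair (Cnt_code a) (Cnt_code b) := by omega
      rw [Nat.pair_eq_pair] at h1
      rw [ih1 h1.1, ih2 h1.2]
    | ex a => simp only [Cnt_code] at h; omega
  | ex φ ih =>
    intro ψ h
    cases ψ with
    | mem k l => simp only [Cnt_code] at h; omega
    | eq k l => simp only [Cnt_code] at h; omega
    | nand a b => simp only [Cnt_code] at h; omega
    | ex a =>
      simp only [Cnt_code] at h
      rw [ih (show Cnt_code φ = Cnt_code a by omega)]

private theorem Cnt_def {A : ZFSet.{0}} (hA : {x : ZFSet.{0} | x ∈ A}.Countable) :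
    {x : ZFSet.{0} | x ∈ Def A}.Countable := by
  have : Countable Fm := Cnt_code_injective.countable
  have : Countable {x : ZFSet.{0} | x ∈ A} := hA
  refine (Set.countable_range (fun p : Fm × List {x : ZFSet.{0} | x ∈ A} =>
    defSet A p.1 (p.2.map Subtype.val))).mono ?_
  intro x hx
  obtain ⟨φ, s, hs, rfl⟩ := exists_fm_of_mem_Def hx
  refine ⟨(φ, s.attach.map fun a => ⟨a.1, hs a.1 a.2⟩), ?_⟩
  simp only [List.map_map]
  congr 1
  conv_rhs => rw [← List.attach_map_subtype_val s]
  rfl

theorem countable_Lset {α : Ordinal.{0}} (hα : α < ω₁) : {x : ZFSet.{0} | x ∈ Lset α}.Countable := by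
  induction α using Ordinal.induction with
  | h α ih =>
    have h1 : {x : ZFSet.{0} | x ∈ Lset α} = ⋃ β ∈ Set.Iio α, {x : ZFSet.{0} | x ∈ Def (Lset β)} := by
      ext x
      simp only [Set.mem_iUnion, Set.mem_setOf_eq, mem_Lset, Set.mem_Iio, exists_prop]
    rw [h1]
    refine Set.Countable.biUnion ?_ fun β hβ => Cnt_def (ih β hβ (lt_trans hβ hα))
    rw [Cardinal.countable_iff_lt_aleph_one, Cardinal.mk_Iio_ordinal, Cardinal.lift_lt_aleph_one]
    rw [← Cardinal.lt_ord, Cardinal.ord_aleph]
    exact hα

end Pool.Agent.H76.TH
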