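import Pool.Agent.H76.ITTM.Defs
import Pool.Agent.H75.EK.Sig

/-!
Project THIN: definitions. Constructible reals, arithmetical predicates of a real, the relations
`Bk K`, certificates of constructibility.
-/

set_option autoImplicit false

open Encodable Pool.Agent.H75.EK

namespace Pool.Agent.H76.TH

/-- The real `x` is constructible. -/
def Constr (x : ℕ → Bool) : Prop := InL (natSet {n | x n = true})

/-- Two reals as one. -/
def join (z u : ℕ → ℕ) : ℕ → ℕ := fun i => Nat.pair (z i) (u i)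

/-- A real as a function with values `0`, `1`. -/
def toN (x : ℕ → Bool) : ℕ → ℕ := fun i => (x i).toNat

/-- The family of relations `K` is primitive recursive. -/
def PrimK (K : List ℕ → ℕ → ℕ → Prop) : Prop :=
  PrimrecPred (fun p : List ℕ × ℕ × ℕ => K p.1 p.2.1 p.2.2)

/-- Arithmetical predicates of an element of Baire space and of a natural number. -/
inductive Ar0 : ((ℕ → ℕ) → ℕ → Prop) → Prop
  | dec {P : ℕ → Prop} (h : PrimrecPred P) : Ar0 (fun _ n => P n)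
  | orc : Ar0 (fun z n => z n.unpair.1 = n.unpair.2)
  | not {P : (ℕ → ℕ) → ℕ → Prop} (h : Ar0 P) : Ar0 (fun z n => ¬ P z n)
  | and {P Q : (ℕ → ℕ) → ℕ → Prop} (hP : Ar0 P) (hQ : Ar0 Q) : Ar0 (fun z n => P z n ∧ Q z n)
  | comp {P : (ℕ → ℕ) → ℕ → Prop} {f : ℕ → ℕ} (hf : Primrec f) (hP : Ar0 P) :
      Ar0 (fun z n => P z (f n))
  | all {P : (ℕ → ℕ) → ℕ → Prop} (hP : Ar0 P) : Ar0 (fun z n => ∀ m, P z (Nat.pair n m))

/-- Arithmetical predicates with a parameter in a primitive recursively coded type. -/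
def Ar {α : Type} [Primcodable α] (P : (ℕ → ℕ) → α → Prop) : Prop :=
  ∃ P0, Ar0 P0 ∧ ∀ z a, P z a ↔ P0 z (encode a)

/-- The normal form of `Π¹₁` predicates. -/
def NF (P : (ℕ → ℕ) → ℕ → Prop) : Prop :=
  ∃ Q : List ℕ × ℕ × List ℕ → Prop, PrimrecPred Q ∧
    ∀ z n, P z n ↔ ∀ v : ℕ → ℕ, ∃ k, Q (res z k, n, res v k)

/-! ### Formulas and satisfaction in sets -/

/-- Formulas of the language of set theory, with de Bruijn indices. -/
inductive Fm : Type
  | mem (i j : ℕ) : Fm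
  | eq (i j : ℕ) : Fm
  | nand (φ ψ : Fm) : Fm
  | ex (φ : Fm) : Fm

/-- Satisfaction in `(A, ∈)`; the list `s` gives the values of the free variables. -/
def sat (A : ZFSet.{0}) : Fm → List ZFSet.{0} → Prop
  | Fm.mem i j, s => ∃ a b, s[i]? = some a ∧ s[j]? = some b ∧ a ∈ b
  | Fm.eq i j, s => ∃ a, s[i]? = some a ∧ s[j]? = some a
  | Fm.nand φ ψ, s => ¬ (sat A φ s ∧ sat A ψ s)
  | Fm.ex φ, s => ∃ a ∈ A, sat A φ (a :: s)

/-- The subset of `A` defined by `φ` with the parameters `s`. -/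
noncomputable def defSet (A : ZFSet.{0}) (φ : Fm) (s : List ZFSet.{0}) : ZFSet.{0} :=
  ZFSet.sep (fun y => sat A φ (y :: s)) A

/-! ### Certificates -/

/-- A certificate: a structure with domain `ℕ`, `lt` compares the levels, `E` is membership,
`S m c s` is the truth of the formula with code `c` at `s` in the structure `({n | lt n m}, E)`,
`N k n` says that `n` is the natural number `k`. -/
structure Cert (lt E N : ℕ → ℕ → Prop) (S : ℕ → ℕ → List ℕ → Prop) : Prop where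
  irrefl : ∀ n, ¬ lt n n
  trans : ∀ a b c, lt a b → lt b c → lt a c
  weak : ∀ a b c, lt a b → lt a c ∨ lt c b
  mem : ∀ m i j s, S m (4 * Nat.pair i j) s ↔ ∃ a b, s[i]? = some a ∧ s[j]? = some b ∧ E a b
  eq : ∀ m i j s, S m (4 * Nat.pair i j + 1) s ↔ ∃ a, s[i]? = some a ∧ s[j]? = some a
  nand : ∀ m a b s, S m (4 * Nat.pair a b + 2) s ↔ ¬ (S m a s ∧ S m b s)
  ex : ∀ m a s, S m (4 * a + 3) s ↔ ∃ n, lt n m ∧ S m a (n :: s)
  defble : ∀ m, ∃ c s, (∀ a ∈ s, lt a m) ∧ ∀ n, E n m ↔ lt n m ∧ S m c (n :: s)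
  closed : ∀ m c s, (∀ a ∈ s, lt a m) →
    ∃ k, ¬ lt m k ∧ ∀ n, E n k ↔ lt n m ∧ S m c (n :: s)
  ext : ∀ n m, (∀ k, E k n ↔ E k m) → n = m
  zero : ∀ n, N 0 n → ∀ k, ¬ E k n
  succ : ∀ k n m, N k n → N (k + 1) m → ∀ a, E a m ↔ E a n ∨ a = n
  tot : ∀ k, ∃ n, N k n

/-- The point `t` of the structure is the real `x`. -/
def Rep (E N : ℕ → ℕ → Prop) (x : ℕ → ℕ) (t : ℕ) : Prop :=
  (∀ n, E n t → ∃ k, N k n) ∧ ∀ k n, N k n → (E n t ↔ x k = 1)

/-- The relations coded by a real. -/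
def wlt (w : ℕ → ℕ) (n m : ℕ) : Prop := w (Nat.pair 0 (Nat.pair n m)) = 1
def wE (w : ℕ → ℕ) (n m : ℕ) : Prop := w (Nat.pair 1 (Nat.pair n m)) = 1
def wN (w : ℕ → ℕ) (n m : ℕ) : Prop := w (Nat.pair 2 (Nat.pair n m)) = 1
def wS (w : ℕ → ℕ) (m c : ℕ) (s : List ℕ) : Prop :=
  w (Nat.pair 3 (Nat.pair m (Nat.pair c (encode s)))) = 1

/-- `w` is a certificate for `x` (apart from the well-foundedness of `wlt w`). -/
def WCert (x w : ℕ → ℕ) : Prop :=
  (∀ i, w i ≤ 1) ∧ Cert (wlt w) (wE w) (wN w) (wS w) ∧ ∃ t, Rep (wE w) (wN w) x t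

end Pool.Agent.H76.TH
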