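import Pool.Agent.H76.TH.NFb

/-!
Project THIN, module ExK: sets of the form `∀ u, arithmetical` are of the form `Bk K` with `K`
primitive recursive.
From `NF` (applied to the arithmetical predicate, at `join z u`) one gets
`(∀ u, P (join z u)) ↔ ∀ u v, ∃ k, Q (res (join z u) k, c, res v k)`; put `y i = Nat.pair (u i) (v i)`,
so this is `∀ y, ∃ k, Q' (res z k, res y k)`; then
`K l i j := ∃ s s', encode s = i ∧ encode s' = j ∧ s'.length = s.length + 1 ∧ s'.take s.length = s ∧
s'.length ≤ l.length ∧ ∀ k < s'.length + 1, ¬ Q' (l.take k, s'.take k)` (compare `KR`, `bk_kR` in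
`EK/Sig.lean`, whose proof can be copied).
-/

set_option autoImplicit false

open Encodable Pool.Agent.H75.EK

namespace Pool.Agent.H76.TH

/-! ### The join of two lists -/

/-- the finite version of `join`, with the second real read off the first components -/
def exkJ (k : ℕ) (l s : List ℕ) : List ℕ :=
  (List.range k).map fun i => Nat.pair (l.getD i 0) (s.getD i 0).unpair.1

/-- the second components -/
def exkS (k : ℕ) (s : List ℕ) : List ℕ := (List.range k).map fun i => (s.getD i 0).unpair.2

theorem exk_getD_res (z : ℕ → ℕ) {i n : ℕ} (h : i < n) : (res z n).getD i 0 = z i := by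
  rw [List.getD_eq_getElem?_getD, getElem?_res, if_pos h]
  rfl

theorem exkJ_res (z y : ℕ → ℕ) {k n m : ℕ} (h1 : k ≤ n) (h2 : k ≤ m) :
    exkJ k (res z n) (res y m) = res (join z fun i => (y i).unpair.1) k := by
  unfold exkJ
  rw [show res (join z fun i => (y i).unpair.1) k =
    (List.range k).map (join z fun i => (y i).unpair.1) from rfl]
  refine List.map_congr_left fun i hi => ?_
  rw [List.mem_range] at hi
  rw [exk_getD_res z (by omega), exk_getD_res y (by omega)]
  rfl

theorem exkS_res (y : ℕ → ℕ) {k m : ℕ} (h2 : k ≤ m) :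
    exkS k (res y m) = res (fun i => (y i).unpair.2) k := by
  unfold exkS
  rw [show res (fun i => (y i).unpair.2) k = (List.range k).map (fun i => (y i).unpair.2) from rfl]
  refine List.map_congr_left fun i hi => ?_
  rw [List.mem_range] at hi
  rw [exk_getD_res y (by omega)]

theorem exkJ_primrec {α : Type} [Primcodable α] {f : α → ℕ} {g h : α → List ℕ} (hf : Primrec f)
    (hg : Primrec g) (hh : Primrec h) : Primrec fun a => exkJ (f a) (g a) (h a) := by
  unfold exkJ
  refine Primrec.list_map (Primrec.list_range.comp hf) ?_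
  refine Primrec₂.natPair.comp ?_ ?_
  · exact (Primrec.list_getD 0).comp (hg.comp Primrec.fst) Primrec.snd
  · exact Primrec.fst.comp (Primrec.unpair.comp
      ((Primrec.list_getD 0).comp (hh.comp Primrec.fst) Primrec.snd))

theorem exkS_primrec {α : Type} [Primcodable α] {f : α → ℕ} {h : α → List ℕ} (hf : Primrec f)
    (hh : Primrec h) : Primrec fun a => exkS (f a) (h a) := by
  unfold exkS
  refine Primrec.list_map (Primrec.list_range.comp hf) ?_
  exact Primrec.snd.comp (Primrec.unpair.comp
      ((Primrec.list_getD 0).comp (hh.comp Primrec.fst) Primrec.snd))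

/-! ### The relation -/

/-- unsecured sequences -/
def exkK (Q : List ℕ × ℕ × List ℕ → Prop) (l : List ℕ) (i j : ℕ) : Prop :=
  (Denumerable.ofNat (List ℕ) j).length = (Denumerable.ofNat (List ℕ) i).length + 1 ∧
  (Denumerable.ofNat (List ℕ) j).take (Denumerable.ofNat (List ℕ) i).length =
    Denumerable.ofNat (List ℕ) i ∧
  (Denumerable.ofNat (List ℕ) j).length ≤ l.length ∧
  ∀ k < (Denumerable.ofNat (List ℕ) j).length + 1,
    ¬ Q (exkJ k l (Denumerable.ofNat (List ℕ) j), 0, exkS k (Denumerable.ofNat (List ℕ) j))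

theorem exkK_prim {Q : List ℕ × ℕ × List ℕ → Prop} (hQ : PrimrecPred Q) : PrimK (exkK Q) := by
  have hof : Primrec (Denumerable.ofNat (List ℕ)) := Primrec.ofNat (List ℕ)
  have hj : Primrec fun p : List ℕ × ℕ × ℕ => Denumerable.ofNat (List ℕ) p.2.2 :=
    hof.comp (Primrec.snd.comp Primrec.snd)
  have hi : Primrec fun p : List ℕ × ℕ × ℕ => Denumerable.ofNat (List ℕ) p.2.1 :=
    hof.comp (Primrec.fst.comp Primrec.snd)
  have hlj := Primrec.list_length.comp hj
  have hli := Primrec.list_length.comp hi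
  unfold PrimK exkK
  refine PrimrecPred.and (Primrec.eq.comp hlj (Primrec.succ.comp hli)) (PrimrecPred.and
    (Primrec.eq.comp (Primrec.list_take.comp hli hj) hi) (PrimrecPred.and
    (Primrec.nat_le.comp hlj (Primrec.list_length.comp Primrec.fst)) ?_))
  have h1 : PrimrecRel fun (k : ℕ) (p : List ℕ × ℕ × ℕ) =>
      ¬ Q (exkJ k p.1 (Denumerable.ofNat (List ℕ) p.2.2), 0,
        exkS k (Denumerable.ofNat (List ℕ) p.2.2)) := by
    refine PrimrecPred.not (hQ.comp (f := fun q : ℕ × List ℕ × ℕ × ℕ =>
      (exkJ q.1 q.2.1 (Denumerable.ofNat (List ℕ) q.2.2.2), 0,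
        exkS q.1 (Denumerable.ofNat (List ℕ) q.2.2.2))) ?_)
    refine Primrec.pair ?_ (Primrec.pair (Primrec.const 0) ?_)
    · exact exkJ_primrec Primrec.fst (Primrec.fst.comp Primrec.snd) (hj.comp Primrec.snd)
    · exact exkS_primrec Primrec.fst (hj.comp Primrec.snd)
  have h2 := h1.forall_mem_list
  have h3 := PrimrecPred.comp (f := fun p : List ℕ × ℕ × ℕ =>
    (List.range ((Denumerable.ofNat (List ℕ) p.2.2).length + 1), p)) h2
    (Primrec.pair (Primrec.list_range.comp (Primrec.succ.comp hlj)) Primrec.id)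
  exact h3.of_eq fun p => by simp only [List.mem_range]

theorem bk_iff_no_descent_aux {K : List ℕ → ℕ → ℕ → Prop} {a : ℕ → ℕ} :
    Bk K a ↔ ∀ v : ℕ → ℕ, ¬ ∀ n, ∃ m, K (res a m) (v n) (v (n + 1)) := by
  constructor
  · rintro ⟨h, hh⟩ v hv
    have hdec : ∀ n, h (v (n + 1)) < h (v n) := by
      intro n
      obtain ⟨m, hm⟩ := hv n
      exact hh m _ _ hm
    exact (RelEmbedding.natGT (fun n => h (v n)) hdec).not_wellFounded (wellFounded_lt)
  · intro hv
    let R : ℕ → ℕ → Prop := fun j i => ∃ m, K (res a m) i j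
    have hwf : WellFounded R := by
      rw [wellFounded_iff_isEmpty_descending_chain]
      exact ⟨fun ⟨e, hstep⟩ => hv e hstep⟩
    have : IsWellFounded ℕ R := ⟨hwf⟩
    refine ⟨fun i => IsWellFounded.rank R i, fun n i j hK => ?_⟩
    apply IsWellFounded.rank_lt_of_rel
    exact ⟨n, hK⟩

theorem exkK_bk {Q : List ℕ × ℕ × List ℕ → Prop} {z : ℕ → ℕ} :
    Bk (exkK Q) z ↔ ∀ u v : ℕ → ℕ, ∃ k, Q (res (join z u) k, 0, res v k) := by
  rw [bk_iff_no_descent_aux]
  constructor
  · intro h u v
    by_contra hno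
    push Not at hno
    set y : ℕ → ℕ := fun i => Nat.pair (u i) (v i) with hy
    refine h (fun n => encode (res y n)) fun n => ⟨n + 1, ?_⟩
    unfold exkK
    simp only [Denumerable.ofNat_encode, length_res, le_refl, true_and]
    refine ⟨?_, fun k hk => ?_⟩
    · refine List.ext_getElem? fun m => ?_
      rw [List.getElem?_take, getElem?_res, getElem?_res]
      split_ifs <;> first | rfl | omega
    · rw [exkJ_res z y (by omega) (by omega), exkS_res y (by omega)]
      have e1 : (fun i => (y i).unpair.1) = u := by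
        funext i
        simp [hy]
      have e2 : (fun i => (y i).unpair.2) = v := by
        funext i
        simp [hy]
      rw [e1, e2]
      exact hno k
  · intro h w hw
    choose m hm using hw
    -- the sequence of lists
    set e : ℕ → List ℕ := fun n => Denumerable.ofNat (List ℕ) (w n) with he
    have hstep : ∀ n, (e (n + 1)).length = (e n).length + 1 ∧
        (e (n + 1)).take (e n).length = e n ∧ (e (n + 1)).length ≤ m n ∧
        ∀ k < (e (n + 1)).length + 1, ¬ Q (exkJ k (res z (m n)) (e (n + 1)), 0,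
          exkS k (e (n + 1))) := by
      intro n
      have h1 := hm n
      unfold exkK at h1
      rw [length_res] at h1
      exact h1
    have hlen : ∀ k, k ≤ (e k).length := by
      intro k
      induction k with
      | zero => omega
      | succ k ih => have := (hstep k).1; omega
    have hpre : ∀ k, Pre (e k) (e (k + 1)) := by
      intro k i x hx
      have hi : i < (e k).length := (List.getElem?_eq_some_iff.1 hx).1
      rw [← (hstep k).2.1, List.getElem?_take, if_pos hi] at hx
      exact hx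
    obtain ⟨y, hy⟩ := exists_limit e hpre hlen
    obtain ⟨k, hk⟩ := h (fun i => (y i).unpair.1) (fun i => (y i).unpair.2)
    have hlk := hlen (k + 1)
    refine (hstep k).2.2.2 k (by omega) ?_
    have h3 := (hstep k).2.2.1
    rw [hy (k + 1), exkJ_res z y (by omega) (by omega), exkS_res y (by omega)]
    exact hk

/-- Sets given by a universal quantifier over reals and an arithmetical matrix. -/
theorem exists_K {P : (ℕ → ℕ) → Prop} (hP : Ar (fun z (_ : ℕ) => P z)) :
    ∃ K, PrimK K ∧ ∀ z, Bk K z ↔ ∀ u, P (join z u) := by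
  obtain ⟨P0, hP0, h0⟩ := hP
  obtain ⟨Q, hQ, hQ'⟩ := hP0.nf.1
  refine ⟨exkK Q, exkK_prim hQ, fun z => ?_⟩
  rw [exkK_bk]
  refine forall_congr' fun u => ?_
  exact (hQ' (join z u) 0).symm.trans (h0 (join z u) 0).symm

/-- `Bk K` in terms of descending sequences. -/
theorem bk_iff_no_descent {K : List ℕ → ℕ → ℕ → Prop} {a : ℕ → ℕ} :
    Bk K a ↔ ∀ v : ℕ → ℕ, ¬ ∀ n, ∃ m, K (res a m) (v n) (v (n + 1)) :=
  bk_iff_no_descent_aux

theorem exk_res_iff (z : ℕ → ℕ) (l : List ℕ) :
    (∀ i : ℕ, ¬ (l[i.unpair.1]? = some i.unpair.2 ∧ ¬ z i.unpair.1 = i.unpair.2)) ↔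
      l = res z l.length := by
  constructor
  · intro h
    refine List.ext_getElem? fun m => ?_
    rw [getElem?_res]
    split_ifs with hm
    · have h1 := h (Nat.pair m l[m])
      simp only [Nat.unpair_pair, not_and, not_not] at h1
      rw [h1 (List.getElem?_eq_getElem hm)]
      exact List.getElem?_eq_getElem hm
    · exact List.getElem?_eq_none (by omega)
  · rintro h i ⟨h1, h2⟩
    rw [h, getElem?_res_eq_some] at h1
    exact h2 h1.2

/-- A primitive recursive family of relations is arithmetical at a real. -/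
theorem ar_rel {K : List ℕ → ℕ → ℕ → Prop} (hK : PrimK K) :
    Ar (fun z (p : ℕ × ℕ) => ∃ n, K (res z n) p.1 p.2) := by
  have hof : Primrec (Denumerable.ofNat (List ℕ)) := Primrec.ofNat (List ℕ)
  have f1 : Primrec fun n : ℕ => n.unpair.1 := Primrec.fst.comp Primrec.unpair
  have f2 : Primrec fun n : ℕ => n.unpair.2 := Primrec.snd.comp Primrec.unpair
  have d1 : PrimrecPred fun n : ℕ =>
      (Denumerable.ofNat (List ℕ) n.unpair.1.unpair.2)[n.unpair.2.unpair.1]? =
        some n.unpair.2.unpair.2 :=
    Primrec.eq.comp (Primrec.list_getElem?.comp (hof.comp (f2.comp f1)) (f1.comp f2))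
      (Primrec.option_some.comp (f2.comp f2))
  have d2 : PrimrecPred fun n : ℕ =>
      K (Denumerable.ofNat (List ℕ) n.unpair.2) n.unpair.1.unpair.1 n.unpair.1.unpair.2 :=
    PrimrecPred.comp (f := fun n : ℕ => ((Denumerable.ofNat (List ℕ) n.unpair.2,
      n.unpair.1.unpair.1, n.unpair.1.unpair.2) : List ℕ × ℕ × ℕ)) hK
      (Primrec.pair (hof.comp f2) (Primrec.pair (f1.comp f1) (f2.comp f1)))
  have a1 := (Ar0.all ((Ar0.dec d1).and (Ar0.comp f2 Ar0.orc).not).not).and (Ar0.dec d2)
  refine ⟨_, (Ar0.all a1.not).not, fun z p => ?_⟩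
  obtain ⟨i, j⟩ := p
  simp only [encode_prod_val, encode_nat, Nat.unpair_pair, not_forall, not_not]
  constructor
  · rintro ⟨n, hn⟩
    refine ⟨encode (res z n), ?_⟩
    rw [Denumerable.ofNat_encode]
    refine ⟨fun m => ?_, hn⟩
    exact (exk_res_iff z (res z n)).2 (by rw [length_res]) m
  · rintro ⟨c, h1, h2⟩
    refine ⟨(Denumerable.ofNat (List ℕ) c).length, ?_⟩
    rw [← (exk_res_iff z (Denumerable.ofNat (List ℕ) c)).1 h1]
    exact h2

end Pool.Agent.H76.TH
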