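import Pool.Agent.H76.TH.KonA
import Pool.Agent.H76.TH.ArC
import Pool.Agent.H76.TH.ExK

/-!
Project THIN, module KonB: Kondo's uniformization theorem for the sets `Bk K`.
First make `K` topped: `K₁ l i j := (i = 0 ∧ 1 ≤ j) ∨ (1 ≤ i ∧ 1 ≤ j ∧ K l (i-1) (j-1))`; `Bk K₁ a ↔ Bk K a`.
Then `KMin K₁ x w` is of the form `∀ u, arithmetical (join (join x w) u)`: `u` codes a descending
sequence (for `Bk`, by `bk_iff_no_descent`), `join x w'`, and all the functions `B` of the definition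
of `Le` (finitely many for each `i ≤ n`, coded by pairing). Use the calculus `ArC` and `exists_K`.
-/

set_option autoImplicit false

open Encodable Pool.Agent.H75.EK

namespace Pool.Agent.H76.TH

/-- The topped relation. -/
def KonB.topK (K : List ℕ → ℕ → ℕ → Prop) (l : List ℕ) (i j : ℕ) : Prop :=
  (i = 0 ∧ 1 ≤ j) ∨ (1 ≤ i ∧ 1 ≤ j ∧ K l (i - 1) (j - 1))

theorem KonB.primK_topK {K : List ℕ → ℕ → ℕ → Prop} (hK : PrimK K) : PrimK (KonB.topK K) := by
  unfold PrimK at *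
  unfold KonB.topK
  have hl : Primrec (fun p : List ℕ × ℕ × ℕ => p.1) := Primrec.fst
  have hi : Primrec (fun p : List ℕ × ℕ × ℕ => p.2.1) := Primrec.fst.comp Primrec.snd
  have hj : Primrec (fun p : List ℕ × ℕ × ℕ => p.2.2) := Primrec.snd.comp Primrec.snd
  have hi1 : Primrec (fun p : List ℕ × ℕ × ℕ => p.2.1 - 1) := Primrec.nat_sub.comp hi (Primrec.const 1)
  have hj1 : Primrec (fun p : List ℕ × ℕ × ℕ => p.2.2 - 1) := Primrec.nat_sub.comp hj (Primrec.const 1)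
  have h0 : PrimrecPred (fun p : List ℕ × ℕ × ℕ => p.2.1 = 0) :=
    Primrec.eq.comp hi (Primrec.const 0)
  have h1 : PrimrecPred (fun p : List ℕ × ℕ × ℕ => 1 ≤ p.2.2) :=
    Primrec.nat_le.comp (Primrec.const 1) hj
  have h2 : PrimrecPred (fun p : List ℕ × ℕ × ℕ => 1 ≤ p.2.1) :=
    Primrec.nat_le.comp (Primrec.const 1) hi
  have h3 : PrimrecPred (fun p : List ℕ × ℕ × ℕ => K p.1 (p.2.1 - 1) (p.2.2 - 1)) :=
    hK.comp (hl.pair (hi1.pair hj1))
  exact (h0.and h1).or (h2.and (h1.and h3))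

theorem KonB.bk_topK {K : List ℕ → ℕ → ℕ → Prop} {a : ℕ → ℕ} : Bk (KonB.topK K) a ↔ Bk K a := by
  constructor
  · rintro ⟨h, hh⟩
    refine ⟨fun i => h (i + 1), fun n i j hij => ?_⟩
    exact hh n (i + 1) (j + 1) (Or.inr ⟨by omega, by omega, by simpa using hij⟩)
  · rintro ⟨h, hh⟩
    refine ⟨fun i => if i = 0 then ⨆ k : ℕ, (h k + 1) else h (i - 1), fun n i j hij => ?_⟩
    rcases hij with ⟨rfl, hj⟩ | ⟨hi, hj, hK⟩
    · have hj0 : j ≠ 0 := by omega
      simp only [if_true, if_neg hj0]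
      exact lt_of_lt_of_le (by simp)
        (Ordinal.le_iSup (fun k : ℕ => h k + 1) (j - 1))
    · have hj0 : j ≠ 0 := by omega
      have hi0 : i ≠ 0 := by omega
      simp only [if_neg hi0, if_neg hj0]
      exact hh n _ _ hK

theorem KonB.topK_top {K : List ℕ → ℕ → ℕ → Prop} (a : ℕ → ℕ) (j : ℕ) (hj : 1 ≤ j) :
    Rl (KonB.topK K) a 0 j := ⟨0, Or.inl ⟨rfl, hj⟩⟩

/-- `B` is a simulation witnessing `Le`. -/
def KonB.wit (X Y : ℕ → ℕ → Prop) (B : ℕ → ℕ) (i j : ℕ) : Prop :=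
  B (Nat.pair i j) = 1 ∧
    ∀ m m' n, B (Nat.pair m m') = 1 → X m n → ∃ n', Y m' n' ∧ B (Nat.pair n n') = 1

theorem KonB.le_iff {K : List ℕ → ℕ → ℕ → Prop} {a b : ℕ → ℕ} {i j : ℕ} :
    Le K a i b j ↔ ∃ B, KonB.wit (Rl K a) (Rl K b) B i j := Iff.rfl

/-- The functions coded in the real `z = join c u`. -/
def KonB.uu (z : ℕ → ℕ) (t c m : ℕ) : ℕ := (z (Nat.pair t (Nat.pair c m))).unpair.2

theorem KonB.ar_uu (t : ℕ) {α : Type} [Primcodable α] {P : α → ℕ → Prop}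
    (hP : PrimrecPred (fun p : α × ℕ => P p.1 p.2)) {f g : α → ℕ} (hf : Primrec f) (hg : Primrec g) :
    Ar (fun z a => P a (KonB.uu z t (f a) (g a))) := by
  have h1 : PrimrecPred (fun p : α × ℕ => P p.1 p.2.unpair.2) :=
    hP.comp (Primrec.fst.pair (Primrec.snd.comp (Primrec.unpair.comp Primrec.snd)))
  exact Ar.val (P := fun z a v => P a v.unpair.2) (Ar.dec h1)
    (Primrec₂.natPair.comp (Primrec.const t) (Primrec₂.natPair.comp hf hg))

theorem KonB.ar_wit {X Y : (ℕ → ℕ) → ℕ → ℕ → Prop} (hX : Ar (fun z (p : ℕ × ℕ) => X z p.1 p.2))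
    (hY : Ar (fun z (p : ℕ × ℕ) => Y z p.1 p.2)) (t : ℕ) :
    Ar (fun z (p : ℕ × ℕ × ℕ) => KonB.wit (X z) (Y z) (KonB.uu z t p.1) p.2.1 p.2.2) := by
  have hB : Ar (fun z (q : ℕ × ℕ) => KonB.uu z t q.1 q.2 = 1) :=
    KonB.ar_uu t (P := fun _ v => v = 1) (Primrec.eq.comp Primrec.snd (Primrec.const 1))
      Primrec.fst Primrec.snd
  unfold KonB.wit
  refine Ar.and ?_ ?_
  · exact hB.comp (f := fun p : ℕ × ℕ × ℕ => (p.1, Nat.pair p.2.1 p.2.2))
      (Primrec.fst.pair (Primrec₂.natPair.comp (Primrec.fst.comp Primrec.snd)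
        (Primrec.snd.comp Primrec.snd)))
  · refine Ar.all (β := ℕ) (P := fun z (p : ℕ × ℕ × ℕ) m => ∀ m' n,
      KonB.uu z t p.1 (Nat.pair m m') = 1 → X z m n → ∃ n', Y z m' n' ∧
        KonB.uu z t p.1 (Nat.pair n n') = 1) ?_
    refine Ar.all (β := ℕ) (P := fun z (p : (ℕ × ℕ × ℕ) × ℕ) m' => ∀ n,
      KonB.uu z t p.1.1 (Nat.pair p.2 m') = 1 → X z p.2 n → ∃ n', Y z m' n' ∧
        KonB.uu z t p.1.1 (Nat.pair n n') = 1) ?_
    refine Ar.all (β := ℕ) (P := fun z (p : ((ℕ × ℕ × ℕ) × ℕ) × ℕ) n =>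
      KonB.uu z t p.1.1.1 (Nat.pair p.1.2 p.2) = 1 → X z p.1.2 n → ∃ n', Y z p.2 n' ∧
        KonB.uu z t p.1.1.1 (Nat.pair n n') = 1) ?_
    refine Ar.imp ?_ (Ar.imp ?_ ?_)
    · exact hB.comp (f := fun q : (((ℕ × ℕ × ℕ) × ℕ) × ℕ) × ℕ => (q.1.1.1.1, Nat.pair q.1.1.2 q.1.2))
        (by
          refine Primrec.pair ?_ (Primrec₂.natPair.comp ?_ ?_)
          · exact Primrec.fst.comp (Primrec.fst.comp (Primrec.fst.comp Primrec.fst))
          · exact Primrec.snd.comp (Primrec.fst.comp Primrec.fst)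
          · exact Primrec.snd.comp Primrec.fst)
    · exact hX.comp (f := fun q : (((ℕ × ℕ × ℕ) × ℕ) × ℕ) × ℕ => (q.1.1.2, q.2))
        (Primrec.pair (Primrec.snd.comp (Primrec.fst.comp Primrec.fst)) Primrec.snd)
    · refine Ar.ex (β := ℕ) (P := fun z (q : (((ℕ × ℕ × ℕ) × ℕ) × ℕ) × ℕ) n' => Y z q.1.2 n' ∧
        KonB.uu z t q.1.1.1.1 (Nat.pair q.2 n') = 1) ?_
      refine Ar.and ?_ ?_
      · exact hY.comp (f := fun q : ((((ℕ × ℕ × ℕ) × ℕ) × ℕ) × ℕ) × ℕ => (q.1.1.2, q.2))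
          (Primrec.pair (Primrec.snd.comp (Primrec.fst.comp Primrec.fst)) Primrec.snd)
      · exact hB.comp (f := fun q : ((((ℕ × ℕ × ℕ) × ℕ) × ℕ) × ℕ) × ℕ =>
          (q.1.1.1.1.1, Nat.pair q.1.2 q.2))
          (by
            refine Primrec.pair ?_ (Primrec₂.natPair.comp ?_ ?_)
            · exact Primrec.fst.comp (Primrec.fst.comp (Primrec.fst.comp
                (Primrec.fst.comp Primrec.fst)))
            · exact Primrec.snd.comp Primrec.fst
            · exact Primrec.snd)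

/-- The real `c` in `z = join c u`. -/
def KonB.cc (z : ℕ → ℕ) (i : ℕ) : ℕ := (z i).unpair.1

/-- The competitor `join x w'` coded in `u`. -/
def KonB.dd (z : ℕ → ℕ) (i : ℕ) : ℕ := KonB.uu z 0 0 i

/-- The arithmetical matrix of `KMin`. -/
def KonB.mat (K : List ℕ → ℕ → ℕ → Prop) (z : ℕ → ℕ) : Prop :=
  (¬ ∀ n, Rl K (KonB.cc z) (KonB.uu z 4 0 n) (KonB.uu z 4 0 (n + 1))) ∧
  ((∀ i, (KonB.dd z i).unpair.1 = (KonB.cc z i).unpair.1) → ∀ n,
    (∀ i, i < n → (KonB.dd z i).unpair.2 = (KonB.cc z i).unpair.2 ∧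
      KonB.wit (Rl K (KonB.dd z)) (Rl K (KonB.cc z)) (KonB.uu z 1 i) i i ∧
      KonB.wit (Rl K (KonB.cc z)) (Rl K (KonB.dd z)) (KonB.uu z 2 i) i i) →
    (¬ ∃ j', Rl K (KonB.cc z) n j' ∧
      KonB.wit (Rl K (KonB.dd z)) (Rl K (KonB.cc z)) (KonB.uu z 3 0) n j') ∧
    ¬ (KonB.wit (Rl K (KonB.dd z)) (Rl K (KonB.cc z)) (KonB.uu z 1 n) n n ∧
      KonB.wit (Rl K (KonB.cc z)) (Rl K (KonB.dd z)) (KonB.uu z 2 n) n n ∧
      (KonB.dd z n).unpair.2 < (KonB.cc z n).unpair.2))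

theorem KonB.kMin_iff {K : List ℕ → ℕ → ℕ → Prop} {x w : ℕ → ℕ} :
    KMin K x w ↔ ∀ u, KonB.mat K (join (join x w) u) := by
  have hcc : ∀ u, KonB.cc (join (join x w) u) = join x w := fun u => by
    funext i; simp [KonB.cc, join]
  have huu : ∀ u t c m, KonB.uu (join (join x w) u) t c m = u (Nat.pair t (Nat.pair c m)) :=
    fun u t c m => by simp [KonB.uu, join]
  constructor
  · rintro ⟨h1, h2⟩ u
    refine ⟨?_, fun hd n hn => ?_⟩
    · rw [hcc]
      exact bk_iff_no_descent.1 h1 (fun n => KonB.uu (join (join x w) u) 4 0 n)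
    · rw [hcc] at hd hn ⊢
      set D := KonB.dd (join (join x w) u) with hD
      have hDj : D = join x (fun i => (D i).unpair.2) := by
        funext i
        have := hd i
        simp only [join, Nat.unpair_pair] at this ⊢
        rw [← this, Nat.pair_unpair]
      have hn' : ∀ i < n, (D i).unpair.2 = w i ∧ Le K (join x (fun i => (D i).unpair.2)) i (join x w) i ∧
          Le K (join x w) i (join x (fun i => (D i).unpair.2)) i := by
        intro i hi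
        obtain ⟨e1, e2, e3⟩ := hn i hi
        rw [← hDj]
        exact ⟨by simpa [join] using e1, ⟨_, e2⟩, ⟨_, e3⟩⟩
      obtain ⟨g1, g2⟩ := h2 (fun i => (D i).unpair.2) n hn'
      rw [← hDj] at g1 g2
      refine ⟨?_, ?_⟩
      · rintro ⟨j', hj, hw⟩
        exact g1 ⟨j', hj, _, hw⟩
      · rintro ⟨e1, e2, e3⟩
        exact g2 ⟨⟨_, e1⟩, ⟨_, e2⟩, by simpa [join] using e3⟩
  · intro h
    refine ⟨?_, fun w' n hn => ?_⟩
    · refine bk_iff_no_descent.2 fun v hv => ?_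
      have h1 := (h (fun k => v k.unpair.2.unpair.2)).1
      rw [hcc] at h1
      apply h1
      intro n
      rw [huu, huu]
      simpa [Rl] using hv n
    · have key : ∀ B3 : ℕ → ℕ, ∀ B1 B2 : ℕ → ℕ → ℕ,
          (∀ i, i < n → KonB.wit (Rl K (join x w')) (Rl K (join x w)) (B1 i) i i ∧
            KonB.wit (Rl K (join x w)) (Rl K (join x w')) (B2 i) i i) →
          (¬ ∃ j', Rl K (join x w) n j' ∧
            KonB.wit (Rl K (join x w')) (Rl K (join x w)) B3 n j') ∧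
          ¬ (KonB.wit (Rl K (join x w')) (Rl K (join x w)) (B1 n) n n ∧
            KonB.wit (Rl K (join x w)) (Rl K (join x w')) (B2 n) n n ∧ w' n < w n) := by
        intro B3 B1 B2 hB
        let u : ℕ → ℕ := fun k =>
          if k.unpair.1 = 0 then join x w' k.unpair.2.unpair.2
          else if k.unpair.1 = 1 then B1 k.unpair.2.unpair.1 k.unpair.2.unpair.2
          else if k.unpair.1 = 2 then B2 k.unpair.2.unpair.1 k.unpair.2.unpair.2
          else B3 k.unpair.2.unpair.2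
        have u0 : KonB.dd (join (join x w) u) = join x w' := by
          funext i; rw [KonB.dd, huu]; simp [u]
        have u1 : ∀ i, KonB.uu (join (join x w) u) 1 i = B1 i := fun i => by
          funext m; rw [huu]; simp [u]
        have u2 : ∀ i, KonB.uu (join (join x w) u) 2 i = B2 i := fun i => by
          funext m; rw [huu]; simp [u]
        have u3 : KonB.uu (join (join x w) u) 3 0 = B3 := by
          funext m; rw [huu]; simp [u]
        have h2 := (h u).2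
        rw [hcc, u0, u3] at h2
        have h3 := h2 (fun i => by simp [join]) n (fun i hi => by
          rw [u1, u2]
          exact ⟨by simpa [join] using (hn i hi).1, (hB i hi).1, (hB i hi).2⟩)
        rw [u1, u2] at h3
        simpa [join] using h3
      choose B1 hB1 B2 hB2 using fun (i : ℕ) (hi : i < n) =>
        (show ∃ B1, KonB.wit (Rl K (join x w')) (Rl K (join x w)) B1 i i ∧
          ∃ B2, KonB.wit (Rl K (join x w)) (Rl K (join x w')) B2 i i from by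
          obtain ⟨-, ⟨b1, h1⟩, ⟨b2, h2⟩⟩ := hn i hi
          exact ⟨b1, h1, b2, h2⟩)
      classical
      refine ⟨?_, ?_⟩
      · rintro ⟨j', hj, B3, hB3⟩
        refine (key B3 (fun i => if hi : i < n then B1 i hi else B3)
          (fun i => if hi : i < n then B2 i hi else B3) ?_).1 ⟨j', hj, hB3⟩
        intro i hi
        simp only [dif_pos hi]
        exact ⟨hB1 i hi, hB2 i hi⟩
      · rintro ⟨⟨b1, hb1⟩, ⟨b2, hb2⟩, hlt⟩
        refine (key b1 (fun i => if hi : i < n then B1 i hi else b1)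
          (fun i => if hi : i < n then B2 i hi else b2) ?_).2 ⟨?_, ?_, hlt⟩
        · intro i hi
          simp only [dif_pos hi]
          exact ⟨hB1 i hi, hB2 i hi⟩
        · simp only [dif_neg (lt_irrefl n)]
          exact hb1
        · simp only [dif_neg (lt_irrefl n)]
          exact hb2

theorem KonB.ar_mat {K : List ℕ → ℕ → ℕ → Prop} (hK : PrimK K) :
    Ar (fun z (_ : ℕ) => KonB.mat K z) := by
  have hC : Ar (fun z (p : ℕ × ℕ) => Rl K (KonB.cc z) p.1 p.2) :=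
    Ar.subst (ar_rel hK) (f := fun q : (ℕ × ℕ) × ℕ => q.2)
      (g := fun q : ((ℕ × ℕ) × ℕ) × ℕ => q.2.unpair.1) (h := fun p : ℕ × ℕ => p) Primrec.snd
      (Primrec.fst.comp (Primrec.unpair.comp Primrec.snd)) Primrec.id
  have hD : Ar (fun z (p : ℕ × ℕ) => Rl K (KonB.dd z) p.1 p.2) :=
    Ar.subst (ar_rel hK) (f := fun q : (ℕ × ℕ) × ℕ => Nat.pair 0 (Nat.pair 0 q.2))
      (g := fun q : ((ℕ × ℕ) × ℕ) × ℕ => q.2.unpair.2) (h := fun p : ℕ × ℕ => p)
      (Primrec₂.natPair.comp (Primrec.const 0) (Primrec₂.natPair.comp (Primrec.const 0) Primrec.snd))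
      (Primrec.snd.comp (Primrec.unpair.comp Primrec.snd)) Primrec.id
  have hDC : ∀ t, Ar (fun z (p : ℕ × ℕ × ℕ) =>
      KonB.wit (Rl K (KonB.dd z)) (Rl K (KonB.cc z)) (KonB.uu z t p.1) p.2.1 p.2.2) :=
    fun t => KonB.ar_wit hD hC t
  have hCD : ∀ t, Ar (fun z (p : ℕ × ℕ × ℕ) =>
      KonB.wit (Rl K (KonB.cc z)) (Rl K (KonB.dd z)) (KonB.uu z t p.1) p.2.1 p.2.2) :=
    fun t => KonB.ar_wit hC hD t
  -- comparison of the values
  have hval : ∀ P : ℕ → ℕ → Prop, PrimrecPred (fun p : ℕ × ℕ => P p.1 p.2) →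
      Ar (fun z (i : ℕ) => P (KonB.dd z i) (KonB.cc z i)) := by
    intro P hP
    have h1 : Ar (fun z (q : ℕ × ℕ) => P (KonB.dd z q.1) q.2.unpair.1) :=
      KonB.ar_uu 0 (α := ℕ × ℕ) (P := fun q v => P v q.2.unpair.1)
        (hP.comp (Primrec.pair Primrec.snd
          (Primrec.fst.comp (Primrec.unpair.comp (Primrec.snd.comp Primrec.fst)))))
        (Primrec.const 0) Primrec.fst
    exact Ar.val (P := fun z i v => P (KonB.dd z i) v.unpair.1) h1 Primrec.id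
  have hv1 : Ar (fun z (i : ℕ) => (KonB.dd z i).unpair.1 = (KonB.cc z i).unpair.1) :=
    hval (fun a b => a.unpair.1 = b.unpair.1) (Primrec.eq.comp
      (Primrec.fst.comp (Primrec.unpair.comp Primrec.fst))
      (Primrec.fst.comp (Primrec.unpair.comp Primrec.snd)))
  have hv2 : Ar (fun z (i : ℕ) => (KonB.dd z i).unpair.2 = (KonB.cc z i).unpair.2) :=
    hval (fun a b => a.unpair.2 = b.unpair.2) (Primrec.eq.comp
      (Primrec.snd.comp (Primrec.unpair.comp Primrec.fst))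
      (Primrec.snd.comp (Primrec.unpair.comp Primrec.snd)))
  have hv3 : Ar (fun z (i : ℕ) => (KonB.dd z i).unpair.2 < (KonB.cc z i).unpair.2) :=
    hval (fun a b => a.unpair.2 < b.unpair.2) (Primrec.nat_lt.comp
      (Primrec.snd.comp (Primrec.unpair.comp Primrec.fst))
      (Primrec.snd.comp (Primrec.unpair.comp Primrec.snd)))
  have hfst : Primrec (fun q : ℕ × ℕ => q.1) := Primrec.fst
  have hsnd : Primrec (fun q : ℕ × ℕ => q.2) := Primrec.snd
  unfold KonB.mat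
  refine Ar.and (Ar.not ?_) (Ar.imp ?_ ?_)
  · -- the descending sequence
    refine Ar.all (β := ℕ) (P := fun z (_ : ℕ) n =>
      Rl K (KonB.cc z) (KonB.uu z 4 0 n) (KonB.uu z 4 0 (n + 1))) ?_
    have h1 : Ar (fun z (q : (ℕ × ℕ) × ℕ) => Rl K (KonB.cc z) q.2.unpair.2 q.1.2) :=
      hC.comp (f := fun q : (ℕ × ℕ) × ℕ => (q.2.unpair.2, q.1.2))
        (Primrec.pair (Primrec.snd.comp (Primrec.unpair.comp Primrec.snd))
          (Primrec.snd.comp Primrec.fst))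
    have h2 : Ar (fun z (q : ℕ × ℕ) => Rl K (KonB.cc z) (KonB.uu z 4 0 q.1) q.2) :=
      Ar.val (P := fun z (q : ℕ × ℕ) v => Rl K (KonB.cc z) v.unpair.2 q.2) h1
        (f := fun q : ℕ × ℕ => Nat.pair 4 (Nat.pair 0 q.1))
        (Primrec₂.natPair.comp (Primrec.const 4) (Primrec₂.natPair.comp (Primrec.const 0) hfst))
    have h3 : Ar (fun z (q : ℕ × ℕ) => Rl K (KonB.cc z) (KonB.uu z 4 0 q.1) q.2.unpair.2) :=
      h2.comp (f := fun q : ℕ × ℕ => (q.1, q.2.unpair.2))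
        (Primrec.pair hfst (Primrec.snd.comp (Primrec.unpair.comp hsnd)))
    have h4 : Ar (fun z (n : ℕ) => Rl K (KonB.cc z) (KonB.uu z 4 0 n) (KonB.uu z 4 0 (n + 1))) :=
      Ar.val (P := fun z (n : ℕ) v => Rl K (KonB.cc z) (KonB.uu z 4 0 n) v.unpair.2) h3
        (f := fun n : ℕ => Nat.pair 4 (Nat.pair 0 (n + 1)))
        (Primrec₂.natPair.comp (Primrec.const 4) (Primrec₂.natPair.comp (Primrec.const 0)
          Primrec.succ))
    exact h4.comp (f := fun q : ℕ × ℕ => q.2) hsnd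
  · exact Ar.all (β := ℕ) (P := fun z (_ : ℕ) i =>
      (KonB.dd z i).unpair.1 = (KonB.cc z i).unpair.1) (hv1.comp (f := fun q : ℕ × ℕ => q.2) hsnd)
  · refine Ar.all (β := ℕ) (P := fun z (_ : ℕ) n =>
      (∀ i, i < n → (KonB.dd z i).unpair.2 = (KonB.cc z i).unpair.2 ∧
      KonB.wit (Rl K (KonB.dd z)) (Rl K (KonB.cc z)) (KonB.uu z 1 i) i i ∧
      KonB.wit (Rl K (KonB.cc z)) (Rl K (KonB.dd z)) (KonB.uu z 2 i) i i) →
    (¬ ∃ j', Rl K (KonB.cc z) n j' ∧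
      KonB.wit (Rl K (KonB.dd z)) (Rl K (KonB.cc z)) (KonB.uu z 3 0) n j') ∧
    ¬ (KonB.wit (Rl K (KonB.dd z)) (Rl K (KonB.cc z)) (KonB.uu z 1 n) n n ∧
      KonB.wit (Rl K (KonB.cc z)) (Rl K (KonB.dd z)) (KonB.uu z 2 n) n n ∧
      (KonB.dd z n).unpair.2 < (KonB.cc z n).unpair.2)) ?_
    refine Ar.imp ?_ (Ar.and (Ar.not ?_) (Ar.not (Ar.and ?_ (Ar.and ?_ ?_))))
    · refine Ar.all (β := ℕ) (P := fun z (q : ℕ × ℕ) i => i < q.2 →
        (KonB.dd z i).unpair.2 = (KonB.cc z i).unpair.2 ∧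
        KonB.wit (Rl K (KonB.dd z)) (Rl K (KonB.cc z)) (KonB.uu z 1 i) i i ∧
        KonB.wit (Rl K (KonB.cc z)) (Rl K (KonB.dd z)) (KonB.uu z 2 i) i i) ?_
      refine Ar.imp ?_ (Ar.and ?_ (Ar.and ?_ ?_))
      · exact Ar.dec (Primrec.nat_lt.comp Primrec.snd (Primrec.snd.comp Primrec.fst))
      · exact hv2.comp (f := fun q : (ℕ × ℕ) × ℕ => q.2) Primrec.snd
      · exact (hDC 1).comp (f := fun q : (ℕ × ℕ) × ℕ => (q.2, q.2, q.2))
          (Primrec.snd.pair (Primrec.snd.pair Primrec.snd))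
      · exact (hCD 2).comp (f := fun q : (ℕ × ℕ) × ℕ => (q.2, q.2, q.2))
          (Primrec.snd.pair (Primrec.snd.pair Primrec.snd))
    · refine Ar.ex (β := ℕ) (P := fun z (q : ℕ × ℕ) j' => Rl K (KonB.cc z) q.2 j' ∧
        KonB.wit (Rl K (KonB.dd z)) (Rl K (KonB.cc z)) (KonB.uu z 3 0) q.2 j') ?_
      refine Ar.and ?_ ?_
      · exact hC.comp (f := fun q : (ℕ × ℕ) × ℕ => (q.1.2, q.2))
          ((Primrec.snd.comp Primrec.fst).pair Primrec.snd)
      · exact (hDC 3).comp (f := fun q : (ℕ × ℕ) × ℕ => (0, q.1.2, q.2))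
          ((Primrec.const 0).pair ((Primrec.snd.comp Primrec.fst).pair Primrec.snd))
    · exact (hDC 1).comp (f := fun q : ℕ × ℕ => (q.2, q.2, q.2)) (hsnd.pair (hsnd.pair hsnd))
    · exact (hCD 2).comp (f := fun q : ℕ × ℕ => (q.2, q.2, q.2)) (hsnd.pair (hsnd.pair hsnd))
    · exact hv3.comp (f := fun q : ℕ × ℕ => q.2) hsnd

theorem kondo {K : List ℕ → ℕ → ℕ → Prop} (hK : PrimK K) : ∃ K', PrimK K' ∧
    (∀ x w, Bk K' (join x w) → Bk K (join x w)) ∧
    (∀ x, (∃ w, Bk K (join x w)) → ∃ w, Bk K' (join x w)) ∧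
    ∀ x w w', Bk K' (join x w) → Bk K' (join x w') → w = w' := by
  obtain ⟨K', hK', h⟩ := exists_K (KonB.ar_mat (KonB.primK_topK hK))
  have h1 : ∀ x w, Bk K' (join x w) ↔ KMin (KonB.topK K) x w := fun x w => by
    rw [h, KonB.kMin_iff]
  refine ⟨K', hK', ?_, ?_, ?_⟩
  · intro x w hw
    exact KonB.bk_topK.1 ((h1 x w).1 hw).1
  · rintro x ⟨w, hw⟩
    obtain ⟨w', hw'⟩ := exists_kMin (K := KonB.topK K) KonB.topK_top (x := x)
      ⟨w, KonB.bk_topK.2 hw⟩
    exact ⟨w', (h1 x w').2 hw'⟩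
  · intro x w w' hw hw'
    exact kMin_unique KonB.topK_top ((h1 x w).1 hw) ((h1 x w').1 hw')

end Pool.Agent.H76.TH
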