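import Pool.Agent.H76.TH.MPass

/-!
Project THIN, module Mach: sets `Bk K` are semidecidable (up to padding of the input).
Let `D 0 = ∅`, `D (ξ + 1) = pass (D ξ)`, `D ζ = ⋃ D ξ` at limits. Every `D ξ` consists of accessible points of
the relation `∃ n, Kt K (res a n) i j`, and if `i` has all its successors in `D ξ` then `i ∈ D (ξ + 1)`; so
`0 ∈ D ξ` for some `ξ` iff `0` is accessible iff `Bk K a` (`0` is above everything). If so, take the least
`ξ` with `0 ∈ D (ξ + 1)`: the machine reaches address `aE + 1` with `D (ξ + 1)` (`Seg.loop` with `h = 1`,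
`hi = aE + 2`, `M t ↔ t = 1`, up to `ξ`, then `Lay.pass`) and halts at address `aE + 4`. If not, `Seg.forever`
with `h = 1`. If the input is not `0` outside the multiples of `d`, the machine runs forever in the
trap at `aE + 2` (`Seg.forever` with `h = aE + 2`, `M = ∅`, constant tracks `0`).
-/

set_option autoImplicit false

open Encodable Pool.Agent.H75.EK Pool.Agent.H76.ITTM Ordinal Function

namespace Pool.Agent.H76.TH

section sets

variable (K : List ℕ → ℕ → ℕ → Prop) (a : ℕ → ℕ)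

open Classical in
/-- The set of the machine after `ξ` passes. -/
noncomputable def Mach_D (ξ : Ordinal.{0}) : ℕ → Bool :=
  Ordinal.limitRecOn ξ (fun _ => false) (fun _ D => TH.pass K a D)
    (fun ζ _ D => fun i => decide (∃ ξ, ∃ h : ξ < ζ, D ξ h i = true))

theorem Mach_D_zero : Mach_D K a 0 = fun _ => false := by
  unfold Mach_D
  rw [Ordinal.limitRecOn_zero]

theorem Mach_D_succ (ξ : Ordinal.{0}) : Mach_D K a (ξ + 1) = TH.pass K a (Mach_D K a ξ) := by
  unfold Mach_D
  rw [Ordinal.limitRecOn_add_one]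

theorem Mach_D_limit {ζ : Ordinal.{0}} (hζ : Order.IsSuccLimit ζ) (i : ℕ) :
    Mach_D K a ζ i = true ↔ ∃ ξ, ξ < ζ ∧ Mach_D K a ξ i = true := by
  unfold Mach_D
  rw [Ordinal.limitRecOn_limit _ _ _ _ hζ]
  simp

theorem Mach_pas_mono (D : ℕ → Bool) {n m : ℕ} (h : n ≤ m) (i : ℕ) (hi : pas K a D n i = true) :
    pas K a D m i = true := by
  induction m, h using Nat.le_induction with
  | base => exact hi
  | succ m _ ih =>
    unfold pas
    split_ifs with h1
    · exact ih
    · by_cases h2 : i = m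
      · subst h2
        exact update_self _ _ _
      · rw [update_of_ne h2]
        exact ih

theorem Mach_pass_iff (D : ℕ → Bool) (i : ℕ) :
    TH.pass K a D i = true ↔ ∃ n, pas K a D n i = true := by
  unfold TH.pass
  simp

theorem Mach_pass_ge (D : ℕ → Bool) (i : ℕ) (hi : D i = true) : TH.pass K a D i = true :=
  (Mach_pass_iff K a D i).2 ⟨0, hi⟩

theorem Mach_D_mono {ξ η : Ordinal.{0}} (h : ξ ≤ η) (i : ℕ) (hi : Mach_D K a ξ i = true) :
    Mach_D K a η i = true := by
  induction η using Ordinal.limitRecOn with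
  | zero =>
    rw [nonpos_iff_eq_zero] at h
    rw [h] at hi
    exact hi
  | add_one η ih =>
    rcases h.eq_or_lt with h1 | h1
    · rw [← h1]
      exact hi
    · rw [Mach_D_succ]
      rw [← Order.succ_eq_add_one] at h1
      exact Mach_pass_ge K a _ _ (ih (Order.lt_succ_iff.1 h1))
  | limit η hη ih =>
    rcases h.eq_or_lt with h1 | h1
    · rw [← h1]
      exact hi
    · exact (Mach_D_limit K a hη i).2 ⟨ξ, h1, hi⟩

/-- The relation. -/
def Mach_S (j i : ℕ) : Prop := ∃ n, Kt K (res a n) i j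

theorem Mach_bad {D : ℕ → Bool} {i : ℕ} (h : ¬ ∃ m, Bad K a D i m) (j : ℕ) (hj : Mach_S K a j i) :
    D j = true := by
  obtain ⟨n, hn⟩ := hj
  by_contra hD
  refine h ⟨Nat.pair j n, ?_⟩
  unfold Bad
  rw [Nat.unpair_pair]
  exact ⟨hn, by simpa using hD⟩

theorem Mach_pas_acc {D : ℕ → Bool} (hD : ∀ i, D i = true → Acc (Mach_S K a) i) (n : ℕ) :
    ∀ i, pas K a D n i = true → Acc (Mach_S K a) i := by
  induction n with
  | zero => exact hD
  | succ n ih =>
    intro i hi
    unfold pas at hi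
    split_ifs at hi with h1
    · exact ih i hi
    · by_cases h2 : i = n
      · subst h2
        exact Acc.intro _ fun j hj => ih j (Mach_bad K a h1 j hj)
      · rw [update_of_ne h2] at hi
        exact ih i hi

theorem Mach_D_acc (ξ : Ordinal.{0}) : ∀ i, Mach_D K a ξ i = true → Acc (Mach_S K a) i := by
  induction ξ using Ordinal.limitRecOn with
  | zero =>
    intro i hi
    rw [Mach_D_zero] at hi
    exact absurd hi (by simp)
  | add_one ξ ih =>
    intro i hi
    rw [Mach_D_succ] at hi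
    obtain ⟨n, hn⟩ := (Mach_pass_iff K a _ i).1 hi
    exact Mach_pas_acc K a ih n i hn
  | limit ζ hζ ih =>
    intro i hi
    obtain ⟨ξ, h1, h2⟩ := (Mach_D_limit K a hζ i).1 hi
    exact ih ξ h1 i h2

theorem Mach_pass_succ {D : ℕ → Bool} {i : ℕ} (h : ∀ j, Mach_S K a j i → D j = true) :
    TH.pass K a D i = true := by
  refine (Mach_pass_iff K a D i).2 ⟨i + 1, ?_⟩
  unfold pas
  rw [if_neg]
  · exact update_self _ _ _
  · rintro ⟨m, h1, h2⟩
    have h3 := h m.unpair.1 ⟨_, h1⟩
    have h4 := Mach_pas_mono K a D (Nat.zero_le i) m.unpair.1 h3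
    rw [h4] at h2
    exact absurd h2 (by simp)

theorem Mach_D_of_acc {i : ℕ} (h : Acc (Mach_S K a) i) : ∃ ξ, Mach_D K a ξ i = true := by
  induction h with
  | intro i _ ih =>
    classical
    let f : ℕ → Ordinal.{0} := fun j => if hj : Mach_S K a j i then (ih j hj).choose else 0
    refine ⟨(⨆ j, f j) + 1, ?_⟩
    rw [Mach_D_succ]
    refine Mach_pass_succ K a fun j hj => ?_
    refine Mach_D_mono K a (Ordinal.le_iSup f j) j ?_
    have : f j = (ih j hj).choose := dif_pos hj
    rw [this]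
    exact (ih j hj).choose_spec

theorem Mach_acc_iff : Acc (Mach_S K a) 0 ↔ Bk K a := by
  constructor
  · intro h
    have hacc : ∀ i : ℕ, Acc (Mach_S K a) (i + 1) := fun i =>
      h.inv ⟨0, Or.inl ⟨rfl, by omega⟩⟩
    refine ⟨fun i => (hacc i).rank, fun n i j hK => ?_⟩
    refine Acc.rank_lt_of_rel (hacc i) ?_
    exact ⟨n, Or.inr ⟨by omega, by omega, by simpa using hK⟩⟩
  · rintro ⟨h, hh⟩
    have hacc : ∀ i : ℕ, Acc (Mach_S K a) (i + 1) := by
      intro i
      have key : ∀ o : Ordinal.{0}, ∀ i, h i = o → Acc (Mach_S K a) (i + 1) := by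
        intro o
        induction o using WellFoundedLT.induction with
        | ind o ih =>
          intro i hi
          refine Acc.intro _ fun j hj => ?_
          obtain ⟨n, hn⟩ := hj
          rcases hn with ⟨h1, _⟩ | ⟨_, h2, h3⟩
          · omega
          · obtain ⟨j', rfl⟩ : ∃ j', j = j' + 1 := ⟨j - 1, by omega⟩
            rw [Nat.add_sub_cancel, Nat.add_sub_cancel] at h3
            exact ih (h j') (hi ▸ hh n i j' h3) j' rfl
      exact key _ i rfl
    refine Acc.intro _ fun j hj => ?_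
    obtain ⟨n, hn⟩ := hj
    rcases hn with ⟨_, h1⟩ | ⟨h1, _, _⟩
    · obtain ⟨j', rfl⟩ : ∃ j', j = j' + 1 := ⟨j - 1, by omega⟩
      exact hacc j'
    · omega

end sets

/-! ### The machine -/

section machine

variable {K : List ℕ → ℕ → ℕ → Prop} (l : Lay K) (x : ℕ → Bool)

/-- The tracks after `ξ` passes. -/
noncomputable def Mach_T (ξ : Ordinal.{0}) : ℕ → ℕ → Bool :=
  trk (Mach_D K (rd l.d x) ξ) False (th 0) (th 0)

theorem Mach_th0 : th 0 = fun _ => false := by
  funext p
  simp [th]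

theorem Mach_T_one (ξ : Ordinal.{0}) : Mach_T l x ξ 1 = Mach_D K (rd l.d x) ξ := by
  simp [Mach_T, trk]

theorem Mach_T_ne (ξ : Ordinal.{0}) (t : ℕ) (ht : t ≠ 1) (p : ℕ) : Mach_T l x ξ t p = false := by
  unfold Mach_T trk
  rw [if_neg ht]
  split_ifs with h1 h2
  · exact h2.elim
  · simp [th]
  · simp [th]
  · simp [th]
  · simp [th]

theorem Mach_T_zero : mem l.d (Mach_T l x 0) = fun _ => false := by
  funext q
  unfold mem
  by_cases h : q % l.d = 1
  · rw [h, Mach_T_one, Mach_D_zero]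
  · exact Mach_T_ne l x 0 _ h _

theorem Mach_start : At l.d l.code x 0 0 (mem l.d (Mach_T l x 0)) := by
  rw [Mach_T_zero]
  exact at_zero (by have := l.hd; omega)

theorem Mach_bodyseg (ξ : Ordinal.{0}) : Seg l.d l.code x 1 (l.aE + 1)
      (fun V => ∀ t, t = 1 → t < l.d → ∀ p, (Mach_T l x ξ t p = true → V t p = true) ∧
        (V t p = true → Mach_T l x (ξ + 1) t p = true)) 2 (Mach_T l x ξ) (l.aE + 1)
      (Mach_T l x (ξ + 1)) := by
  have h := l.pass x (Mach_D K (rd l.d x) ξ)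
  have h1 : trk (TH.pass K (rd l.d x) (Mach_D K (rd l.d x) ξ)) False (th 0) (th 0) =
      Mach_T l x (ξ + 1) := by
    unfold Mach_T
    rw [Mach_D_succ]
  rw [h1] at h
  refine h.mono le_rfl le_rfl ?_
  intro V hV t ht _ p
  subst ht
  rw [Mach_T_one, Mach_T_one, Mach_D_succ]
  exact hV p

theorem Mach_test (ξ : Ordinal.{0}) {J : (ℕ → ℕ → Bool) → Prop} (hJ : J (Mach_T l x ξ)) :
    Seg l.d l.code x 1 (l.aE + 2) J (l.aE + 1) (Mach_T l x ξ)
      (if Mach_D K (rd l.d x) ξ 0 = true then l.aE + 4 else 1) (Mach_T l x ξ) := by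
  have hd := l.hd
  have h := Seg.one (lo := 1) (hi := l.aE + 2) (J := J) (d := l.d) (code := l.code) (x := x)
    (T := Mach_T l x ξ) (T' := Mach_T l x ξ) (by omega) l.cE1
    (tz_sw (d := l.d) (x := x) (T := Mach_T l x ξ) (r := 1) (by omega) 1 (l.aE + 4))
    (by split_ifs <;> omega) (by omega) (by omega) hJ
  rw [Mach_T_one] at h
  by_cases h1 : Mach_D K (rd l.d x) ξ 0 = true
  · rw [if_pos h1] at h ⊢
    exact h
  · rw [if_neg h1] at h ⊢
    exact h

theorem Mach_round (ξ : Ordinal.{0}) (h0 : Mach_D K (rd l.d x) (ξ + 1) 0 = false) :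
    Seg l.d l.code x 1 (l.aE + 2)
      (fun V => ∀ t, t = 1 → t < l.d → ∀ p, (Mach_T l x ξ t p = true → V t p = true) ∧
        (V t p = true → Mach_T l x (ξ + 1) t p = true)) (1 + 1) (Mach_T l x ξ) 1
      (Mach_T l x (ξ + 1)) := by
  refine ((Mach_bodyseg l x ξ).mono le_rfl (by omega) fun _ h => h).trans ?_
  have h := Mach_test l x (ξ + 1) (J := fun V => ∀ t, t = 1 → t < l.d → ∀ p,
    (Mach_T l x ξ t p = true → V t p = true) ∧
      (V t p = true → Mach_T l x (ξ + 1) t p = true)) ?_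
  · rw [h0] at h
    exact h
  · intro t ht _ p
    subst ht
    refine ⟨fun h => ?_, fun h => h⟩
    rw [Mach_T_one] at h ⊢
    rw [Mach_D_succ]
    exact Mach_pass_ge _ _ _ _ h

theorem Mach_at1 (hx : ∀ q, ¬ l.d ∣ q → x q = false) :
    At l.d l.code x 1 1 (mem l.d (Mach_T l x 0)) := by
  have hd := l.hd
  have h := at_succ (by omega) (Mach_start l x) l.c0 (by omega)
    (chk_sw_ok (by omega) hx 1 (l.aE + 2) (mem l.d (Mach_T l x 0)))
  rw [zero_add] at h
  exact h

theorem Mach_at2 (hx : ∀ q, ¬ l.d ∣ q → x q = false) :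
    At l.d l.code x (1 + 1) 2 (mem l.d (Mach_T l x 0)) := by
  have hd := l.hd
  exact at_succ (by omega) (Mach_at1 l x hx) l.c1 (by omega)
    (nop_sw (by omega) 2 (mem l.d (Mach_T l x 0)))

theorem Mach_lt_two {γ : Ordinal.{0}} (h : γ < 1 + 1) : γ = 0 ∨ γ = 1 := by
  have h1 : γ < Order.succ 1 := by
    rw [Order.succ_eq_add_one]
    exact h
  rw [Order.lt_succ_iff] at h1
  rcases h1.eq_or_lt with h2 | h2
  · exact Or.inr h2
  · exact Or.inl (Order.lt_one_iff.1 h2)

theorem Mach_good (hx : ∀ q, ¬ l.d ∣ q → x q = false) :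
    Halts (prog l.d l.code) x ↔ Acc (Mach_S K (rd l.d x)) 0 := by
  have hd := l.hd
  have hE := l.hE
  have ha := l.ha
  have hq := l.hq
  have hF := l.hF
  have hG := l.hG
  have hlen := l.len
  have hlim : ∀ ζ : Ordinal.{0}, Order.IsSuccLimit ζ → ∀ t, t = 1 → t < l.d →
      ∀ p, Mach_T l x ζ t p = true ↔ ∃ ξ, ξ < ζ ∧ Mach_T l x ξ t p = true := by
    intro ζ hζ t ht _ p
    subst ht
    simp_rw [Mach_T_one]
    exact Mach_D_limit _ _ hζ p
  constructor
  · intro hH
    by_contra hacc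
    have hno : ∀ ξ, Mach_D K (rd l.d x) ξ 0 = false := by
      intro ξ
      by_contra h
      exact hacc (Mach_D_acc _ _ ξ 0 (by simpa using h))
    refine Seg.forever (d := l.d) (code := l.code) (x := x) (by omega) (h := 1) (hi := l.aE + 2)
      l.c1 (by omega) (by omega) (fun t => t = 1) (Mach_T l x)
      (fun ξ => Mach_round l x ξ (hno _)) hlim
      (fun ξ t ht _ p => Mach_T_ne l x ξ t ht p) (Mach_at2 l x hx) ?_ hH
    intro γ hγ
    rcases Mach_lt_two hγ with rfl | rfl
    · exact ⟨_, _, Mach_start l x, by omega⟩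
    · exact ⟨_, _, Mach_at1 l x hx, by omega⟩
  · intro hacc
    obtain ⟨ξ', hξ'⟩ := Mach_D_of_acc K (rd l.d x) hacc
    have hex : ∃ ξ, Mach_D K (rd l.d x) (ξ + 1) 0 = true := by
      refine ⟨ξ', ?_⟩
      rw [Mach_D_succ]
      exact Mach_pass_ge _ _ _ _ hξ'
    obtain ⟨ξ, hξ, hmin⟩ := WellFounded.has_min (wellFounded_lt (α := Ordinal.{0}))
      {ξ | Mach_D K (rd l.d x) (ξ + 1) 0 = true} hex
    have hloop := Seg.loop (d := l.d) (code := l.code) (x := x) (by omega) (h := 1)
      (hi := l.aE + 2) l.c1 (by omega) (by omega) (fun t => t = 1) (Mach_T l x) ξ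
      (fun η hη => Mach_round l x η (by
        by_contra h
        exact hmin η (by simpa using h) hη))
      (fun ζ _ hζ => hlim ζ hζ) (fun η _ t ht _ p => Mach_T_ne l x η t ht p)
    obtain ⟨β1, _, h1, _⟩ := hloop _ (Mach_at2 l x hx)
    obtain ⟨β2, _, h2, _⟩ := Mach_bodyseg l x ξ β1 h1
    have htest := Mach_test l x (ξ + 1) (J := fun _ => True) trivial
    rw [if_pos (show Mach_D K (rd l.d x) (ξ + 1) 0 = true from hξ)] at htest
    obtain ⟨β3, _, h3, _⟩ := htest β2 h2
    exact ⟨_, at_halted h3 (by omega)⟩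

theorem Mach_bad_input (hx : ¬ ∀ q, ¬ l.d ∣ q → x q = false) : ¬ Halts (prog l.d l.code) x := by
  have hd := l.hd
  have hlen := l.len
  have h1 := at_succ (by omega) (Mach_start l x) l.c0 (by omega)
    (chk_sw_bad (by omega) hx 1 (l.aE + 2) (mem l.d (Mach_T l x 0)))
  rw [zero_add] at h1
  have h1' : At l.d l.code x 1 (l.aE + 2) (mem l.d (Mach_T l x 0)) := h1
  have h2 : At l.d l.code x (1 + 1) (l.aE + 2 + 1) (mem l.d (Mach_T l x 0)) :=
    at_succ (by omega) h1' l.cE2 (by omega) (nop_sw (by omega) _ _)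
  refine Seg.forever (d := l.d) (code := l.code) (x := x) (by omega) (h := l.aE + 2)
    (hi := l.aE + 4) l.cE2 (by omega) (by omega) (fun _ => False) (fun _ => Mach_T l x 0)
    ?_ (fun ζ _ t ht => ht.elim) ?_ h2 ?_
  · intro ξ
    exact Seg.one (by omega) l.cE3 (nop_sw (by omega) _ _) (by omega) (by omega) (by omega)
      (fun t ht => ht.elim)
  · intro ξ t _ _ p
    by_cases h : t = 1
    · subst h
      rw [Mach_T_one, Mach_D_zero]
    · exact Mach_T_ne l x 0 t h p
  · intro γ hγ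
    rcases Mach_lt_two hγ with rfl | rfl
    · exact ⟨_, _, Mach_start l x, by omega⟩
    · exact ⟨_, _, h1', by omega⟩

end machine

theorem semidecidable_of_bk {K : List ℕ → ℕ → ℕ → Prop} (hK : PrimK K) : ∃ d : ℕ, 1 ≤ d ∧
    Semidecidable {x : ℕ → Bool | (∀ q, ¬ d ∣ q → x q = false) ∧
      Bk K (fun i => (x (d * i)).toNat)} := by
  obtain ⟨l⟩ := exists_lay hK
  refine ⟨l.d, by have := l.hd; omega, prog l.d l.code, fun x => ?_⟩
  by_cases hx : ∀ q, ¬ l.d ∣ q → x q = false
  · rw [Mach_good l x hx, Mach_acc_iff]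
    exact ⟨fun h => ⟨hx, h⟩, fun h => h.2⟩
  · exact ⟨fun h => absurd h (Mach_bad_input l x hx), fun h => absurd h.1 hx⟩

end Pool.Agent.H76.TH
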