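import Pool.Agent.H76.TH.Hull

/-!
Project THIN, module MkW: the certificate as one real.
From `exists_cert` (module Hull, `X = {n | x n = true}`) define `w` by cases on `i.unpair.1`
(`0, 1, 2, 3`, classical decidability) so that `wlt w = lt`, `wE w = E`, `wN w = N`, `wS w = S`.
-/

set_option autoImplicit false

open Encodable Pool.Agent.H75.EK

namespace Pool.Agent.H76.TH

open Classical in
/-- four relations as one real -/
noncomputable def mkWReal (lt E N : ℕ → ℕ → Prop) (S : ℕ → ℕ → List ℕ → Prop) (i : ℕ) : ℕ :=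
  if (i.unpair.1 = 0 ∧ lt i.unpair.2.unpair.1 i.unpair.2.unpair.2) ∨
    (i.unpair.1 = 1 ∧ E i.unpair.2.unpair.1 i.unpair.2.unpair.2) ∨
    (i.unpair.1 = 2 ∧ N i.unpair.2.unpair.1 i.unpair.2.unpair.2) ∨
    (i.unpair.1 = 3 ∧ ∃ s : List ℕ, encode s = i.unpair.2.unpair.2.unpair.2 ∧
      S i.unpair.2.unpair.1 i.unpair.2.unpair.2.unpair.1 s) then 1 else 0

theorem mkWReal_eq_one (lt E N : ℕ → ℕ → Prop) (S : ℕ → ℕ → List ℕ → Prop) (i : ℕ) :
    mkWReal lt E N S i = 1 ↔ (i.unpair.1 = 0 ∧ lt i.unpair.2.unpair.1 i.unpair.2.unpair.2) ∨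
    (i.unpair.1 = 1 ∧ E i.unpair.2.unpair.1 i.unpair.2.unpair.2) ∨
    (i.unpair.1 = 2 ∧ N i.unpair.2.unpair.1 i.unpair.2.unpair.2) ∨
    (i.unpair.1 = 3 ∧ ∃ s : List ℕ, encode s = i.unpair.2.unpair.2.unpair.2 ∧
      S i.unpair.2.unpair.1 i.unpair.2.unpair.2.unpair.1 s) := by
  unfold mkWReal
  split_ifs with h
  · exact ⟨fun _ => h, fun _ => rfl⟩
  · exact ⟨fun h0 => absurd h0 (by norm_num), fun h0 => absurd h0 h⟩

theorem exists_wCert {x : ℕ → Bool} (h : Constr x) :
    ∃ w, WCert (toN x) w ∧ WellFounded (wlt w) := by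
  obtain ⟨lt, E, N, S, hwf, hC, t, h1, h2⟩ := exists_cert h
  have e1 : wlt (mkWReal lt E N S) = lt := by
    funext n m
    apply propext
    unfold wlt
    rw [mkWReal_eq_one]
    simp
  have e2 : wE (mkWReal lt E N S) = E := by
    funext n m
    apply propext
    unfold wE
    rw [mkWReal_eq_one]
    simp
  have e3 : wN (mkWReal lt E N S) = N := by
    funext n m
    apply propext
    unfold wN
    rw [mkWReal_eq_one]
    simp
  have e4 : wS (mkWReal lt E N S) = S := by
    funext m c s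
    apply propext
    unfold wS
    rw [mkWReal_eq_one]
    simp only [Nat.unpair_pair]
    constructor
    · rintro (h3 | h3 | h3 | h3)
      · exact absurd h3.1 (by norm_num)
      · exact absurd h3.1 (by norm_num)
      · exact absurd h3.1 (by norm_num)
      · obtain ⟨-, s', hs', h4⟩ := h3
        rwa [encode_injective hs'] at h4
    · intro h3
      exact Or.inr (Or.inr (Or.inr ⟨by trivial, s, rfl, h3⟩))
  refine ⟨mkWReal lt E N S, ⟨fun i => ?_, ?_, t, ?_⟩, ?_⟩
  · unfold mkWReal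
    split_ifs
    · exact le_rfl
    · exact Nat.zero_le _
  · rw [e1, e2, e3, e4]
    exact hC
  · rw [e2, e3]
    refine ⟨h1, fun k n hk => ?_⟩
    rw [h2 k n hk]
    unfold toN
    show x k = true ↔ (x k).toNat = 1
    cases x k <;> simp
  · rw [e1]
    exact hwf

end Pool.Agent.H76.TH
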