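import Pool.Agent.H76.TH.RunA
import Pool.Agent.H76.TH.ArC
import Pool.Agent.H76.TH.ExK

/-!
Project THIN, module RunB: the halting set of a program is `∃ w, Bk K (join x w)` with `K`
primitive recursive.
A run `(lt, c)` is coded by `w`: `w ⟨0, ⟨i, j⟩⟩ = 1` iff `lt i j`, `w ⟨1, i⟩` is the state and
`w ⟨2, i⟩` the head of `c i`, `w ⟨3, ⟨i, ⟨t, k⟩⟩⟩` the content of cell `k` of tape `t`. The conditions
of `IsRun` become arithmetical in `join x w` (use the calculus `ArC`; the transition table is a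
finite table, hence primitive recursive), well-foundedness is `∀ u, ∃ n, ¬ lt (u (n+1)) (u n)`.
Apply `exists_K` to `P (join (join x w) u) = (conditions) ∧ ∃ n, ¬ lt (u (n + 1)) (u n)`.
-/

set_option autoImplicit false

open Encodable Pool.Agent.H75.EK Pool.Agent.H76.ITTM

namespace Pool.Agent.H76.TH

section RunB

variable {α β γ δ : Type} [Primcodable α] [Primcodable β] [Primcodable γ] [Primcodable δ]

/-- Functions of a real with arithmetical graph. -/
def RunB_AF (F : (ℕ → ℕ) → α → β) : Prop := Ar (fun z (p : α × β) => F z p.1 = p.2)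

theorem RunB_compF {P : (ℕ → ℕ) → β → Prop} (hP : Ar P) {F : (ℕ → ℕ) → α → β} (hF : RunB_AF F) :
    Ar (fun z a => P z (F z a)) := by
  have h1 : Ar (fun z (p : α × β) => P z p.2) := hP.comp (f := fun p : α × β => p.2) Primrec.snd
  refine (Ar.ex (P := fun z a b => F z a = b ∧ P z b) (Ar.and hF h1)).congr fun z a => ?_
  constructor
  · rintro ⟨b, rfl, h⟩; exact h
  · intro h; exact ⟨_, rfl, h⟩

theorem RunB_AF.prim {f : α → β} (hf : Primrec f) : RunB_AF (fun _ a => f a) := by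
  classical
  exact Ar.dec (PrimrecRel.comp Primrec.eq (hf.comp Primrec.fst) Primrec.snd)

theorem RunB_AF.pre {F : (ℕ → ℕ) → α → β} (hF : RunB_AF F) {h : γ → α} (hh : Primrec h) :
    RunB_AF (fun z c => F z (h c)) :=
  Ar.comp hF (f := fun p : γ × β => (h p.1, p.2))
    (Primrec.pair (hh.comp Primrec.fst) Primrec.snd)

theorem RunB_AF.comp {G : (ℕ → ℕ) → β → γ} (hG : RunB_AF G) {F : (ℕ → ℕ) → α → β}
    (hF : RunB_AF F) : RunB_AF (fun z a => G z (F z a)) := by
  have h1 : Ar (fun z (q : (α × γ) × β) => F z q.1.1 = q.2) :=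
    Ar.comp hF (f := fun q : (α × γ) × β => (q.1.1, q.2))
      (Primrec.pair (Primrec.fst.comp Primrec.fst) Primrec.snd)
  have h2 : Ar (fun z (q : (α × γ) × β) => G z q.2 = q.1.2) :=
    Ar.comp hG (f := fun q : (α × γ) × β => (q.2, q.1.2))
      (Primrec.pair Primrec.snd (Primrec.snd.comp Primrec.fst))
  refine (Ar.ex (P := fun z (p : α × γ) b => F z p.1 = b ∧ G z b = p.2) (h1.and h2)).congr
    fun z p => ?_
  constructor
  · rintro ⟨b, rfl, h⟩; exact h
  · intro h; exact ⟨_, rfl, h⟩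

theorem RunB_AF.map {g : β → γ} (hg : Primrec g) {F : (ℕ → ℕ) → α → β}
    (hF : RunB_AF F) : RunB_AF (fun z a => g (F z a)) :=
  RunB_AF.comp (G := fun _ b => g b) (RunB_AF.prim hg) hF

theorem RunB_AF.pair {F : (ℕ → ℕ) → α → β} (hF : RunB_AF F) {G : (ℕ → ℕ) → α → γ}
    (hG : RunB_AF G) : RunB_AF (fun z a => (F z a, G z a)) := by
  have h1 : Ar (fun z (q : α × β × γ) => F z q.1 = q.2.1) :=
    Ar.comp hF (f := fun q : α × β × γ => (q.1, q.2.1))
      (Primrec.pair Primrec.fst (Primrec.fst.comp Primrec.snd))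
  have h2 : Ar (fun z (q : α × β × γ) => G z q.1 = q.2.2) :=
    Ar.comp hG (f := fun q : α × β × γ => (q.1, q.2.2))
      (Primrec.pair Primrec.fst (Primrec.snd.comp Primrec.snd))
  exact (h1.and h2).congr fun z q => by rw [Prod.ext_iff]

theorem RunB_AF.eq {F G : (ℕ → ℕ) → α → β} (hF : RunB_AF F) (hG : RunB_AF G) :
    Ar (fun z a => F z a = G z a) := by
  classical
  have h : Ar (fun _ (p : β × β) => p.1 = p.2) := Ar.dec Primrec.eq
  exact RunB_compF h (hF.pair hG)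

/-- The values of the real. -/
theorem RunB_AF.value : RunB_AF (fun z (n : ℕ) => z n) := by
  have h : Ar (fun _ (p : (ℕ × ℕ) × ℕ) => p.2 = p.1.2) :=
    Ar.dec (PrimrecRel.comp Primrec.eq Primrec.snd (Primrec.snd.comp Primrec.fst))
  exact Ar.val (P := fun _ (p : ℕ × ℕ) v => v = p.2) h Primrec.fst

theorem RunB_AF.val {F : (ℕ → ℕ) → α → ℕ} (hF : RunB_AF F) : RunB_AF (fun z a => z (F z a)) :=
  RunB_AF.value.comp hF

/-! ### The coded run -/

/-- The input. -/
def RunB_x (z : ℕ → ℕ) (n : ℕ) : Bool := decide ((z n).unpair.1 = 1)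

/-- The code of the run. -/
def RunB_w (z : ℕ → ℕ) (n : ℕ) : ℕ := (z n).unpair.2

/-- The order. -/
def RunB_lt (z : ℕ → ℕ) (i j : ℕ) : Prop := RunB_w z (Nat.pair 0 (Nat.pair i j)) = 1

/-- The state. -/
def RunB_S (p : Program) (z : ℕ → ℕ) (i : ℕ) : Fin (p.n + 1) :=
  ⟨min (RunB_w z (Nat.pair 1 i)) p.n, by omega⟩

/-- The head. -/
def RunB_H (z : ℕ → ℕ) (i : ℕ) : ℕ := RunB_w z (Nat.pair 2 i)

/-- The cells. -/
def RunB_C (z : ℕ → ℕ) (q : (Fin 3 × ℕ) × ℕ) : Bool :=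
  decide (RunB_w z (Nat.pair 3 (Nat.pair q.2 (Nat.pair q.1.1 q.1.2))) = 1)

/-- The symbols under the head. -/
def RunB_R (z : ℕ → ℕ) (i : ℕ) : Fin 3 → Bool := fun t => RunB_C z ((t, RunB_H z i), i)

/-- The configurations. -/
def RunB_c (p : Program) (z : ℕ → ℕ) (i : ℕ) : Config p :=
  ⟨RunB_S p z i, RunB_H z i, fun t k => RunB_C z ((t, k), i)⟩

theorem RunB_af_x : RunB_AF RunB_x := by
  refine RunB_AF.map (g := fun v : ℕ => decide (v.unpair.1 = 1)) ?_ RunB_AF.value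
  exact PrimrecPred.decide (PrimrecRel.comp Primrec.eq (Primrec.fst.comp Primrec.unpair)
    (Primrec.const 1))

theorem RunB_af_w : RunB_AF RunB_w :=
  RunB_AF.map (g := fun v : ℕ => v.unpair.2) (Primrec.snd.comp Primrec.unpair) RunB_AF.value

theorem RunB_ar_lt : Ar (fun z (q : ℕ × ℕ) => RunB_lt z q.1 q.2) := by
  have h1 : Primrec (fun q : ℕ × ℕ => Nat.pair 0 (Nat.pair q.1 q.2)) :=
    Primrec₂.natPair.comp (Primrec.const 0) (Primrec₂.natPair.comp Primrec.fst Primrec.snd)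
  exact RunB_AF.eq (RunB_af_w.pre h1) (RunB_AF.prim (f := fun _ : ℕ × ℕ => 1) (Primrec.const 1))

theorem RunB_ar_lt' {f g : α → ℕ} (hf : Primrec f) (hg : Primrec g) :
    Ar (fun z a => RunB_lt z (f a) (g a)) :=
  Ar.comp RunB_ar_lt (f := fun a => (f a, g a)) (Primrec.pair hf hg)

theorem RunB_af_S (p : Program) : RunB_AF (RunB_S p) := by
  have h1 : Primrec (fun i : ℕ => Nat.pair 1 i) :=
    Primrec₂.natPair.comp (Primrec.const 1) Primrec.id
  refine RunB_AF.map (g := fun v : ℕ => (⟨min v p.n, by omega⟩ : Fin (p.n + 1))) ?_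
    (RunB_af_w.pre h1)
  rw [← Primrec.fin_val_iff]
  exact Primrec.nat_min.comp Primrec.id (Primrec.const p.n)

theorem RunB_af_H : RunB_AF RunB_H :=
  RunB_af_w.pre (h := fun i : ℕ => Nat.pair 2 i)
    (Primrec₂.natPair.comp (Primrec.const 2) Primrec.id)

theorem RunB_af_C : RunB_AF RunB_C := by
  have h1 : Primrec (fun q : (Fin 3 × ℕ) × ℕ =>
      Nat.pair 3 (Nat.pair q.2 (Nat.pair (q.1.1 : ℕ) q.1.2))) :=
    Primrec₂.natPair.comp (Primrec.const 3) (Primrec₂.natPair.comp Primrec.snd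
      (Primrec₂.natPair.comp (Primrec.fin_val_iff.2 (Primrec.fst.comp Primrec.fst))
        (Primrec.snd.comp Primrec.fst)))
  refine RunB_AF.map (g := fun v : ℕ => decide (v = 1)) ?_ (RunB_af_w.pre h1)
  exact PrimrecPred.decide (PrimrecRel.comp Primrec.eq Primrec.id (Primrec.const 1))

theorem RunB_af_R : RunB_AF RunB_R := by
  have h1 : RunB_AF (fun z (q : (ℕ × (Fin 3 → Bool)) × Fin 3) =>
      RunB_C z ((q.2, RunB_H z q.1.1), q.1.1)) := by
    refine RunB_af_C.comp (((RunB_AF.prim Primrec.snd).pair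
      (RunB_af_H.pre (Primrec.fst.comp Primrec.fst))).pair
        (RunB_AF.prim (Primrec.fst.comp Primrec.fst)))
  have h2 : RunB_AF (fun _ (q : (ℕ × (Fin 3 → Bool)) × Fin 3) => q.1.2 q.2) :=
    RunB_AF.prim (Primrec.fin_app.comp (Primrec.snd.comp Primrec.fst) Primrec.snd)
  refine (Ar.all (P := fun z (p : ℕ × (Fin 3 → Bool)) t =>
    RunB_C z ((t, RunB_H z p.1), p.1) = p.2 t) (h1.eq h2)).congr fun z q => ?_
  rw [funext_iff]
  rfl

/-! ### The step -/

/-- The new state. -/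
def RunB_nS (p : Program) (q : Fin (p.n + 1) × (Fin 3 → Bool)) : Fin (p.n + 1) :=
  match p.trans q.1 q.2 with
  | none => q.1
  | some (s, _, _) => s

/-- The direction. -/
def RunB_nD (p : Program) (q : Fin (p.n + 1) × (Fin 3 → Bool)) : Fin 3 :=
  match p.trans q.1 q.2 with
  | none => 0
  | some (_, _, true) => 1
  | some (_, _, false) => 2

/-- The symbol that is written. -/
def RunB_nW (p : Program) (q : (Fin (p.n + 1) × (Fin 3 → Bool)) × Fin 3) : Option Bool :=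
  match p.trans q.1.1 q.1.2 with
  | none => none
  | some (_, w, _) => some (w q.2)

/-- The new head position. -/
def RunB_nH (q : Fin 3 × ℕ) : ℕ := if q.1 = 0 then q.2 else if q.1 = 1 then q.2 + 1 else q.2 - 1

/-- The new content of a cell. -/
def RunB_nC (q : (Option Bool × Bool) × (ℕ × ℕ)) : Bool :=
  if q.2.1 = q.2.2 then q.1.1.getD q.1.2 else q.1.2

theorem RunB_prim_nH : Primrec RunB_nH := by
  unfold RunB_nH
  refine Primrec.ite (PrimrecRel.comp Primrec.eq Primrec.fst (Primrec.const 0)) Primrec.snd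
    (Primrec.ite (PrimrecRel.comp Primrec.eq Primrec.fst (Primrec.const 1))
      (Primrec.succ.comp Primrec.snd) (Primrec.pred.comp Primrec.snd))

theorem RunB_prim_nC : Primrec RunB_nC := by
  unfold RunB_nC
  refine Primrec.ite (PrimrecRel.comp Primrec.eq (Primrec.fst.comp Primrec.snd)
    (Primrec.snd.comp Primrec.snd)) (Primrec.option_getD.comp (Primrec.fst.comp Primrec.fst)
      (Primrec.snd.comp Primrec.fst)) (Primrec.snd.comp Primrec.fst)

theorem RunB_nS_none {p : Program} {s : Fin (p.n + 1)} {r : Fin 3 → Bool} (h : p.trans s r = none) :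
    RunB_nS p (s, r) = s := by simp [RunB_nS, h]

theorem RunB_nD_none {p : Program} {s : Fin (p.n + 1)} {r : Fin 3 → Bool} (h : p.trans s r = none) :
    RunB_nD p (s, r) = 0 := by simp [RunB_nD, h]

theorem RunB_nW_none {p : Program} {s : Fin (p.n + 1)} {r : Fin 3 → Bool} (h : p.trans s r = none)
    (t : Fin 3) : RunB_nW p ((s, r), t) = none := by simp [RunB_nW, h]

theorem RunB_nS_some {p : Program} {s : Fin (p.n + 1)} {r : Fin 3 → Bool} {q : Fin (p.n + 1)}
    {w : Fin 3 → Bool} {right : Bool} (h : p.trans s r = some (q, w, right)) :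
    RunB_nS p (s, r) = q := by simp [RunB_nS, h]

theorem RunB_nH_some {p : Program} {s : Fin (p.n + 1)} {r : Fin 3 → Bool} {q : Fin (p.n + 1)}
    {w : Fin 3 → Bool} {right : Bool} (h : p.trans s r = some (q, w, right)) (m : ℕ) :
    RunB_nH (RunB_nD p (s, r), m) = if right then m + 1 else m - 1 := by
  cases right <;> simp [RunB_nD, RunB_nH, h]

theorem RunB_nW_some {p : Program} {s : Fin (p.n + 1)} {r : Fin 3 → Bool} {q : Fin (p.n + 1)}
    {w : Fin 3 → Bool} {right : Bool} (h : p.trans s r = some (q, w, right)) (t : Fin 3) :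
    RunB_nW p ((s, r), t) = some (w t) := by simp [RunB_nW, h]

theorem RunB_step_iff (p : Program) (z : ℕ → ℕ) (i j : ℕ) :
    RunB_c p z j = (RunB_c p z i).step ↔
      RunB_S p z j = RunB_nS p (RunB_S p z i, RunB_R z i) ∧
      RunB_H z j = RunB_nH (RunB_nD p (RunB_S p z i, RunB_R z i), RunB_H z i) ∧
      ∀ t : Fin 3, ∀ k : ℕ, RunB_C z ((t, k), j) =
        RunB_nC ((RunB_nW p ((RunB_S p z i, RunB_R z i), t), RunB_C z ((t, k), i)),
          (k, RunB_H z i)) := by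
  have hread : (RunB_c p z i).read = RunB_R z i := rfl
  have hst : (RunB_c p z i).state = RunB_S p z i := rfl
  have hhd : (RunB_c p z i).head = RunB_H z i := rfl
  rcases h : p.trans (RunB_S p z i) (RunB_R z i) with _ | ⟨q, w, right⟩
  · have hstep : (RunB_c p z i).step = RunB_c p z i := by
      unfold Config.step
      rw [hread, hst, h]
    rw [hstep, RunB_nS_none h, RunB_nD_none h]
    simp only [RunB_nW_none h, RunB_nH, RunB_nC, if_true, Option.getD_none, ite_self]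
    constructor
    · intro h1
      exact ⟨congrArg Config.state h1, congrArg Config.head h1, fun t k =>
        congrFun (congrFun (congrArg Config.cell h1) t) k⟩
    · rintro ⟨h2, h3, h4⟩
      unfold RunB_c
      rw [h2, h3]
      congr 1
      funext t k
      exact h4 t k
  · have hstep : (RunB_c p z i).step = ⟨q, if right then RunB_H z i + 1 else RunB_H z i - 1,
        fun t => Function.update (fun k => RunB_C z ((t, k), i)) (RunB_H z i) (w t)⟩ := by
      unfold Config.step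
      rw [hread, hst, h]
      rfl
    rw [hstep, RunB_nS_some h, RunB_nH_some h]
    simp only [RunB_nW_some h, RunB_nC, Option.getD_some]
    constructor
    · intro h1
      refine ⟨congrArg Config.state h1, congrArg Config.head h1, fun t k => ?_⟩
      have h5 := congrFun (congrFun (congrArg Config.cell h1) t) k
      simp only [Function.update_apply] at h5
      exact h5
    · rintro ⟨h2, h3, h4⟩
      unfold RunB_c
      rw [h2, h3]
      congr 1
      funext t k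
      rw [h4 t k, Function.update_apply]

theorem RunB_ar_step (p : Program) :
    Ar (fun z (q : ℕ × ℕ) => RunB_c p z q.2 = (RunB_c p z q.1).step) := by
  have hSi : RunB_AF (fun z (q : ℕ × ℕ) => (RunB_S p z q.1, RunB_R z q.1)) :=
    ((RunB_af_S p).pre Primrec.fst).pair (RunB_af_R.pre Primrec.fst)
  have h1 : Ar (fun z (q : ℕ × ℕ) => RunB_S p z q.2 = RunB_nS p (RunB_S p z q.1, RunB_R z q.1)) :=
    RunB_AF.eq ((RunB_af_S p).pre Primrec.snd) (RunB_AF.map (Primrec.dom_finite _) hSi)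
  have h2 : Ar (fun z (q : ℕ × ℕ) => RunB_H z q.2 =
      RunB_nH (RunB_nD p (RunB_S p z q.1, RunB_R z q.1), RunB_H z q.1)) :=
    RunB_AF.eq (RunB_af_H.pre Primrec.snd) (RunB_AF.map RunB_prim_nH
      ((RunB_AF.map (Primrec.dom_finite _) hSi).pair (RunB_af_H.pre Primrec.fst)))
  have h3 : Ar (fun z (q : (ℕ × ℕ) × (Fin 3 × ℕ)) => RunB_C z (q.2, q.1.2) =
        RunB_nC ((RunB_nW p ((RunB_S p z q.1.1, RunB_R z q.1.1), q.2.1), RunB_C z (q.2, q.1.1)),
          (q.2.2, RunB_H z q.1.1))) := by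
    have e1 : Primrec (fun q : (ℕ × ℕ) × (Fin 3 × ℕ) => (q.2, q.1.2)) :=
      Primrec.pair Primrec.snd (Primrec.snd.comp Primrec.fst)
    have e2 : Primrec (fun q : (ℕ × ℕ) × (Fin 3 × ℕ) => (q.2, q.1.1)) :=
      Primrec.pair Primrec.snd (Primrec.fst.comp Primrec.fst)
    have e3 : Primrec (fun q : (ℕ × ℕ) × (Fin 3 × ℕ) => q.1.1) := Primrec.fst.comp Primrec.fst
    refine RunB_AF.eq (RunB_af_C.pre e1) (RunB_AF.map RunB_prim_nC ?_)
    refine RunB_AF.pair (RunB_AF.pair (RunB_AF.map (Primrec.dom_finite _)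
      ((hSi.pre (h := fun q : (ℕ × ℕ) × (Fin 3 × ℕ) => q.1) Primrec.fst).pair
        (RunB_AF.prim (Primrec.fst.comp Primrec.snd)))) (RunB_af_C.pre e2))
      ((RunB_AF.prim (Primrec.snd.comp Primrec.snd)).pair (RunB_af_H.pre e3))
  refine (h1.and (h2.and (Ar.all (P := fun z (q : ℕ × ℕ) (r : Fin 3 × ℕ) =>
    RunB_C z (r, q.2) = RunB_nC ((RunB_nW p ((RunB_S p z q.1, RunB_R z q.1), r.1),
      RunB_C z (r, q.1)), (r.2, RunB_H z q.1))) h3))).congr fun z q => ?_
  rw [RunB_step_iff]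
  refine and_congr_right fun _ => and_congr_right fun _ => ?_
  exact ⟨fun h t k => h (t, k), fun h r => h r.1 r.2⟩

/-! ### Lower limits -/

theorem RunB_ar_Ev {F : (ℕ → ℕ) → α × ℕ → ℕ} (hF : RunB_AF F) :
    Ar (fun z (q : (α × ℕ) × ℕ) => Ev (RunB_lt z) q.1.2 (fun i => F z (q.1.1, i)) q.2) := by
  unfold Ev
  refine Ar.ex (P := fun z (q : (α × ℕ) × ℕ) b => RunB_lt z b q.1.2 ∧ ∀ g, RunB_lt z g q.1.2 →
    g = b ∨ RunB_lt z b g → q.2 ≤ F z (q.1.1, g)) ?_
  refine Ar.and (RunB_ar_lt' Primrec.snd (Primrec.snd.comp (Primrec.fst.comp Primrec.fst))) ?_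
  refine Ar.all (P := fun z (q : ((α × ℕ) × ℕ) × ℕ) g => RunB_lt z g q.1.1.2 →
    g = q.2 ∨ RunB_lt z q.2 g → q.1.2 ≤ F z (q.1.1.1, g)) ?_
  refine Ar.imp (RunB_ar_lt' Primrec.snd (Primrec.snd.comp (Primrec.fst.comp (Primrec.fst.comp
    Primrec.fst)))) (Ar.imp (Ar.or (Ar.dec (PrimrecRel.comp Primrec.eq Primrec.snd
      (Primrec.snd.comp Primrec.fst))) (RunB_ar_lt' (Primrec.snd.comp Primrec.fst) Primrec.snd)) ?_)
  have h1 : RunB_AF (fun z (q : (((α × ℕ) × ℕ) × ℕ) × ℕ) => F z (q.1.1.1.1, q.2)) :=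
    hF.pre (Primrec.pair (Primrec.fst.comp (Primrec.fst.comp (Primrec.fst.comp Primrec.fst)))
      Primrec.snd)
  have h2 : RunB_AF (fun _ (q : (((α × ℕ) × ℕ) × ℕ) × ℕ) => q.1.1.2) :=
    RunB_AF.prim (Primrec.snd.comp (Primrec.fst.comp Primrec.fst))
  have h3 : Ar (fun _ (p : ℕ × ℕ) => p.1 ≤ p.2) := Ar.dec Primrec.nat_le
  exact RunB_compF h3 (h2.pair h1)

theorem RunB_ar_LI {F : (ℕ → ℕ) → α × ℕ → ℕ} (hF : RunB_AF F) :
    Ar (fun z (q : α × ℕ) => IsLI (RunB_lt z) q.2 (fun i => F z (q.1, i)) (F z q)) := by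
  have hE := RunB_ar_Ev hF
  have h0 : RunB_AF (fun z (q : α × ℕ) => (q, F z q)) :=
    (RunB_AF.prim (f := fun q : α × ℕ => q) Primrec.id).pair hF
  have h1 : Ar (fun z (q : α × ℕ) => Ev (RunB_lt z) q.2 (fun i => F z (q.1, i)) (F z q)) :=
    RunB_compF hE h0
  have h2 : Ar (fun z (q : α × ℕ) => Ev (RunB_lt z) q.2 (fun i => F z (q.1, i)) (F z q + 1)) :=
    RunB_compF hE (RunB_AF.map (g := fun r : (α × ℕ) × ℕ => (r.1, r.2 + 1))
      (Primrec.pair Primrec.fst (Primrec.succ.comp Primrec.snd)) h0)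
  have h3 : Ar (fun z (q : α × ℕ) => F z q = 0) :=
    hF.eq (RunB_AF.prim (f := fun _ : α × ℕ => 0) (Primrec.const 0))
  have h4 : Ar (fun z (q : α × ℕ) => ∀ s, Ev (RunB_lt z) q.2 (fun i => F z (q.1, i)) s) :=
    Ar.all (P := fun z (q : α × ℕ) s => Ev (RunB_lt z) q.2 (fun i => F z (q.1, i)) s) hE
  exact (h1.and h2.not).or (h3.and h4)

/-! ### The conditions -/

/-- The coded run is a run up to a halted configuration. -/
def RunB_P (p : Program) (z : ℕ → ℕ) : Prop :=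
  IsRun p (RunB_x z) (RunB_lt z) (RunB_c p z) ∧ ∃ i, (RunB_c p z i).Halted

theorem RunB_ar_P (p : Program) : Ar (fun z (_ : ℕ) => RunB_P p z) := by
  have h1 : Ar (fun z (_ : ℕ) => ∀ a, ¬ RunB_lt z a a) :=
    Ar.all (P := fun z (_ : ℕ) a => ¬ RunB_lt z a a) (Ar.not (RunB_ar_lt' Primrec.snd Primrec.snd))
  have h2 : Ar (fun z (_ : ℕ) => ∀ a b d, RunB_lt z a b → RunB_lt z b d → RunB_lt z a d) := by
    refine Ar.all (P := fun z (_ : ℕ) a => ∀ b d, RunB_lt z a b → RunB_lt z b d → RunB_lt z a d)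
      (Ar.all (P := fun z (q : ℕ × ℕ) b => ∀ d, RunB_lt z q.2 b → RunB_lt z b d →
        RunB_lt z q.2 d) (Ar.all (P := fun z (q : (ℕ × ℕ) × ℕ) d => RunB_lt z q.1.2 q.2 →
          RunB_lt z q.2 d → RunB_lt z q.1.2 d) ?_))
    have e1 : Primrec (fun q : ((ℕ × ℕ) × ℕ) × ℕ => q.1.1.2) :=
      Primrec.snd.comp (Primrec.fst.comp Primrec.fst)
    have e2 : Primrec (fun q : ((ℕ × ℕ) × ℕ) × ℕ => q.1.2) := Primrec.snd.comp Primrec.fst
    have e3 : Primrec (fun q : ((ℕ × ℕ) × ℕ) × ℕ => q.2) := Primrec.snd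
    exact Ar.imp (RunB_ar_lt' e1 e2) (Ar.imp (RunB_ar_lt' e2 e3) (RunB_ar_lt' e1 e3))
  have h3 : Ar (fun z (_ : ℕ) => ∀ a b, RunB_lt z a b ∨ a = b ∨ RunB_lt z b a) := by
    refine Ar.all (P := fun z (_ : ℕ) a => ∀ b, RunB_lt z a b ∨ a = b ∨ RunB_lt z b a)
      (Ar.all (P := fun z (q : ℕ × ℕ) b => RunB_lt z q.2 b ∨ q.2 = b ∨ RunB_lt z b q.2) ?_)
    have e2 : Primrec (fun q : (ℕ × ℕ) × ℕ => q.1.2) := Primrec.snd.comp Primrec.fst
    have e3 : Primrec (fun q : (ℕ × ℕ) × ℕ => q.2) := Primrec.snd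
    exact Ar.or (RunB_ar_lt' e2 e3) (Ar.or (Ar.dec (PrimrecRel.comp Primrec.eq e2 e3))
      (RunB_ar_lt' e3 e2))
  have h4 : Ar (fun z (_ : ℕ) => ∀ i, (∀ j, ¬ RunB_lt z j i) → RunB_S p z i = 0 ∧
      RunB_H z i = 0 ∧ ∀ r : Fin 3 × ℕ, RunB_C z (r, i) =
        if r.1 = 0 then RunB_x z r.2 else false) := by
    refine Ar.all (P := fun z (_ : ℕ) i => (∀ j, ¬ RunB_lt z j i) → RunB_S p z i = 0 ∧
      RunB_H z i = 0 ∧ ∀ r : Fin 3 × ℕ, RunB_C z (r, i) =
        if r.1 = 0 then RunB_x z r.2 else false) (Ar.imp (Ar.all (P := fun z (q : ℕ × ℕ) j =>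
          ¬ RunB_lt z j q.2) (Ar.not (RunB_ar_lt' Primrec.snd (Primrec.snd.comp Primrec.fst))))
      (Ar.and ?_ (Ar.and ?_ (Ar.all (P := fun z (q : ℕ × ℕ) (r : Fin 3 × ℕ) =>
        RunB_C z (r, q.2) = if r.1 = 0 then RunB_x z r.2 else false) ?_))))
    · exact RunB_AF.eq ((RunB_af_S p).pre Primrec.snd)
        (RunB_AF.prim (f := fun _ : ℕ × ℕ => (0 : Fin (p.n + 1))) (Primrec.const 0))
    · exact RunB_AF.eq (RunB_af_H.pre Primrec.snd)
        (RunB_AF.prim (f := fun _ : ℕ × ℕ => 0) (Primrec.const 0))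
    · have e1 : RunB_AF (fun z (q : (ℕ × ℕ) × (Fin 3 × ℕ)) => RunB_x z q.2.2) :=
        RunB_af_x.pre (Primrec.snd.comp Primrec.snd)
      have e2 : Primrec (fun q : Fin 3 × Bool => if q.1 = 0 then q.2 else false) :=
        Primrec.ite (PrimrecRel.comp Primrec.eq Primrec.fst (Primrec.const 0)) Primrec.snd
          (Primrec.const false)
      refine RunB_AF.eq (RunB_af_C.pre (Primrec.pair Primrec.snd (Primrec.snd.comp Primrec.fst)))
        (RunB_AF.map e2 ((RunB_AF.prim (Primrec.fst.comp Primrec.snd)).pair e1))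
  have h5 : Ar (fun z (_ : ℕ) => ∀ i j, RunB_lt z i j → (∀ k, ¬ (RunB_lt z i k ∧ RunB_lt z k j)) →
      RunB_c p z j = (RunB_c p z i).step) := by
    refine Ar.all (P := fun z (_ : ℕ) i => ∀ j, RunB_lt z i j →
      (∀ k, ¬ (RunB_lt z i k ∧ RunB_lt z k j)) → RunB_c p z j = (RunB_c p z i).step)
      (Ar.all (P := fun z (q : ℕ × ℕ) j => RunB_lt z q.2 j →
      (∀ k, ¬ (RunB_lt z q.2 k ∧ RunB_lt z k j)) → RunB_c p z j = (RunB_c p z q.2).step) ?_)
    have e2 : Primrec (fun q : (ℕ × ℕ) × ℕ => q.1.2) := Primrec.snd.comp Primrec.fst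
    have e3 : Primrec (fun q : (ℕ × ℕ) × ℕ => q.2) := Primrec.snd
    refine Ar.imp (RunB_ar_lt' e2 e3) (Ar.imp (Ar.all (P := fun z (q : (ℕ × ℕ) × ℕ) k =>
      ¬ (RunB_lt z q.1.2 k ∧ RunB_lt z k q.2)) ?_) ?_)
    · exact Ar.not (Ar.and (RunB_ar_lt' (e2.comp Primrec.fst) Primrec.snd)
        (RunB_ar_lt' Primrec.snd (e3.comp Primrec.fst)))
    · exact Ar.comp (RunB_ar_step p) (f := fun q : (ℕ × ℕ) × ℕ => (q.1.2, q.2))
        (Primrec.pair e2 e3)
  have h6 : Ar (fun z (_ : ℕ) => ∀ j, (∃ i, RunB_lt z i j) →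
      (∀ i, RunB_lt z i j → ∃ k, RunB_lt z i k ∧ RunB_lt z k j) →
      IsLI (RunB_lt z) j (fun i => ((RunB_S p z i : Fin (p.n + 1)) : ℕ)) (RunB_S p z j : ℕ) ∧
      IsLI (RunB_lt z) j (fun i => RunB_H z i) (RunB_H z j) ∧
      ∀ r : Fin 3 × ℕ, IsLI (RunB_lt z) j (fun i => (RunB_C z (r, i)).toNat)
        (RunB_C z (r, j)).toNat) := by
    refine Ar.all (P := fun z (_ : ℕ) j => (∃ i, RunB_lt z i j) →
      (∀ i, RunB_lt z i j → ∃ k, RunB_lt z i k ∧ RunB_lt z k j) →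
      IsLI (RunB_lt z) j (fun i => ((RunB_S p z i : Fin (p.n + 1)) : ℕ)) (RunB_S p z j : ℕ) ∧
      IsLI (RunB_lt z) j (fun i => RunB_H z i) (RunB_H z j) ∧
      ∀ r : Fin 3 × ℕ, IsLI (RunB_lt z) j (fun i => (RunB_C z (r, i)).toNat)
        (RunB_C z (r, j)).toNat) (Ar.imp (Ar.ex (P := fun z (q : ℕ × ℕ) i => RunB_lt z i q.2)
          (RunB_ar_lt' Primrec.snd (Primrec.snd.comp Primrec.fst))) (Ar.imp
          (Ar.all (P := fun z (q : ℕ × ℕ) i => RunB_lt z i q.2 →
            ∃ k, RunB_lt z i k ∧ RunB_lt z k q.2) (Ar.imp (RunB_ar_lt' Primrec.snd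
              (Primrec.snd.comp Primrec.fst)) (Ar.ex (P := fun z (q : (ℕ × ℕ) × ℕ) k =>
                RunB_lt z q.2 k ∧ RunB_lt z k q.1.2) ?_)))
          (Ar.and ?_ (Ar.and ?_ (Ar.all (P := fun z (q : ℕ × ℕ) (r : Fin 3 × ℕ) =>
            IsLI (RunB_lt z) q.2 (fun i => (RunB_C z (r, i)).toNat)
              (RunB_C z (r, q.2)).toNat) ?_)))))
    · exact Ar.and (RunB_ar_lt' (Primrec.snd.comp Primrec.fst) Primrec.snd)
        (RunB_ar_lt' Primrec.snd (Primrec.snd.comp (Primrec.fst.comp Primrec.fst)))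
    · have e1 : RunB_AF (fun z (q : ℕ × ℕ) => ((RunB_S p z q.2 : Fin (p.n + 1)) : ℕ)) :=
        RunB_AF.map (g := fun a : Fin (p.n + 1) => (a : ℕ)) (Primrec.fin_val_iff.2 Primrec.id)
          ((RunB_af_S p).pre Primrec.snd)
      exact RunB_ar_LI e1
    · exact RunB_ar_LI (F := fun z (q : ℕ × ℕ) => RunB_H z q.2) (RunB_af_H.pre Primrec.snd)
    · have e1 : RunB_AF (fun z (q : (Fin 3 × ℕ) × ℕ) => (RunB_C z q).toNat) :=
        RunB_AF.map (g := Bool.toNat) (Primrec.dom_finite _) RunB_af_C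
      exact Ar.comp (RunB_ar_LI e1) (f := fun q : (ℕ × ℕ) × (Fin 3 × ℕ) => (q.2, q.1.2))
        (Primrec.pair Primrec.snd (Primrec.snd.comp Primrec.fst))
  have h7 : Ar (fun z (_ : ℕ) => ∃ i, RunB_nD p (RunB_S p z i, RunB_R z i) = 0) := by
    refine Ar.ex (P := fun z (_ : ℕ) i => RunB_nD p (RunB_S p z i, RunB_R z i) = 0) ?_
    have hSi : RunB_AF (fun z (q : ℕ × ℕ) => (RunB_S p z q.2, RunB_R z q.2)) :=
      ((RunB_af_S p).pre Primrec.snd).pair (RunB_af_R.pre Primrec.snd)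
    exact RunB_AF.eq (RunB_AF.map (Primrec.dom_finite _) hSi)
      (RunB_AF.prim (f := fun _ : ℕ × ℕ => (0 : Fin 3)) (Primrec.const 0))
  refine (h1.and (h2.and (h3.and (h4.and (h5.and (h6.and h7)))))).congr fun z _ => ?_
  have hinit : ∀ i, RunB_c p z i = init p (RunB_x z) ↔ RunB_S p z i = 0 ∧
      RunB_H z i = 0 ∧ ∀ r : Fin 3 × ℕ, RunB_C z (r, i) =
        if r.1 = 0 then RunB_x z r.2 else false := by
    intro i
    constructor
    · intro h
      refine ⟨congrArg Config.state h, congrArg Config.head h, fun r => ?_⟩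
      exact congrFun (congrFun (congrArg Config.cell h) r.1) r.2
    · rintro ⟨a1, a2, a3⟩
      unfold RunB_c init
      rw [a1, a2]
      congr 1
      funext t k
      exact a3 (t, k)
  have hhalt : ∀ i, (RunB_c p z i).Halted ↔ RunB_nD p (RunB_S p z i, RunB_R z i) = 0 := by
    intro i
    have hread : (RunB_c p z i).read = RunB_R z i := rfl
    have hst : (RunB_c p z i).state = RunB_S p z i := rfl
    unfold Config.Halted RunB_nD
    rw [hread, hst]
    rcases h : p.trans (RunB_S p z i) (RunB_R z i) with _ | ⟨q, w, right⟩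
    · simp
    · cases right <;> simp
  unfold RunB_P
  constructor
  · rintro ⟨a1, a2, a3, a4, a5, a6, i, hi⟩
    refine ⟨⟨a1, a2, a3, fun i hi => (hinit i).2 (a4 i hi), a5, ?_⟩, i, (hhalt i).2 hi⟩
    intro j b1 b2
    obtain ⟨c1, c2, c3⟩ := a6 j b1 b2
    exact ⟨c1, c2, fun t k => c3 (t, k)⟩
  · rintro ⟨⟨a1, a2, a3, a4, a5, a6⟩, i, hi⟩
    refine ⟨a1, a2, a3, fun i hi => (hinit i).1 (a4 i hi), a5, ?_, i, (hhalt i).1 hi⟩
    intro j b1 b2
    obtain ⟨c1, c2, c3⟩ := a6 j b1 b2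
    exact ⟨c1, c2, fun r => c3 r.1 r.2⟩

theorem RunB_wf {z : ℕ → ℕ} : WellFounded (RunB_lt z) ↔
    ∀ u : ℕ → ℕ, ∃ n, ¬ RunB_lt z (u (n + 1)) (u n) := by
  rw [wellFounded_iff_isEmpty_descending_chain]
  constructor
  · intro h u
    by_contra hno
    push Not at hno
    exact h.elim ⟨u, hno⟩
  · intro h
    refine ⟨fun f => ?_⟩
    obtain ⟨n, hn⟩ := h f.1
    exact hn (f.2 n)

/-- The code of a run. -/
noncomputable def RunB_code (p : Program) (lt : ℕ → ℕ → Prop) (c : ℕ → Config p) (n : ℕ) : ℕ := by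
  classical exact
    if n.unpair.1 = 0 then (if lt n.unpair.2.unpair.1 n.unpair.2.unpair.2 then 1 else 0)
    else if n.unpair.1 = 1 then ((c n.unpair.2).state : ℕ)
    else if n.unpair.1 = 2 then (c n.unpair.2).head
    else ((c n.unpair.2.unpair.1).cell (Fin.ofNat 3 n.unpair.2.unpair.2.unpair.1)
      n.unpair.2.unpair.2.unpair.2).toNat

end RunB

theorem halts_bk (p : Program) : ∃ K, PrimK K ∧
    ∀ x : ℕ → Bool, Halts p x ↔ ∃ w, Bk K (join (toN x) w) := by
  have hP1 : Ar (fun z (_ : ℕ) => RunB_P p (fun i => (z i).unpair.1)) :=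
    Ar.subst (RunB_ar_P p) (f := fun q : ℕ × ℕ => q.2) (g := fun q : (ℕ × ℕ) × ℕ => q.2.unpair.1)
      (h := fun n : ℕ => n) Primrec.snd (Primrec.fst.comp (Primrec.unpair.comp Primrec.snd))
      Primrec.id
  have hP2 : Ar (fun z (_ : ℕ) => ∃ n, ¬ RunB_lt (fun i => (z i).unpair.1)
      (z (n + 1)).unpair.2 (z n).unpair.2) := by
    have e1 : Ar (fun z (q : ℕ × ℕ) => RunB_lt (fun i => (z i).unpair.1) q.1 q.2) :=
      Ar.subst RunB_ar_lt (f := fun q : (ℕ × ℕ) × ℕ => q.2)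
        (g := fun q : ((ℕ × ℕ) × ℕ) × ℕ => q.2.unpair.1)
        (h := fun n : ℕ × ℕ => n) Primrec.snd (Primrec.fst.comp (Primrec.unpair.comp Primrec.snd))
        Primrec.id
    have e2 : RunB_AF (fun z (n : ℕ) => (z n).unpair.2) :=
      RunB_AF.map (g := fun v : ℕ => v.unpair.2) (Primrec.snd.comp Primrec.unpair) RunB_AF.value
    have e3 : RunB_AF (fun z (q : ℕ × ℕ) => ((z (q.2 + 1)).unpair.2, (z q.2).unpair.2)) :=
      (e2.pre (h := fun q : ℕ × ℕ => q.2 + 1) (Primrec.succ.comp Primrec.snd)).pair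
        (e2.pre (h := fun q : ℕ × ℕ => q.2) Primrec.snd)
    have e4 : Ar (fun z (q : ℕ × ℕ) => RunB_lt (fun i => (z i).unpair.1)
        (z (q.2 + 1)).unpair.2 (z q.2).unpair.2) :=
      RunB_compF (P := fun z (q : ℕ × ℕ) => RunB_lt (fun i => (z i).unpair.1) q.1 q.2)
        (F := fun z (q : ℕ × ℕ) => ((z (q.2 + 1)).unpair.2, (z q.2).unpair.2)) e1 e3
    exact Ar.ex (P := fun z (_ : ℕ) n => ¬ RunB_lt (fun i => (z i).unpair.1)
      (z (n + 1)).unpair.2 (z n).unpair.2) (Ar.not e4)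
  obtain ⟨K, hK, hKP⟩ := exists_K (P := fun z => RunB_P p (fun i => (z i).unpair.1) ∧
    ∃ n, ¬ RunB_lt (fun i => (z i).unpair.1) (z (n + 1)).unpair.2 (z n).unpair.2)
    (Ar.and hP1 hP2)
  refine ⟨K, hK, fun x => ?_⟩
  have key : ∀ w, Bk K (join (toN x) w) ↔ RunB_P p (join (toN x) w) ∧
      WellFounded (RunB_lt (join (toN x) w)) := by
    intro w
    rw [hKP]
    have e : ∀ u, (fun i => (join (join (toN x) w) u i).unpair.1) = join (toN x) w := by
      intro u
      funext i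
      simp [join]
    have e' : ∀ u i, (join (join (toN x) w) u i).unpair.2 = u i := by
      intro u i
      simp [join]
    simp only [e, e']
    rw [RunB_wf]
    constructor
    · intro h
      exact ⟨(h (fun _ => 0)).1, fun u => (h u).2⟩
    · rintro ⟨h1, h2⟩ u
      exact ⟨h1, h2 u⟩
  have hx : ∀ w, RunB_x (join (toN x) w) = x := by
    intro w
    funext i
    unfold RunB_x join toN
    rw [Nat.unpair_pair]
    cases x i <;> simp
  rw [halts_iff]
  simp only [key]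
  constructor
  · rintro ⟨lt, c, h1, h2, h3⟩
    refine ⟨RunB_code p lt c, ?_⟩
    have hw : RunB_w (join (toN x) (RunB_code p lt c)) = RunB_code p lt c := by
      funext i
      simp [RunB_w, join]
    have hlt : RunB_lt (join (toN x) (RunB_code p lt c)) = lt := by
      funext i j
      unfold RunB_lt
      rw [hw]
      by_cases h : lt i j <;> simp [RunB_code, h]
    have hc : RunB_c p (join (toN x) (RunB_code p lt c)) = c := by
      funext i
      unfold RunB_c RunB_S RunB_H RunB_C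
      simp only [hw]
      rcases hci : c i with ⟨s, hd, cl⟩
      congr 1
      · apply Fin.ext
        have : (s : ℕ) ≤ p.n := Nat.le_of_lt_succ s.2
        simp [RunB_code, hci, this]
      · simp [RunB_code, hci]
      · funext t k
        have : Fin.ofNat 3 (t : ℕ) = t := by
          apply Fin.ext
          simp [Nat.mod_eq_of_lt t.2]
        simp only [RunB_code, Nat.unpair_pair, hci, this]
        cases cl t k <;> simp
    unfold RunB_P
    rw [hx, hlt, hc]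
    exact ⟨⟨h2, h3⟩, h1⟩
  · rintro ⟨w, ⟨h1, h2⟩, h3⟩
    rw [hx] at h1
    exact ⟨_, _, h3, h1, h2⟩

end Pool.Agent.H76.TH
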