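import Pool.Agent.H76.TH.Defs

/-!
Project THIN, module FmB: sets defined by the formulas `Fm` are first-order definable in the sense
of Mathlib.
Show by induction on `φ : Fm` that for every `n` the set of the `v : ℕ → A` with
`sat A φ ((List.range n).map fun i => (v i : ZFSet))` is definable (over `univ`); for `ex` use
`definable_ex_update` (`EK/L.lean`) and a renaming of variables (`Set.Definable.preimage_comp`); then
use `definable_subst` (`EK/L.lean`) to substitute the parameters.
-/

set_option autoImplicit false

open FirstOrder Pool.Agent.H75.EK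

namespace Pool.Agent.H76.TH

theorem FmB_mem_definable {A : ZFSet.{0}} (i j : ℕ) :
    (Set.univ : Set A).Definable LSet
      {v : ℕ → A | (v i : ZFSet.{0}) ∈ (v j : ZFSet.{0})} := by
  refine ⟨Language.Relations.formula₂ (L := LSet[[(Set.univ : Set A)]])
    (Sum.inl EpsRel.mem) (Language.Term.var i) (Language.Term.var j), ?_⟩
  ext v
  simp only [Set.mem_ofPred_eq]
  rfl

theorem FmB_eq_definable {A : ZFSet.{0}} (i j : ℕ) :
    (Set.univ : Set A).Definable LSet {v : ℕ → A | v i = v j} := by
  refine ⟨Language.Term.equal (Language.Term.var i) (Language.Term.var j), ?_⟩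
  ext v
  simp only [Set.mem_ofPred_eq, Language.Formula.realize_equal, Language.Term.realize_var]

theorem FmB_getElem? {A : ZFSet.{0}} (v : ℕ → A) (n i : ℕ) (a : ZFSet.{0}) :
    (((List.range n).map fun i => (v i : ZFSet.{0}))[i]? = some a) ↔
      i < n ∧ (v i : ZFSet.{0}) = a := by
  rw [List.getElem?_map]
  by_cases h : i < n
  · simp [h]
  · simp [h]

theorem FmB_definable {A : ZFSet.{0}} (φ : Fm) : ∀ n : ℕ,
    (Set.univ : Set A).Definable LSet
      {v : ℕ → A | sat A φ ((List.range n).map fun i => (v i : ZFSet.{0}))} := by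
  induction φ with
  | mem i j =>
    intro n
    by_cases h : i < n ∧ j < n
    · convert FmB_mem_definable (A := A) i j using 1
      ext v
      simp only [Set.mem_ofPred_eq, sat, FmB_getElem?]
      constructor
      · rintro ⟨a, b, ⟨_, rfl⟩, ⟨_, rfl⟩, h⟩
        exact h
      · intro h'
        exact ⟨_, _, ⟨h.1, rfl⟩, ⟨h.2, rfl⟩, h'⟩
    · convert Set.definable_empty (A := (Set.univ : Set A)) (L := LSet) (α := ℕ) using 1
      ext v
      simp only [Set.mem_ofPred_eq, sat, FmB_getElem?, Set.mem_empty_iff_false, iff_false]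
      rintro ⟨a, b, ⟨h1, _⟩, ⟨h2, _⟩, _⟩
      exact h ⟨h1, h2⟩
  | eq i j =>
    intro n
    by_cases h : i < n ∧ j < n
    · convert FmB_eq_definable (A := A) i j using 1
      ext v
      simp only [Set.mem_ofPred_eq, sat, FmB_getElem?]
      constructor
      · rintro ⟨a, ⟨_, h1⟩, ⟨_, h2⟩⟩
        exact Subtype.ext (h1.trans h2.symm)
      · intro h'
        exact ⟨_, ⟨h.1, rfl⟩, ⟨h.2, by rw [h']⟩⟩
    · convert Set.definable_empty (A := (Set.univ : Set A)) (L := LSet) (α := ℕ) using 1
      ext v
      simp only [Set.mem_ofPred_eq, sat, FmB_getElem?, Set.mem_empty_iff_false, iff_false]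
      rintro ⟨a, ⟨h1, _⟩, ⟨h2, _⟩⟩
      exact h ⟨h1, h2⟩
  | nand φ ψ ih1 ih2 =>
    intro n
    exact ((ih1 n).inter (ih2 n)).compl
  | ex φ ih =>
    intro n
    let f : ℕ → ℕ := fun k => Nat.casesOn k n (fun i => i)
    have h1 := (ih (n + 1)).preimage_comp f
    have h2 := definable_ex_update h1 n
    convert h2 using 1
    ext v
    simp only [Set.mem_ofPred_eq, sat, Set.mem_preimage]
    have key : ∀ a : A, ((List.range (n + 1)).map fun i =>
        (((Function.update v n a) ∘ f) i : ZFSet.{0})) =
        (a : ZFSet.{0}) :: (List.range n).map fun i => (v i : ZFSet.{0}) := by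
      intro a
      rw [List.range_succ_eq_map, List.map_cons, List.map_map]
      congr 1
      · simp [f]
      · apply List.map_congr_left
        intro i hi
        have hi' : i < n := List.mem_range.1 hi
        have : i ≠ n := hi'.ne
        simp [f, Function.update_of_ne this]
    constructor
    · rintro ⟨a, ha, h⟩
      refine ⟨⟨a, ha⟩, ?_⟩
      rw [key]
      exact h
    · rintro ⟨a, h⟩
      rw [key] at h
      exact ⟨a, a.2, h⟩

theorem defSet_mem_Def {A : ZFSet.{0}} (φ : Fm) {s : List ZFSet.{0}} (hs : ∀ a ∈ s, a ∈ A) :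
    defSet A φ s ∈ Def A := by
  rw [mem_Def]
  refine ⟨ZFSet.sep_subset, ?_⟩
  rcases isEmpty_or_nonempty A with hA | ⟨⟨d⟩⟩
  · have : {a : A | (a : ZFSet.{0}) ∈ defSet A φ s} = ∅ := by
      ext a
      exact (hA.false a).elim
    rw [this]
    exact Set.definable_empty
  · let w : ℕ → A := fun i => if h : i - 1 < s.length then ⟨s[i - 1], hs _ (List.getElem_mem h)⟩
      else d
    convert definable_subst (FmB_definable (A := A) φ (s.length + 1)) w using 1
    ext a
    have key : ((List.range (s.length + 1)).map fun i =>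
        ((Function.update w 0 a) i : ZFSet.{0})) = (a : ZFSet.{0}) :: s := by
      rw [List.range_succ_eq_map, List.map_cons, List.map_map]
      congr 1
      apply List.ext_getElem
      · simp
      · intro i h1 h2
        simp [w, h2]
    simp only [Set.mem_ofPred_eq, defSet, ZFSet.mem_sep, key]
    exact ⟨fun h => h.2, fun h => ⟨a.2, h⟩⟩

end Pool.Agent.H76.TH
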