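import Pool.Agent.H76.TH.FmA
import Pool.Agent.H76.TH.FmB

/-!
Project THIN, module Snd: a certificate proves constructibility.
Proof. Decode formulas: `code : Fm → ℕ`, `code (mem i j) = 4 * Nat.pair i j`, `code (eq i j) = 4 * Nat.pair i j + 1`,
`code (nand φ ψ) = 4 * Nat.pair (code φ) (code ψ) + 2`, `code (ex φ) = 4 * code φ + 3`; this is a
bijection of `Fm` onto `ℕ`. Let `r m = sup {succ (r n) | lt n m}` be the rank function of `lt`; as `lt`
is a strict weak order, `lt n m ↔ r n < r m`, and every ordinal below `r m` is some `r n`, `lt n m`.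
Let `π m` be the set `{π k | E k m}` (recursion along `lt`: `E k m → lt k m`). `π` is injective by
`ext`. By induction on `r m`: `y ∈ Lset (r m) ↔ ∃ n, lt n m ∧ y = π n`, using `defble` and `closed`, the
modules FmA and FmB and `S m (code φ) s ↔ sat (Lset (r m)) φ (s.map π)` (induction on `φ`).
Hence `π t ∈ Def (Lset (r t)) ⊆ Lset (succ (r t))`, `r t ≤ r₀ t < α`, and `π t = natSet {k | x k = 1}`
because `N k n` implies `π n = (k : Ordinal).toZFSet`.
-/

set_option autoImplicit false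

open FirstOrder Pool.Agent.H75.EK

namespace Pool.Agent.H76.TH

/-- The codes of the formulas. -/
def sndCode : Fm → ℕ
  | Fm.mem i j => 4 * Nat.pair i j
  | Fm.eq i j => 4 * Nat.pair i j + 1
  | Fm.nand φ ψ => 4 * Nat.pair (sndCode φ) (sndCode ψ) + 2
  | Fm.ex φ => 4 * sndCode φ + 3

theorem sndCode_surj (c : ℕ) : ∃ φ, sndCode φ = c := by
  induction c using Nat.strong_induction_on with
  | _ c ih =>
    have h : c = 4 * (c / 4) + c % 4 := (Nat.div_add_mod c 4).symm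
    have h4 : c % 4 < 4 := Nat.mod_lt _ (by norm_num)
    rcases (by omega : c % 4 = 0 ∨ c % 4 = 1 ∨ c % 4 = 2 ∨ c % 4 = 3) with hc | hc | hc | hc
    · refine ⟨Fm.mem (c / 4).unpair.1 (c / 4).unpair.2, ?_⟩
      simp only [sndCode, Nat.pair_unpair]
      omega
    · refine ⟨Fm.eq (c / 4).unpair.1 (c / 4).unpair.2, ?_⟩
      simp only [sndCode, Nat.pair_unpair]
      omega
    · have h1 := Nat.unpair_left_le (c / 4)
      have h2 := Nat.unpair_right_le (c / 4)
      obtain ⟨φ, hφ⟩ := ih (c / 4).unpair.1 (by omega)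
      obtain ⟨ψ, hψ⟩ := ih (c / 4).unpair.2 (by omega)
      refine ⟨Fm.nand φ ψ, ?_⟩
      simp only [sndCode, hφ, hψ, Nat.pair_unpair]
      omega
    · obtain ⟨φ, hφ⟩ := ih (c / 4) (by omega)
      refine ⟨Fm.ex φ, ?_⟩
      simp only [sndCode, hφ]
      omega

/-- The collapse of a well-founded relation. -/
noncomputable def sndPi {E : ℕ → ℕ → Prop} (hE : WellFounded E) : ℕ → ZFSet.{0} :=
  hE.fix (fun m π => ZFSet.range (fun k : {k // E k m} => π k.1 k.2))

theorem mem_sndPi {E : ℕ → ℕ → Prop} (hE : WellFounded E) {m : ℕ} {y : ZFSet.{0}} :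
    y ∈ sndPi hE m ↔ ∃ k, E k m ∧ sndPi hE k = y := by
  unfold sndPi
  rw [WellFounded.fix_eq]
  simp only [ZFSet.mem_range, Subtype.exists, exists_prop]

section
variable {lt E N : ℕ → ℕ → Prop} {S : ℕ → ℕ → List ℕ → Prop}

theorem Cert.snd_lt_of_E (h : Cert lt E N S) {n m : ℕ} (hE : E n m) : lt n m := by
  obtain ⟨c, s, -, hcs⟩ := h.defble m
  exact ((hcs n).1 hE).1

theorem Cert.snd_wf (h : Cert lt E N S) (hw : WellFounded lt) : WellFounded E :=
  Subrelation.wf (fun {_ _} hE => h.snd_lt_of_E hE) hw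

theorem Cert.snd_inj (h : Cert lt E N S) (hw : WellFounded E) :
    ∀ n m, sndPi hw n = sndPi hw m → n = m := by
  intro n
  induction n using hw.induction with
  | _ n ih =>
    intro m hnm
    apply h.ext
    intro k
    constructor
    · intro hk
      have h1 : sndPi hw k ∈ sndPi hw m := by
        rw [← hnm, mem_sndPi]
        exact ⟨k, hk, rfl⟩
      rw [mem_sndPi] at h1
      obtain ⟨k', hk', he⟩ := h1
      rw [ih k hk k' he.symm]
      exact hk'
    · intro hk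
      have h1 : sndPi hw k ∈ sndPi hw n := by
        rw [hnm, mem_sndPi]
        exact ⟨k, hk, rfl⟩
      rw [mem_sndPi] at h1
      obtain ⟨k', hk', he⟩ := h1
      rw [← ih k' hk' k he]
      exact hk'

theorem Cert.snd_mem (h : Cert lt E N S) (hw : WellFounded E) {a b : ℕ} :
    sndPi hw a ∈ sndPi hw b ↔ E a b := by
  rw [mem_sndPi]
  constructor
  · rintro ⟨k, hk, he⟩
    rw [← h.snd_inj hw k a he]
    exact hk
  · intro hab
    exact ⟨a, hab, rfl⟩

/-- Satisfaction in a level. -/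
theorem Cert.snd_sat (h : Cert lt E N S) (hw : WellFounded E) {A : ZFSet.{0}} {m : ℕ}
    (hA : ∀ y, y ∈ A ↔ ∃ n, lt n m ∧ sndPi hw n = y) (φ : Fm) :
    ∀ s : List ℕ, S m (sndCode φ) s ↔ sat A φ (s.map (sndPi hw)) := by
  induction φ with
  | mem i j =>
    intro s
    simp only [sndCode, h.mem, sat, List.getElem?_map]
    constructor
    · rintro ⟨a, b, ha, hb, hab⟩
      exact ⟨_, _, by rw [ha]; rfl, by rw [hb]; rfl, (h.snd_mem hw).2 hab⟩
    · rintro ⟨x, y, hx, hy, hxy⟩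
      rw [Option.map_eq_some_iff] at hx hy
      obtain ⟨a, ha, rfl⟩ := hx
      obtain ⟨b, hb, rfl⟩ := hy
      exact ⟨a, b, ha, hb, (h.snd_mem hw).1 hxy⟩
  | eq i j =>
    intro s
    simp only [sndCode, h.eq, sat, List.getElem?_map]
    constructor
    · rintro ⟨a, ha, hb⟩
      exact ⟨_, by rw [ha]; rfl, by rw [hb]; rfl⟩
    · rintro ⟨x, hx, hy⟩
      rw [Option.map_eq_some_iff] at hx hy
      obtain ⟨a, ha, rfl⟩ := hx
      obtain ⟨b, hb, he⟩ := hy
      have := h.snd_inj hw _ _ he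
      subst this
      exact ⟨b, ha, hb⟩
  | nand φ ψ ih1 ih2 =>
    intro s
    simp only [sndCode, h.nand, sat, ih1 s, ih2 s]
  | ex φ ih =>
    intro s
    simp only [sndCode, h.ex, sat]
    constructor
    · rintro ⟨n, hn, hS⟩
      refine ⟨sndPi hw n, (hA _).2 ⟨n, hn, rfl⟩, ?_⟩
      exact (ih (n :: s)).1 hS
    · rintro ⟨a, ha, hS⟩
      obtain ⟨n, hn, rfl⟩ := (hA a).1 ha
      exact ⟨n, hn, (ih (n :: s)).2 hS⟩

theorem snd_lift {lt : ℕ → ℕ → Prop} {f : ℕ → ZFSet.{0}} {A : ZFSet.{0}} {m : ℕ}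
    (hA : ∀ y, y ∈ A ↔ ∃ n, lt n m ∧ f n = y) (s : List ZFSet.{0}) (hs : ∀ a ∈ s, a ∈ A) :
    ∃ s' : List ℕ, (∀ a ∈ s', lt a m) ∧ s'.map f = s := by
  induction s with
  | nil => exact ⟨[], by simp, rfl⟩
  | cons a s ih =>
    obtain ⟨s', h1, h2⟩ := ih (fun b hb => hs b (List.mem_cons_of_mem _ hb))
    obtain ⟨n, hn, hn'⟩ := (hA a).1 (hs a List.mem_cons_self)
    refine ⟨n :: s', ?_, ?_⟩
    · intro b hb
      rcases List.mem_cons.1 hb with rfl | hb
      · exact hn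
      · exact h1 b hb
    · rw [List.map_cons, hn', h2]

/-- An element of a level is the subset of the level defined by its code. -/
theorem Cert.snd_eq (h : Cert lt E N S) (hw : WellFounded E) {A : ZFSet.{0}} {m k : ℕ}
    (hA : ∀ y, y ∈ A ↔ ∃ n, lt n m ∧ sndPi hw n = y) (φ : Fm) (s : List ℕ)
    (hk : ∀ n, E n k ↔ lt n m ∧ S m (sndCode φ) (n :: s)) :
    sndPi hw k = defSet A φ (s.map (sndPi hw)) := by
  ext y
  unfold defSet
  rw [ZFSet.mem_sep, mem_sndPi]
  constructor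
  · rintro ⟨n, hn, rfl⟩
    obtain ⟨h1, h2⟩ := (hk n).1 hn
    exact ⟨(hA _).2 ⟨n, h1, rfl⟩, (h.snd_sat hw hA φ (n :: s)).1 h2⟩
  · rintro ⟨hy, hsat⟩
    obtain ⟨n, hn, rfl⟩ := (hA y).1 hy
    exact ⟨n, (hk n).2 ⟨hn, (h.snd_sat hw hA φ (n :: s)).2 hsat⟩, rfl⟩

theorem Cert.snd_mem_Def (h : Cert lt E N S) (hw : WellFounded E) {A : ZFSet.{0}} {m : ℕ}
    (hA : ∀ y, y ∈ A ↔ ∃ n, lt n m ∧ sndPi hw n = y) : sndPi hw m ∈ Def A := by
  obtain ⟨c, s, hs, hcs⟩ := h.defble m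
  obtain ⟨φ, rfl⟩ := sndCode_surj c
  rw [h.snd_eq hw hA φ s hcs]
  apply defSet_mem_Def
  intro a ha
  obtain ⟨n, hn, rfl⟩ := List.mem_map.1 ha
  exact (hA _).2 ⟨n, hs n hn, rfl⟩

/-- The levels. -/
theorem Cert.snd_level (h : Cert lt E N S) (hw : WellFounded E) (hwf : IsWellFounded ℕ lt) (m : ℕ) :
    ∀ y, y ∈ Lset (IsWellFounded.rank lt m) ↔ ∃ n, lt n m ∧ sndPi hw n = y := by
  have hlt : ∀ n m, lt n m ↔ IsWellFounded.rank lt n < IsWellFounded.rank lt m := by
    intro n m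
    constructor
    · exact IsWellFounded.rank_lt_of_rel
    · intro hr
      rw [IsWellFounded.rank_eq lt m, Ordinal.lt_iSup_iff] at hr
      obtain ⟨⟨k, hk⟩, hk'⟩ := hr
      rw [Order.lt_succ_iff] at hk'
      rcases h.weak k m n hk with h1 | h1
      · exact absurd (IsWellFounded.rank_lt_of_rel h1) (not_lt.2 hk')
      · exact h1
  induction m using hwf.wf.induction with
  | _ m ih =>
    intro y
    rw [mem_Lset]
    constructor
    · rintro ⟨β, hβ, hy⟩
      obtain ⟨k, rfl⟩ := IsWellFounded.mem_range_rank_of_le hβ.le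
      have hk : lt k m := (hlt k m).2 hβ
      obtain ⟨φ, s, hs, rfl⟩ := exists_fm_of_mem_Def hy
      obtain ⟨s', hs', rfl⟩ := snd_lift (ih k hk) s hs
      obtain ⟨k', hk1, hk2⟩ := h.closed k (sndCode φ) s' hs'
      refine ⟨k', ?_, h.snd_eq hw (ih k hk) φ s' hk2⟩
      rw [hlt] at hk1 ⊢
      exact (not_lt.1 hk1).trans_lt hβ
    · rintro ⟨n, hn, rfl⟩
      exact ⟨_, IsWellFounded.rank_lt_of_rel hn, h.snd_mem_Def hw (ih n hn)⟩

theorem Cert.snd_nat (h : Cert lt E N S) (hw : WellFounded E) (k : ℕ) :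
    ∀ n, N k n → sndPi hw n = (k : Ordinal.{0}).toZFSet := by
  induction k with
  | zero =>
    intro n hn
    rw [Nat.cast_zero, Ordinal.toZFSet_zero]
    ext y
    rw [mem_sndPi]
    constructor
    · rintro ⟨k, hk, -⟩
      exact absurd hk (h.zero n hn k)
    · intro hy
      exact absurd hy (ZFSet.notMem_empty y)
  | succ k ih =>
    intro m hm
    obtain ⟨n, hn⟩ := h.tot k
    rw [Nat.cast_succ, Ordinal.toZFSet_add_one, ← ih n hn]
    ext y
    rw [mem_sndPi, ZFSet.mem_insert_iff, mem_sndPi]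
    constructor
    · rintro ⟨a, ha, rfl⟩
      rcases (h.succ k n m hn hm a).1 ha with h1 | rfl
      · exact Or.inr ⟨a, h1, rfl⟩
      · exact Or.inl rfl
    · rintro (rfl | ⟨a, ha, rfl⟩)
      · exact ⟨n, (h.succ k n m hn hm n).2 (Or.inr rfl), rfl⟩
      · exact ⟨a, (h.succ k n m hn hm a).2 (Or.inl ha), rfl⟩

end

theorem Cert.sound {lt E N : ℕ → ℕ → Prop} {S : ℕ → ℕ → List ℕ → Prop} (h : Cert lt E N S)
    {α : Ordinal.{0}} {r₀ : ℕ → Ordinal.{0}} (hr₀ : ∀ n m, lt n m → r₀ n < r₀ m)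
    (hα : ∀ n, r₀ n < α) {x : ℕ → ℕ} {t : ℕ} (hx : Rep E N x t) :
    natSet {k | x k = 1} ∈ Lset α := by
  have hwf : IsWellFounded ℕ lt := by
    refine ⟨Subrelation.wf (r := InvImage (· < ·) r₀) (fun {a b} hab => hr₀ a b hab) ?_⟩
    exact InvImage.wf r₀ Ordinal.lt_wf
  have hw : WellFounded E := h.snd_wf hwf.wf
  have hrank : ∀ m, IsWellFounded.rank lt m ≤ r₀ m := by
    intro m
    induction m using hwf.wf.induction with
    | _ m ih =>
      rw [IsWellFounded.rank_eq, Ordinal.iSup_le_iff]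
      rintro ⟨k, hk⟩
      rw [Order.succ_le_iff]
      exact (ih k hk).trans_lt (hr₀ k m hk)
  have h1 : natSet {k | x k = 1} = sndPi hw t := by
    ext y
    unfold natSet
    rw [ZFSet.mem_range, mem_sndPi]
    constructor
    · rintro ⟨⟨k, hk⟩, rfl⟩
      obtain ⟨n, hn⟩ := h.tot k
      exact ⟨n, (hx.2 k n hn).2 hk, h.snd_nat hw k n hn⟩
    · rintro ⟨n, hn, rfl⟩
      obtain ⟨k, hk⟩ := hx.1 n hn
      exact ⟨⟨k, (hx.2 k n hk).1 hn⟩, (h.snd_nat hw k n hk).symm⟩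
  rw [h1, mem_Lset]
  exact ⟨_, (hrank t).trans_lt (hα t), h.snd_mem_Def hw (h.snd_level hw hwf t)⟩

end Pool.Agent.H76.TH
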