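import Pool.Agent.H76.TH.ArC
import Pool.Agent.H76.TH.ExK

/-!
Project THIN, module WAr: the set of the certificates is `Bk K` with `K` primitive recursive.
`WCert x w` and well-foundedness of `wlt w` (`∀ u, ∃ n, ¬ wlt w (u (n + 1)) (u n)`) are expressed by
`∀ u, P (join (join x w) u)` with `P` arithmetical; go through the clauses of `Cert` with the
calculus `ArC` and apply `exists_K`.
-/

set_option autoImplicit false

open Encodable Pool.Agent.H75.EK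

namespace Pool.Agent.H76.TH

variable {α : Type} [Primcodable α]

/-- the three reals coded by `join (join x w) u` -/
private def wa_x (z : ℕ → ℕ) : ℕ → ℕ := fun i => (z i).unpair.1.unpair.1
private def wa_w (z : ℕ → ℕ) : ℕ → ℕ := fun i => (z i).unpair.1.unpair.2
private def wa_u (z : ℕ → ℕ) : ℕ → ℕ := fun i => (z i).unpair.2

private theorem wa_x_join (x w u : ℕ → ℕ) : wa_x (join (join x w) u) = x := by
  funext i; simp [wa_x, join]

private theorem wa_w_join (x w u : ℕ → ℕ) : wa_w (join (join x w) u) = w := by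
  funext i; simp [wa_w, join]

private theorem wa_u_join (x w u : ℕ → ℕ) : wa_u (join (join x w) u) = u := by
  funext i; simp [wa_u, join]

private theorem wa_val_w {P : (ℕ → ℕ) → α → ℕ → Prop} (hP : Ar (fun z (p : α × ℕ) => P z p.1 p.2))
    {f : α → ℕ} (hf : Primrec f) : Ar (fun z a => P z a (wa_w z (f a))) := by
  refine Ar.val (P := fun z a v => P z a v.unpair.1.unpair.2) ?_ hf
  exact hP.comp (f := fun p : α × ℕ => (p.1, p.2.unpair.1.unpair.2))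
    (Primrec.fst.pair (Primrec.snd.comp (Primrec.unpair.comp (Primrec.fst.comp
      (Primrec.unpair.comp Primrec.snd)))))

private theorem wa_val_x {P : (ℕ → ℕ) → α → ℕ → Prop} (hP : Ar (fun z (p : α × ℕ) => P z p.1 p.2))
    {f : α → ℕ} (hf : Primrec f) : Ar (fun z a => P z a (wa_x z (f a))) := by
  refine Ar.val (P := fun z a v => P z a v.unpair.1.unpair.1) ?_ hf
  exact hP.comp (f := fun p : α × ℕ => (p.1, p.2.unpair.1.unpair.1))
    (Primrec.fst.pair (Primrec.fst.comp (Primrec.unpair.comp (Primrec.fst.comp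
      (Primrec.unpair.comp Primrec.snd)))))

private theorem wa_val_u {P : (ℕ → ℕ) → α → ℕ → Prop} (hP : Ar (fun z (p : α × ℕ) => P z p.1 p.2))
    {f : α → ℕ} (hf : Primrec f) : Ar (fun z a => P z a (wa_u z (f a))) := by
  refine Ar.val (P := fun z a v => P z a v.unpair.2) ?_ hf
  exact hP.comp (f := fun p : α × ℕ => (p.1, p.2.unpair.2))
    (Primrec.fst.pair (Primrec.snd.comp (Primrec.unpair.comp Primrec.snd)))

private theorem wa_dec_eq {β : Type} [Primcodable β] {f g : α → β} (hf : Primrec f) (hg : Primrec g) :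
    Ar (fun _ a => f a = g a) := by
  classical
  exact Ar.dec (Primrec.eq.comp hf hg)

private theorem wa_w_eq {f : α → ℕ} (hf : Primrec f) : Ar (fun z a => wa_w z (f a) = 1) :=
  wa_val_w (P := fun _ _ v => v = 1) (wa_dec_eq Primrec.snd (Primrec.const 1)) hf

private theorem wa_x_eq {f : α → ℕ} (hf : Primrec f) : Ar (fun z a => wa_x z (f a) = 1) :=
  wa_val_x (P := fun _ _ v => v = 1) (wa_dec_eq Primrec.snd (Primrec.const 1)) hf

private theorem wa_lt {f g : α → ℕ} (hf : Primrec f) (hg : Primrec g) :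
    Ar (fun z a => wlt (wa_w z) (f a) (g a)) :=
  wa_w_eq (f := fun a => Nat.pair 0 (Nat.pair (f a) (g a)))
    (Primrec₂.natPair.comp (Primrec.const 0) (Primrec₂.natPair.comp hf hg))

private theorem wa_E {f g : α → ℕ} (hf : Primrec f) (hg : Primrec g) :
    Ar (fun z a => wE (wa_w z) (f a) (g a)) :=
  wa_w_eq (f := fun a => Nat.pair 1 (Nat.pair (f a) (g a)))
    (Primrec₂.natPair.comp (Primrec.const 1) (Primrec₂.natPair.comp hf hg))

private theorem wa_N {f g : α → ℕ} (hf : Primrec f) (hg : Primrec g) :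
    Ar (fun z a => wN (wa_w z) (f a) (g a)) :=
  wa_w_eq (f := fun a => Nat.pair 2 (Nat.pair (f a) (g a)))
    (Primrec₂.natPair.comp (Primrec.const 2) (Primrec₂.natPair.comp hf hg))

private theorem wa_S {f g : α → ℕ} {s : α → List ℕ} (hf : Primrec f) (hg : Primrec g)
    (hs : Primrec s) : Ar (fun z a => wS (wa_w z) (f a) (g a) (s a)) :=
  wa_w_eq (f := fun a => Nat.pair 3 (Nat.pair (f a) (Nat.pair (g a) (encode (s a)))))
    (Primrec₂.natPair.comp (Primrec.const 3) (Primrec₂.natPair.comp hf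
      (Primrec₂.natPair.comp hg (Primrec.encode.comp hs))))

private theorem wa_get {s : α → List ℕ} {i a : α → ℕ} (hs : Primrec s) (hi : Primrec i)
    (ha : Primrec a) : Ar (fun _ p => (s p)[i p]? = some (a p)) :=
  wa_dec_eq (f := fun p => (s p)[i p]?) (g := fun p => some (a p))
    (Primrec.list_getElem?.comp hs hi) (Primrec.option_some.comp ha)

/-- quantifier over the members of a list -/
private theorem wa_ball {s : α → List ℕ} (hs : Primrec s) {P : (ℕ → ℕ) → α → ℕ → Prop}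
    (hP : Ar (fun z (p : α × ℕ) => P z p.1 p.2)) : Ar (fun z p => ∀ a ∈ s p, P z p a) := by
  have h : Ar (fun z p => ∀ i a : ℕ, (s p)[i]? = some a → P z p a) := by
    refine Ar.all ?_
    refine Ar.all ?_
    refine Ar.imp ?_ ?_
    · exact wa_get (hs.comp (Primrec.fst.comp Primrec.fst)) (Primrec.snd.comp Primrec.fst)
        Primrec.snd
    · exact hP.comp (f := fun q : (α × ℕ) × ℕ => (q.1.1, q.2))
        ((Primrec.fst.comp Primrec.fst).pair Primrec.snd)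
  refine h.congr ?_
  intro z p
  constructor
  · intro h a ha
    obtain ⟨i, hi⟩ := List.mem_iff_getElem?.1 ha
    exact h i a hi
  · intro h i a hi
    exact h a (List.mem_iff_getElem?.2 ⟨i, hi⟩)

section clauses

private theorem wa_c1 : Ar (fun z (_ : ℕ) => ∀ n, ¬ wlt (wa_w z) n n) := by
  refine Ar.all ?_
  exact (wa_lt Primrec.snd Primrec.snd).not

private theorem wa_c2 : Ar (fun z (_ : ℕ) => ∀ a b c, wlt (wa_w z) a b → wlt (wa_w z) b c →
    wlt (wa_w z) a c) := by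
  refine Ar.all ?_
  refine Ar.all ?_
  refine Ar.all ?_
  have ha : Primrec (fun p : ((ℕ × ℕ) × ℕ) × ℕ => p.1.1.2) :=
    Primrec.snd.comp (Primrec.fst.comp Primrec.fst)
  have hb : Primrec (fun p : ((ℕ × ℕ) × ℕ) × ℕ => p.1.2) := Primrec.snd.comp Primrec.fst
  have hc : Primrec (fun p : ((ℕ × ℕ) × ℕ) × ℕ => p.2) := Primrec.snd
  exact (wa_lt ha hb).imp ((wa_lt hb hc).imp (wa_lt ha hc))

private theorem wa_c3 : Ar (fun z (_ : ℕ) => ∀ a b c, wlt (wa_w z) a b → wlt (wa_w z) a c ∨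
    wlt (wa_w z) c b) := by
  refine Ar.all ?_
  refine Ar.all ?_
  refine Ar.all ?_
  have ha : Primrec (fun p : ((ℕ × ℕ) × ℕ) × ℕ => p.1.1.2) :=
    Primrec.snd.comp (Primrec.fst.comp Primrec.fst)
  have hb : Primrec (fun p : ((ℕ × ℕ) × ℕ) × ℕ => p.1.2) := Primrec.snd.comp Primrec.fst
  have hc : Primrec (fun p : ((ℕ × ℕ) × ℕ) × ℕ => p.2) := Primrec.snd
  exact (wa_lt ha hb).imp ((wa_lt ha hc).or (wa_lt hc hb))

private theorem wa_pair {f g : α → ℕ} (hf : Primrec f) (hg : Primrec g) :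
    Primrec (fun a => 4 * Nat.pair (f a) (g a)) :=
  Primrec.nat_mul.comp (Primrec.const 4) (Primrec₂.natPair.comp hf hg)

private theorem wa_add {f : α → ℕ} (hf : Primrec f) (c : ℕ) : Primrec (fun a => f a + c) :=
  Primrec.nat_add.comp hf (Primrec.const c)

private theorem wa_c4 : Ar (fun z (_ : ℕ) => ∀ m i j (s : List ℕ),
    wS (wa_w z) m (4 * Nat.pair i j) s ↔ ∃ a b, s[i]? = some a ∧ s[j]? = some b ∧
      wE (wa_w z) a b) := by
  refine Ar.all ?_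
  refine Ar.all ?_
  refine Ar.all ?_
  refine Ar.all ?_
  refine Ar.iff ?_ ?_
  · have hm : Primrec (fun p : (((ℕ × ℕ) × ℕ) × ℕ) × List ℕ => p.1.1.1.2) :=
      Primrec.snd.comp (Primrec.fst.comp (Primrec.fst.comp Primrec.fst))
    have hi : Primrec (fun p : (((ℕ × ℕ) × ℕ) × ℕ) × List ℕ => p.1.1.2) :=
      Primrec.snd.comp (Primrec.fst.comp Primrec.fst)
    have hj : Primrec (fun p : (((ℕ × ℕ) × ℕ) × ℕ) × List ℕ => p.1.2) :=
      Primrec.snd.comp Primrec.fst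
    exact wa_S hm (wa_pair hi hj) Primrec.snd
  · refine Ar.ex ?_
    refine Ar.ex ?_
    have hi : Primrec (fun p : (((((ℕ × ℕ) × ℕ) × ℕ) × List ℕ) × ℕ) × ℕ => p.1.1.1.1.2) :=
      Primrec.snd.comp (Primrec.fst.comp (Primrec.fst.comp (Primrec.fst.comp Primrec.fst)))
    have hj : Primrec (fun p : (((((ℕ × ℕ) × ℕ) × ℕ) × List ℕ) × ℕ) × ℕ => p.1.1.1.2) :=
      Primrec.snd.comp (Primrec.fst.comp (Primrec.fst.comp Primrec.fst))
    have hs : Primrec (fun p : (((((ℕ × ℕ) × ℕ) × ℕ) × List ℕ) × ℕ) × ℕ => p.1.1.2) :=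
      Primrec.snd.comp (Primrec.fst.comp Primrec.fst)
    have ha : Primrec (fun p : (((((ℕ × ℕ) × ℕ) × ℕ) × List ℕ) × ℕ) × ℕ => p.1.2) :=
      Primrec.snd.comp Primrec.fst
    exact (wa_get hs hi ha).and ((wa_get hs hj Primrec.snd).and (wa_E ha Primrec.snd))

private theorem wa_c5 : Ar (fun z (_ : ℕ) => ∀ m i j (s : List ℕ),
    wS (wa_w z) m (4 * Nat.pair i j + 1) s ↔ ∃ a, s[i]? = some a ∧ s[j]? = some a) := by
  refine Ar.all ?_
  refine Ar.all ?_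
  refine Ar.all ?_
  refine Ar.all ?_
  refine Ar.iff ?_ ?_
  · have hm : Primrec (fun p : (((ℕ × ℕ) × ℕ) × ℕ) × List ℕ => p.1.1.1.2) :=
      Primrec.snd.comp (Primrec.fst.comp (Primrec.fst.comp Primrec.fst))
    have hi : Primrec (fun p : (((ℕ × ℕ) × ℕ) × ℕ) × List ℕ => p.1.1.2) :=
      Primrec.snd.comp (Primrec.fst.comp Primrec.fst)
    have hj : Primrec (fun p : (((ℕ × ℕ) × ℕ) × ℕ) × List ℕ => p.1.2) :=
      Primrec.snd.comp Primrec.fst
    exact wa_S hm (wa_add (wa_pair hi hj) 1) Primrec.snd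
  · refine Ar.ex ?_
    have hi : Primrec (fun p : ((((ℕ × ℕ) × ℕ) × ℕ) × List ℕ) × ℕ => p.1.1.1.2) :=
      Primrec.snd.comp (Primrec.fst.comp (Primrec.fst.comp Primrec.fst))
    have hj : Primrec (fun p : ((((ℕ × ℕ) × ℕ) × ℕ) × List ℕ) × ℕ => p.1.1.2) :=
      Primrec.snd.comp (Primrec.fst.comp Primrec.fst)
    have hs : Primrec (fun p : ((((ℕ × ℕ) × ℕ) × ℕ) × List ℕ) × ℕ => p.1.2) :=
      Primrec.snd.comp Primrec.fst
    exact (wa_get hs hi Primrec.snd).and (wa_get hs hj Primrec.snd)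

private theorem wa_c6 : Ar (fun z (_ : ℕ) => ∀ m a b (s : List ℕ),
    wS (wa_w z) m (4 * Nat.pair a b + 2) s ↔ ¬ (wS (wa_w z) m a s ∧ wS (wa_w z) m b s)) := by
  refine Ar.all ?_
  refine Ar.all ?_
  refine Ar.all ?_
  refine Ar.all ?_
  have hm : Primrec (fun p : (((ℕ × ℕ) × ℕ) × ℕ) × List ℕ => p.1.1.1.2) :=
    Primrec.snd.comp (Primrec.fst.comp (Primrec.fst.comp Primrec.fst))
  have hi : Primrec (fun p : (((ℕ × ℕ) × ℕ) × ℕ) × List ℕ => p.1.1.2) :=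
    Primrec.snd.comp (Primrec.fst.comp Primrec.fst)
  have hj : Primrec (fun p : (((ℕ × ℕ) × ℕ) × ℕ) × List ℕ => p.1.2) :=
    Primrec.snd.comp Primrec.fst
  exact (wa_S hm (wa_add (wa_pair hi hj) 2) Primrec.snd).iff
    ((wa_S hm hi Primrec.snd).and (wa_S hm hj Primrec.snd)).not

private theorem wa_c7 : Ar (fun z (_ : ℕ) => ∀ m a (s : List ℕ),
    wS (wa_w z) m (4 * a + 3) s ↔ ∃ n, wlt (wa_w z) n m ∧ wS (wa_w z) m a (n :: s)) := by
  refine Ar.all ?_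
  refine Ar.all ?_
  refine Ar.all ?_
  refine Ar.iff ?_ ?_
  · have hm : Primrec (fun p : ((ℕ × ℕ) × ℕ) × List ℕ => p.1.1.2) :=
      Primrec.snd.comp (Primrec.fst.comp Primrec.fst)
    have ha : Primrec (fun p : ((ℕ × ℕ) × ℕ) × List ℕ => p.1.2) :=
      Primrec.snd.comp Primrec.fst
    exact wa_S hm (wa_add (Primrec.nat_mul.comp (Primrec.const 4) ha) 3) Primrec.snd
  · refine Ar.ex ?_
    have hm : Primrec (fun p : (((ℕ × ℕ) × ℕ) × List ℕ) × ℕ => p.1.1.1.2) :=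
      Primrec.snd.comp (Primrec.fst.comp (Primrec.fst.comp Primrec.fst))
    have ha : Primrec (fun p : (((ℕ × ℕ) × ℕ) × List ℕ) × ℕ => p.1.1.2) :=
      Primrec.snd.comp (Primrec.fst.comp Primrec.fst)
    have hs : Primrec (fun p : (((ℕ × ℕ) × ℕ) × List ℕ) × ℕ => p.1.2) :=
      Primrec.snd.comp Primrec.fst
    have hns : Primrec (fun p : (((ℕ × ℕ) × ℕ) × List ℕ) × ℕ => p.2 :: p.1.2) :=
      Primrec.list_cons.comp Primrec.snd hs
    exact (wa_lt Primrec.snd hm).and (wa_S hm ha hns)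

private theorem wa_c8 : Ar (fun z (_ : ℕ) => ∀ m : ℕ, ∃ (c : ℕ) (s : List ℕ),
    (∀ a ∈ s, wlt (wa_w z) a m) ∧
    ∀ n, wE (wa_w z) n m ↔ wlt (wa_w z) n m ∧ wS (wa_w z) m c (n :: s)) := by
  refine Ar.all ?_
  refine Ar.ex ?_
  refine Ar.ex ?_
  refine Ar.and ?_ ?_
  · have hs : Primrec (fun p : ((ℕ × ℕ) × ℕ) × List ℕ => p.2) := Primrec.snd
    refine wa_ball hs (P := fun z p a => wlt (wa_w z) a p.1.1.2) ?_
    have hm : Primrec (fun p : (((ℕ × ℕ) × ℕ) × List ℕ) × ℕ => p.1.1.1.2) :=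
      Primrec.snd.comp (Primrec.fst.comp (Primrec.fst.comp Primrec.fst))
    exact wa_lt Primrec.snd hm
  · refine Ar.all ?_
    have hm : Primrec (fun p : (((ℕ × ℕ) × ℕ) × List ℕ) × ℕ => p.1.1.1.2) :=
      Primrec.snd.comp (Primrec.fst.comp (Primrec.fst.comp Primrec.fst))
    have hc : Primrec (fun p : (((ℕ × ℕ) × ℕ) × List ℕ) × ℕ => p.1.1.2) :=
      Primrec.snd.comp (Primrec.fst.comp Primrec.fst)
    have hns : Primrec (fun p : (((ℕ × ℕ) × ℕ) × List ℕ) × ℕ => p.2 :: p.1.2) :=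
      Primrec.list_cons.comp Primrec.snd (Primrec.snd.comp Primrec.fst)
    exact (wa_E Primrec.snd hm).iff ((wa_lt Primrec.snd hm).and (wa_S hm hc hns))

private theorem wa_c9 : Ar (fun z (_ : ℕ) => ∀ (m c : ℕ) (s : List ℕ),
    (∀ a ∈ s, wlt (wa_w z) a m) →
    ∃ k, ¬ wlt (wa_w z) m k ∧
      ∀ n, wE (wa_w z) n k ↔ wlt (wa_w z) n m ∧ wS (wa_w z) m c (n :: s)) := by
  refine Ar.all ?_
  refine Ar.all ?_
  refine Ar.all ?_
  refine Ar.imp ?_ ?_
  · have hs : Primrec (fun p : ((ℕ × ℕ) × ℕ) × List ℕ => p.2) := Primrec.snd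
    refine wa_ball hs (P := fun z p a => wlt (wa_w z) a p.1.1.2) ?_
    have hm : Primrec (fun p : (((ℕ × ℕ) × ℕ) × List ℕ) × ℕ => p.1.1.1.2) :=
      Primrec.snd.comp (Primrec.fst.comp (Primrec.fst.comp Primrec.fst))
    exact wa_lt Primrec.snd hm
  · refine Ar.ex ?_
    refine Ar.and ?_ ?_
    · have hm : Primrec (fun p : (((ℕ × ℕ) × ℕ) × List ℕ) × ℕ => p.1.1.1.2) :=
        Primrec.snd.comp (Primrec.fst.comp (Primrec.fst.comp Primrec.fst))
      exact (wa_lt hm Primrec.snd).not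
    · refine Ar.all ?_
      have hm : Primrec (fun p : ((((ℕ × ℕ) × ℕ) × List ℕ) × ℕ) × ℕ => p.1.1.1.1.2) :=
        Primrec.snd.comp (Primrec.fst.comp (Primrec.fst.comp (Primrec.fst.comp Primrec.fst)))
      have hc : Primrec (fun p : ((((ℕ × ℕ) × ℕ) × List ℕ) × ℕ) × ℕ => p.1.1.1.2) :=
        Primrec.snd.comp (Primrec.fst.comp (Primrec.fst.comp Primrec.fst))
      have hk : Primrec (fun p : ((((ℕ × ℕ) × ℕ) × List ℕ) × ℕ) × ℕ => p.1.2) :=
        Primrec.snd.comp Primrec.fst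
      have hns : Primrec (fun p : ((((ℕ × ℕ) × ℕ) × List ℕ) × ℕ) × ℕ => p.2 :: p.1.1.2) :=
        Primrec.list_cons.comp Primrec.snd (Primrec.snd.comp (Primrec.fst.comp Primrec.fst))
      exact (wa_E Primrec.snd hk).iff ((wa_lt Primrec.snd hm).and (wa_S hm hc hns))

private theorem wa_c10 : Ar (fun z (_ : ℕ) => ∀ n m : ℕ,
    (∀ k, wE (wa_w z) k n ↔ wE (wa_w z) k m) → n = m) := by
  refine Ar.all ?_
  refine Ar.all ?_
  refine Ar.imp ?_ ?_
  · refine Ar.all ?_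
    have hn : Primrec (fun p : ((ℕ × ℕ) × ℕ) × ℕ => p.1.1.2) :=
      Primrec.snd.comp (Primrec.fst.comp Primrec.fst)
    have hm : Primrec (fun p : ((ℕ × ℕ) × ℕ) × ℕ => p.1.2) := Primrec.snd.comp Primrec.fst
    exact (wa_E Primrec.snd hn).iff (wa_E Primrec.snd hm)
  · exact wa_dec_eq (Primrec.snd.comp Primrec.fst) Primrec.snd

private theorem wa_c11 : Ar (fun z (_ : ℕ) => ∀ n, wN (wa_w z) 0 n → ∀ k, ¬ wE (wa_w z) k n) := by
  refine Ar.all ?_
  refine Ar.imp ?_ ?_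
  · exact wa_N (Primrec.const 0) Primrec.snd
  · refine Ar.all ?_
    exact (wa_E Primrec.snd (Primrec.snd.comp Primrec.fst)).not

private theorem wa_c12 : Ar (fun z (_ : ℕ) => ∀ k n m, wN (wa_w z) k n → wN (wa_w z) (k + 1) m →
    ∀ a, wE (wa_w z) a m ↔ wE (wa_w z) a n ∨ a = n) := by
  refine Ar.all ?_
  refine Ar.all ?_
  refine Ar.all ?_
  have hk : Primrec (fun p : ((ℕ × ℕ) × ℕ) × ℕ => p.1.1.2) :=
    Primrec.snd.comp (Primrec.fst.comp Primrec.fst)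
  have hn : Primrec (fun p : ((ℕ × ℕ) × ℕ) × ℕ => p.1.2) := Primrec.snd.comp Primrec.fst
  have hm : Primrec (fun p : ((ℕ × ℕ) × ℕ) × ℕ => p.2) := Primrec.snd
  refine Ar.imp (wa_N hk hn) (Ar.imp (wa_N (wa_add hk 1) hm) ?_)
  refine Ar.all ?_
  have hn' : Primrec (fun p : (((ℕ × ℕ) × ℕ) × ℕ) × ℕ => p.1.1.2) :=
    Primrec.snd.comp (Primrec.fst.comp Primrec.fst)
  have hm' : Primrec (fun p : (((ℕ × ℕ) × ℕ) × ℕ) × ℕ => p.1.2) := Primrec.snd.comp Primrec.fst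
  exact (wa_E Primrec.snd hm').iff ((wa_E Primrec.snd hn').or (wa_dec_eq Primrec.snd hn'))

private theorem wa_c13 : Ar (fun z (_ : ℕ) => ∀ k, ∃ n, wN (wa_w z) k n) := by
  refine Ar.all ?_
  refine Ar.ex ?_
  exact wa_N (Primrec.snd.comp Primrec.fst) Primrec.snd

private theorem wa_rep : Ar (fun z (_ : ℕ) => ∃ t, Rep (wE (wa_w z)) (wN (wa_w z)) (wa_x z) t) := by
  refine Ar.ex ?_
  have h1 : Ar (fun z (p : ℕ × ℕ) => ∀ n, wE (wa_w z) n p.2 → ∃ k, wN (wa_w z) k n) := by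
    refine Ar.all ?_
    refine Ar.imp ?_ ?_
    · exact wa_E Primrec.snd (Primrec.snd.comp Primrec.fst)
    · refine Ar.ex ?_
      exact wa_N Primrec.snd (Primrec.snd.comp Primrec.fst)
  have h2 : Ar (fun z (p : ℕ × ℕ) => ∀ k n, wN (wa_w z) k n →
      (wE (wa_w z) n p.2 ↔ wa_x z k = 1)) := by
    refine Ar.all ?_
    refine Ar.all ?_
    have ht : Primrec (fun p : ((ℕ × ℕ) × ℕ) × ℕ => p.1.1.2) :=
      Primrec.snd.comp (Primrec.fst.comp Primrec.fst)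
    have hk : Primrec (fun p : ((ℕ × ℕ) × ℕ) × ℕ => p.1.2) := Primrec.snd.comp Primrec.fst
    exact (wa_N hk Primrec.snd).imp ((wa_E Primrec.snd ht).iff (wa_x_eq hk))
  exact h1.and h2

private theorem wa_le : Ar (fun z (_ : ℕ) => ∀ i, wa_w z i ≤ 1) := by
  refine Ar.all ?_
  refine wa_val_w (P := fun _ _ v => v ≤ 1) ?_ Primrec.snd
  exact Ar.dec (Primrec.nat_le.comp Primrec.snd (Primrec.const 1))

private theorem wa_desc : Ar (fun z (_ : ℕ) => ∃ n, ¬ wlt (wa_w z) (wa_u z (n + 1)) (wa_u z n)) := by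
  refine Ar.ex ?_
  refine Ar.not ?_
  refine wa_val_u (P := fun z (p : ℕ × ℕ) v => wlt (wa_w z) v (wa_u z p.2)) ?_
    (f := fun p : ℕ × ℕ => p.2 + 1) (wa_add Primrec.snd 1)
  refine wa_val_u (P := fun z (p : (ℕ × ℕ) × ℕ) v => wlt (wa_w z) p.2 v) ?_
    (f := fun p : (ℕ × ℕ) × ℕ => p.1.2) (Primrec.snd.comp Primrec.fst)
  exact wa_lt (Primrec.snd.comp Primrec.fst) Primrec.snd

private theorem wa_cert_iff {lt E N : ℕ → ℕ → Prop} {S : ℕ → ℕ → List ℕ → Prop} :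
    Cert lt E N S ↔
    (∀ n, ¬ lt n n) ∧ (∀ a b c, lt a b → lt b c → lt a c) ∧
    (∀ a b c, lt a b → lt a c ∨ lt c b) ∧
    (∀ m i j s, S m (4 * Nat.pair i j) s ↔ ∃ a b, s[i]? = some a ∧ s[j]? = some b ∧ E a b) ∧
    (∀ m i j s, S m (4 * Nat.pair i j + 1) s ↔ ∃ a, s[i]? = some a ∧ s[j]? = some a) ∧
    (∀ m a b s, S m (4 * Nat.pair a b + 2) s ↔ ¬ (S m a s ∧ S m b s)) ∧
    (∀ m a s, S m (4 * a + 3) s ↔ ∃ n, lt n m ∧ S m a (n :: s)) ∧
    (∀ m, ∃ c s, (∀ a ∈ s, lt a m) ∧ ∀ n, E n m ↔ lt n m ∧ S m c (n :: s)) ∧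
    (∀ m c s, (∀ a ∈ s, lt a m) →
      ∃ k, ¬ lt m k ∧ ∀ n, E n k ↔ lt n m ∧ S m c (n :: s)) ∧
    (∀ n m, (∀ k, E k n ↔ E k m) → n = m) ∧
    (∀ n, N 0 n → ∀ k, ¬ E k n) ∧
    (∀ k n m, N k n → N (k + 1) m → ∀ a, E a m ↔ E a n ∨ a = n) ∧
    (∀ k, ∃ n, N k n) := by
  constructor
  · rintro ⟨h1, h2, h3, h4, h5, h6, h7, h8, h9, h10, h11, h12, h13⟩
    exact ⟨h1, h2, h3, h4, h5, h6, h7, h8, h9, h10, h11, h12, h13⟩
  · rintro ⟨h1, h2, h3, h4, h5, h6, h7, h8, h9, h10, h11, h12, h13⟩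
    exact ⟨h1, h2, h3, h4, h5, h6, h7, h8, h9, h10, h11, h12, h13⟩

private theorem wa_cert : Ar (fun z (_ : ℕ) =>
    Cert (wlt (wa_w z)) (wE (wa_w z)) (wN (wa_w z)) (wS (wa_w z))) := by
  refine Ar.congr ?_ (fun z _ => wa_cert_iff.symm)
  exact wa_c1.and (wa_c2.and (wa_c3.and (wa_c4.and (wa_c5.and (wa_c6.and (wa_c7.and
    (wa_c8.and (wa_c9.and (wa_c10.and (wa_c11.and (wa_c12.and wa_c13)))))))))))

end clauses

private theorem wa_wf {r : ℕ → ℕ → Prop} :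
    WellFounded r ↔ ∀ u : ℕ → ℕ, ∃ n, ¬ r (u (n + 1)) (u n) := by
  rw [wellFounded_iff_isEmpty_descending_chain]
  constructor
  · intro h u
    by_contra hcon
    push Not at hcon
    exact h.false ⟨u, hcon⟩
  · intro h
    refine ⟨fun f => ?_⟩
    obtain ⟨n, hn⟩ := h f.1
    exact hn (f.2 n)

theorem exists_K_cert : ∃ K, PrimK K ∧
    ∀ x w, Bk K (join x w) ↔ WCert x w ∧ WellFounded (wlt w) := by
  have hP : Ar (fun z (_ : ℕ) => WCert (wa_x z) (wa_w z) ∧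
      ∃ n, ¬ wlt (wa_w z) (wa_u z (n + 1)) (wa_u z n)) :=
    (wa_le.and (wa_cert.and wa_rep)).and wa_desc
  obtain ⟨K, hK, h⟩ := exists_K (P := fun z => WCert (wa_x z) (wa_w z) ∧
      ∃ n, ¬ wlt (wa_w z) (wa_u z (n + 1)) (wa_u z n)) hP
  refine ⟨K, hK, fun x w => ?_⟩
  rw [h]
  simp only [wa_x_join, wa_w_join, wa_u_join]
  rw [wa_wf]
  constructor
  · intro h
    exact ⟨(h (fun _ => 0)).1, fun u => (h u).2⟩
  · rintro ⟨h1, h2⟩ u
    exact ⟨h1, h2 u⟩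

end Pool.Agent.H76.TH
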