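import Pool.Agent.H76.TH.MS
import Pool.Agent.H76.TH.RunB
import Pool.Agent.H76.TH.KonB
import Pool.Agent.H76.TH.Bdd
import Pool.Agent.H76.TH.Snd
import Pool.Agent.H76.TH.MkW
import Pool.Agent.H76.TH.WAr
import Pool.Agent.H76.TH.Cnt
import Pool.Agent.H76.TH.Mach
import Pool.Agent.H76.ITTM.Borel

/-!
Project THIN: assembly.
-/

set_option autoImplicit false

open Encodable Pool.Agent.H75.EK Pool.Agent.H76.ITTM Ordinal

namespace Pool.Agent.H76.TH

theorem PrimK.kDef {K : List ℕ → ℕ → ℕ → Prop} (hK : PrimK K) : KDef K := by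
  unfold KDef
  refine mDef_of_computablePred ?_
  obtain ⟨hd, h⟩ := hK
  exact ⟨hd, h.to_comp⟩

/-- A thin semidecidable set consists of constructible reals. -/
theorem constr_of_semidecidable {A : Set (ℕ → Bool)} (hthin : Thin A) (hs : Semidecidable A) :
    ∀ x ∈ A, Constr x := by
  obtain ⟨p, hp⟩ := hs
  obtain ⟨K, hK, h⟩ := halts_bk p
  intro x hx
  exact constr_of_thin hK.kDef (fun x => by rw [← hp x, h x]) hthin hx

/-- If there is an uncountable thin semidecidable set then there are uncountably many constructible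
reals. -/
theorem uncountable_constr {A : Set (ℕ → Bool)} (hthin : Thin A) (hs : Semidecidable A)
    (hA : ¬ A.Countable) : ¬ {x : ℕ → Bool | Constr x}.Countable :=
  fun hc => hA (hc.mono (constr_of_semidecidable hthin hs))

theorem natSet_injective : Function.Injective natSet := by
  intro X Y h
  have key : ∀ (X : Set ℕ) (k : ℕ), (k : Ordinal.{0}).toZFSet ∈ natSet X ↔ k ∈ X := by
    intro X k
    unfold natSet
    rw [ZFSet.mem_range]
    constructor
    · rintro ⟨⟨n, hn⟩, h⟩
      have h1 := Ordinal.toZFSet_injective h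
      have h2 : n = k := by exact_mod_cast h1
      exact h2 ▸ hn
    · intro hk
      exact ⟨⟨k, hk⟩, rfl⟩
  ext k
  rw [← key X k, h, key Y k]

/-! ### The thin set -/

/-- The list of the pairs of consecutive entries. -/
def prs (l : List ℕ) : List ℕ :=
  (List.range (l.length / 2)).map fun k => Nat.pair (l.getD (2 * k) 0) (l.getD (2 * k + 1) 0)

theorem primrec_prs : Primrec prs := by
  unfold prs
  refine Primrec.list_map (Primrec.list_range.comp
    (Primrec.nat_div.comp Primrec.list_length (Primrec.const 2))) ?_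
  have h1 : Primrec (fun p : List ℕ × ℕ => p.1.getD (2 * p.2) 0) :=
    (Primrec.list_getD 0).comp Primrec.fst (Primrec.nat_mul.comp (Primrec.const 2) Primrec.snd)
  have h2 : Primrec (fun p : List ℕ × ℕ => p.1.getD (2 * p.2 + 1) 0) :=
    (Primrec.list_getD 0).comp Primrec.fst
      (Primrec.succ.comp (Primrec.nat_mul.comp (Primrec.const 2) Primrec.snd))
  exact Primrec₂.natPair.comp h1 h2

theorem prs_res (y : ℕ → ℕ) (n : ℕ) :
    prs (res y n) = res (join (fun k => y (2 * k)) (fun k => y (2 * k + 1))) (n / 2) := by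
  unfold prs
  conv_rhs => unfold res
  rw [length_res]
  refine List.map_congr_left fun k hk => ?_
  rw [List.mem_range] at hk
  have h1 : 2 * k < n := by omega
  have h2 : 2 * k + 1 < n := by omega
  have h3 : ∀ i, i < n → (res y n).getD i 0 = y i := by
    intro i hi
    rw [List.getD_eq_getElem?_getD, getElem?_res, if_pos hi]
    rfl
  rw [h3 _ h1, h3 _ h2]
  rfl

theorem bk_prs {K : List ℕ → ℕ → ℕ → Prop} {y : ℕ → ℕ} :
    Bk (fun l i j => K (prs l) i j) y ↔
      Bk K (join (fun k => y (2 * k)) (fun k => y (2 * k + 1))) := by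
  constructor
  · rintro ⟨h, hh⟩
    refine ⟨h, fun n i j hK => hh (2 * n) i j ?_⟩
    dsimp only
    rw [prs_res]
    simpa using hK
  · rintro ⟨h, hh⟩
    refine ⟨h, fun n i j hK => hh (n / 2) i j ?_⟩
    dsimp only at hK
    rwa [prs_res] at hK

theorem exists_thin (hC : ¬ {x : ℕ → Bool | Constr x}.Countable) :
    ∃ A : Set (ℕ → Bool), Thin A ∧ Semidecidable A ∧ ¬ A.Countable := by
  obtain ⟨K, hK, hKc⟩ := exists_K_cert
  obtain ⟨K', hK', hsub, hex, huniq⟩ := kondo hK
  have hK2 : PrimK (fun l i j => K' (prs l) i j) := by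
    have h := PrimrecPred.comp hK' (f := fun p : List ℕ × ℕ × ℕ => (prs p.1, p.2.1, p.2.2))
      ((primrec_prs.comp Primrec.fst).pair Primrec.snd)
    exact h
  obtain ⟨d, hd, hsd⟩ := semidecidable_of_bk hK2
  set A : Set (ℕ → Bool) := {x : ℕ → Bool | (∀ q, ¬ d ∣ q → x q = false) ∧
      Bk (fun l i j => K' (prs l) i j) (fun i => (x (d * i)).toNat)} with hAdef
  -- the two reals coded by a member
  let X : (ℕ → Bool) → ℕ → Bool := fun x k => x (d * (2 * k))
  let W : (ℕ → Bool) → ℕ → ℕ := fun x k => (x (d * (2 * k + 1))).toNat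
  have hmem : ∀ x, x ∈ A ↔ (∀ q, ¬ d ∣ q → x q = false) ∧ Bk K' (join (toN (X x)) (W x)) := by
    intro x
    rw [hAdef]
    refine and_congr_right fun _ => ?_
    rw [bk_prs]
    rfl
  -- the real determines the member
  have hinj : ∀ x ∈ A, ∀ y ∈ A, X x = X y → x = y := by
    intro x hx y hy h
    rw [hmem] at hx hy
    have h1 : W x = W y := by
      refine huniq (toN (X x)) (W x) (W y) hx.2 ?_
      rw [h]; exact hy.2
    funext q
    by_cases hq : d ∣ q
    · obtain ⟨i, rfl⟩ := hq
      rcases Nat.even_or_odd' i with ⟨k, rfl | rfl⟩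
      · exact congrFun h k
      · have h2 := congrFun h1 k
        change (x (d * (2 * k + 1))).toNat = (y (d * (2 * k + 1))).toNat at h2
        cases hx2 : x (d * (2 * k + 1)) <;> cases hy2 : y (d * (2 * k + 1)) <;>
          simp [hx2, hy2] at h2 ⊢
    · rw [hx.1 q hq, hy.1 q hq]
  refine ⟨A, ?_, hsd, ?_⟩
  · -- thin
    intro C hCA hCc
    let F : (ℕ → Bool) → ℕ → ℕ := fun x => join (toN (X x)) (W x)
    have hF : Continuous F := by
      refine continuous_pi fun k => ?_
      have h : (fun x : ℕ → Bool => F x k) =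
          (fun q : Bool × Bool => Nat.pair q.1.toNat q.2.toNat) ∘
            fun x => (x (d * (2 * k)), x (d * (2 * k + 1))) := rfl
      rw [h]
      exact (continuous_of_discreteTopology).comp
        ((continuous_apply _).prodMk (continuous_apply _))
    have hcl : IsClosed (F '' C) := (hCc.isCompact.image hF).isClosed
    let K1 : List ℕ → ℕ → ℕ → Prop := fun l i j =>
      ∃ y, l[Nat.pair 0 (Nat.pair j i)]? = some y ∧ y.unpair.2 = 1
    have hK1 : ∀ (x w : ℕ → ℕ) (n i j : ℕ), K1 (res (join x w) n) i j → wlt w j i := by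
      intro x w n i j h
      obtain ⟨y, h1, h2⟩ := h
      rw [getElem?_res_eq_some] at h1
      unfold wlt
      rw [← h2, ← h1.2]
      simp [join]
    have hK1' : ∀ (x w : ℕ → ℕ) (i j : ℕ), wlt w j i →
        K1 (res (join x w) (Nat.pair 0 (Nat.pair j i) + 1)) i j := by
      intro x w i j h
      refine ⟨join x w (Nat.pair 0 (Nat.pair j i)), ?_, ?_⟩
      · rw [getElem?_res_eq_some]
        exact ⟨by omega, rfl⟩
      · simp [join]; exact h
    have hbk : ∀ a ∈ F '' C, Bk K1 a := by
      rintro a ⟨x, hx, rfl⟩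
      have h1 := hsub _ _ ((hmem x).1 (hCA hx)).2
      rw [hKc] at h1
      have : IsWellFounded ℕ (wlt (W x)) := ⟨h1.2⟩
      refine ⟨fun i => IsWellFounded.rank (wlt (W x)) i, fun n i j h => ?_⟩
      exact IsWellFounded.rank_lt_of_rel (hK1 _ _ n i j h)
    obtain ⟨α, hα, hb⟩ := bounded_of_closed hcl hbk
    have hC2 : Set.MapsTo (fun x => natSet {k | X x k = true}) C {y : ZFSet.{0} | y ∈ Lset α} := by
      intro x hx
      obtain ⟨h, h1, h2⟩ := hb (F x) ⟨x, hx, rfl⟩
      have h3 := hsub _ _ ((hmem x).1 (hCA hx)).2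
      rw [hKc] at h3
      obtain ⟨⟨-, h4, t, h5⟩, -⟩ := h3
      have h6 := h4.sound (α := α) (r₀ := h)
        (fun n m hnm => h2 _ _ _ (hK1' (toN (X x)) (W x) m n hnm)) h1 h5
      have h7 : {k | X x k = true} = {k | toN (X x) k = 1} := by
        ext k
        simp [toN]
      change natSet {k | X x k = true} ∈ Lset α
      rw [h7]
      exact h6
    refine Set.MapsTo.countable_of_injOn hC2 ?_ (countable_Lset hα)
    intro x hx y hy hxy
    refine hinj x (hCA hx) y (hCA hy) ?_
    have h := natSet_injective hxy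
    funext k
    have h1 : k ∈ {k | X x k = true} ↔ k ∈ {k | X y k = true} := by rw [h]
    simp only [Set.mem_ofPred_eq] at h1
    cases hX : X x k <;> cases hY : X y k <;> simp_all
  · -- uncountable
    intro hcount
    refine hC ((hcount.image X).mono ?_)
    intro x hx
    obtain ⟨w, hw, hwf⟩ := exists_wCert hx
    obtain ⟨w', hw'⟩ := hex (toN x) ⟨w, (hKc _ _).2 ⟨hw, hwf⟩⟩
    have hle : ∀ i, w' i ≤ 1 := ((hKc _ _).1 (hsub _ _ hw')).1.1
    let z : ℕ → Bool := fun q =>
      if d ∣ q then (if (q / d) % 2 = 0 then x ((q / d) / 2) else decide (w' ((q / d) / 2) = 1))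
      else false
    have hz : ∀ i, z (d * i) = if i % 2 = 0 then x (i / 2) else decide (w' (i / 2) = 1) := by
      intro i
      have hdi : d * i / d = i := Nat.mul_div_cancel_left i hd
      simp only [z, Nat.dvd_mul_right, if_true, hdi]
    have hX : X z = x := by
      funext k
      change z (d * (2 * k)) = x k
      rw [hz]
      simp
    have hW : W z = w' := by
      funext k
      change (z (d * (2 * k + 1))).toNat = w' k
      rw [hz]
      have h1 : (2 * k + 1) % 2 = 1 := by omega
      have h2 : (2 * k + 1) / 2 = k := by omega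
      have h3 := hle k
      rw [h1, h2]
      simp only [one_ne_zero, if_false]
      rcases Nat.le_one_iff_eq_zero_or_eq_one.1 h3 with h4 | h4 <;> simp [h4]
    refine ⟨z, ?_, hX⟩
    rw [hmem]
    refine ⟨fun q hq => by simp [z, hq], ?_⟩
    rw [hX, hW]
    exact hw'

end Pool.Agent.H76.TH
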