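import Pool.Agent.H76.TH.Defs

/-!
Project THIN, module FmA: first-order definable subsets (Mathlib formulas) are defined by the
formulas `Fm`.
Induction on Mathlib's `BoundedFormula` over the language with constants: for a bounded formula
`φ` with free variables in `Fin 1` and `n` bound variables there are `ψ : Fm` and a list `s` of
elements of `A` such that for all `v`, `xs`, realization of `φ` at `v`, `xs` is equivalent to
`sat A ψ ([xs (n-1), …, xs 0] ++ [v 0] ++ s)` (the last bound variable first).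
`mem_Def` is in `EK/L.lean`.
-/

set_option autoImplicit false

open FirstOrder Pool.Agent.H75.EK

namespace Pool.Agent.H76.TH

/-- the list of the values of the variables -/
def FmA_env {A : ZFSet.{0}} {n : ℕ} (w : A) (xs : Fin n → A) (s : List A) : List ZFSet.{0} :=
  ((List.ofFn xs).reverse ++ (w :: s)).map (fun a : A => (a : ZFSet.{0}))

theorem FmA_env_snoc {A : ZFSet.{0}} {n : ℕ} (w : A) (xs : Fin n → A) (s : List A) (a : A) :
    FmA_env w (Fin.snoc xs a : Fin (n + 1) → A) s = (a : ZFSet.{0}) :: FmA_env w xs s := by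
  unfold FmA_env
  rw [List.ofFn_succ']
  simp

theorem FmA_term {A : ZFSet.{0}} {n : ℕ}
    (t : LSet.Term (((Set.univ : Set A) ⊕ Fin 1) ⊕ Fin n)) :
    ∃ s0 : List A, ∀ s : List A, (∀ a ∈ s0, a ∈ s) → ∃ i : ℕ, ∀ (w : Fin 1 → A) (xs : Fin n → A),
      (FmA_env (w 0) xs s)[i]? =
        some ((t.realize (Sum.elim (Sum.elim (fun a : (Set.univ : Set A) => (a : A)) w) xs) : A) : ZFSet.{0}) := by
  cases t with
  | func f _ => exact Empty.elim f
  | var x =>
    rcases x with (a | j) | i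
    · refine ⟨[(a : A)], fun s hs => ?_⟩
      have ha : (a : A) ∈ s := hs _ (by simp)
      obtain ⟨k, hk⟩ := List.mem_iff_getElem?.1 ha
      refine ⟨n + (k + 1), fun w xs => ?_⟩
      unfold FmA_env
      rw [List.getElem?_map, List.getElem?_append_right (by simp)]
      simp [hk]
    · refine ⟨[], fun s _ => ⟨n, fun w xs => ?_⟩⟩
      unfold FmA_env
      rw [List.getElem?_map, List.getElem?_append_right (by simp)]
      have hj : j = 0 := Subsingleton.elim _ _
      simp [hj]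
    · refine ⟨[], fun s _ => ⟨n - 1 - i.val, fun w xs => ?_⟩⟩
      unfold FmA_env
      have hi := i.isLt
      rw [List.getElem?_map, List.getElem?_append_left (by simp; omega)]
      rw [List.getElem?_reverse (by simp; omega)]
      have h1 : (List.ofFn xs).length - 1 - (n - 1 - i.val) = i.val := by
        simp
        omega
      rw [h1]
      simp

theorem FmA_bf {A : ZFSet.{0}} {n : ℕ}
    (φ : LSet.BoundedFormula ((Set.univ : Set A) ⊕ Fin 1) n) :
    ∃ s0 : List A, ∀ s : List A, (∀ a ∈ s0, a ∈ s) → ∃ ψ : Fm,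
      ∀ (w : Fin 1 → A) (xs : Fin n → A),
        φ.Realize (Sum.elim (fun a : (Set.univ : Set A) => (a : A)) w) xs ↔ sat A ψ (FmA_env (w 0) xs s) := by
  induction φ with
  | falsum =>
    refine ⟨[], fun s _ => ⟨Fm.mem 0 0, fun w xs => ?_⟩⟩
    constructor
    · intro h
      exact absurd h id
    · rintro ⟨a, b, ha, hb, hab⟩
      rw [ha] at hb
      have : a = b := Option.some.inj hb
      subst this
      exact absurd hab (ZFSet.mem_irrefl a)
  | equal t₁ t₂ =>
    obtain ⟨s1, h1⟩ := FmA_term t₁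
    obtain ⟨s2, h2⟩ := FmA_term t₂
    refine ⟨s1 ++ s2, fun s hs => ?_⟩
    obtain ⟨i, hi⟩ := h1 s fun a ha => hs a (by simp [ha])
    obtain ⟨j, hj⟩ := h2 s fun a ha => hs a (by simp [ha])
    refine ⟨Fm.eq i j, fun w xs => ?_⟩
    change _ = _ ↔ ∃ a, _ ∧ _
    rw [hi w xs, hj w xs]
    constructor
    · intro h
      exact ⟨_, rfl, by rw [h]⟩
    · rintro ⟨a, ha, hb⟩
      have h3 := Option.some.inj ha
      have h4 := Option.some.inj hb
      exact Subtype.ext (h3.trans h4.symm)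
  | rel R ts =>
    cases R with
    | mem =>
      obtain ⟨s1, h1⟩ := FmA_term (ts 0)
      obtain ⟨s2, h2⟩ := FmA_term (ts 1)
      refine ⟨s1 ++ s2, fun s hs => ?_⟩
      obtain ⟨i, hi⟩ := h1 s fun a ha => hs a (by simp [ha])
      obtain ⟨j, hj⟩ := h2 s fun a ha => hs a (by simp [ha])
      refine ⟨Fm.mem i j, fun w xs => ?_⟩
      change _ ∈ _ ↔ ∃ a b, _ ∧ _ ∧ _
      rw [hi w xs, hj w xs]
      constructor
      · intro h
        exact ⟨_, _, rfl, rfl, h⟩
      · rintro ⟨a, b, ha, hb, hab⟩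
        have h3 := Option.some.inj ha
        have h4 := Option.some.inj hb
        rw [← h3, ← h4] at hab
        exact hab
  | imp f₁ f₂ ih1 ih2 =>
    obtain ⟨s1, h1⟩ := ih1
    obtain ⟨s2, h2⟩ := ih2
    refine ⟨s1 ++ s2, fun s hs => ?_⟩
    obtain ⟨ψ1, hψ1⟩ := h1 s fun a ha => hs a (by simp [ha])
    obtain ⟨ψ2, hψ2⟩ := h2 s fun a ha => hs a (by simp [ha])
    refine ⟨Fm.nand ψ1 (Fm.nand ψ2 ψ2), fun w xs => ?_⟩
    rw [Language.BoundedFormula.realize_imp, hψ1 w xs, hψ2 w xs]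
    change _ ↔ ¬ (_ ∧ ¬ (_ ∧ _))
    tauto
  | all f ih =>
    obtain ⟨s1, h1⟩ := ih
    refine ⟨s1, fun s hs => ?_⟩
    obtain ⟨ψ, hψ⟩ := h1 s hs
    refine ⟨Fm.nand (Fm.ex (Fm.nand ψ ψ)) (Fm.ex (Fm.nand ψ ψ)), fun w xs => ?_⟩
    rw [Language.BoundedFormula.realize_all]
    change _ ↔ ¬ ((∃ a ∈ A, ¬ (sat A ψ (a :: _) ∧ sat A ψ (a :: _))) ∧
      (∃ a ∈ A, ¬ (sat A ψ (a :: _) ∧ sat A ψ (a :: _))))
    simp only [and_self]
    constructor
    · rintro h ⟨a, ha, hna⟩
      apply hna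
      have h2 := (hψ w (Fin.snoc xs ⟨a, ha⟩)).1 (h ⟨a, ha⟩)
      rw [FmA_env_snoc] at h2
      exact h2
    · intro h a
      rw [hψ w (Fin.snoc xs a), FmA_env_snoc]
      by_contra hna
      exact h ⟨a, a.2, hna⟩

theorem exists_fm_of_mem_Def {A x : ZFSet.{0}} (h : x ∈ Def A) :
    ∃ (φ : Fm) (s : List ZFSet.{0}), (∀ a ∈ s, a ∈ A) ∧ x = defSet A φ s := by
  obtain ⟨hx, hd⟩ := mem_Def.1 h
  unfold Set.Definable₁ at hd
  obtain ⟨φ, hφ⟩ := Set.definable_iff_exists_formula_sum.1 hd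
  obtain ⟨s0, hs0⟩ := FmA_bf (n := 0) φ
  obtain ⟨ψ, hψ⟩ := hs0 s0 fun _ h => h
  refine ⟨ψ, s0.map (fun a : A => (a : ZFSet.{0})), ?_, ?_⟩
  · intro a ha
    obtain ⟨b, _, rfl⟩ := List.mem_map.1 ha
    exact b.2
  · ext y
    unfold defSet
    rw [ZFSet.mem_sep]
    have key : ∀ hy : y ∈ A, y ∈ x ↔ sat A ψ (y :: s0.map (fun a : A => (a : ZFSet.{0}))) := by
      intro hy
      have h1 := hψ (fun _ => ⟨y, hy⟩) default
      have h2 : FmA_env (⟨y, hy⟩ : A) (default : Fin 0 → A) s0 =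
          y :: s0.map (fun a : A => (a : ZFSet.{0})) := by
        unfold FmA_env
        simp
      rw [h2] at h1
      rw [← h1]
      have h3 := congrArg (fun S : Set (Fin 1 → A) => (fun _ => (⟨y, hy⟩ : A)) ∈ S) hφ
      simp only [Set.mem_ofPred_eq] at h3
      exact iff_of_eq h3
    constructor
    · intro hy
      exact ⟨hx hy, (key (hx hy)).1 hy⟩
    · rintro ⟨hy, hs⟩
      exact (key hy).2 hs

end Pool.Agent.H76.TH
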