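import Pool.Agent.H76.TH.FmA
import Pool.Agent.H76.TH.FmB

/-!
Project THIN, module Hull: every constructible real has a certificate.
Proof. For a constructible set `e` let `rk e` be the least `β` with `e ∈ Def (Lset β)`; then for all `β`,
`e ∈ Lset β ↔ rk e < β`. Let `X = natSet X₀` be constructible. Let `H` be a countable set of
constructible sets that contains `X` and the natural numbers and is closed under:
* for `e ∈ H`: a finite list `s` of members of `Lset (rk e)` and `φ` with `e = defSet (Lset (rk e)) φ s`;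
* for `e ∈ H`, `φ`, `s` a list of members of `H ∩ Lset (rk e)`: the set `defSet (Lset (rk e)) φ s`, and some
  `a ∈ Lset (rk e)` with `sat (Lset (rk e)) φ (a :: s)` if there is one;
* for `e ≠ e'` in `H`: some element of `H` in exactly one of them.
Enumerate `H` by a bijection `e : ℕ ≃ H`, and put `lt n m ↔ rk (e n) < rk (e m)`, `E n m ↔ e n ∈ e m`,
`N k n ↔ e n = (k : Ordinal).toZFSet`, `S m c s ↔` truth (computed in the structure
`({n | lt n m}, E)`) of the formula with code `c` at `s`. By the Tarski-Vaught property,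
`S m (code φ) s ↔ sat (Lset (rk (e m))) φ (s.map e)` for lists `s` from `{n | lt n m}`.
-/

set_option autoImplicit false

open FirstOrder Pool.Agent.H75.EK

namespace Pool.Agent.H76.TH

/-! ### Coding of formulas -/

/-- The formula with a given code. -/
def hullDec (c : ℕ) : Fm :=
  if c % 4 = 0 then Fm.mem (Nat.unpair (c / 4)).1 (Nat.unpair (c / 4)).2
  else if c % 4 = 1 then Fm.eq (Nat.unpair (c / 4)).1 (Nat.unpair (c / 4)).2
  else if h2 : c % 4 = 2 then
    Fm.nand (hullDec (Nat.unpair (c / 4)).1) (hullDec (Nat.unpair (c / 4)).2)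
  else if h3 : c % 4 = 3 then Fm.ex (hullDec (c / 4))
  else Fm.mem 0 0
termination_by c
decreasing_by
  · have := Nat.unpair_left_le (c / 4)
    omega
  · have := Nat.unpair_right_le (c / 4)
    omega
  · omega

theorem hullDec_mem (i j : ℕ) : hullDec (4 * Nat.pair i j) = Fm.mem i j := by
  rw [hullDec]
  have h1 : 4 * Nat.pair i j % 4 = 0 := by omega
  have h2 : 4 * Nat.pair i j / 4 = Nat.pair i j := by omega
  rw [if_pos h1, h2, Nat.unpair_pair]

theorem hullDec_eq (i j : ℕ) : hullDec (4 * Nat.pair i j + 1) = Fm.eq i j := by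
  rw [hullDec]
  have h1 : ¬ (4 * Nat.pair i j + 1) % 4 = 0 := by omega
  have h1' : (4 * Nat.pair i j + 1) % 4 = 1 := by omega
  have h2 : (4 * Nat.pair i j + 1) / 4 = Nat.pair i j := by omega
  rw [if_neg h1, if_pos h1', h2, Nat.unpair_pair]

theorem hullDec_nand (a b : ℕ) :
    hullDec (4 * Nat.pair a b + 2) = Fm.nand (hullDec a) (hullDec b) := by
  rw [hullDec]
  have h1 : ¬ (4 * Nat.pair a b + 2) % 4 = 0 := by omega
  have h1' : ¬ (4 * Nat.pair a b + 2) % 4 = 1 := by omega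
  have h1'' : (4 * Nat.pair a b + 2) % 4 = 2 := by omega
  have h2 : (4 * Nat.pair a b + 2) / 4 = Nat.pair a b := by omega
  rw [if_neg h1, if_neg h1', dif_pos h1'', h2, Nat.unpair_pair]

theorem hullDec_ex (a : ℕ) : hullDec (4 * a + 3) = Fm.ex (hullDec a) := by
  rw [hullDec]
  have h1 : ¬ (4 * a + 3) % 4 = 0 := by omega
  have h1' : ¬ (4 * a + 3) % 4 = 1 := by omega
  have h1'' : ¬ (4 * a + 3) % 4 = 2 := by omega
  have h1''' : (4 * a + 3) % 4 = 3 := by omega
  have h2 : (4 * a + 3) / 4 = a := by omega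
  rw [if_neg h1, if_neg h1', dif_neg h1'', dif_pos h1''', h2]

theorem hullDec_surjective : Function.Surjective hullDec := by
  intro φ
  induction φ with
  | mem i j => exact ⟨_, hullDec_mem i j⟩
  | eq i j => exact ⟨_, hullDec_eq i j⟩
  | nand φ ψ h1 h2 =>
    obtain ⟨a, rfl⟩ := h1
    obtain ⟨b, rfl⟩ := h2
    exact ⟨_, hullDec_nand a b⟩
  | ex φ h =>
    obtain ⟨a, rfl⟩ := h
    exact ⟨_, hullDec_ex a⟩

/-- Truth in a structure with domain `{n | D n}` and membership `E`. -/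
def hullSat (D : ℕ → Prop) (E : ℕ → ℕ → Prop) : Fm → List ℕ → Prop
  | Fm.mem i j, s => ∃ a b, s[i]? = some a ∧ s[j]? = some b ∧ E a b
  | Fm.eq i j, s => ∃ a, s[i]? = some a ∧ s[j]? = some a
  | Fm.nand φ ψ, s => ¬ (hullSat D E φ s ∧ hullSat D E ψ s)
  | Fm.ex φ, s => ∃ n, D n ∧ hullSat D E φ (n :: s)

/-! ### The rank of a constructible set -/

/-- The least `β` with `e ∈ Def (Lset β)`. -/
noncomputable def hullRk (e : ZFSet.{0}) : Ordinal.{0} := sInf {β | e ∈ Def (Lset β)}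

theorem hull_mem_Def {e : ZFSet.{0}} (h : InL e) : e ∈ Def (Lset (hullRk e)) := by
  obtain ⟨α, hα⟩ := h
  rw [mem_Lset] at hα
  obtain ⟨β, _, hβ⟩ := hα
  exact csInf_mem (s := {β | e ∈ Def (Lset β)}) ⟨β, hβ⟩

theorem hullRk_le {e : ZFSet.{0}} {β : Ordinal.{0}} (h : e ∈ Def (Lset β)) : hullRk e ≤ β :=
  csInf_le' h

theorem hull_mem_Lset_iff {e : ZFSet.{0}} (h : InL e) {β : Ordinal.{0}} :
    e ∈ Lset β ↔ hullRk e < β := by
  rw [mem_Lset]
  constructor
  · rintro ⟨γ, hγ, he⟩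
    exact (hullRk_le he).trans_lt hγ
  · intro hlt
    exact ⟨_, hlt, hull_mem_Def h⟩

theorem hull_inL_of_mem_Lset {e : ZFSet.{0}} {β : Ordinal.{0}} (h : e ∈ Lset β) : InL e := ⟨β, h⟩

theorem hull_inL_of_mem_Def {e : ZFSet.{0}} {β : Ordinal.{0}} (h : e ∈ Def (Lset β)) : InL e :=
  ⟨Order.succ β, mem_Lset.2 ⟨β, Order.lt_succ β, h⟩⟩

/-! ### Countable closed sets -/

theorem hull_exists_closed {α ι : Type*} [Countable ι] (f : ι → List α → α) (S : Set α)
    (hS : S.Countable) : ∃ H : Set α, S ⊆ H ∧ H.Countable ∧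
      ∀ i l, (∀ a ∈ l, a ∈ H) → f i l ∈ H := by
  let G : Set α → Set α := fun T =>
    T ∪ Set.range (fun p : ι × List T => f p.1 (p.2.map Subtype.val))
  let H : ℕ → Set α := fun n => G^[n] S
  have hsucc : ∀ n, H (n + 1) = G (H n) := fun n => Function.iterate_succ_apply' G n S
  have hcount : ∀ n, (H n).Countable := by
    intro n
    induction n with
    | zero => exact hS
    | succ n ih =>
      rw [hsucc]
      have : Countable (H n) := ih.to_subtype
      exact ih.union (Set.countable_range _)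
  have hmono : Monotone H := monotone_nat_of_le_succ fun n => by
    rw [hsucc]
    exact Set.subset_union_left
  refine ⟨⋃ n, H n, Set.subset_iUnion H 0, Set.countable_iUnion hcount, fun i l hl => ?_⟩
  have key : ∀ l : List α, (∀ a ∈ l, a ∈ ⋃ n, H n) → ∃ n, ∀ a ∈ l, a ∈ H n := by
    intro l
    induction l with
    | nil => intro _; exact ⟨0, by simp⟩
    | cons b l ih =>
      intro h
      obtain ⟨n, hn⟩ := ih fun a ha => h a (List.mem_cons_of_mem _ ha)
      obtain ⟨m, hm⟩ := Set.mem_iUnion.1 (h b List.mem_cons_self)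
      refine ⟨max n m, fun a ha => ?_⟩
      rcases List.mem_cons.1 ha with rfl | ha
      · exact hmono (le_max_right _ _) hm
      · exact hmono (le_max_left _ _) (hn a ha)
  obtain ⟨n, hn⟩ := key l hl
  refine Set.mem_iUnion.2 ⟨n + 1, ?_⟩
  rw [hsucc]
  right
  refine ⟨(i, l.pmap (fun a ha => ⟨a, ha⟩) hn), ?_⟩
  dsimp only
  congr 1
  rw [List.map_pmap]
  simp

/-- A list of members of the range of `e` is the image of a list. -/
theorem hull_exists_map {α β : Type*} {e : α → β} {P : β → Prop} (l : List β)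
    (h : ∀ b ∈ l, P b ∧ ∃ a, e a = b) : ∃ l' : List α, l'.map e = l ∧ ∀ a ∈ l', P (e a) := by
  induction l with
  | nil => exact ⟨[], rfl, by simp⟩
  | cons b l ih =>
    obtain ⟨l', h1, h2⟩ := ih fun b hb => h b (List.mem_cons_of_mem _ hb)
    obtain ⟨hb, a, rfl⟩ := h b List.mem_cons_self
    refine ⟨a :: l', by rw [List.map_cons, h1], fun a' ha' => ?_⟩
    rcases List.mem_cons.1 ha' with rfl | ha'
    · exact hb
    · exact h2 a' ha'

/-- The countable hull. -/
theorem hull_exists_H {X : ZFSet.{0}} (hX : InL X) : ∃ H : Set ZFSet.{0}, H.Countable ∧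
    (∀ e ∈ H, InL e) ∧ X ∈ H ∧ (∀ k : ℕ, (k : Ordinal.{0}).toZFSet ∈ H) ∧
    (∀ e ∈ H, ∃ (φ : Fm) (s : List ZFSet.{0}), (∀ a ∈ s, a ∈ H ∧ a ∈ Lset (hullRk e)) ∧
      e = defSet (Lset (hullRk e)) φ s) ∧
    (∀ e ∈ H, ∀ (φ : Fm) (s : List ZFSet.{0}), (∀ a ∈ s, a ∈ H ∧ a ∈ Lset (hullRk e)) →
      defSet (Lset (hullRk e)) φ s ∈ H) ∧
    (∀ e ∈ H, ∀ (φ : Fm) (s : List ZFSet.{0}), (∀ a ∈ s, a ∈ H ∧ a ∈ Lset (hullRk e)) →
      (∃ a ∈ Lset (hullRk e), sat (Lset (hullRk e)) φ (a :: s)) →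
      ∃ a ∈ H, a ∈ Lset (hullRk e) ∧ sat (Lset (hullRk e)) φ (a :: s)) ∧
    (∀ e ∈ H, ∀ e' ∈ H, e ≠ e' → ∃ a ∈ H, ¬ (a ∈ e ↔ a ∈ e')) := by
  classical
  have hdef : ∀ e : {e : ZFSet.{0} // InL e}, ∃ (φ : Fm) (s : List ZFSet.{0}),
      (∀ a ∈ s, a ∈ Lset (hullRk e.1)) ∧ e.1 = defSet (Lset (hullRk e.1)) φ s := fun e =>
    exists_fm_of_mem_Def (hull_mem_Def e.2)
  choose Φ Sg hSg hΦ using hdef
  have hemp : InL (∅ : ZFSet.{0}) := inL_empty
  have hsep : ∀ e e' : {e : ZFSet.{0} // InL e}, e ≠ e' →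
      ∃ a : {e : ZFSet.{0} // InL e}, ¬ (a.1 ∈ e.1 ↔ a.1 ∈ e'.1) := by
    intro e e' hne
    by_contra hno
    push Not at hno
    refine hne (Subtype.ext (ZFSet.ext fun z => ?_))
    constructor
    · intro hz
      exact (hno ⟨z, e.2.trans hz⟩).1 hz
    · intro hz
      exact (hno ⟨z, e'.2.trans hz⟩).2 hz
  -- the functions
  let fa : ℕ → List {e : ZFSet.{0} // InL e} → {e : ZFSet.{0} // InL e} := fun i l =>
    match l with
    | [] => ⟨∅, hemp⟩
    | e :: _ => if h : ∃ a, (Sg e)[i]? = some a then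
        ⟨h.choose, hull_inL_of_mem_Lset (hSg e _ (List.mem_of_getElem? h.choose_spec))⟩
        else ⟨∅, hemp⟩
  let fb : ℕ → List {e : ZFSet.{0} // InL e} → {e : ZFSet.{0} // InL e} := fun c l =>
    match l with
    | [] => ⟨∅, hemp⟩
    | e :: s => if h : ∀ a ∈ s.map Subtype.val, a ∈ Lset (hullRk e.1) then
        ⟨defSet (Lset (hullRk e.1)) (hullDec c) (s.map Subtype.val),
          hull_inL_of_mem_Def (defSet_mem_Def _ h)⟩ else ⟨∅, hemp⟩
  let fc : ℕ → List {e : ZFSet.{0} // InL e} → {e : ZFSet.{0} // InL e} := fun c l =>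
    match l with
    | [] => ⟨∅, hemp⟩
    | e :: s => if h : ∃ a ∈ Lset (hullRk e.1), sat (Lset (hullRk e.1)) (hullDec c)
          (a :: s.map Subtype.val) then
        ⟨h.choose, hull_inL_of_mem_Lset h.choose_spec.1⟩ else ⟨∅, hemp⟩
  let fd : List {e : ZFSet.{0} // InL e} → {e : ZFSet.{0} // InL e} := fun l =>
    match l with
    | [e, e'] => if h : e ≠ e' then (hsep e e' h).choose else ⟨∅, hemp⟩
    | _ => ⟨∅, hemp⟩
  let f : (ℕ ⊕ ℕ) ⊕ (ℕ ⊕ Unit) → List {e : ZFSet.{0} // InL e} → {e : ZFSet.{0} // InL e} :=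
    fun i l => match i with
    | Sum.inl (Sum.inl i) => fa i l
    | Sum.inl (Sum.inr c) => fb c l
    | Sum.inr (Sum.inl c) => fc c l
    | Sum.inr (Sum.inr _) => fd l
  obtain ⟨H, hS, hcount, hH⟩ := hull_exists_closed f
    (insert ⟨X, hX⟩ (Set.range fun k : ℕ => (⟨(k : Ordinal.{0}).toZFSet, inL_ordinal _⟩ :
      {e : ZFSet.{0} // InL e}))) ((Set.countable_range _).insert _)
  have hlist : ∀ s : List ZFSet.{0}, (∀ a ∈ s, a ∈ Subtype.val '' H) →
      ∃ s' : List {e : ZFSet.{0} // InL e}, s'.map Subtype.val = s ∧ ∀ a ∈ s', a ∈ H := by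
    intro s
    induction s with
    | nil => intro _; exact ⟨[], rfl, by simp⟩
    | cons b s ih =>
      intro h
      obtain ⟨s', h1, h2⟩ := ih fun a ha => h a (List.mem_cons_of_mem _ ha)
      obtain ⟨b', hb', rfl⟩ := h b List.mem_cons_self
      refine ⟨b' :: s', by rw [List.map_cons, h1], fun a ha => ?_⟩
      rcases List.mem_cons.1 ha with rfl | ha
      · exact hb'
      · exact h2 a ha
  refine ⟨Subtype.val '' H, hcount.image _, ?_, ⟨⟨X, hX⟩, hS (Set.mem_insert _ _), rfl⟩, ?_, ?_, ?_,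
    ?_, ?_⟩
  · rintro _ ⟨e, _, rfl⟩
    exact e.2
  · intro k
    exact ⟨⟨(k : Ordinal.{0}).toZFSet, inL_ordinal _⟩, hS (Set.mem_insert_of_mem _ ⟨k, rfl⟩), rfl⟩
  · rintro _ ⟨e, he, rfl⟩
    refine ⟨Φ e, Sg e, fun a ha => ⟨?_, hSg e a ha⟩, hΦ e⟩
    obtain ⟨i, hi⟩ := List.getElem?_of_mem ha
    have h1 := hH (Sum.inl (Sum.inl i)) [e] (by simpa using he)
    have h2 : ∃ a, (Sg e)[i]? = some a := ⟨a, hi⟩
    refine ⟨_, h1, ?_⟩
    change (fa i [e]).1 = a
    simp only [fa]
    rw [dif_pos h2]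
    have h3 := hi.symm.trans h2.choose_spec
    exact (Option.some.inj h3).symm
  · rintro _ ⟨e, he, rfl⟩ φ s hs
    obtain ⟨s', rfl, hs'⟩ := hlist s fun a ha => (hs a ha).1
    obtain ⟨c, rfl⟩ := hullDec_surjective φ
    have h1 := hH (Sum.inl (Sum.inr c)) (e :: s') (by
      intro a ha
      rcases List.mem_cons.1 ha with rfl | ha
      · exact he
      · exact hs' a ha)
    refine ⟨_, h1, ?_⟩
    change (fb c (e :: s')).1 = _
    simp only [fb]
    rw [dif_pos fun a ha => (hs a ha).2]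
  · rintro _ ⟨e, he, rfl⟩ φ s hs hex
    obtain ⟨s', rfl, hs'⟩ := hlist s fun a ha => (hs a ha).1
    obtain ⟨c, rfl⟩ := hullDec_surjective φ
    have h1 := hH (Sum.inr (Sum.inl c)) (e :: s') (by
      intro a ha
      rcases List.mem_cons.1 ha with rfl | ha
      · exact he
      · exact hs' a ha)
    refine ⟨hex.choose, ⟨_, h1, ?_⟩, hex.choose_spec⟩
    change (fc c (e :: s')).1 = _
    simp only [fc]
    rw [dif_pos hex]
  · rintro _ ⟨e, he, rfl⟩ _ ⟨e', he', rfl⟩ hne
    have h1 := hH (Sum.inr (Sum.inr ())) [e, e'] (by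
      intro a ha
      rcases List.mem_cons.1 ha with rfl | ha
      · exact he
      · rcases List.mem_cons.1 ha with rfl | ha
        · exact he'
        · simp at ha)
    have hne' : e ≠ e' := fun h => hne (congrArg Subtype.val h)
    refine ⟨_, ⟨_, h1, rfl⟩, ?_⟩
    change ¬ ((fd [e, e']).1 ∈ e.1 ↔ (fd [e, e']).1 ∈ e'.1)
    simp only [fd]
    rw [dif_pos hne']
    exact (hsep e e' hne').choose_spec

/-- The Tarski-Vaught property of the hull. -/
theorem hullSat_iff {D : ℕ → Prop} {A : ZFSet.{0}} {e : ℕ → ZFSet.{0}}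
    (he : Function.Injective e) (hD : ∀ n, D n ↔ e n ∈ A)
    (htv : ∀ (φ : Fm) (s : List ℕ), (∀ a ∈ s, D a) → (∃ a ∈ A, sat A φ (a :: s.map e)) →
      ∃ n, D n ∧ sat A φ (e n :: s.map e)) (φ : Fm) :
    ∀ s : List ℕ, (∀ a ∈ s, D a) →
      (hullSat D (fun n m => e n ∈ e m) φ s ↔ sat A φ (s.map e)) := by
  have hget : ∀ (s : List ℕ) (i : ℕ) (b : ZFSet.{0}),
      (s.map e)[i]? = some b ↔ ∃ a, s[i]? = some a ∧ e a = b := by
    intro s i b
    rw [List.getElem?_map]
    simp [Option.map_eq_some_iff]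
  induction φ with
  | mem i j =>
    intro s _
    simp only [hullSat, sat, hget]
    constructor
    · rintro ⟨a, b, h1, h2, h3⟩
      exact ⟨_, _, ⟨a, h1, rfl⟩, ⟨b, h2, rfl⟩, h3⟩
    · rintro ⟨_, _, ⟨a, h1, rfl⟩, ⟨b, h2, rfl⟩, h3⟩
      exact ⟨a, b, h1, h2, h3⟩
  | eq i j =>
    intro s _
    simp only [hullSat, sat, hget]
    constructor
    · rintro ⟨a, h1, h2⟩
      exact ⟨_, ⟨a, h1, rfl⟩, ⟨a, h2, rfl⟩⟩
    · rintro ⟨_, ⟨a, h1, rfl⟩, ⟨b, h2, h3⟩⟩
      have := he h3
      subst this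
      exact ⟨_, h1, h2⟩
  | nand φ ψ ih1 ih2 =>
    intro s hs
    simp only [hullSat, sat, ih1 s hs, ih2 s hs]
  | ex φ ih =>
    intro s hs
    simp only [hullSat, sat]
    constructor
    · rintro ⟨n, hn, h⟩
      refine ⟨e n, (hD n).1 hn, ?_⟩
      have := (ih (n :: s) (by
        intro a ha
        rcases List.mem_cons.1 ha with rfl | ha
        · exact hn
        · exact hs a ha)).1 h
      simpa using this
    · intro h
      obtain ⟨n, hn, h⟩ := htv φ s hs h
      refine ⟨n, hn, (ih (n :: s) ?_).2 (by simpa using h)⟩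
      intro a ha
      rcases List.mem_cons.1 ha with rfl | ha
      · exact hn
      · exact hs a ha

theorem exists_cert {X : Set ℕ} (h : InL (natSet X)) :
    ∃ (lt E N : ℕ → ℕ → Prop) (S : ℕ → ℕ → List ℕ → Prop), WellFounded lt ∧ Cert lt E N S ∧
      ∃ t, (∀ n, E n t → ∃ k, N k n) ∧ ∀ k n, N k n → (E n t ↔ k ∈ X) := by
  obtain ⟨H, hcount, hL, hX, hnat, ha, hb, hc, hd⟩ := hull_exists_H h
  have hinf : H.Infinite := by
    refine Set.infinite_of_injective_forall_mem (f := fun k : ℕ => (k : Ordinal.{0}).toZFSet) ?_ hnat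
    intro k l hkl
    exact Nat.cast_injective (Ordinal.toZFSet_injective hkl)
  have : Countable H := hcount.to_subtype
  have : Infinite H := hinf.to_subtype
  obtain ⟨q⟩ : Nonempty (ℕ ≃ H) := by
    obtain ⟨D⟩ := nonempty_denumerable H
    exact ⟨(Denumerable.eqv H).symm⟩
  set e : ℕ → ZFSet.{0} := fun n => (q n : ZFSet.{0}) with he
  have heinj : Function.Injective e := Subtype.val_injective.comp q.injective
  have heH : ∀ n, e n ∈ H := fun n => (q n).2
  have hsurj : ∀ a ∈ H, ∃ n, e n = a := by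
    intro a ha
    exact ⟨q.symm ⟨a, ha⟩, by simp [he]⟩
  have heL : ∀ n, InL (e n) := fun n => hL _ (heH n)
  have hlt : ∀ n m, hullRk (e n) < hullRk (e m) ↔ e n ∈ Lset (hullRk (e m)) := fun n m =>
    (hull_mem_Lset_iff (heL n)).symm
  have hmap : ∀ (m : ℕ) (s : List ℕ), (∀ a ∈ s, hullRk (e a) < hullRk (e m)) →
      ∀ a ∈ s.map e, a ∈ H ∧ a ∈ Lset (hullRk (e m)) := by
    intro m s hs a ha
    obtain ⟨b, hb, rfl⟩ := List.mem_map.1 ha
    exact ⟨heH b, (hlt b m).1 (hs b hb)⟩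
  have hsat : ∀ (m : ℕ) (φ : Fm) (s : List ℕ), (∀ a ∈ s, hullRk (e a) < hullRk (e m)) →
      (hullSat (fun n => hullRk (e n) < hullRk (e m)) (fun n m => e n ∈ e m) φ s ↔
        sat (Lset (hullRk (e m))) φ (s.map e)) := by
    intro m φ
    refine hullSat_iff heinj (fun n => hlt n m) ?_ φ
    intro φ s hs hex
    obtain ⟨a, h1, h2, h3⟩ := hc (e m) (heH m) φ (s.map e) (hmap m s hs) hex
    obtain ⟨n, rfl⟩ := hsurj a h1
    exact ⟨n, (hlt n m).2 h2, h3⟩
  -- the sets defined over a level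
  have hE : ∀ (m : ℕ) (φ : Fm) (s : List ℕ), (∀ a ∈ s, hullRk (e a) < hullRk (e m)) →
      ∀ n, e n ∈ defSet (Lset (hullRk (e m))) φ (s.map e) ↔ hullRk (e n) < hullRk (e m) ∧
        hullSat (fun n => hullRk (e n) < hullRk (e m)) (fun n m => e n ∈ e m) φ (n :: s) := by
    intro m φ s hs n
    rw [defSet, ZFSet.mem_sep, ← hlt n m]
    refine and_congr_right fun hn => ?_
    rw [hsat m φ (n :: s)]
    · simp
    · intro a ha
      rcases List.mem_cons.1 ha with rfl | ha
      · exact hn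
      · exact hs a ha
  obtain ⟨t, ht⟩ := hsurj _ hX
  refine ⟨fun n m => hullRk (e n) < hullRk (e m), fun n m => e n ∈ e m,
    fun k n => e n = (k : Ordinal.{0}).toZFSet,
    fun m c s => hullSat (fun n => hullRk (e n) < hullRk (e m)) (fun n m => e n ∈ e m)
      (hullDec c) s, ?_, ?_, t, ?_, ?_⟩
  · exact InvImage.wf (fun n => hullRk (e n)) wellFounded_lt
  · constructor
    · intro n
      exact lt_irrefl _
    · intro a b c
      exact lt_trans
    · intro a b c hab
      by_cases hac : hullRk (e a) < hullRk (e c)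
      · exact Or.inl hac
      · exact Or.inr ((not_lt.1 hac).trans_lt hab)
    · intro m i j s
      rw [hullDec_mem]; rfl
    · intro m i j s
      rw [hullDec_eq]; rfl
    · intro m a b s
      rw [hullDec_nand]; rfl
    · intro m a s
      rw [hullDec_ex]; rfl
    · intro m
      obtain ⟨φ, s, hs, hφ⟩ := ha (e m) (heH m)
      obtain ⟨s', rfl, hs'⟩ := hull_exists_map (e := e)
        (P := fun a => a ∈ Lset (hullRk (e m))) s fun b hb => ⟨(hs b hb).2, hsurj b (hs b hb).1⟩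
      obtain ⟨c, rfl⟩ := hullDec_surjective φ
      have hs'' : ∀ a ∈ s', hullRk (e a) < hullRk (e m) := fun a ha => (hlt a m).2 (hs' a ha)
      refine ⟨c, s', hs'', fun n => ?_⟩
      rw [← hE m (hullDec c) s' hs'' n, ← hφ]
    · intro m c s hs
      obtain ⟨k, hk⟩ := hsurj _ (hb (e m) (heH m) (hullDec c) (s.map e) (hmap m s hs))
      refine ⟨k, ?_, fun n => ?_⟩
      · rw [not_lt, hk]
        exact hullRk_le (defSet_mem_Def _ fun a ha => (hmap m s hs a ha).2)
      · rw [← hE m (hullDec c) s hs n, hk]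
    · intro n m hnm
      by_contra hne
      obtain ⟨a, h1, h2⟩ := hd (e n) (heH n) (e m) (heH m) fun h => hne (heinj h)
      obtain ⟨k, rfl⟩ := hsurj a h1
      exact h2 (hnm k)
    · intro n hn k hk
      have hn' : e n = ∅ := by rw [hn]; simp
      rw [hn'] at hk
      exact ZFSet.notMem_empty _ hk
    · intro k n m hn hm a
      have hm' : e m = insert (e n) (e n) := by
        rw [hm, hn, ← Ordinal.toZFSet_add_one]
        norm_cast
      rw [hm', ZFSet.mem_insert_iff, or_comm]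
      refine or_congr_right ?_
      exact heinj.eq_iff
    · intro k
      exact hsurj _ (hnat k)
  · intro n hn
    have hn' : e n ∈ natSet X := by rw [← ht]; exact hn
    rw [natSet, ZFSet.mem_range] at hn'
    obtain ⟨⟨k, hk⟩, hk'⟩ := hn'
    exact ⟨k, hk'.symm⟩
  · intro k n hk
    change e n ∈ e t ↔ _
    rw [ht, hk, natSet, ZFSet.mem_range]
    constructor
    · rintro ⟨⟨l, hl⟩, hl'⟩
      have : l = k := Nat.cast_injective (Ordinal.toZFSet_injective hl')
      rw [← this]; exact hl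
    · intro hk
      exact ⟨⟨k, hk⟩, rfl⟩

end Pool.Agent.H76.TH
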