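import Pool.Agent.H76.TH.Defs

/-!
Project THIN, module KonA: Kondo's uniformization, semantic part.
For `a` with `Bk K a` let `ρ a i` be the rank of `i` in the well-founded relation
`j below i :↔ Rl K a i j`. If `Bk K b` then `Le K a i b j ↔` (`i` is in the well-founded part for `a`
and) `ρ a i ≤ ρ b j` (for ← take `B = {(m, m') | ρ a m ≤ ρ b m'}`), and `Lo` is `<`.
Existence: choose, step by step, `(h n, v n)` as the lexicographically least value of
`(ρ (join x w) n, w n)` among the `w` with `Bk K (join x w)` that agree with the earlier choices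
(`ρ` and `w`). The limit `v` satisfies `Bk K (join x v)` because `h` is a rank function for it
(`Rl` depends on a finite part), so `ρ (join x v) ≤ h`, and by induction on `n` (minimality) `v` agrees
with all choices, `ρ (join x v) = h`. It is `KMin`: a competitor `w'` in the definition satisfies
`Bk K (join x w')` because `0` is above everything (`htop`) and `Le` (or `Lo`) holds at `0`.
Uniqueness: take the first difference of the sequences `(ρ i, w i)`.
-/

set_option autoImplicit false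

open Encodable Pool.Agent.H75.EK

namespace Pool.Agent.H76.TH

/-- The relation coded by `a`: `j` is below `i`. -/
def Rl (K : List ℕ → ℕ → ℕ → Prop) (a : ℕ → ℕ) (i j : ℕ) : Prop := ∃ n, K (res a n) i j

/-- The rank of `i` for `a` is at most the rank of `j` for `b`: there is a simulation `B`. -/
def Le (K : List ℕ → ℕ → ℕ → Prop) (a : ℕ → ℕ) (i : ℕ) (b : ℕ → ℕ) (j : ℕ) : Prop :=
  ∃ B : ℕ → ℕ, B (Nat.pair i j) = 1 ∧
    ∀ m m' n, B (Nat.pair m m') = 1 → Rl K a m n → ∃ n', Rl K b m' n' ∧ B (Nat.pair n n') = 1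

/-- The rank of `i` for `a` is less than the rank of `j` for `b`. -/
def Lo (K : List ℕ → ℕ → ℕ → Prop) (a : ℕ → ℕ) (i : ℕ) (b : ℕ → ℕ) (j : ℕ) : Prop :=
  ∃ j', Rl K b j j' ∧ Le K a i b j'

/-- `w` is the least witness for `x`. -/
def KMin (K : List ℕ → ℕ → ℕ → Prop) (x w : ℕ → ℕ) : Prop :=
  Bk K (join x w) ∧ ∀ (w' : ℕ → ℕ) (n : ℕ),
    (∀ i < n, w' i = w i ∧ Le K (join x w') i (join x w) i ∧ Le K (join x w) i (join x w') i) →
    ¬ Lo K (join x w') n (join x w) n ∧
    ¬ (Le K (join x w') n (join x w) n ∧ Le K (join x w) n (join x w') n ∧ w' n < w n)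

/-- `h` is a rank function for `a`. -/
def KonARank (K : List ℕ → ℕ → ℕ → Prop) (a : ℕ → ℕ) (h : ℕ → Ordinal.{0}) : Prop :=
  ∀ i j, Rl K a i j → h j < h i

theorem konA_bk_iff {K : List ℕ → ℕ → ℕ → Prop} {a : ℕ → ℕ} :
    Bk K a ↔ ∃ h, KonARank K a h := by
  constructor
  · rintro ⟨h, hh⟩
    exact ⟨h, fun i j ⟨n, hn⟩ => hh n i j hn⟩
  · rintro ⟨h, hh⟩
    exact ⟨h, fun n i j hn => hh i j ⟨n, hn⟩⟩

/-- The least rank function. -/
noncomputable def konARk (K : List ℕ → ℕ → ℕ → Prop) (a : ℕ → ℕ) (i : ℕ) : Ordinal.{0} :=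
  sInf {o | ∃ h, KonARank K a h ∧ h i = o}

theorem konARk_le {K : List ℕ → ℕ → ℕ → Prop} {a : ℕ → ℕ} {h : ℕ → Ordinal.{0}}
    (hh : KonARank K a h) (i : ℕ) : konARk K a i ≤ h i :=
  csInf_le' ⟨h, hh, rfl⟩

theorem konARk_rank {K : List ℕ → ℕ → ℕ → Prop} {a : ℕ → ℕ} (ha : Bk K a) :
    KonARank K a (konARk K a) := by
  obtain ⟨h, hh⟩ := konA_bk_iff.1 ha
  intro i j hij
  obtain ⟨g, hg, hgi⟩ : konARk K a i ∈ {o | ∃ h, KonARank K a h ∧ h i = o} :=
    csInf_mem ⟨h i, h, hh, rfl⟩
  rw [← hgi]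
  exact (konARk_le hg j).trans_lt (hg i j hij)

theorem konARk_exists {K : List ℕ → ℕ → ℕ → Prop} {a : ℕ → ℕ} (ha : Bk K a) {i : ℕ}
    {o : Ordinal.{0}} (ho : o < konARk K a i) : ∃ j, Rl K a i j ∧ o ≤ konARk K a j := by
  classical
  by_contra hc
  push Not at hc
  have hr := konARk_rank ha
  have h1 : KonARank K a (Function.update (konARk K a) i o) := by
    intro m n hmn
    have hmn' := hr m n hmn
    by_cases hm : m = i
    · subst hm
      have hn : n ≠ m := by
        rintro rfl
        exact lt_irrefl _ hmn'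
      rw [Function.update_self, Function.update_of_ne hn]
      exact hc n hmn
    · rw [Function.update_of_ne hm]
      by_cases hn : n = i
      · subst hn
        rw [Function.update_self]
        exact ho.trans hmn'
      · rw [Function.update_of_ne hn]
        exact hmn'
  have h2 := konARk_le h1 i
  rw [Function.update_self] at h2
  exact absurd ho (not_lt.2 h2)

theorem konA_le_iff {K : List ℕ → ℕ → ℕ → Prop} {a b : ℕ → ℕ} (ha : Bk K a) (hb : Bk K b)
    {i j : ℕ} : Le K a i b j ↔ konARk K a i ≤ konARk K b j := by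
  classical
  constructor
  · rintro ⟨B, hB, hsim⟩
    have key : ∀ (o : Ordinal.{0}) (m m' : ℕ), konARk K b m' = o → B (Nat.pair m m') = 1 →
        konARk K a m ≤ konARk K b m' := by
      intro o
      induction o using WellFoundedLT.induction with
      | ind o ih =>
        intro m m' ho hm
        by_contra hlt
        push Not at hlt
        obtain ⟨n, hn, hle⟩ := konARk_exists ha hlt
        obtain ⟨n', hn', hB'⟩ := hsim m m' n hm hn
        have h1 : konARk K b n' < konARk K b m' := konARk_rank hb m' n' hn'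
        have h2 := ih _ (ho ▸ h1) n n' rfl hB'
        exact absurd (h2.trans_lt h1) (not_lt.2 hle)
    exact key _ i j rfl hB
  · intro h
    refine ⟨fun p => if konARk K a p.unpair.1 ≤ konARk K b p.unpair.2 then 1 else 0, ?_, ?_⟩
    · simp [h]
    · intro m m' n hm hmn
      simp only [Nat.unpair_pair, ite_eq_left_iff, not_le, imp_false,
        zero_ne_one, not_lt] at hm ⊢
      have h1 : konARk K a n < konARk K b m' := (konARk_rank ha m n hmn).trans_le hm
      obtain ⟨n', hn', hle⟩ := konARk_exists hb h1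
      exact ⟨n', hn', hle⟩

theorem konA_lo_iff {K : List ℕ → ℕ → ℕ → Prop} {a b : ℕ → ℕ} (ha : Bk K a) (hb : Bk K b)
    {i j : ℕ} : Lo K a i b j ↔ konARk K a i < konARk K b j := by
  constructor
  · rintro ⟨j', h1, h2⟩
    exact ((konA_le_iff ha hb).1 h2).trans_lt (konARk_rank hb j j' h1)
  · intro h
    obtain ⟨j', h1, h2⟩ := konARk_exists hb h
    exact ⟨j', h1, (konA_le_iff ha hb).2 h2⟩

theorem konA_bk_of_le {K : List ℕ → ℕ → ℕ → Prop} (htop : ∀ a j, 1 ≤ j → Rl K a 0 j)
    {a b : ℕ → ℕ} {j : ℕ} (hb : Bk K b) (h : Le K a 0 b j) : Bk K a := by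
  obtain ⟨B, hB, hsim⟩ := h
  have hex : ∀ m, ∃ m', B (Nat.pair m m') = 1 := by
    intro m
    rcases Nat.eq_zero_or_pos m with rfl | hm
    · exact ⟨j, hB⟩
    · obtain ⟨n', -, hn'⟩ := hsim 0 j m hB (htop a m hm)
      exact ⟨n', hn'⟩
  refine konA_bk_iff.2 ⟨fun m => sInf {o | ∃ m', B (Nat.pair m m') = 1 ∧ konARk K b m' = o}, ?_⟩
  intro m n hmn
  obtain ⟨m0, hm0⟩ := hex m
  obtain ⟨m', hm', he⟩ : sInf {o | ∃ m', B (Nat.pair m m') = 1 ∧ konARk K b m' = o} ∈
      {o | ∃ m', B (Nat.pair m m') = 1 ∧ konARk K b m' = o} := csInf_mem ⟨_, m0, hm0, rfl⟩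
  obtain ⟨n', hn', hB'⟩ := hsim m m' n hm' hmn
  change sInf {o | ∃ m', B (Nat.pair n m') = 1 ∧ konARk K b m' = o} <
    sInf {o | ∃ m', B (Nat.pair m m') = 1 ∧ konARk K b m' = o}
  rw [← he]
  refine lt_of_le_of_lt (csInf_le' ⟨n', hB', rfl⟩) (konARk_rank hb m' n' hn')

theorem konA_bk_of_lo {K : List ℕ → ℕ → ℕ → Prop} (htop : ∀ a j, 1 ≤ j → Rl K a 0 j)
    {a b : ℕ → ℕ} {j : ℕ} (hb : Bk K b) (h : Lo K a 0 b j) : Bk K a := by
  obtain ⟨j', -, h'⟩ := h
  exact konA_bk_of_le htop hb h'

/-- The leftmost branch of a set of sequences in a well-order. -/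
theorem konA_leftmost {α : Type*} [LinearOrder α] [WellFoundedLT α] (T : Set (ℕ → α))
    (hT : T.Nonempty) : ∃ t : ℕ → α, ∀ n, (∃ s ∈ T, ∀ i < n, s i = t i) ∧
      ∀ s ∈ T, (∀ i < n, s i = t i) → t n ≤ s n := by
  classical
  have step : ∀ (l : List α), (∃ s ∈ T, res s l.length = l) → ∃ x, (∃ s ∈ T,
      res s (l.length + 1) = l ++ [x]) ∧ ∀ s ∈ T, res s l.length = l → x ≤ s l.length := by
    intro l ⟨s, hs, hsl⟩
    have hne : {y | ∃ s ∈ T, res s l.length = l ∧ s l.length = y}.Nonempty := ⟨_, s, hs, hsl, rfl⟩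
    obtain ⟨x, ⟨s', hs', hsl', hx⟩, hmin⟩ :=
      WellFounded.has_min (wellFounded_lt (α := α)) _ hne
    refine ⟨x, ⟨s', hs', ?_⟩, ?_⟩
    · rw [res, List.range_succ, List.map_append, ← res, hsl']
      simp [hx]
    · intro s'' hs'' h''
      exact not_lt.1 (hmin _ ⟨s'', hs'', h'', rfl⟩)
  let F : ℕ → {l : List α // ∃ s ∈ T, res s l.length = l} := fun n =>
    Nat.rec ⟨[], by obtain ⟨s, hs⟩ := hT; exact ⟨s, hs, by simp [res]⟩⟩
      (fun _ l => ⟨l.1 ++ [(step l.1 l.2).choose], by
        obtain ⟨s, hs, h⟩ := (step l.1 l.2).choose_spec.1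
        exact ⟨s, hs, by simpa using h⟩⟩) n
  let t : ℕ → α := fun n => (step (F n).1 (F n).2).choose
  have hF : ∀ n, (F (n + 1)).1 = (F n).1 ++ [t n] := fun n => rfl
  have hspec : ∀ n, ∀ s ∈ T, res s (F n).1.length = (F n).1 → t n ≤ s (F n).1.length :=
    fun n => (step (F n).1 (F n).2).choose_spec.2
  have hmem : ∀ n, ∃ s ∈ T, res s (F n).1.length = (F n).1 := fun n => (F n).2
  have hlen : ∀ n, (F n).1.length = n := by
    intro n
    induction n with
    | zero => rfl
    | succ n ih => rw [hF, List.length_append, ih]; rfl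
  have ht : ∀ n, (F n).1 = res t n := by
    intro n
    induction n with
    | zero => rfl
    | succ n ih =>
      rw [hF, ih]
      simp only [res, List.range_succ, List.map_append]
      rfl
  have hres : ∀ (s : ℕ → α) (n : ℕ), res s n = res t n ↔ ∀ i < n, s i = t i := by
    intro s n
    constructor
    · intro h i hi
      have := congrArg (fun l : List α => l[i]?) h
      simp only [getElem?_res, hi, if_true] at this
      exact Option.some.inj this
    · intro h
      refine List.ext_getElem? fun i => ?_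
      simp only [getElem?_res]
      split_ifs with hi
      · rw [h i hi]
      · rfl
  refine ⟨t, fun n => ⟨?_, ?_⟩⟩
  · obtain ⟨s, hs, h⟩ := hmem n
    rw [hlen, ht, hres] at h
    exact ⟨s, hs, h⟩
  · intro s hs h
    have h2 := hspec n s hs
    rw [hlen, ht] at h2
    exact h2 ((hres s n).2 h)

theorem exists_kMin {K : List ℕ → ℕ → ℕ → Prop} (htop : ∀ a j, 1 ≤ j → Rl K a 0 j)
    {x : ℕ → ℕ} (h : ∃ w, Bk K (join x w)) : ∃ w, KMin K x w := by
  obtain ⟨w0, hw0⟩ := h
  let σ : (ℕ → ℕ) → ℕ → Ordinal.{0} ×ₗ ℕ := fun w n => toLex (konARk K (join x w) n, w n)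
  obtain ⟨t, ht⟩ := konA_leftmost {s | ∃ w, Bk K (join x w) ∧ s = σ w} ⟨_, w0, hw0, rfl⟩
  let v : ℕ → ℕ := fun n => (ofLex (t n)).2
  let g : ℕ → Ordinal.{0} := fun n => (ofLex (t n)).1
  have hσ : ∀ (w : ℕ → ℕ) (n : ℕ), σ w n = t n → konARk K (join x w) n = g n ∧ w n = v n := by
    intro w n h
    have h1 : (konARk K (join x w) n, w n) = ofLex (t n) := by
      rw [← h]; rfl
    exact ⟨congrArg Prod.fst h1, congrArg Prod.snd h1⟩
  have hrank : KonARank K (join x v) g := by
    rintro i j ⟨m, hm⟩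
    obtain ⟨s, ⟨w, hw, rfl⟩, hs⟩ := (ht (m + i + j + 1)).1
    have hres : res (join x v) m = res (join x w) m := by
      refine List.ext_getElem? fun k => ?_
      simp only [getElem?_res]
      split_ifs with hk
      · simp only [join]
        rw [(hσ w k (hs k (by omega))).2]
      · rfl
    rw [hres] at hm
    have h1 := konARk_rank hw i j ⟨m, hm⟩
    rw [(hσ w i (hs i (by omega))).1, (hσ w j (hs j (by omega))).1] at h1
    exact h1
  have hv : Bk K (join x v) := konA_bk_iff.2 ⟨g, hrank⟩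
  have heq : ∀ n, σ v n = t n := by
    intro n
    induction n using Nat.strong_induction_on with
    | _ n ih =>
      have h1 := (ht n).2 (σ v) ⟨v, hv, rfl⟩ ih
      have h2 : konARk K (join x v) n ≤ g n := konARk_le hrank n
      have h3 : toLex (g n, v n) ≤ toLex (konARk K (join x v) n, v n) := h1
      rw [Prod.Lex.le_iff] at h3
      have h4 : konARk K (join x v) n = g n := by
        rcases h3 with h3 | h3
        · exact absurd h3 (not_lt.2 h2)
        · exact h3.1.symm
      change toLex (konARk K (join x v) n, v n) = t n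
      rw [h4]
      rfl
  refine ⟨v, hv, ?_⟩
  intro w' n hn
  have hw' : Bk K (join x w') ∨ (¬ Lo K (join x w') n (join x v) n ∧
      ¬ Le K (join x w') n (join x v) n) := by
    rcases Nat.eq_zero_or_pos n with rfl | hpos
    · by_cases h1 : Lo K (join x w') 0 (join x v) 0
      · exact Or.inl (konA_bk_of_lo htop hv h1)
      · by_cases h2 : Le K (join x w') 0 (join x v) 0
        · exact Or.inl (konA_bk_of_le htop hv h2)
        · exact Or.inr ⟨h1, h2⟩
    · exact Or.inl (konA_bk_of_le htop hv (hn 0 hpos).2.1)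
  rcases hw' with hw' | hw'
  · have hagree : ∀ i < n, σ w' i = t i := by
      intro i hi
      obtain ⟨h1, h2, h3⟩ := hn i hi
      rw [konA_le_iff hw' hv] at h2
      rw [konA_le_iff hv hw'] at h3
      rw [← heq i]
      change toLex (konARk K (join x w') i, w' i) = toLex (konARk K (join x v) i, v i)
      rw [le_antisymm h2 h3, h1]
    have h1 := (ht n).2 (σ w') ⟨w', hw', rfl⟩ hagree
    rw [← heq n] at h1
    have h2 : toLex (konARk K (join x v) n, v n) ≤ toLex (konARk K (join x w') n, w' n) := h1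
    rw [Prod.Lex.le_iff] at h2
    rw [konA_lo_iff hw' hv, konA_le_iff hw' hv, konA_le_iff hv hw']
    rcases h2 with h2 | h2
    · have h3 : konARk K (join x v) n < konARk K (join x w') n := h2
      exact ⟨not_lt.2 h3.le, fun h => absurd h3 (not_lt.2 h.1)⟩
    · have h3 : konARk K (join x v) n = konARk K (join x w') n := h2.1
      have h4 : v n ≤ w' n := h2.2
      exact ⟨not_lt.2 h3.le, fun h => absurd h.2.2 (not_lt.2 h4)⟩
  · exact ⟨hw'.1, fun h => hw'.2 h.1⟩

theorem kMin_unique {K : List ℕ → ℕ → ℕ → Prop} (htop : ∀ a j, 1 ≤ j → Rl K a 0 j)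
    {x w w' : ℕ → ℕ} (h : KMin K x w) (h' : KMin K x w') : w = w' := by
  have _ := htop
  obtain ⟨hw, hmin⟩ := h
  obtain ⟨hw', hmin'⟩ := h'
  have key : ∀ n, konARk K (join x w) n = konARk K (join x w') n ∧ w n = w' n := by
    intro n
    induction n using Nat.strong_induction_on with
    | _ n ih =>
      have h1 := hmin w' n (fun i hi => by
        rw [konA_le_iff hw' hw, konA_le_iff hw hw']
        exact ⟨(ih i hi).2.symm, (ih i hi).1.symm.le, (ih i hi).1.le⟩)
      have h2 := hmin' w n (fun i hi => by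
        rw [konA_le_iff hw' hw, konA_le_iff hw hw']
        exact ⟨(ih i hi).2, (ih i hi).1.le, (ih i hi).1.symm.le⟩)
      rw [konA_lo_iff hw' hw, konA_le_iff hw' hw, konA_le_iff hw hw'] at h1
      rw [konA_lo_iff hw hw', konA_le_iff hw' hw, konA_le_iff hw hw'] at h2
      have e : konARk K (join x w) n = konARk K (join x w') n :=
        le_antisymm (not_lt.1 h1.1) (not_lt.1 h2.1)
      refine ⟨e, ?_⟩
      have h3 : ¬ w' n < w n := fun hh => h1.2 ⟨e.symm.le, e.le, hh⟩
      have h4 : ¬ w n < w' n := fun hh => h2.2 ⟨e.le, e.symm.le, hh⟩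
      omega
  exact funext fun n => (key n).2

end Pool.Agent.H76.TH
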