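import Pool.Agent.H76.TH.MLay

/-!
Project THIN, module MBody: the body of the inner loop of the main program.
Let `a k = (x (d * k)).toNat`, `n = m.unpair.2`, `j = m.unpair.1`. From address `5` (test `fullI 4`: not full):
track 5 becomes `n`; the reading loop (`Seg.iter`, `n` rounds) makes track 6 the code of the reversed
list `(res a n).reverse` (`encode (b :: l) = Nat.pair b (encode l) + 1`, for round `r`: track 0 is `r`, track 6
is `encode (res a r).reverse`); track 0 is cleared; track 7 becomes `kap K c i m`, that is `1` iff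
`Kt K (res a n) i j`; if it is `1` then track 0 becomes `j` and `D j` is tested; if it is `0` then the flag is
set; then tracks 0, 5, 6, 7 are cleared, track 4 is increased, jump to `4`.
-/

set_option autoImplicit false

open Encodable Pool.Agent.H75.EK Pool.Agent.H76.ITTM Ordinal Function

namespace Pool.Agent.H76.TH

/-- The real read by the machine. -/
def rd (d : ℕ) (x : ℕ → Bool) : ℕ → ℕ := fun k => (x (d * k)).toNat

/-- The pair coded by `m` shows that `i` has a successor outside `D`. -/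
def Bad (K : List ℕ → ℕ → ℕ → Prop) (a : ℕ → ℕ) (D : ℕ → Bool) (i m : ℕ) : Prop :=
  Kt K (res a m.unpair.2) i m.unpair.1 ∧ D m.unpair.1 = false

open Classical in
/-- The state of the tracks in the inner loop: `D` on track 1, flag `f` on track 2, `i`, `m`. -/
noncomputable def trk (D : ℕ → Bool) (f : Prop) (I M : ℕ → Bool) : ℕ → ℕ → Bool := fun t =>
  if t = 1 then D else if t = 2 then th (if f then 1 else 0) else if t = 3 then I
  else if t = 4 then M else th 0

/-- The tracks with values on the tracks `0`, `5`, `6`, `7`. -/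
noncomputable def mbS (D : ℕ → Bool) (f : Prop) (i m z0 z5 z6 z7 : ℕ) : ℕ → ℕ → Bool := fun t =>
  if t = 0 then th z0 else if t = 5 then th z5 else if t = 6 then th z6 else if t = 7 then th z7
  else trk D f (th i) (th m) t

section

variable {D : ℕ → Bool} {f : Prop} {i m z0 z5 z6 z7 : ℕ}

theorem mbS_zero : mbS D f i m 0 0 0 0 = trk D f (th i) (th m) := by
  funext t
  unfold mbS trk
  split_ifs <;> first | rfl | omega

theorem mbS_upd0 (w : ℕ) :
    update (mbS D f i m z0 z5 z6 z7) 0 (th w) = mbS D f i m w z5 z6 z7 := by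
  funext t
  by_cases h : t = 0
  · subst h
    rw [update_self]
    rfl
  · rw [update_of_ne h]
    simp only [mbS, h, if_false]

theorem mbS_upd5 (w : ℕ) :
    update (mbS D f i m z0 z5 z6 z7) 5 (th w) = mbS D f i m z0 w z6 z7 := by
  funext t
  by_cases h : t = 5
  · subst h
    rw [update_self]
    rfl
  · rw [update_of_ne h]
    simp only [mbS, h, if_false]

theorem mbS_upd6 (w : ℕ) :
    update (mbS D f i m z0 z5 z6 z7) 6 (th w) = mbS D f i m z0 z5 w z7 := by
  funext t
  by_cases h : t = 6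
  · subst h
    rw [update_self]
    rfl
  · rw [update_of_ne h]
    simp only [mbS, h, if_false]

theorem mbS_upd7 (w : ℕ) :
    update (mbS D f i m z0 z5 z6 z7) 7 (th w) = mbS D f i m z0 z5 z6 w := by
  funext t
  by_cases h : t = 7
  · subst h
    rw [update_self]
    rfl
  · rw [update_of_ne h]
    simp only [mbS, h, if_false]

theorem mbS_upd4 (w : ℕ) :
    update (mbS D f i m z0 z5 z6 z7) 4 (th w) = mbS D f i w z0 z5 z6 z7 := by
  funext t
  by_cases h : t = 4
  · subst h
    rw [update_self]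
    rfl
  · rw [update_of_ne h]
    simp only [mbS, trk, h, if_false]

theorem mbS_v0 : mbS D f i m z0 z5 z6 z7 0 = th z0 := rfl
theorem mbS_v1 : mbS D f i m z0 z5 z6 z7 1 = D := rfl
theorem mbS_v3 : mbS D f i m z0 z5 z6 z7 3 = th i := rfl
theorem mbS_v4 : mbS D f i m z0 z5 z6 z7 4 = th m := rfl
theorem mbS_v5 : mbS D f i m z0 z5 z6 z7 5 = th z5 := rfl
theorem mbS_v6 : mbS D f i m z0 z5 z6 z7 6 = th z6 := rfl
theorem mbS_v7 : mbS D f i m z0 z5 z6 z7 7 = th z7 := rfl

theorem mbS_v8 (t : ℕ) (ht : 8 ≤ t) : mbS D f i m z0 z5 z6 z7 t = th 0 := by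
  unfold mbS trk
  split_ifs <;> first | rfl | omega

theorem mbS_mid {t : ℕ} (h1 : 1 ≤ t) (h4 : t ≤ 4) :
    mbS D f i m z0 z5 z6 z7 t = trk D f (th i) (th m) t := by
  unfold mbS
  rw [if_neg (by omega), if_neg (by omega), if_neg (by omega), if_neg (by omega)]

theorem mb_th_inj {a b : ℕ} (h : th a = th b) : a = b := by
  rcases lt_trichotomy a b with h1 | h1 | h1
  · have h2 := congrFun h a
    simp [th, h1] at h2
  · exact h1
  · have h2 := congrFun h b
    simp [th, h1] at h2

/-- Setting the flag. -/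
theorem mbS_upd2 {f' : Prop} (hf' : f') :
    update (mbS D f i m z0 z5 z6 z7) 2 (update (mbS D f i m z0 z5 z6 z7 2) 0 true) =
      mbS D f' i m z0 z5 z6 z7 := by
  funext t
  by_cases h : t = 2
  · subst h
    rw [update_self]
    have e1 : mbS D f' i m z0 z5 z6 z7 2 = th 1 := by
      rw [mbS_mid (by norm_num) (by norm_num)]
      simp [trk, hf']
    rw [e1, mbS_mid (by norm_num) (by norm_num)]
    funext p
    rcases p with _ | p
    · rw [update_self]; rfl
    · rw [update_of_ne (Nat.succ_ne_zero p)]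
      by_cases hf : f <;> simp [trk, hf, th]
  · rw [update_of_ne h]
    simp only [mbS, trk, h, if_false]

theorem mb_J {B f1 : Prop} (h1 : f → f1) (h2 : f1 → f ∨ B) {V : ℕ → ℕ → Bool}
    (hV : ∀ t, 1 ≤ t → t ≤ 4 → V t = trk D f1 (th i) (th m) t) :
    ∀ t, 1 ≤ t → t ≤ 4 → ∀ p, (trk D f (th i) (th m) t p = true → V t p = true) ∧
        (V t p = true → trk D (f ∨ B) (th i) (th (m + 1)) t p = true) := by
  intro t ht1 ht4 p
  rw [hV t ht1 ht4]
  have hcases : t = 1 ∨ t = 2 ∨ t = 3 ∨ t = 4 := by omega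
  rcases hcases with rfl | rfl | rfl | rfl
  · simp [trk]
  · constructor
    · intro h
      by_cases hf : f
      · simpa [trk, hf, h1 hf] using h
      · simp [trk, hf, th] at h
    · intro h
      by_cases hf : f1
      · have h3 := h2 hf
        simpa [trk, hf, h3] using h
      · simp [trk, hf, th] at h
  · simp [trk]
  · show (th m p = true → th m p = true) ∧ (th m p = true → th (m + 1) p = true)
    refine ⟨id, fun h => ?_⟩
    simp only [th, decide_eq_true_eq] at h ⊢
    omega

end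

theorem mb_enc (a : ℕ → ℕ) (r : ℕ) :
    encode (res a (r + 1)).reverse = Nat.pair (a r) (encode (res a r).reverse) + 1 := by
  have h1 : (res a (r + 1)).reverse = a r :: (res a r).reverse := by
    unfold res
    rw [List.range_succ, List.map_append, List.reverse_append]
    rfl
  rw [h1]
  rfl

theorem mb_kap {K : List ℕ → ℕ → ℕ → Prop} {a : ℕ → ℕ} {i m n : ℕ} :
    (Kt K (res a n) i m.unpair.1 ∧ kap K (encode (res a n).reverse) i m = 1) ∨
      (¬ Kt K (res a n) i m.unpair.1 ∧ kap K (encode (res a n).reverse) i m = 0) := by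
  unfold kap
  rw [encodek, Option.getD_some, List.reverse_reverse]
  by_cases h : Kt K (res a n) i m.unpair.1
  · exact Or.inl ⟨h, if_pos h⟩
  · exact Or.inr ⟨h, if_neg h⟩

section

variable {K : List ℕ → ℕ → ℕ → Prop} (l : Lay K) (x D : ℕ → Bool) (f : Prop) (i m : ℕ)

/-- One round of the reading loop. -/
theorem mb_read {n r z : ℕ} (hr : r < n) {J : (ℕ → ℕ → Bool) → Prop}
    (hJ : ∀ V : ℕ → ℕ → Bool, (∀ t, 1 ≤ t → t ≤ 4 → V t = trk D f (th i) (th m) t) → J V) :
    Seg l.d l.code x 4 l.aF J l.p1 (mbS D f i m r n z 0) l.p1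
      (mbS D f i m (r + 1) n (Nat.pair (rd l.d x r) z + 1) 0) := by
  have hd := l.hd
  have h1 := l.h1
  have h2 := l.h2
  have h3 := l.h3
  have h4 := l.h4
  have h5 := l.h5
  have h7 := l.h7
  have h8 := l.h8
  have h9 := l.h9
  have hG := l.hG
  have hF := l.hF
  have hJS : ∀ w0 w5 w6 w7, J (mbS D f i m w0 w5 w6 w7) := fun w0 w5 w6 w7 =>
    hJ _ fun t ht1 ht4 => mbS_mid ht1 ht4
  -- the comparison
  have s1 : Seg l.d l.code x 4 l.aF J l.p1 (mbS D f i m r n z 0) (l.p1 + 1)
      (mbS D f i m r n z 0) := by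
    have hne : mbS D f i m r n z 0 0 ≠ mbS D f i m r n z 0 5 := by
      rw [mbS_v0, mbS_v5]
      intro h
      exact hr.ne (mb_th_inj h)
    exact Seg.one (by omega) l.cp1 (cmp_sw_ne (by norm_num) (by omega) hne _ _) (by norm_num)
      (by omega) (by omega) (hJS _ _ _ _)
  -- reading
  have s2 : Seg l.d l.code x 4 l.aF J (l.p1 + 1) (mbS D f i m r n z 0) l.p4
      (mbS D f i m r n z (Nat.pair (rd l.d x r) z + 1)) := by
    have hs := rdx_sw (d := l.d) (x := x) (T := mbS D f i m r n z 0) (by omega)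
      (mbS_v0 (z0 := r)) l.p2 l.p3
    cases hx : x (l.d * r) with
    | false =>
      rw [hx] at hs
      have g1 : Seg l.d l.code x 4 l.aF J (l.p1 + 1) (mbS D f i m r n z 0) l.p2
          (mbS D f i m r n z 0) :=
        Seg.one (by omega) l.cp1' hs (by norm_num) (by omega) (by omega) (hJS _ _ _ _)
      have g2 := l.s0 x z (mbS D f i m r n z 0) mbS_v6 mbS_v7 mbS_v8
      rw [mbS_upd7] at g2
      have e : rd l.d x r = 0 := by simp [rd, hx]
      rw [e]
      refine g1.trans (g2.mono (by omega) (by omega) fun V hV => hJ V fun t ht1 ht4 => ?_)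
      rw [hV t (by omega), mbS_mid ht1 ht4]
    | true =>
      rw [hx] at hs
      have g1 : Seg l.d l.code x 4 l.aF J (l.p1 + 1) (mbS D f i m r n z 0) l.p3
          (mbS D f i m r n z 0) :=
        Seg.one (by omega) l.cp1' hs (by norm_num) (by omega) (by omega) (hJS _ _ _ _)
      have g2 := l.s1 x z (mbS D f i m r n z 0) mbS_v6 mbS_v7 mbS_v8
      rw [mbS_upd7] at g2
      have e : rd l.d x r = 1 := by simp [rd, hx]
      rw [e]
      refine g1.trans (g2.mono (by omega) (by omega) fun V hV => hJ V fun t ht1 ht4 => ?_)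
      rw [hV t (by omega), mbS_mid ht1 ht4]
  set w := Nat.pair (rd l.d x r) z + 1 with hw
  have s3 : Seg l.d l.code x 4 l.aF J l.p4 (mbS D f i m r n z w) (l.p4 + 1)
      (mbS D f i m r n 0 w) := by
    have hs := clr_sw (d := l.d) (x := x) (T := mbS D f i m r n z w) (r := 6) (by omega)
      (l.p4 + 1)
    rw [mbS_upd6] at hs
    exact Seg.one (by omega) l.cp4 hs (by norm_num) (by omega) (by omega) (hJS _ _ _ _)
  have s4 : Seg l.d l.code x 4 l.aF J (l.p4 + 1) (mbS D f i m r n 0 w) l.p5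
      (mbS D f i m r n w w) := by
    have g2 := l.sC x w (mbS D f i m r n 0 w) mbS_v7 mbS_v6 mbS_v8
    rw [mbS_upd6] at g2
    refine g2.mono (by omega) (by omega) fun V hV => hJ V fun t ht1 ht4 => ?_
    rw [hV t (by omega) (by omega), mbS_mid ht1 ht4]
  have s5 : Seg l.d l.code x 4 l.aF J l.p5 (mbS D f i m r n w w) (l.p5 + 1)
      (mbS D f i m r n w 0) := by
    have hs := clr_sw (d := l.d) (x := x) (T := mbS D f i m r n w w) (r := 7) (by omega)
      (l.p5 + 1)
    rw [mbS_upd7] at hs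
    exact Seg.one (by omega) l.cp5 hs (by norm_num) (by omega) (by omega) (hJS _ _ _ _)
  have s6 : Seg l.d l.code x 4 l.aF J (l.p5 + 1) (mbS D f i m r n w 0) l.p1
      (mbS D f i m (r + 1) n w 0) := by
    have hs := inc_sw (d := l.d) (x := x) (T := mbS D f i m r n w 0) (r := 0) (by omega)
      mbS_v0 l.p1
    rw [mbS_upd0] at hs
    exact Seg.one (by omega) l.cp5' hs (by norm_num) (by omega) (by omega) (hJS _ _ _ _)
  exact ((((s1.trans s2).trans s3).trans s4).trans s5).trans s6

/-- The end of the body: clear the tracks, increase track 4. -/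
theorem mb_end {z0 z5 z6 z7 : ℕ} {J : (ℕ → ℕ → Bool) → Prop}
    (hJ : ∀ V : ℕ → ℕ → Bool, (∀ t, 1 ≤ t → t ≤ 4 → V t = trk D f (th i) (th m) t) → J V) :
    Seg l.d l.code x 4 l.aF J l.pG (mbS D f i m z0 z5 z6 z7) 4
      (mbS D f i (m + 1) 0 0 0 0) := by
  have hd := l.hd
  have h1 := l.h1
  have h2 := l.h2
  have h3 := l.h3
  have h4 := l.h4
  have h5 := l.h5
  have h7 := l.h7
  have h8 := l.h8
  have h9 := l.h9
  have hG := l.hG
  have hF := l.hF
  have hJS : ∀ w0 w5 w6 w7, J (mbS D f i m w0 w5 w6 w7) := fun w0 w5 w6 w7 =>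
    hJ _ fun t ht1 ht4 => mbS_mid ht1 ht4
  have s1 : Seg l.d l.code x 4 l.aF J l.pG (mbS D f i m z0 z5 z6 z7) (l.pG + 1)
      (mbS D f i m 0 z5 z6 z7) := by
    have hs := clr_sw (d := l.d) (x := x) (T := mbS D f i m z0 z5 z6 z7) (r := 0) (by omega)
      (l.pG + 1)
    rw [mbS_upd0] at hs
    exact Seg.one (by omega) l.cG0 hs (by norm_num) (by omega) (by omega) (hJS _ _ _ _)
  have s2 : Seg l.d l.code x 4 l.aF J (l.pG + 1) (mbS D f i m 0 z5 z6 z7) (l.pG + 2)
      (mbS D f i m 0 0 z6 z7) := by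
    have hs := clr_sw (d := l.d) (x := x) (T := mbS D f i m 0 z5 z6 z7) (r := 5) (by omega)
      (l.pG + 2)
    rw [mbS_upd5] at hs
    exact Seg.one (by omega) l.cG1 hs (by norm_num) (by omega) (by omega) (hJS _ _ _ _)
  have s3 : Seg l.d l.code x 4 l.aF J (l.pG + 2) (mbS D f i m 0 0 z6 z7) (l.pG + 3)
      (mbS D f i m 0 0 0 z7) := by
    have hs := clr_sw (d := l.d) (x := x) (T := mbS D f i m 0 0 z6 z7) (r := 6) (by omega)
      (l.pG + 3)
    rw [mbS_upd6] at hs
    exact Seg.one (by omega) l.cG2 hs (by norm_num) (by omega) (by omega) (hJS _ _ _ _)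
  have s4 : Seg l.d l.code x 4 l.aF J (l.pG + 3) (mbS D f i m 0 0 0 z7) (l.pG + 4)
      (mbS D f i m 0 0 0 0) := by
    have hs := clr_sw (d := l.d) (x := x) (T := mbS D f i m 0 0 0 z7) (r := 7) (by omega)
      (l.pG + 4)
    rw [mbS_upd7] at hs
    exact Seg.one (by omega) l.cG3 hs (by norm_num) (by omega) (by omega) (hJS _ _ _ _)
  have s5 : Seg l.d l.code x 4 l.aF J (l.pG + 4) (mbS D f i m 0 0 0 0) 4
      (mbS D f i (m + 1) 0 0 0 0) := by
    have hs := inc_sw (d := l.d) (x := x) (T := mbS D f i m 0 0 0 0) (r := 4) (by omega)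
      mbS_v4 4
    rw [mbS_upd4] at hs
    exact Seg.one (by omega) l.cG4 hs (by norm_num) (by omega) (by omega) (hJS _ _ _ _)
  exact (((s1.trans s2).trans s3).trans s4).trans s5

/-- The first part of the body. -/
theorem mb_start {J : (ℕ → ℕ → Bool) → Prop}
    (hJ : ∀ V : ℕ → ℕ → Bool, (∀ t, 1 ≤ t → t ≤ 4 → V t = trk D f (th i) (th m) t) → J V) :
    Seg l.d l.code x 4 l.aF J 5 (mbS D f i m 0 0 0 0) l.p8
      (mbS D f i m 0 m.unpair.2 (encode (res (rd l.d x) m.unpair.2).reverse)
        (kap K (encode (res (rd l.d x) m.unpair.2).reverse) i m)) := by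
  have hd := l.hd
  have h1 := l.h1
  have h2 := l.h2
  have h3 := l.h3
  have h4 := l.h4
  have h5 := l.h5
  have h7 := l.h7
  have h8 := l.h8
  have h9 := l.h9
  have hG := l.hG
  have hF := l.hF
  have hJS : ∀ w0 w5 w6 w7, J (mbS D f i m w0 w5 w6 w7) := fun w0 w5 w6 w7 =>
    hJ _ fun t ht1 ht4 => mbS_mid ht1 ht4
  set n := m.unpair.2 with hn
  have s1 : Seg l.d l.code x 4 l.aF J 5 (mbS D f i m 0 0 0 0) 6 (mbS D f i m 0 0 0 0) := by
    have hf : mbS D f i m 0 0 0 0 4 m = false := by
      rw [mbS_v4]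
      simp [th]
    exact Seg.one (by omega) l.c5 (full_sw_not (by omega) hf _ _) (by norm_num)
      (by omega) (by omega) (hJS _ _ _ _)
  have s2 : Seg l.d l.code x 4 l.aF J 6 (mbS D f i m 0 0 0 0) l.p1 (mbS D f i m 0 n 0 0) := by
    have g2 := l.sN x m (mbS D f i m 0 0 0 0) mbS_v4 mbS_v5 mbS_v8
    rw [mbS_upd5] at g2
    refine g2.mono (by omega) (by omega) fun V hV => hJ V fun t ht1 ht4 => ?_
    rw [hV t (by omega) (by omega), mbS_mid ht1 ht4]
  have s3 : Seg l.d l.code x 4 l.aF J l.p1 (mbS D f i m 0 n 0 0) l.p1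
      (mbS D f i m n n (encode (res (rd l.d x) n).reverse) 0) := by
    have g := Seg.iter (d := l.d) (code := l.code) (x := x) (lo := 4) (hi := l.aF) (J := J)
      (b := l.p1)
      (fun r => mbS D f i m r n (encode (res (rd l.d x) r).reverse) 0) n (fun r hr => by
        rw [mb_enc]
        exact mb_read l x D f i m hr hJ)
    exact g
  have s4 : Seg l.d l.code x 4 l.aF J l.p1
      (mbS D f i m n n (encode (res (rd l.d x) n).reverse) 0) l.p7
      (mbS D f i m n n (encode (res (rd l.d x) n).reverse) 0) := by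
    have he : mbS D f i m n n (encode (res (rd l.d x) n).reverse) 0 0 =
        mbS D f i m n n (encode (res (rd l.d x) n).reverse) 0 5 := rfl
    exact Seg.one (by omega) l.cp1 (cmp_sw_eq (by norm_num) (by omega) he _ _) (by norm_num)
      (by omega) (by omega) (hJS _ _ _ _)
  have s5 : Seg l.d l.code x 4 l.aF J l.p7
      (mbS D f i m n n (encode (res (rd l.d x) n).reverse) 0) (l.p7 + 1)
      (mbS D f i m 0 n (encode (res (rd l.d x) n).reverse) 0) := by
    have hs := clr_sw (d := l.d) (x := x)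
      (T := mbS D f i m n n (encode (res (rd l.d x) n).reverse) 0) (r := 0) (by omega)
      (l.p7 + 1)
    rw [mbS_upd0] at hs
    exact Seg.one (by omega) l.cp7 hs (by norm_num) (by omega) (by omega) (hJS _ _ _ _)
  have s6 := l.sK x (encode (res (rd l.d x) n).reverse) i m
    (mbS D f i m 0 n (encode (res (rd l.d x) n).reverse) 0) mbS_v6 mbS_v3 mbS_v4 mbS_v7 mbS_v8
  rw [mbS_upd7] at s6
  have s6' := s6.mono (lo' := 4) (hi' := l.aF) (J' := J) (by omega) (by omega)
    fun V hV => hJ V fun t ht1 ht4 => by rw [hV t (by omega), mbS_mid ht1 ht4]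
  exact ((((s1.trans s2).trans s3).trans s4).trans s5).trans s6'

end

theorem Lay.body {K : List ℕ → ℕ → ℕ → Prop} (l : Lay K) (x D : ℕ → Bool) (f : Prop)
    (i m : ℕ) :
    Seg l.d l.code x 4 l.aF
      (fun V => ∀ t, 1 ≤ t → t ≤ 4 → ∀ p, (trk D f (th i) (th m) t p = true → V t p = true) ∧
        (V t p = true →
          trk D (f ∨ Bad K (rd l.d x) D i m) (th i) (th (m + 1)) t p = true))
      5 (trk D f (th i) (th m)) 4
      (trk D (f ∨ Bad K (rd l.d x) D i m) (th i) (th (m + 1))) := by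
  have hd := l.hd
  have h1 := l.h1
  have h2 := l.h2
  have h3 := l.h3
  have h4 := l.h4
  have h5 := l.h5
  have h7 := l.h7
  have h8 := l.h8
  have h9 := l.h9
  have hG := l.hG
  have hF := l.hF
  set B : Prop := Bad K (rd l.d x) D i m with hB
  set J : (ℕ → ℕ → Bool) → Prop := fun V => ∀ t, 1 ≤ t → t ≤ 4 → ∀ p,
    (trk D f (th i) (th m) t p = true → V t p = true) ∧
      (V t p = true → trk D (f ∨ B) (th i) (th (m + 1)) t p = true) with hJd
  have hJ0 : ∀ V : ℕ → ℕ → Bool, (∀ t, 1 ≤ t → t ≤ 4 → V t = trk D f (th i) (th m) t) → J V :=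
    fun V hV => mb_J (f1 := f) id Or.inl hV
  have hJ1 : ∀ V : ℕ → ℕ → Bool,
      (∀ t, 1 ≤ t → t ≤ 4 → V t = trk D (f ∨ B) (th i) (th m) t) → J V :=
    fun V hV => mb_J (f1 := f ∨ B) Or.inl id hV
  have hJS : ∀ w0 w5 w6 w7, J (mbS D f i m w0 w5 w6 w7) := fun w0 w5 w6 w7 =>
    hJ0 _ fun t ht1 ht4 => mbS_mid ht1 ht4
  rw [← mbS_zero (D := D) (f := f), ← mbS_zero (D := D) (f := f ∨ B)]
  have s0 := mb_start l x D f i m hJ0
  set n := m.unpair.2 with hn
  set c := encode (res (rd l.d x) n).reverse with hc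
  rcases mb_kap (K := K) (a := rd l.d x) (i := i) (m := m) (n := n) with ⟨hK, hk⟩ | ⟨hK, hk⟩
  · rw [← hc] at hk
    rw [hk] at s0
    have s1 : Seg l.d l.code x 4 l.aF J l.p8 (mbS D f i m 0 n c 1) (l.p8 + 1)
        (mbS D f i m 0 n c 1) := by
      have hs := tz_sw (d := l.d) (x := x) (T := mbS D f i m 0 n c 1) (r := 7) (by omega)
        l.pG (l.p8 + 1)
      rw [mbS_v7, show th 1 0 = true from rfl] at hs
      exact Seg.one (by omega) l.cp8 hs (by norm_num) (by omega) (by omega) (hJS _ _ _ _)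
    have s2 : Seg l.d l.code x 4 l.aF J (l.p8 + 1) (mbS D f i m 0 n c 1) l.p9
        (mbS D f i m m.unpair.1 n c 1) := by
      have g2 := l.sJ x m (mbS D f i m 0 n c 1) mbS_v4 mbS_v0 mbS_v8
      rw [mbS_upd0] at g2
      refine g2.mono (by omega) (by omega) fun V hV => hJ0 V fun t ht1 ht4 => ?_
      rw [hV t (by omega) (by omega), mbS_mid ht1 ht4]
    have s3 := rdD_sw (d := l.d) (x := x) (T := mbS D f i m m.unpair.1 n c 1) (by omega)
      (mbS_v0 (z0 := m.unpair.1)) (l.p9 + 1) l.pG
    rw [mbS_v1] at s3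
    cases hDj : D m.unpair.1 with
    | true =>
      rw [hDj] at s3
      have s4 : Seg l.d l.code x 4 l.aF J l.p9 (mbS D f i m m.unpair.1 n c 1) l.pG
          (mbS D f i m m.unpair.1 n c 1) :=
        Seg.one (by omega) l.cp9 s3 (by norm_num) (by omega) (by omega) (hJS _ _ _ _)
      have hBf : ¬ B := by
        rintro ⟨_, hb⟩
        rw [hDj] at hb
        exact Bool.false_ne_true hb.symm
      have e : (f ∨ B) = f := by
        apply propext
        constructor
        · rintro (h | h)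
          · exact h
          · exact absurd h hBf
        · exact Or.inl
      rw [e]
      exact (((s0.trans s1).trans s2).trans s4).trans (mb_end l x D f i m hJ0)
    | false =>
      rw [hDj] at s3
      have s4 : Seg l.d l.code x 4 l.aF J l.p9 (mbS D f i m m.unpair.1 n c 1) (l.p9 + 1)
          (mbS D f i m m.unpair.1 n c 1) :=
        Seg.one (by omega) l.cp9 s3 (by norm_num) (by omega) (by omega) (hJS _ _ _ _)
      have hBt : f ∨ B := Or.inr ⟨hK, hDj⟩
      have s5 : Seg l.d l.code x 4 l.aF J (l.p9 + 1) (mbS D f i m m.unpair.1 n c 1) l.pG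
          (mbS D (f ∨ B) i m m.unpair.1 n c 1) := by
        have hs := one_sw (d := l.d) (x := x) (T := mbS D f i m m.unpair.1 n c 1) (r := 2)
          (by omega) l.pG
        rw [mbS_upd2 hBt] at hs
        exact Seg.one (by omega) l.cp9' hs (by norm_num) (by omega) (by omega) (hJS _ _ _ _)
      exact ((((s0.trans s1).trans s2).trans s4).trans s5).trans (mb_end l x D (f ∨ B) i m hJ1)
  · rw [← hc] at hk
    rw [hk] at s0
    have s1 : Seg l.d l.code x 4 l.aF J l.p8 (mbS D f i m 0 n c 0) l.pG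
        (mbS D f i m 0 n c 0) := by
      have hs := tz_sw (d := l.d) (x := x) (T := mbS D f i m 0 n c 0) (r := 7) (by omega)
        l.pG (l.p8 + 1)
      rw [mbS_v7, show th 0 0 = false from rfl] at hs
      exact Seg.one (by omega) l.cp8 hs (by norm_num) (by omega) (by omega) (hJS _ _ _ _)
    have hBf : ¬ B := fun hb => hK hb.1
    have e : (f ∨ B) = f := by
      apply propext
      constructor
      · rintro (h | h)
        · exact h
        · exact absurd h hBf
      · exact Or.inl
    rw [e]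
    exact (s0.trans s1).trans (mb_end l x D f i m hJ0)

end Pool.Agent.H76.TH
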