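import Pool.Agent.H76.TH.Defs
import Pool.Agent.H76.ITTM.Loop

/-!
Project THIN, machine part: definitions.
A program is a list of instructions; executing an instruction is one sweep of the head over the
whole tape (`ω` steps, always to the right) by a finite machine with memory `0, 1, 2, 3`, which knows
the position modulo `d` and changes the work tape. The next address depends on the final memory.
-/

set_option autoImplicit false

open Encodable Pool.Agent.H75.EK Pool.Agent.H76.ITTM Ordinal

namespace Pool.Agent.H76.TH

/-- An instruction. `mu t z i w`: at a cell whose position is `t` modulo `d`, with memory `z`, input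
symbol `i`, work symbol `w`, gives the new memory and the new work symbol. `nxt z`: the next address
when the final memory is `z`. -/
structure Instr where
  mu : ℕ → ℕ → Bool → Bool → ℕ × Bool
  nxt : ℕ → ℕ
  lt4 : ∀ t z i w, z < 4 → (mu t z i w).1 < 4

/-- The memory before cell `q` in a sweep over the input `x` and the work tape `W`. -/
def Instr.zs (I : Instr) (d : ℕ) (x W : ℕ → Bool) : ℕ → ℕ
  | 0 => 0
  | q + 1 => (I.mu (q % d) (I.zs d x W q) (x q) (W q)).1

/-- The new content of cell `q` of the work tape. -/
def Instr.out (I : Instr) (d : ℕ) (x W : ℕ → Bool) (q : ℕ) : Bool :=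
  (I.mu (q % d) (I.zs d x W q) (x q) (W q)).2

/-- The sweep changes `W` to `W'` and ends with memory `z` (eventually constant at multiples of
`d`). -/
def Instr.Sw (I : Instr) (d : ℕ) (x W W' : ℕ → Bool) (z : ℕ) : Prop :=
  (∀ q, I.out d x W q = W' q) ∧ ∃ k₀, ∀ k, k₀ ≤ k → I.zs d x W (d * k) = z

/-- The number of the state: address `a`, offset `t`, memory `z`. -/
def st (d a t z : ℕ) : ℕ := 1 + ((a * d + t) * 4 + z)

/-- The address in a state number. -/
def sA (d s : ℕ) : ℕ := (s - 1) / 4 / d
/-- The offset in a state number. -/
def sT (d s : ℕ) : ℕ := (s - 1) / 4 % d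
/-- The memory in a state number. -/
def sZ (s : ℕ) : ℕ := (s - 1) % 4

/-- The address to be executed next when a sweep has ended in state number `s`. -/
def disp (d : ℕ) (code : List Instr) (s : ℕ) : ℕ :=
  if s = 0 then 0 else (code[sA d s]?).elim 0 fun I => I.nxt (sZ s)

/-- Processing one cell with the instruction at address `a`, offset `t`, memory `z`; the third
symbol written is `m`. -/
def proc (d : ℕ) (code : List Instr) (a t z : ℕ) (r : Fin 3 → Bool) (m : Bool) :
    Option (Fin (code.length * d * 4 + 1) × (Fin 3 → Bool) × Bool) :=
  (code[a]?).map fun I =>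
    (⟨min (st d a ((t + 1) % d) (I.mu t z (r 0) (r 1)).1) (code.length * d * 4),
        Nat.lt_succ_of_le (min_le_right _ _)⟩,
      ![r 0, (I.mu t z (r 0) (r 1)).2, m], true)

/-- The program of the list of instructions `code`. Tape 0 is the input, tape 1 the work tape,
tape 2 carries a mark on cell 0 only. -/
def prog (d : ℕ) (code : List Instr) : Program where
  n := code.length * d * 4
  trans := fun s r =>
    if (s : ℕ) = 0 ∨ (sT d s = 0 ∧ r 2 = true) then proc d code (disp d code s) 0 0 r true
    else proc d code (sA d s) (sT d s) (sZ s) r (r 2)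

/-- At stage `ω * β` the machine is about to execute the instruction at address `a` with work tape
`W`. -/
structure At (d : ℕ) (code : List Instr) (x : ℕ → Bool) (β : Ordinal.{0}) (a : ℕ)
    (W : ℕ → Bool) : Prop where
  head : (run (prog d code) x (ω * β)).head = 0
  disp : disp d code (run (prog d code) x (ω * β)).state = a
  off : ((run (prog d code) x (ω * β)).state : ℕ) = 0 ∨
    sT d (run (prog d code) x (ω * β)).state = 0
  cell0 : ∀ q, (run (prog d code) x (ω * β)).cell 0 q = x q
  cell1 : ∀ q, (run (prog d code) x (ω * β)).cell 1 q = W q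
  cell2 : ∀ q, (run (prog d code) x (ω * β)).cell 2 q =
    decide (((run (prog d code) x (ω * β)).state : ℕ) ≠ 0 ∧ q = 0)

/-! ### Tracks -/

/-- The work tape with the tracks `T t`, `t < d`. -/
def mem (d : ℕ) (T : ℕ → ℕ → Bool) : ℕ → Bool := fun q => T (q % d) (q / d)

/-- The track that represents the number `n`. -/
def th (n : ℕ) : ℕ → Bool := fun p => decide (p < n)

/-- `l` occurs in `code` at address `b`. -/
def Sub (code : List Instr) (b : ℕ) (l : List Instr) : Prop :=
  ∀ i, i < l.length → code[b + i]? = l[i]?

/-- Started at address `b` with tracks `T`, the machine reaches address `e` with tracks `T'`; on the way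
all executed addresses are in `[lo, hi)` and all track contents satisfy `J`. -/
def Seg (d : ℕ) (code : List Instr) (x : ℕ → Bool) (lo hi : ℕ) (J : (ℕ → ℕ → Bool) → Prop)
    (b : ℕ) (T : ℕ → ℕ → Bool) (e : ℕ) (T' : ℕ → ℕ → Bool) : Prop :=
  ∀ β, At d code x β b (mem d T) → ∃ β', β ≤ β' ∧ At d code x β' e (mem d T') ∧
    ∀ γ, β ≤ γ → γ < β' → ∃ a V, At d code x γ a (mem d V) ∧ lo ≤ a ∧ a < hi ∧ J V

/-! ### The instructions -/

/-- Do nothing. -/
def nopI (a : ℕ) : Instr where
  mu := fun _ _ _ w => (0, w)
  nxt := fun _ => a
  lt4 := by intros; simp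

/-- Increase register `r`. -/
def incI (r a : ℕ) : Instr where
  mu := fun t z _ w => if t = r ∧ z = 0 ∧ w = false then (1, true) else (z, w)
  nxt := fun _ => a
  lt4 := by intro t z i w h; split_ifs <;> simp [h]

/-- Clear track `r`. -/
def clrI (r a : ℕ) : Instr where
  mu := fun t _ _ w => if t = r then (0, false) else (0, w)
  nxt := fun _ => a
  lt4 := by intro t z i w h; split_ifs <;> simp

/-- Compare the registers `r < s`: go to `a` if they are equal, to `b` if not. -/
def cmpI (r s a b : ℕ) : Instr where
  mu := fun t z _ w => if z = 3 then (3, w) else if t = r then (if w then 1 else 2, w)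
    else if t = s then (if (z = 1 ↔ w = true) then 0 else 3, w) else (z, w)
  nxt := fun z => if z = 0 then a else b
  lt4 := by intro t z i w h; split_ifs <;> simp [h]

/-- Read the input at the register in track `0`: go to `a` if it is `0`, to `b` if it is `1`. -/
def rdxI (a b : ℕ) : Instr where
  mu := fun t z i w => if t = 0 ∧ z = 0 ∧ w = false then (if i then 2 else 1, w) else (z, w)
  nxt := fun z => if z = 2 then b else a
  lt4 := by intro t z i w h; split_ifs <;> simp [h]

/-- Read track `1` at the register in track `0`: go to `a` if it is `0`, to `b` if it is `1`. -/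
def rdDI (a b : ℕ) : Instr where
  mu := fun t z _ w => if t = 0 ∧ z = 0 ∧ w = false then (3, w)
    else if t = 1 ∧ z = 3 then (if w then 2 else 1, w) else (z, w)
  nxt := fun z => if z = 2 then b else a
  lt4 := by intro t z i w h; split_ifs <;> simp [h]

/-- Write `1` on track `1` at the register in track `0`. -/
def wrDI (a : ℕ) : Instr where
  mu := fun t z _ w => if t = 0 ∧ z = 0 ∧ w = false then (3, w)
    else if t = 1 ∧ z = 3 then (1, true) else (z, w)
  nxt := fun _ => a
  lt4 := by intro t z i w h; split_ifs <;> simp [h]

/-- Write `1` on the first cell of track `r`. -/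
def oneI (r a : ℕ) : Instr where
  mu := fun t z _ w => if t = r ∧ z = 0 then (1, true) else (z, w)
  nxt := fun _ => a
  lt4 := by intro t z i w h; split_ifs <;> simp [h]

/-- Test the first cell of track `r`: go to `a` if it is `0`, to `b` if it is `1`. -/
def tzI (r a b : ℕ) : Instr where
  mu := fun t z _ w => if t = r ∧ z = 0 then (if w then 2 else 1, w) else (z, w)
  nxt := fun z => if z = 2 then b else a
  lt4 := by intro t z i w h; split_ifs <;> simp [h]

/-- Test whether track `r` is full: go to `a` if it is full, to `b` if not. -/
def fullI (r a b : ℕ) : Instr where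
  mu := fun t z _ w => if t = r ∧ w = false then (1, w) else (z, w)
  nxt := fun z => if z = 0 then a else b
  lt4 := by intro t z i w h; split_ifs <;> simp [h]

/-- Test whether the input is `0` outside the multiples of `d`: go to `a` if so, to `b` if not. -/
def chkI (a b : ℕ) : Instr where
  mu := fun t z i w => if t ≠ 0 ∧ i = true then (1, w) else (z, w)
  nxt := fun z => if z = 0 then a else b
  lt4 := by intro t z i w h; split_ifs <;> simp [h]

end Pool.Agent.H76.TH
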