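import Pool.Agent.H76.TH.MDefs

/-!
Project THIN, module MIns: the effect of the instructions on the tracks.
General tool: if `ζ : ℕ → ℕ → ℕ` satisfies `ζ 0 0 = 0`, `(I.mu t (ζ p t) (x (d*p+t)) (T t p)).1 = ζ p (t+1)` for
`t < d` and `ζ p d = ζ (p+1) 0`, then `I.zs d x (mem d T) (d*p+t) = ζ p t` for `t ≤ d`
(`(d*p+t) % d = t`, `(d*p+t) / d = p`); hence `Sw` as soon as
`(I.mu t (ζ p t) (x (d*p+t)) (T t p)).2 = T' t p` and `ζ p 0 = z` for large `p`.
`th n p ↔ p < n`; track `0` and so on are `T 0`, …. For example for `incI`: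
`ζ p t = if p < n ∨ (p = n ∧ t ≤ r) then 0 else 1`; for `cmpI`:
`ζ p t = if (∃ p' < p, T r p' ≠ T s p') ∨ (s < t ∧ T r p ≠ T s p) then 3 else if r < t ∧ t ≤ s then
(if T r p then 1 else 2) else 0`.
-/

set_option autoImplicit false

open Encodable Pool.Agent.H75.EK Pool.Agent.H76.ITTM Ordinal Function

namespace Pool.Agent.H76.TH

variable {d : ℕ} {x : ℕ → Bool} {T : ℕ → ℕ → Bool}

theorem min_mem_apply (T : ℕ → ℕ → Bool) {p t : ℕ} (ht : t < d) : mem d T (d * p + t) = T t p := by
  unfold mem
  rw [Nat.mul_add_mod, Nat.mod_eq_of_lt ht, Nat.mul_add_div (by omega), Nat.div_eq_of_lt ht,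
    add_zero]

theorem min_mem_split (_hd : 1 ≤ d) (W : ℕ → Bool) : mem d (fun t p => W (d * p + t)) = W := by
  funext q
  unfold mem
  simp only
  rw [Nat.div_add_mod]

/-- The general tool. -/
theorem min_sw (I : Instr) {T' : ℕ → ℕ → Bool} {z : ℕ} (ζ : ℕ → ℕ → ℕ) (hd : 1 ≤ d)
    (h0 : ζ 0 0 = 0)
    (h1 : ∀ p t, t < d → (I.mu t (ζ p t) (x (d * p + t)) (T t p)).1 = ζ p (t + 1))
    (h2 : ∀ p, ζ p d = ζ (p + 1) 0)
    (h3 : ∀ p t, t < d → (I.mu t (ζ p t) (x (d * p + t)) (T t p)).2 = T' t p)
    (h4 : ∃ k₀, ∀ k, k₀ ≤ k → ζ k 0 = z) : I.Sw d x (mem d T) (mem d T') z := by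
  have step : ∀ p t, t < d → I.zs d x (mem d T) (d * p + t) = ζ p t →
      I.zs d x (mem d T) (d * p + t + 1) = ζ p (t + 1) := by
    intro p t ht h
    rw [← h1 p t ht]
    show (I.mu ((d * p + t) % d) (I.zs d x (mem d T) (d * p + t)) (x (d * p + t))
      (mem d T (d * p + t))).1 = _
    rw [h, min_mem_apply T ht, Nat.mul_add_mod, Nat.mod_eq_of_lt ht]
  have row : ∀ p, I.zs d x (mem d T) (d * p) = ζ p 0 → ∀ t, t ≤ d →
      I.zs d x (mem d T) (d * p + t) = ζ p t := by
    intro p hp t
    induction t with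
    | zero => intro _; exact hp
    | succ t ih => intro ht; exact step p t (by omega) (ih (by omega))
  have col : ∀ p, I.zs d x (mem d T) (d * p) = ζ p 0 := by
    intro p
    induction p with
    | zero => rw [Nat.mul_zero, h0]; rfl
    | succ p ih =>
      rw [Nat.mul_succ, row p ih d le_rfl, h2]
  refine ⟨fun q => ?_, ?_⟩
  · obtain ⟨p, t, ht, rfl⟩ : ∃ p t, t < d ∧ q = d * p + t :=
      ⟨q / d, q % d, Nat.mod_lt _ (by omega), (Nat.div_add_mod q d).symm⟩
    unfold Instr.out
    rw [row p (col p) t ht.le, min_mem_apply T ht, min_mem_apply T' ht, Nat.mul_add_mod,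
      Nat.mod_eq_of_lt ht]
    exact h3 p t ht
  · obtain ⟨k₀, hk⟩ := h4
    exact ⟨k₀, fun k h => by rw [col, hk k h]⟩

theorem nop_sw (hd : 1 ≤ d) (a : ℕ) (W : ℕ → Bool) : (nopI a).Sw d x W W 0 := by
  rw [← min_mem_split hd W]
  exact min_sw _ (fun _ _ => 0) hd rfl (fun _ _ _ => rfl) (fun _ => rfl) (fun _ _ _ => rfl)
    ⟨0, fun _ _ => rfl⟩

theorem inc_sw {r n : ℕ} (hr : r < d) (h : T r = th n) (a : ℕ) :
    (incI r a).Sw d x (mem d T) (mem d (update T r (th (n + 1)))) 1 := by
  refine min_sw _ (fun p t => if p < n ∨ (p = n ∧ t ≤ r) then 0 else 1) (by omega) ?_ ?_ ?_ ?_ ?_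
  · exact if_pos (by omega)
  · intro p t ht
    by_cases htr : t = r
    · subst htr
      have hT : T t p = decide (p < n) := by rw [h]; rfl
      simp only [incI, hT]
      by_cases h1 : p < n
      · simp [h1]
      · by_cases h2 : p = n
        · subst h2
          simp
        · simp [h1, h2]
    · simp only [incI, htr, false_and, if_false]
      by_cases h1 : p < n
      · simp [h1]
      · by_cases h2 : p = n
        · subst h2
          have : t ≤ r ↔ t + 1 ≤ r := by omega
          simp [this]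
        · simp [h1, h2]
  · intro p
    have : (p < n ∨ (p = n ∧ d ≤ r)) ↔ (p + 1 < n ∨ (p + 1 = n ∧ 0 ≤ r)) := by omega
    simp only [this]
  · intro p t ht
    by_cases htr : t = r
    · subst htr
      have hT : T t p = decide (p < n) := by rw [h]; rfl
      rw [update_self]
      simp only [incI, hT, th]
      by_cases h1 : p < n
      · simp [h1, h1.trans (Nat.lt_succ_self n)]
      · by_cases h2 : p = n
        · subst h2
          simp
        · have h3 : ¬ p < n + 1 := by omega
          simp [h1, h2, h3]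
    · rw [update_of_ne htr]
      simp only [incI, htr, false_and, if_false]
  · exact ⟨n + 1, fun k hk => if_neg (by omega)⟩

theorem clr_sw {r : ℕ} (hr : r < d) (a : ℕ) :
    (clrI r a).Sw d x (mem d T) (mem d (update T r (th 0))) 0 := by
  refine min_sw _ (fun _ _ => 0) (by omega) rfl ?_ (fun _ => rfl) ?_ ⟨0, fun _ _ => rfl⟩
  · intro p t ht
    simp only [clrI]
    split_ifs <;> rfl
  · intro p t ht
    simp only [clrI]
    split_ifs with htr
    · subst htr
      rw [update_self]
      simp [th]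
    · rw [update_of_ne htr]

open Classical in
theorem min_cmp {r s : ℕ} (hrs : r < s) (hs : s < d) (a b z : ℕ)
    (hz : ∃ k₀, ∀ k, k₀ ≤ k → (if ∃ p' < k, T r p' ≠ T s p' then 3 else 0) = z) :
    (cmpI r s a b).Sw d x (mem d T) (mem d T) z := by
  refine min_sw _ (fun p t => if (∃ p' < p, T r p' ≠ T s p') ∨ (s < t ∧ T r p ≠ T s p) then 3
    else if r < t ∧ t ≤ s then (if T r p then 1 else 2) else 0) (by omega) ?_ ?_ ?_ ?_ ?_
  · simp
  · intro p t ht
    by_cases hb : ∃ p' < p, T r p' ≠ T s p'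
    · simp only [cmpI, hb, true_or, if_true]
    · simp only [cmpI, hb, false_or]
      rcases lt_trichotomy t r with h1 | h1 | h1
      · have e1 : ¬ s < t := by omega
        have e2 : ¬ s < t + 1 := by omega
        have e3 : ¬ r < t := by omega
        have e4 : ¬ r < t + 1 := by omega
        have e5 : t ≠ r := by omega
        have e6 : t ≠ s := by omega
        simp [e1, e2, e3, e4, e5, e6]
      · subst h1
        have e1 : ¬ s < t := by omega
        have e2 : ¬ s < t + 1 := by omega
        have e3 : t + 1 ≤ s := by omega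
        simp [e1, e2, e3]
      · rcases lt_trichotomy t s with h2 | h2 | h2
        · have e1 : ¬ s < t := by omega
          have e2 : ¬ s < t + 1 := by omega
          have e3 : t ≤ s := by omega
          have e4 : t + 1 ≤ s := by omega
          have e5 : t ≠ r := by omega
          have e6 : t ≠ s := by omega
          have e7 : r < t + 1 := by omega
          cases hT : T r p <;> simp [e1, e2, e3, e4, e5, e6, e7, h1]
        · subst h2
          have e5 : t ≠ r := by omega
          have e7 : r < t + 1 := by omega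
          cases hT : T r p <;> cases hT' : T t p <;> simp [e5, e7, h1]
        · have e1 : s < t + 1 := by omega
          have e3 : ¬ t ≤ s := by omega
          have e4 : ¬ t + 1 ≤ s := by omega
          have e5 : t ≠ r := by omega
          have e6 : t ≠ s := by omega
          by_cases e : T r p = T s p
          · simp [e1, e3, e4, e5, e6, e]
          · simp [e1, e, h2]
  · intro p
    have e1 : ¬ (r < d ∧ d ≤ s) := by omega
    have e2 : ((∃ p' < p, T r p' ≠ T s p') ∨ (s < d ∧ T r p ≠ T s p)) ↔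
        (∃ p' < p + 1, T r p' ≠ T s p') := by
      constructor
      · rintro (⟨p', h1, h2⟩ | ⟨_, h2⟩)
        · exact ⟨p', by omega, h2⟩
        · exact ⟨p, by omega, h2⟩
      · rintro ⟨p', h1, h2⟩
        rcases Nat.lt_succ_iff_lt_or_eq.1 h1 with h3 | h3
        · exact Or.inl ⟨p', h3, h2⟩
        · subst h3
          exact Or.inr ⟨hs, h2⟩
    have e3 : ¬ s < 0 := by omega
    have e4 : ¬ r < 0 := by omega
    simp only [e1, e2, e3, e4, false_and, or_false, if_false]
  · intro p t ht
    simp only [cmpI]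
    split_ifs <;> rfl
  · obtain ⟨k₀, hk⟩ := hz
    refine ⟨k₀, fun k h => ?_⟩
    rw [← hk k h]
    have e3 : ¬ s < 0 := by omega
    have e4 : ¬ r < 0 := by omega
    simp only [e3, e4, false_and, or_false, if_false]

theorem cmp_sw_eq {r s : ℕ} (hrs : r < s) (hs : s < d) (h : T r = T s) (a b : ℕ) :
    (cmpI r s a b).Sw d x (mem d T) (mem d T) 0 := by
  refine min_cmp hrs hs a b 0 ⟨0, fun k _ => ?_⟩
  rw [h]
  simp

theorem cmp_sw_ne {r s : ℕ} (hrs : r < s) (hs : s < d) (h : T r ≠ T s) (a b : ℕ) :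
    (cmpI r s a b).Sw d x (mem d T) (mem d T) 3 := by
  obtain ⟨p, hp⟩ := Function.ne_iff.1 h
  refine min_cmp hrs hs a b 3 ⟨p + 1, fun k hk => ?_⟩
  rw [if_pos ⟨p, by omega, hp⟩]

theorem rdx_sw (hd : 1 ≤ d) {n : ℕ} (h : T 0 = th n) (a b : ℕ) :
    (rdxI a b).Sw d x (mem d T) (mem d T) (if x (d * n) then 2 else 1) := by
  refine min_sw _ (fun p t => if p < n ∨ (p = n ∧ t = 0) then 0 else
    (if x (d * n) then 2 else 1)) hd ?_ ?_ ?_ ?_ ?_
  · exact if_pos (by omega)
  · intro p t ht
    by_cases htr : t = 0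
    · subst htr
      have hT : T 0 p = decide (p < n) := by rw [h]; rfl
      simp only [rdxI, hT]
      by_cases h1 : p < n
      · simp [h1]
      · by_cases h2 : p = n
        · subst h2
          simp
        · cases hx : x (d * n) <;> simp [h1, h2]
    · have e : t + 1 ≠ 0 := by omega
      simp only [rdxI, htr, e, false_and, if_false, and_false, or_false]
  · intro p
    have : (p < n ∨ (p = n ∧ d = 0)) ↔ (p + 1 < n ∨ (p + 1 = n ∧ 0 = 0)) := by omega
    simp only [this]
  · intro p t ht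
    simp only [rdxI]
    split_ifs <;> rfl
  · exact ⟨n + 1, fun k hk => if_neg (by omega)⟩

theorem rdD_sw (hd : 2 ≤ d) {n : ℕ} (h : T 0 = th n) (a b : ℕ) :
    (rdDI a b).Sw d x (mem d T) (mem d T) (if T 1 n then 2 else 1) := by
  refine min_sw _ (fun p t => if p < n ∨ (p = n ∧ t = 0) then 0 else if p = n ∧ t = 1 then 3 else
    (if T 1 n then 2 else 1)) (by omega) ?_ ?_ ?_ ?_ ?_
  · exact if_pos (by omega)
  · intro p t ht
    have hT : T 0 p = decide (p < n) := by rw [h]; rfl
    rcases lt_trichotomy p n with h1 | h1 | h1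
    · rcases t with _ | t
      · simp [rdDI, hT, h1]
      · simp [rdDI, h1]
    · subst h1
      rcases t with _ | _ | t
      · simp [rdDI, hT]
      · simp [rdDI]
      · simp [rdDI]
    · have e1 : ¬ p < n := by omega
      have e2 : ¬ p = n := by omega
      cases hT1 : T 1 n <;> simp [rdDI, e1, e2]
  · intro p
    have e1 : (p < n ∨ (p = n ∧ d = 0)) ↔ (p + 1 < n ∨ (p + 1 = n ∧ 0 = 0)) := by omega
    have e2 : ¬ (p = n ∧ d = 1) := by omega
    have e3 : ¬ (p + 1 = n ∧ 0 = 1) := by omega
    simp only [e1, e2, e3, if_false]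
  · intro p t ht
    simp only [rdDI]
    split_ifs <;> rfl
  · exact ⟨n + 1, fun k hk => (if_neg (by omega)).trans (if_neg (by omega))⟩

theorem wrD_sw (hd : 2 ≤ d) {n : ℕ} (h : T 0 = th n) (a : ℕ) :
    (wrDI a).Sw d x (mem d T) (mem d (update T 1 (update (T 1) n true))) 1 := by
  refine min_sw _ (fun p t => if p < n ∨ (p = n ∧ t = 0) then 0 else if p = n ∧ t = 1 then 3 else
    1) (by omega) ?_ ?_ ?_ ?_ ?_
  · exact if_pos (by omega)
  · intro p t ht
    have hT : T 0 p = decide (p < n) := by rw [h]; rfl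
    rcases lt_trichotomy p n with h1 | h1 | h1
    · rcases t with _ | t
      · simp [wrDI, hT, h1]
      · simp [wrDI, h1]
    · subst h1
      rcases t with _ | _ | t
      · simp [wrDI, hT]
      · simp [wrDI]
      · simp [wrDI]
    · have e1 : ¬ p < n := by omega
      have e2 : ¬ p = n := by omega
      simp [wrDI, e1, e2]
  · intro p
    have e1 : (p < n ∨ (p = n ∧ d = 0)) ↔ (p + 1 < n ∨ (p + 1 = n ∧ 0 = 0)) := by omega
    have e2 : ¬ (p = n ∧ d = 1) := by omega
    have e3 : ¬ (p + 1 = n ∧ 0 = 1) := by omega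
    simp only [e1, e2, e3, if_false]
  · intro p t ht
    have hT : T 0 p = decide (p < n) := by rw [h]; rfl
    by_cases ht1 : t = 1
    · subst ht1
      rw [update_self]
      rcases lt_trichotomy p n with h1 | h1 | h1
      · rw [update_of_ne h1.ne]
        simp [wrDI, h1]
      · subst h1
        rw [update_self]
        simp [wrDI]
      · have e1 : ¬ p < n := by omega
        have e2 : ¬ p = n := by omega
        rw [update_of_ne e2]
        simp [wrDI, e1, e2]
    · rw [update_of_ne ht1]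
      simp only [wrDI, ht1, false_and, if_false]
      split_ifs <;> rfl
  · exact ⟨n + 1, fun k hk => (if_neg (by omega)).trans (if_neg (by omega))⟩

theorem one_sw {r : ℕ} (hr : r < d) (a : ℕ) :
    (oneI r a).Sw d x (mem d T) (mem d (update T r (update (T r) 0 true))) 1 := by
  refine min_sw _ (fun p t => if p = 0 ∧ t ≤ r then 0 else 1) (by omega) ?_ ?_ ?_ ?_ ?_
  · simp
  · intro p t ht
    rcases p with _ | p
    · by_cases htr : t = r
      · subst htr
        simp [oneI]
      · have : t ≤ r ↔ t + 1 ≤ r := by omega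
        simp only [oneI, htr, false_and, if_false, true_and, this]
    · simp [oneI]
  · intro p
    have e1 : ¬ (p = 0 ∧ d ≤ r) := by omega
    have e2 : ¬ (p + 1 = 0 ∧ 0 ≤ r) := by omega
    simp only [e1, e2, if_false]
  · intro p t ht
    by_cases htr : t = r
    · subst htr
      rw [update_self]
      rcases p with _ | p
      · simp [oneI]
      · simp [oneI]
    · rw [update_of_ne htr]
      simp only [oneI, htr, false_and, if_false]
  · refine ⟨1, fun k hk => ?_⟩
    have e1 : ¬ (k = 0 ∧ 0 ≤ r) := by omega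
    simp only [e1, if_false]

theorem tz_sw {r : ℕ} (hr : r < d) (a b : ℕ) :
    (tzI r a b).Sw d x (mem d T) (mem d T) (if T r 0 then 2 else 1) := by
  refine min_sw _ (fun p t => if p = 0 ∧ t ≤ r then 0 else (if T r 0 then 2 else 1)) (by omega)
    ?_ ?_ ?_ ?_ ?_
  · simp
  · intro p t ht
    rcases p with _ | p
    · by_cases htr : t = r
      · subst htr
        simp [tzI]
      · have : t ≤ r ↔ t + 1 ≤ r := by omega
        simp only [tzI, htr, false_and, if_false, true_and, this]
    · cases hT : T r 0 <;> simp [tzI]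
  · intro p
    have e1 : ¬ (p = 0 ∧ d ≤ r) := by omega
    have e2 : ¬ (p + 1 = 0 ∧ 0 ≤ r) := by omega
    simp only [e1, e2, if_false]
  · intro p t ht
    simp only [tzI]
    split_ifs <;> rfl
  · refine ⟨1, fun k hk => ?_⟩
    have e1 : ¬ (k = 0 ∧ 0 ≤ r) := by omega
    simp only [e1, if_false]

open Classical in
theorem min_full {r : ℕ} (hr : r < d) (a b z : ℕ)
    (hz : ∃ k₀, ∀ k, k₀ ≤ k → (if ∃ p' < k, T r p' = false then 1 else 0) = z) :
    (fullI r a b).Sw d x (mem d T) (mem d T) z := by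
  refine min_sw _ (fun p t => if (∃ p' < p, T r p' = false) ∨ (r < t ∧ T r p = false) then 1
    else 0) (by omega) ?_ ?_ ?_ ?_ ?_
  · simp
  · intro p t ht
    by_cases hb : ∃ p' < p, T r p' = false
    · simp only [fullI, hb, true_or, if_true]
      split_ifs <;> rfl
    · simp only [fullI, hb, false_or]
      rcases lt_trichotomy t r with h1 | h1 | h1
      · have e3 : ¬ r < t := by omega
        have e4 : ¬ r < t + 1 := by omega
        have e5 : t ≠ r := by omega
        simp [e3, e4, e5]
      · subst h1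
        cases hT : T t p <;> simp
      · have e4 : r < t + 1 := by omega
        have e5 : t ≠ r := by omega
        simp [h1, e4, e5]
  · intro p
    have e2 : ((∃ p' < p, T r p' = false) ∨ (r < d ∧ T r p = false)) ↔
        (∃ p' < p + 1, T r p' = false) := by
      constructor
      · rintro (⟨p', h1, h2⟩ | ⟨_, h2⟩)
        · exact ⟨p', by omega, h2⟩
        · exact ⟨p, by omega, h2⟩
      · rintro ⟨p', h1, h2⟩
        rcases Nat.lt_succ_iff_lt_or_eq.1 h1 with h3 | h3
        · exact Or.inl ⟨p', h3, h2⟩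
        · subst h3
          exact Or.inr ⟨hr, h2⟩
    have e4 : ¬ r < 0 := by omega
    simp only [e2, e4, false_and, or_false]
  · intro p t ht
    simp only [fullI]
    split_ifs <;> rfl
  · obtain ⟨k₀, hk⟩ := hz
    refine ⟨k₀, fun k h => ?_⟩
    rw [← hk k h]
    have e4 : ¬ r < 0 := by omega
    simp only [e4, false_and, or_false]

theorem full_sw_full {r : ℕ} (hr : r < d) (h : ∀ p, T r p = true) (a b : ℕ) :
    (fullI r a b).Sw d x (mem d T) (mem d T) 0 := by
  refine min_full hr a b 0 ⟨0, fun k _ => ?_⟩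
  simp [h]

theorem full_sw_not {r : ℕ} (hr : r < d) {p : ℕ} (h : T r p = false) (a b : ℕ) :
    (fullI r a b).Sw d x (mem d T) (mem d T) 1 := by
  refine min_full hr a b 1 ⟨p + 1, fun k hk => ?_⟩
  rw [if_pos ⟨p, by omega, h⟩]

open Classical in
theorem min_chk (hd : 1 ≤ d) (a b z : ℕ) (W : ℕ → Bool)
    (hz : ∃ k₀, ∀ k, k₀ ≤ k → (if ∃ q < d * k, ¬ d ∣ q ∧ x q = true then 1 else 0) = z) :
    (chkI a b).Sw d x W W z := by
  rw [← min_mem_split hd W]
  refine min_sw _ (fun p t => if ∃ q < d * p + t, ¬ d ∣ q ∧ x q = true then 1 else 0) hd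
    ?_ ?_ ?_ ?_ ?_
  · simp
  · intro p t ht
    have e1 : (∃ q < d * p + (t + 1), ¬ d ∣ q ∧ x q = true) ↔
        (∃ q < d * p + t, ¬ d ∣ q ∧ x q = true) ∨ (t ≠ 0 ∧ x (d * p + t) = true) := by
      have e2 : ¬ d ∣ d * p + t ↔ t ≠ 0 := by
        rw [Nat.dvd_add_right (Dvd.intro p rfl)]
        constructor
        · rintro h rfl
          exact h (dvd_zero d)
        · intro h h'
          have := Nat.le_of_dvd (by omega) h'
          omega
      constructor
      · rintro ⟨q, h1, h2, h3⟩
        rcases Nat.lt_succ_iff_lt_or_eq.1 (show q < (d * p + t) + 1 by omega) with h4 | h4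
        · exact Or.inl ⟨q, h4, h2, h3⟩
        · subst h4
          exact Or.inr ⟨e2.1 h2, h3⟩
      · rintro (⟨q, h1, h2, h3⟩ | ⟨h2, h3⟩)
        · exact ⟨q, by omega, h2, h3⟩
        · exact ⟨d * p + t, by omega, e2.2 h2, h3⟩
    simp only [chkI, e1]
    by_cases hb : ∃ q < d * p + t, ¬ d ∣ q ∧ x q = true
    · simp only [hb, true_or, if_true]
      split_ifs <;> rfl
    · simp only [hb, false_or, if_false]
      split_ifs <;> rfl
  · intro p
    rfl
  · intro p t ht
    simp only [chkI]
    split_ifs <;> rfl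
  · exact hz

theorem chk_sw_ok (hd : 1 ≤ d) (h : ∀ q, ¬ d ∣ q → x q = false) (a b : ℕ) (W : ℕ → Bool) :
    (chkI a b).Sw d x W W 0 := by
  refine min_chk hd a b 0 W ⟨0, fun k _ => ?_⟩
  rw [if_neg]
  rintro ⟨q, _, h2, h3⟩
  rw [h q h2] at h3
  exact Bool.false_ne_true h3

theorem chk_sw_bad (hd : 1 ≤ d) (h : ¬ ∀ q, ¬ d ∣ q → x q = false) (a b : ℕ) (W : ℕ → Bool) :
    (chkI a b).Sw d x W W 1 := by
  push Not at h
  obtain ⟨q, h1, h2⟩ := h
  refine min_chk hd a b 1 W ⟨q + 1, fun k hk => ?_⟩
  rw [if_pos]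
  refine ⟨q, ?_, h1, by simpa using h2⟩
  calc q < q + 1 := Nat.lt_succ_self q
    _ ≤ k := hk
    _ ≤ d * k := Nat.le_mul_of_pos_left k (by omega)

end Pool.Agent.H76.TH
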