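import Pool.Agent.H76.TH.MPrB

/-!
Project THIN, module MLay: the main program.
`Lay K` records the code with its addresses and the effect of its primitive recursive parts.
Construction (`exists_lay`): take `Impl` (from `impl_of_primrec'` and `Nat.Primrec'.of_prim`) for the
functions `m ↦ m.unpair.2`, `m ↦ m.unpair.1`, `c ↦ (Nat.pair 0 c).succ`, `c ↦ (Nat.pair 1 c).succ`,
`c ↦ c` and `(c, i, m) ↦ kap K c i m`, with `k = 8`, and let `d` be large.
The code is the concatenation of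
`[chkI 1 (aE+2), nopI 2, nopI 3, fullI 3 aE 4, nopI 5, fullI 4 aF 6]`, `FN 6` (input 4, output 5),
`[cmpI 0 5 p7 (p1+1), rdxI p2 p3]`, `F0 p2` (input 6, output 7), `[nopI p4]`, `F1 p3` (input 6, output 7),
`[clrI 6 (p4+1)]`, `FC (p4+1)` (input 7, output 6), `[clrI 7 (p5+1), incI 0 p1, clrI 0 (p7+1)]`,
`FK (p7+1)` (inputs 6, 3, 4, output 7), `[tzI 7 pG (p8+1)]`, `FJ (p8+1)` (input 4, output 0),
`[rdDI (p9+1) pG, oneI 2 pG, clrI 0 (pG+1), clrI 5 (pG+2), clrI 6 (pG+3), clrI 7 (pG+4), incI 4 4,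
clrI 4 (aF+1), tzI 2 (aF+2) a2]`, `FI (aF+2)` (input 3, output 0),
`[wrDI (q1+1), clrI 0 a2, clrI 2 (a2+1), incI 3 2, clrI 3 (aE+1), tzI 1 1 (aE+4), nopI (aE+3),
nopI (aE+2)]`.
-/

set_option autoImplicit false

open Encodable Pool.Agent.H75.EK Pool.Agent.H76.ITTM Ordinal Function

namespace Pool.Agent.H76.TH

/-- The relations `K` with a new top element. -/
def Kt (K : List ℕ → ℕ → ℕ → Prop) (l : List ℕ) (i j : ℕ) : Prop :=
  (i = 0 ∧ 1 ≤ j) ∨ (1 ≤ i ∧ 1 ≤ j ∧ K l (i - 1) (j - 1))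

open Classical in
/-- The test computed by the machine; `c` is the code of a reversed list. -/
noncomputable def kap (K : List ℕ → ℕ → ℕ → Prop) (c i m : ℕ) : ℕ :=
  if Kt K ((decode c : Option (List ℕ)).getD []).reverse i m.unpair.1 then 1 else 0

/-- The code of the main program. -/
structure Lay (K : List ℕ → ℕ → ℕ → Prop) where
  d : ℕ
  code : List Instr
  p1 : ℕ
  p2 : ℕ
  p3 : ℕ
  p4 : ℕ
  p5 : ℕ
  p7 : ℕ
  p8 : ℕ
  p9 : ℕ
  pG : ℕ
  aF : ℕ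
  q1 : ℕ
  a2 : ℕ
  aE : ℕ
  hd : 9 ≤ d
  len : code.length = aE + 4
  h1 : 6 ≤ p1
  h2 : p2 = p1 + 2
  h3 : p2 < p3
  h4 : p3 ≤ p4
  h5 : p4 + 1 ≤ p5
  h7 : p7 = p5 + 2
  h8 : p7 + 1 ≤ p8
  h9 : p8 + 1 ≤ p9
  hG : pG = p9 + 2
  hF : aF = pG + 5
  hq : aF + 2 ≤ q1
  ha : a2 = q1 + 2
  hE : aE = a2 + 2
  c0 : code[0]? = some (chkI 1 (aE + 2))
  c1 : code[1]? = some (nopI 2)
  c2 : code[2]? = some (nopI 3)
  c3 : code[3]? = some (fullI 3 aE 4)
  c4 : code[4]? = some (nopI 5)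
  c5 : code[5]? = some (fullI 4 aF 6)
  cp1 : code[p1]? = some (cmpI 0 5 p7 (p1 + 1))
  cp1' : code[p1 + 1]? = some (rdxI p2 p3)
  cp4 : code[p4]? = some (clrI 6 (p4 + 1))
  cp5 : code[p5]? = some (clrI 7 (p5 + 1))
  cp5' : code[p5 + 1]? = some (incI 0 p1)
  cp7 : code[p7]? = some (clrI 0 (p7 + 1))
  cp8 : code[p8]? = some (tzI 7 pG (p8 + 1))
  cp9 : code[p9]? = some (rdDI (p9 + 1) pG)
  cp9' : code[p9 + 1]? = some (oneI 2 pG)
  cG0 : code[pG]? = some (clrI 0 (pG + 1))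
  cG1 : code[pG + 1]? = some (clrI 5 (pG + 2))
  cG2 : code[pG + 2]? = some (clrI 6 (pG + 3))
  cG3 : code[pG + 3]? = some (clrI 7 (pG + 4))
  cG4 : code[pG + 4]? = some (incI 4 4)
  cF0 : code[aF]? = some (clrI 4 (aF + 1))
  cF1 : code[aF + 1]? = some (tzI 2 (aF + 2) a2)
  cq1 : code[q1]? = some (wrDI (q1 + 1))
  cq1' : code[q1 + 1]? = some (clrI 0 a2)
  ca2 : code[a2]? = some (clrI 2 (a2 + 1))
  ca2' : code[a2 + 1]? = some (incI 3 2)
  cE0 : code[aE]? = some (clrI 3 (aE + 1))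
  cE1 : code[aE + 1]? = some (tzI 1 1 (aE + 4))
  cE2 : code[aE + 2]? = some (nopI (aE + 3))
  cE3 : code[aE + 3]? = some (nopI (aE + 2))
  /-- `m ↦ m.unpair.2`, input 4, output 5 -/
  sN : ∀ (x : ℕ → Bool) (v : ℕ) (T : ℕ → ℕ → Bool), T 4 = th v → T 5 = th 0 →
    (∀ t, 8 ≤ t → T t = th 0) →
    Seg d code x 6 p1 (fun V => ∀ t, t < 8 → t ≠ 5 → V t = T t) 6 T p1
      (update T 5 (th v.unpair.2))
  /-- `c ↦ ⟨0, c⟩ + 1`, input 6, output 7, with the jump to `p4` -/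
  s0 : ∀ (x : ℕ → Bool) (v : ℕ) (T : ℕ → ℕ → Bool), T 6 = th v → T 7 = th 0 →
    (∀ t, 8 ≤ t → T t = th 0) →
    Seg d code x p2 p3 (fun V => ∀ t, t < 7 → V t = T t) p2 T p4
      (update T 7 (th (Nat.pair 0 v + 1)))
  /-- `c ↦ ⟨1, c⟩ + 1`, input 6, output 7 -/
  s1 : ∀ (x : ℕ → Bool) (v : ℕ) (T : ℕ → ℕ → Bool), T 6 = th v → T 7 = th 0 →
    (∀ t, 8 ≤ t → T t = th 0) →
    Seg d code x p3 p4 (fun V => ∀ t, t < 7 → V t = T t) p3 T p4
      (update T 7 (th (Nat.pair 1 v + 1)))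
  /-- copy 7 to 6 -/
  sC : ∀ (x : ℕ → Bool) (v : ℕ) (T : ℕ → ℕ → Bool), T 7 = th v → T 6 = th 0 →
    (∀ t, 8 ≤ t → T t = th 0) →
    Seg d code x (p4 + 1) p5 (fun V => ∀ t, t < 8 → t ≠ 6 → V t = T t) (p4 + 1) T p5
      (update T 6 (th v))
  /-- the test, inputs 6, 3, 4, output 7 -/
  sK : ∀ (x : ℕ → Bool) (c i m : ℕ) (T : ℕ → ℕ → Bool), T 6 = th c → T 3 = th i → T 4 = th m →
    T 7 = th 0 → (∀ t, 8 ≤ t → T t = th 0) →
    Seg d code x (p7 + 1) p8 (fun V => ∀ t, t < 7 → V t = T t) (p7 + 1) T p8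
      (update T 7 (th (kap K c i m)))
  /-- `m ↦ m.unpair.1`, input 4, output 0 -/
  sJ : ∀ (x : ℕ → Bool) (v : ℕ) (T : ℕ → ℕ → Bool), T 4 = th v → T 0 = th 0 →
    (∀ t, 8 ≤ t → T t = th 0) →
    Seg d code x (p8 + 1) p9 (fun V => ∀ t, t < 8 → t ≠ 0 → V t = T t) (p8 + 1) T p9
      (update T 0 (th v.unpair.1))
  /-- copy 3 to 0 -/
  sI : ∀ (x : ℕ → Bool) (v : ℕ) (T : ℕ → ℕ → Bool), T 3 = th v → T 0 = th 0 →
    (∀ t, 8 ≤ t → T t = th 0) →
    Seg d code x (aF + 2) q1 (fun V => ∀ t, t < 8 → t ≠ 0 → V t = T t) (aF + 2) T q1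
      (update T 0 (th v))

/-! ### The primitive recursive parts -/

theorem MLay_primKt {K : List ℕ → ℕ → ℕ → Prop} (hK : PrimK K) :
    PrimrecPred (fun p : List ℕ × ℕ × ℕ => Kt K p.1 p.2.1 p.2.2) := by
  have hi : Primrec (fun p : List ℕ × ℕ × ℕ => p.2.1) := Primrec.fst.comp Primrec.snd
  have hj : Primrec (fun p : List ℕ × ℕ × ℕ => p.2.2) := Primrec.snd.comp Primrec.snd
  have h1 : PrimrecPred (fun p : List ℕ × ℕ × ℕ => p.2.1 = 0) :=
    Primrec.eq.comp hi (Primrec.const 0)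
  have h2 : PrimrecPred (fun p : List ℕ × ℕ × ℕ => 1 ≤ p.2.2) :=
    Primrec.nat_le.comp (Primrec.const 1) hj
  have h3 : PrimrecPred (fun p : List ℕ × ℕ × ℕ => 1 ≤ p.2.1) :=
    Primrec.nat_le.comp (Primrec.const 1) hi
  have h4 : PrimrecPred (fun p : List ℕ × ℕ × ℕ => K p.1 (p.2.1 - 1) (p.2.2 - 1)) :=
    PrimrecPred.comp hK (Primrec.pair Primrec.fst
      (Primrec.pair (Primrec.nat_sub.comp hi (Primrec.const 1))
        (Primrec.nat_sub.comp hj (Primrec.const 1))))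
  exact (h1.and h2).or (h3.and (h2.and h4))

theorem MLay_primKap {K : List ℕ → ℕ → ℕ → Prop} (hK : PrimK K) :
    Primrec (fun v : List.Vector ℕ 3 => kap K (v.get 0) (v.get 1) (v.get 2)) := by
  have hc : Primrec (fun v : List.Vector ℕ 3 =>
      ((decode (v.get 0) : Option (List ℕ)).getD []).reverse) :=
    Primrec.list_reverse.comp (Primrec.option_getD.comp
      (Primrec.decode.comp (Primrec.vector_get.comp Primrec.id (Primrec.const 0)))
      (Primrec.const []))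
  have hp : PrimrecPred (fun v : List.Vector ℕ 3 =>
      Kt K ((decode (v.get 0) : Option (List ℕ)).getD []).reverse (v.get 1)
        (v.get 2).unpair.1) :=
    PrimrecPred.comp (MLay_primKt hK) (Primrec.pair hc (Primrec.pair
      (Primrec.vector_get.comp Primrec.id (Primrec.const 1))
      (Primrec.fst.comp (Primrec.unpair.comp
        (Primrec.vector_get.comp Primrec.id (Primrec.const 2))))))
  unfold kap
  classical
  exact Primrec.ite hp (Primrec.const 1) (Primrec.const 0)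

/-- A unary part. -/
theorem MLay_un {f : ℕ → ℕ} (hf : Primrec f) (i o : ℕ) (hi : i < 8) (ho : o < 8) (hio : i ≠ o) :
    ∃ (m L : ℕ) (F : ℕ → List Instr), (∀ b, (F b).length = L) ∧
      ∀ (d : ℕ) (code : List Instr) (b : ℕ), 8 + m ≤ d → Sub code b (F b) →
      ∀ (x : ℕ → Bool) (v : ℕ) (T : ℕ → ℕ → Bool), T i = th v → T o = th 0 →
        (∀ t, 8 ≤ t → T t = th 0) →
        Seg d code x b (b + L) (fun V => ∀ t, t < 8 → t ≠ o → V t = T t) b T (b + L)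
          (update T o (th (f v))) := by
  have h1 : Primrec (fun v : List.Vector ℕ 1 => f v.head) := hf.comp Primrec.vector_head
  obtain ⟨m, hm⟩ := impl_of_primrec' (Nat.Primrec'.of_prim h1)
  obtain ⟨L, F, hL, hF⟩ := hm (fun _ => i) o 8 (fun _ => hi) ho (fun _ => hio)
  refine ⟨m, L, F, hL, fun d code b hd hs x v T h2 h3 h4 => ?_⟩
  have := hF d code b x hd hs (v ::ᵥ List.Vector.nil) T (fun j => by
    rw [h2]
    congr 1
    have : j = 0 := Subsingleton.elim _ _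
    rw [this]
    rfl) h3 h4
  simpa using this

/-- The ternary part. -/
theorem MLay_tern {K : List ℕ → ℕ → ℕ → Prop} (hK : PrimK K) :
    ∃ (m L : ℕ) (F : ℕ → List Instr), (∀ b, (F b).length = L) ∧
      ∀ (d : ℕ) (code : List Instr) (b : ℕ), 8 + m ≤ d → Sub code b (F b) →
      ∀ (x : ℕ → Bool) (c i k : ℕ) (T : ℕ → ℕ → Bool), T 6 = th c → T 3 = th i → T 4 = th k →
        T 7 = th 0 → (∀ t, 8 ≤ t → T t = th 0) →
        Seg d code x b (b + L) (fun V => ∀ t, t < 8 → t ≠ 7 → V t = T t) b T (b + L)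
          (update T 7 (th (kap K c i k))) := by
  obtain ⟨m, hm⟩ := impl_of_primrec' (Nat.Primrec'.of_prim (MLay_primKap hK))
  obtain ⟨L, F, hL, hF⟩ := hm ![6, 3, 4] 7 8 (by decide) (by decide) (by decide)
  refine ⟨m, L, F, hL, fun d code b hd hs x c i k T h6 h3 h4 h7 h8 => ?_⟩
  have := hF d code b x hd hs (c ::ᵥ i ::ᵥ k ::ᵥ List.Vector.nil) T (fun j => by
    fin_cases j
    · exact h6
    · exact h3
    · exact h4) h7 h8
  exact this

/-! ### Lists -/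

theorem MLay_left (m post : List Instr) : Sub (m ++ post) 0 m := by
  intro i hi
  rw [Nat.zero_add, List.getElem?_append_left hi]

theorem MLay_right {l m : List Instr} (a : List Instr) {b : ℕ} (h : Sub l b m) :
    Sub (a ++ l) (a.length + b) m := by
  intro i hi
  rw [Nat.add_assoc, List.getElem?_append_right (Nat.le_add_right _ _), Nat.add_sub_cancel_left]
  exact h i hi

theorem MLay_cast {l m : List Instr} {b b' : ℕ} (h : Sub l b m) (e : b = b') : Sub l b' m :=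
  e ▸ h

theorem MLay_get {code l : List Instr} {b c : ℕ} {I : Instr} (i : ℕ) (h : Sub code b l)
    (hI : l[i]? = some I) (he : c = b + i) : code[c]? = some I := by
  have hi : i < l.length := (List.getElem?_eq_some_iff.1 hI).1
  rw [he, h i hi, hI]

theorem exists_lay {K : List ℕ → ℕ → ℕ → Prop} (hK : PrimK K) : Nonempty (Lay K) := by
  obtain ⟨mN, LN, FN, hLN, hFN⟩ := MLay_un (f := fun c => c.unpair.2)
    (Primrec.snd.comp Primrec.unpair) 4 5 (by decide) (by decide) (by decide)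
  obtain ⟨m0, L0, F0, hL0, hF0⟩ := MLay_un (f := fun c => Nat.pair 0 c + 1)
    (Primrec.succ.comp (Primrec₂.natPair.comp (Primrec.const 0) Primrec.id)) 6 7
    (by decide) (by decide) (by decide)
  obtain ⟨m1, L1, F1, hL1, hF1⟩ := MLay_un (f := fun c => Nat.pair 1 c + 1)
    (Primrec.succ.comp (Primrec₂.natPair.comp (Primrec.const 1) Primrec.id)) 6 7
    (by decide) (by decide) (by decide)
  obtain ⟨mC, LC, FC, hLC, hFC⟩ := MLay_un (f := fun c => c) Primrec.id 7 6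
    (by decide) (by decide) (by decide)
  obtain ⟨mK, LK, FK, hLK, hFK⟩ := MLay_tern hK
  obtain ⟨mJ, LJ, FJ, hLJ, hFJ⟩ := MLay_un (f := fun c => c.unpair.1)
    (Primrec.fst.comp Primrec.unpair) 4 0 (by decide) (by decide) (by decide)
  obtain ⟨mI, LI, FI, hLI, hFI⟩ := MLay_un (f := fun c => c) Primrec.id 3 0
    (by decide) (by decide) (by decide)
  obtain ⟨d, hd⟩ : ∃ d, d = 9 + mN + m0 + m1 + mC + mK + mJ + mI := ⟨_, rfl⟩
  obtain ⟨p1, h1⟩ : ∃ p, p = 6 + LN := ⟨_, rfl⟩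
  obtain ⟨p2, h2⟩ : ∃ p, p = p1 + 2 := ⟨_, rfl⟩
  obtain ⟨p3, h3⟩ : ∃ p, p = p2 + L0 + 1 := ⟨_, rfl⟩
  obtain ⟨p4, h4⟩ : ∃ p, p = p3 + L1 := ⟨_, rfl⟩
  obtain ⟨p5, h5⟩ : ∃ p, p = p4 + 1 + LC := ⟨_, rfl⟩
  obtain ⟨p7, h7⟩ : ∃ p, p = p5 + 2 := ⟨_, rfl⟩
  obtain ⟨p8, h8⟩ : ∃ p, p = p7 + 1 + LK := ⟨_, rfl⟩
  obtain ⟨p9, h9⟩ : ∃ p, p = p8 + 1 + LJ := ⟨_, rfl⟩
  obtain ⟨pG, hG⟩ : ∃ p, p = p9 + 2 := ⟨_, rfl⟩
  obtain ⟨aF, haF⟩ : ∃ p, p = pG + 5 := ⟨_, rfl⟩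
  obtain ⟨q1, hq⟩ : ∃ p, p = aF + 2 + LI := ⟨_, rfl⟩
  obtain ⟨a2, ha2⟩ : ∃ p, p = q1 + 2 := ⟨_, rfl⟩
  obtain ⟨aE, haE⟩ : ∃ p, p = a2 + 2 := ⟨_, rfl⟩
  obtain ⟨A, hA⟩ : ∃ A, A = [chkI 1 (aE+2), nopI 2, nopI 3, fullI 3 aE 4, nopI 5,
    fullI 4 aF 6] := ⟨_, rfl⟩
  obtain ⟨B, hB⟩ : ∃ A, A = [cmpI 0 5 p7 (p1+1), rdxI p2 p3] := ⟨_, rfl⟩
  obtain ⟨C, hC⟩ : ∃ A, A = [nopI p4] := ⟨_, rfl⟩
  obtain ⟨D, hD⟩ : ∃ A, A = [clrI 6 (p4+1)] := ⟨_, rfl⟩
  obtain ⟨E, hE⟩ : ∃ A, A = [clrI 7 (p5+1), incI 0 p1, clrI 0 (p7+1)] := ⟨_, rfl⟩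
  obtain ⟨G, hGG⟩ : ∃ A, A = [tzI 7 pG (p8+1)] := ⟨_, rfl⟩
  obtain ⟨H, hH⟩ : ∃ A, A = [rdDI (p9+1) pG, oneI 2 pG, clrI 0 (pG+1), clrI 5 (pG+2),
    clrI 6 (pG+3), clrI 7 (pG+4), incI 4 4, clrI 4 (aF+1), tzI 2 (aF+2) a2] := ⟨_, rfl⟩
  obtain ⟨Q, hQ⟩ : ∃ A, A = [wrDI (q1+1), clrI 0 a2, clrI 2 (a2+1), incI 3 2, clrI 3 (aE+1),
    tzI 1 1 (aE+4), nopI (aE+3), nopI (aE+2)] := ⟨_, rfl⟩
  have lA : A.length = 6 := by rw [hA]; rfl
  have lB : B.length = 2 := by rw [hB]; rfl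
  have lC : C.length = 1 := by rw [hC]; rfl
  have lD : D.length = 1 := by rw [hD]; rfl
  have lE : E.length = 3 := by rw [hE]; rfl
  have lG : G.length = 1 := by rw [hGG]; rfl
  have lH : H.length = 9 := by rw [hH]; rfl
  have lQ : Q.length = 8 := by rw [hQ]; rfl
  -- the tails of the code
  obtain ⟨r14, e14⟩ : ∃ r, r = Q := ⟨_, rfl⟩
  obtain ⟨r13, e13⟩ : ∃ r, r = FI (aF + 2) ++ r14 := ⟨_, rfl⟩
  obtain ⟨r12, e12⟩ : ∃ r, r = H ++ r13 := ⟨_, rfl⟩
  obtain ⟨r11, e11⟩ : ∃ r, r = FJ (p8 + 1) ++ r12 := ⟨_, rfl⟩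
  obtain ⟨r10, e10⟩ : ∃ r, r = G ++ r11 := ⟨_, rfl⟩
  obtain ⟨r9, e9⟩ : ∃ r, r = FK (p7 + 1) ++ r10 := ⟨_, rfl⟩
  obtain ⟨r8, e8⟩ : ∃ r, r = E ++ r9 := ⟨_, rfl⟩
  obtain ⟨r7, e7⟩ : ∃ r, r = FC (p4 + 1) ++ r8 := ⟨_, rfl⟩
  obtain ⟨r6, e6⟩ : ∃ r, r = D ++ r7 := ⟨_, rfl⟩
  obtain ⟨r5, e5⟩ : ∃ r, r = F1 p3 ++ r6 := ⟨_, rfl⟩
  obtain ⟨r4, e4⟩ : ∃ r, r = C ++ r5 := ⟨_, rfl⟩
  obtain ⟨r3, e3⟩ : ∃ r, r = F0 p2 ++ r4 := ⟨_, rfl⟩
  obtain ⟨r2, e2⟩ : ∃ r, r = B ++ r3 := ⟨_, rfl⟩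
  obtain ⟨r1, e1⟩ : ∃ r, r = FN 6 ++ r2 := ⟨_, rfl⟩
  obtain ⟨code, e0⟩ : ∃ r, r = A ++ r1 := ⟨_, rfl⟩
  have u1 : ∀ {b m}, Sub r1 b m → Sub code (6 + b) m := fun h => by
    rw [e0, ← lA]; exact MLay_right _ h
  have u2 : ∀ {b m}, Sub r2 b m → Sub code (p1 + b) m := by
    intro b m h
    have h' : Sub r1 (LN + b) m := by rw [e1, ← hLN 6]; exact MLay_right _ h
    exact MLay_cast (u1 h') (by clear h h'; omega)
  have u3 : ∀ {b m}, Sub r3 b m → Sub code (p2 + b) m := by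
    intro b m h
    have h' : Sub r2 (2 + b) m := by rw [e2, ← lB]; exact MLay_right _ h
    exact MLay_cast (u2 h') (by clear h h'; omega)
  have u4 : ∀ {b m}, Sub r4 b m → Sub code (p2 + L0 + b) m := by
    intro b m h
    have h' : Sub r3 (L0 + b) m := by rw [e3, ← hL0 p2]; exact MLay_right _ h
    exact MLay_cast (u3 h') (by clear h h'; omega)
  have u5 : ∀ {b m}, Sub r5 b m → Sub code (p3 + b) m := by
    intro b m h
    have h' : Sub r4 (1 + b) m := by rw [e4, ← lC]; exact MLay_right _ h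
    exact MLay_cast (u4 h') (by clear h h'; omega)
  have u6 : ∀ {b m}, Sub r6 b m → Sub code (p4 + b) m := by
    intro b m h
    have h' : Sub r5 (L1 + b) m := by rw [e5, ← hL1 p3]; exact MLay_right _ h
    exact MLay_cast (u5 h') (by clear h h'; omega)
  have u7 : ∀ {b m}, Sub r7 b m → Sub code (p4 + 1 + b) m := by
    intro b m h
    have h' : Sub r6 (1 + b) m := by rw [e6, ← lD]; exact MLay_right _ h
    exact MLay_cast (u6 h') (by clear h h'; omega)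
  have u8 : ∀ {b m}, Sub r8 b m → Sub code (p5 + b) m := by
    intro b m h
    have h' : Sub r7 (LC + b) m := by rw [e7, ← hLC (p4 + 1)]; exact MLay_right _ h
    exact MLay_cast (u7 h') (by clear h h'; omega)
  have u9 : ∀ {b m}, Sub r9 b m → Sub code (p7 + 1 + b) m := by
    intro b m h
    have h' : Sub r8 (3 + b) m := by rw [e8, ← lE]; exact MLay_right _ h
    exact MLay_cast (u8 h') (by clear h h'; omega)
  have u10 : ∀ {b m}, Sub r10 b m → Sub code (p8 + b) m := by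
    intro b m h
    have h' : Sub r9 (LK + b) m := by rw [e9, ← hLK (p7 + 1)]; exact MLay_right _ h
    exact MLay_cast (u9 h') (by clear h h'; omega)
  have u11 : ∀ {b m}, Sub r11 b m → Sub code (p8 + 1 + b) m := by
    intro b m h
    have h' : Sub r10 (1 + b) m := by rw [e10, ← lG]; exact MLay_right _ h
    exact MLay_cast (u10 h') (by clear h h'; omega)
  have u12 : ∀ {b m}, Sub r12 b m → Sub code (p9 + b) m := by
    intro b m h
    have h' : Sub r11 (LJ + b) m := by rw [e11, ← hLJ (p8 + 1)]; exact MLay_right _ h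
    exact MLay_cast (u11 h') (by clear h h'; omega)
  have u13 : ∀ {b m}, Sub r13 b m → Sub code (aF + 2 + b) m := by
    intro b m h
    have h' : Sub r12 (9 + b) m := by rw [e12, ← lH]; exact MLay_right _ h
    exact MLay_cast (u12 h') (by clear h h'; omega)
  have u14 : ∀ {b m}, Sub r14 b m → Sub code (q1 + b) m := by
    intro b m h
    have h' : Sub r13 (LI + b) m := by rw [e13, ← hLI (aF + 2)]; exact MLay_right _ h
    exact MLay_cast (u13 h') (by clear h h'; omega)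
  have sA : Sub code 0 A := by rw [e0]; exact MLay_left _ _
  have sFN : Sub code 6 (FN 6) := u1 (b := 0) (by rw [e1]; exact MLay_left _ _)
  have sB : Sub code p1 B := u2 (b := 0) (by rw [e2]; exact MLay_left _ _)
  have sF0 : Sub code p2 (F0 p2) := u3 (b := 0) (by rw [e3]; exact MLay_left _ _)
  have sC : Sub code (p2 + L0) C := u4 (b := 0) (by rw [e4]; exact MLay_left _ _)
  have sF1 : Sub code p3 (F1 p3) := u5 (b := 0) (by rw [e5]; exact MLay_left _ _)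
  have sD : Sub code p4 D := u6 (b := 0) (by rw [e6]; exact MLay_left _ _)
  have sFC : Sub code (p4 + 1) (FC (p4 + 1)) := u7 (b := 0) (by rw [e7]; exact MLay_left _ _)
  have sE : Sub code p5 E := u8 (b := 0) (by rw [e8]; exact MLay_left _ _)
  have sFK : Sub code (p7 + 1) (FK (p7 + 1)) := u9 (b := 0) (by rw [e9]; exact MLay_left _ _)
  have sG : Sub code p8 G := u10 (b := 0) (by rw [e10]; exact MLay_left _ _)
  have sFJ : Sub code (p8 + 1) (FJ (p8 + 1)) := u11 (b := 0) (by rw [e11]; exact MLay_left _ _)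
  have sH : Sub code p9 H := u12 (b := 0) (by rw [e12]; exact MLay_left _ _)
  have sFI : Sub code (aF + 2) (FI (aF + 2)) := u13 (b := 0) (by rw [e13]; exact MLay_left _ _)
  have sQ : Sub code q1 Q := by
    have := u14 (b := 0) (m := Q) (by
      have h := MLay_left Q []
      rw [List.append_nil] at h
      rw [e14]
      exact h)
    exact this
  have hlen : code.length = aE + 4 := by
    rw [e0, e1, e2, e3, e4, e5, e6, e7, e8, e9, e10, e11, e12, e13, e14]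
    simp only [List.length_append, hLN, hL0, hL1, hLC, hLK, hLJ, hLI, lA, lB, lC, lD, lE, lG, lH,
      lQ]
    rw [haE, ha2, hq, haF, hG, h9, h8, h7, h5, h4, h3, h2, h1]
    ring
  clear e0 e1 e2 e3 e4 e5 e6 e7 e8 e9 e10 e11 e12 e13 e14 lA lB lC lD lE lG lH lQ
  clear u1 u2 u3 u4 u5 u6 u7 u8 u9 u10 u11 u12 u13 u14
  clear r1 r2 r3 r4 r5 r6 r7 r8 r9 r10 r11 r12 r13 r14
  subst hA hB hC hD hE hGG hH hQ
  exact ⟨{
    d := d, code := code, p1 := p1, p2 := p2, p3 := p3, p4 := p4, p5 := p5, p7 := p7, p8 := p8,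
    p9 := p9, pG := pG, aF := aF, q1 := q1, a2 := a2, aE := aE
    hd := by omega
    len := hlen
    h1 := by omega
    h2 := h2
    h3 := by omega
    h4 := by omega
    h5 := by omega
    h7 := h7
    h8 := by omega
    h9 := by omega
    hG := hG
    hF := haF
    hq := by omega
    ha := ha2
    hE := haE
    c0 := MLay_get 0 sA rfl rfl
    c1 := MLay_get 1 sA rfl rfl
    c2 := MLay_get 2 sA rfl rfl
    c3 := MLay_get 3 sA rfl rfl
    c4 := MLay_get 4 sA rfl rfl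
    c5 := MLay_get 5 sA rfl rfl
    cp1 := MLay_get 0 sB rfl rfl
    cp1' := MLay_get 1 sB rfl rfl
    cp4 := MLay_get 0 sD rfl rfl
    cp5 := MLay_get 0 sE rfl rfl
    cp5' := MLay_get 1 sE rfl rfl
    cp7 := MLay_get 2 sE rfl h7
    cp8 := MLay_get 0 sG rfl rfl
    cp9 := MLay_get 0 sH rfl rfl
    cp9' := MLay_get 1 sH rfl rfl
    cG0 := MLay_get 2 sH rfl (by omega)
    cG1 := MLay_get 3 sH rfl (by omega)
    cG2 := MLay_get 4 sH rfl (by omega)
    cG3 := MLay_get 5 sH rfl (by omega)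
    cG4 := MLay_get 6 sH rfl (by omega)
    cF0 := MLay_get 7 sH rfl (by omega)
    cF1 := MLay_get 8 sH rfl (by omega)
    cq1 := MLay_get 0 sQ rfl rfl
    cq1' := MLay_get 1 sQ rfl rfl
    ca2 := MLay_get 2 sQ rfl (by omega)
    ca2' := MLay_get 3 sQ rfl (by omega)
    cE0 := MLay_get 4 sQ rfl (by omega)
    cE1 := MLay_get 5 sQ rfl (by omega)
    cE2 := MLay_get 6 sQ rfl (by omega)
    cE3 := MLay_get 7 sQ rfl (by omega)
    sN := fun x v T g1 g2 g3 => by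
      rw [h1]
      exact hFN d code 6 (by omega) sFN x v T g1 g2 g3
    s0 := fun x v T g1 g2 g3 => by
      have a := hF0 d code p2 (by omega) sF0 x v T g1 g2 g3
      have b : Seg d code x p2 p3 (fun V => ∀ t, t < 7 → V t = T t) (p2 + L0)
          (update T 7 (th (Nat.pair 0 v + 1))) p4 (update T 7 (th (Nat.pair 0 v + 1))) :=
        Seg.one (by omega) (MLay_get 0 sC rfl rfl) (nop_sw (by omega) p4 _) (by decide)
          (by omega) (by omega) (fun t ht => update_of_ne (by omega) _ _)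
      exact (a.mono le_rfl (by omega) (fun V hV t ht => hV t (by omega) (by omega))).trans b
    s1 := fun x v T g1 g2 g3 => by
      rw [h4]
      exact (hF1 d code p3 (by omega) sF1 x v T g1 g2 g3).mono le_rfl le_rfl
        (fun V hV t ht => hV t (by omega) (by omega))
    sC := fun x v T g1 g2 g3 => by
      rw [h5]
      exact hFC d code (p4 + 1) (by omega) sFC x v T g1 g2 g3
    sK := fun x c i m T g1 g2 g3 g4 g5 => by
      rw [h8]
      exact (hFK d code (p7 + 1) (by omega) sFK x c i m T g1 g2 g3 g4 g5).mono le_rfl le_rfl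
        (fun V hV t ht => hV t (by omega) (by omega))
    sJ := fun x v T g1 g2 g3 => by
      rw [h9]
      exact hFJ d code (p8 + 1) (by omega) sFJ x v T g1 g2 g3
    sI := fun x v T g1 g2 g3 => by
      rw [hq]
      exact hFI d code (aF + 2) (by omega) sFI x v T g1 g2 g3 }⟩

end Pool.Agent.H76.TH
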