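import Pool.Agent.H76.TH.MBody

/-!
Project THIN, module MPass: one pass of the machine over all `i`.
Inner loop: `Seg.loop` with `h = 4`, `hi = aF`, `M t ↔ 1 ≤ t ∧ t ≤ 4`, `lam = ω`, `T n = trk D (∃ m < n, Bad … m) (th i) (th n)`,
`T ω = trk D (∃ m, Bad … m) (th i) (fun _ => true)`; preceded by the instructions at `3` and `4`, followed
by those at `5`, `aF`, `aF + 1`, …, to address `2`.
Outer loop: `Seg.loop` with `h = 2`, `hi = aE`, `M t ↔ t = 1 ∨ t = 3`, `lam = ω`,
`T n = trk (pas … n) False (th n) (th 0)`, `T ω = trk (pass …) False (fun _ => true) (th 0)`; followed by the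
instructions at `3`, `aE`.
-/

set_option autoImplicit false

open Encodable Pool.Agent.H75.EK Pool.Agent.H76.ITTM Ordinal Function

namespace Pool.Agent.H76.TH

open Classical in
/-- The set `D` after `n` rounds of a pass: `i` is added if it has no successor outside the set. -/
noncomputable def pas (K : List ℕ → ℕ → ℕ → Prop) (a : ℕ → ℕ) (D : ℕ → Bool) : ℕ → ℕ → Bool
  | 0 => D
  | n + 1 => if ∃ m, Bad K a (pas K a D n) n m then pas K a D n
      else update (pas K a D n) n true

open Classical in
/-- The set `D` after a pass. -/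
noncomputable def pass (K : List ℕ → ℕ → ℕ → Prop) (a : ℕ → ℕ) (D : ℕ → Bool) : ℕ → Bool :=
  fun i => decide (∃ n, pas K a D n i = true)

/-! ### The tracks -/

section trk
variable (D D' : ℕ → Bool) (f f' : Prop) (I I' M M' : ℕ → Bool)

theorem MPass_t1 : trk D f I M 1 = D := by simp [trk]
open Classical in
theorem MPass_t2 : trk D f I M 2 = th (if f then 1 else 0) := by
  unfold trk
  rw [if_neg (by norm_num), if_pos rfl]
theorem MPass_t3 : trk D f I M 3 = I := by simp [trk]
theorem MPass_t4 : trk D f I M 4 = M := by simp [trk]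

theorem MPass_t0 {t : ℕ} (h : t = 0 ∨ 5 ≤ t) : trk D f I M t = th 0 := by
  unfold trk
  rw [if_neg (by omega), if_neg (by omega), if_neg (by omega), if_neg (by omega)]

theorem MPass_u1 : update (trk D f I M) 1 D' = trk D' f I M := by
  funext t
  by_cases h : t = 1
  · subst h; rw [update_self, MPass_t1]
  · rw [update_of_ne h]; unfold trk; rw [if_neg h, if_neg h]

theorem MPass_u2 : update (trk D f I M) 2 (th 0) = trk D False I M := by
  funext t
  by_cases h : t = 2
  · subst h; rw [update_self, MPass_t2, if_neg not_false]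
  · rw [update_of_ne h]; unfold trk
    by_cases h1 : t = 1
    · rw [if_pos h1, if_pos h1]
    · rw [if_neg h1, if_neg h1, if_neg h, if_neg h]

theorem MPass_u3 : update (trk D f I M) 3 I' = trk D f I' M := by
  funext t
  by_cases h : t = 3
  · subst h; rw [update_self, MPass_t3]
  · rw [update_of_ne h]; unfold trk
    rw [if_neg h, if_neg h]

theorem MPass_u4 : update (trk D f I M) 4 M' = trk D f I M' := by
  funext t
  by_cases h : t = 4
  · subst h; rw [update_self, MPass_t4]
  · rw [update_of_ne h]; unfold trk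
    rw [if_neg h, if_neg h]

theorem MPass_u0 : update (trk D f I M) 0 (th 0) = trk D f I M := by
  have : trk D f I M 0 = th 0 := MPass_t0 D f I M (Or.inl rfl)
  rw [← this, update_eq_self]

end trk

theorem MPass_th0 (p : ℕ) : th 0 p = false := by simp [th]

theorem MPass_th (n p : ℕ) : th n p = true ↔ p < n := by simp [th]

theorem MPass_nat_limit {ζ : Ordinal.{0}} (hζ : Order.IsSuccLimit ζ) {n : ℕ}
    (h : (n : Ordinal.{0}) ≤ ζ) : ((n + 1 : ℕ) : Ordinal.{0}) < ζ := by
  have h1 : (n : Ordinal.{0}) < ζ := by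
    refine lt_of_le_of_ne h ?_
    rintro rfl
    have h2 := (Ordinal.isSuccLimit_iff.1 hζ)
    rcases Nat.eq_zero_or_pos n with h0 | h0
    · subst h0
      exact h2.1 Nat.cast_zero
    · obtain ⟨k, rfl⟩ : ∃ k, n = k + 1 := ⟨n - 1, by omega⟩
      have h3 := hζ.succ_lt (show ((k : ℕ) : Ordinal.{0}) < ((k + 1 : ℕ) : Ordinal.{0}) by
        exact_mod_cast Nat.lt_succ_self k)
      rw [Order.succ_eq_add_one] at h3
      push_cast at h3
      exact lt_irrefl _ h3
  have h2 := hζ.succ_lt h1
  rw [Order.succ_eq_add_one] at h2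
  push_cast
  exact h2

open Classical in
/-- The tracks in the inner loop. -/
noncomputable def MPass_TI (K : List ℕ → ℕ → ℕ → Prop) (a : ℕ → ℕ) (D : ℕ → Bool) (i : ℕ)
    (ξ : Ordinal.{0}) : ℕ → ℕ → Bool :=
  trk D (∃ m : ℕ, (m : Ordinal.{0}) < ξ ∧ Bad K a D i m) (th i)
    (fun p => decide ((p : Ordinal.{0}) < ξ))

theorem MPass_TI_nat (K : List ℕ → ℕ → ℕ → Prop) (a : ℕ → ℕ) (D : ℕ → Bool) (i n : ℕ) :
    MPass_TI K a D i n = trk D (∃ m : ℕ, m < n ∧ Bad K a D i m) (th i) (th n) := by
  unfold MPass_TI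
  congr 1
  · simp only [Nat.cast_lt]
  · funext p
    simp [th]

theorem MPass_TI_succ (K : List ℕ → ℕ → ℕ → Prop) (a : ℕ → ℕ) (D : ℕ → Bool) (i n : ℕ) :
    MPass_TI K a D i ((n : Ordinal.{0}) + 1) =
      trk D ((∃ m : ℕ, m < n ∧ Bad K a D i m) ∨ Bad K a D i n) (th i) (th (n + 1)) := by
  have h1 : ((n : Ordinal.{0}) + 1) = ((n + 1 : ℕ) : Ordinal.{0}) := by push_cast; rfl
  rw [h1, MPass_TI_nat]
  congr 1
  apply propext
  constructor
  · rintro ⟨m, hm, hb⟩
    rcases Nat.lt_succ_iff_lt_or_eq.1 hm with h | h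
    · exact Or.inl ⟨m, h, hb⟩
    · subst h; exact Or.inr hb
  · rintro (⟨m, hm, hb⟩ | hb)
    · exact ⟨m, by omega, hb⟩
    · exact ⟨n, by omega, hb⟩

theorem MPass_TI_omega (K : List ℕ → ℕ → ℕ → Prop) (a : ℕ → ℕ) (D : ℕ → Bool) (i : ℕ) :
    MPass_TI K a D i ω = trk D (∃ m : ℕ, Bad K a D i m) (th i) (fun _ => true) := by
  unfold MPass_TI
  congr 1
  · apply propext
    constructor
    · rintro ⟨m, -, hb⟩; exact ⟨m, hb⟩
    · rintro ⟨m, hb⟩; exact ⟨m, Ordinal.natCast_lt_omega0 m, hb⟩
  · funext p
    simp [Ordinal.natCast_lt_omega0 p]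

/-- The inner loop. -/
theorem MPass_inner {K : List ℕ → ℕ → ℕ → Prop} (l : Lay K) (x D : ℕ → Bool) (i : ℕ) :
    Seg l.d l.code x 4 l.aF (fun V => V 1 = D ∧ V 3 = th i) 5 (trk D False (th i) (th 0)) 5
      (trk D (∃ m, Bad K (rd l.d x) D i m) (th i) (fun _ => true)) := by
  have hd := l.hd
  have hlen := l.len
  have hE := l.hE; have ha := l.ha; have hq := l.hq; have hF := l.hF; have hG := l.hG
  have h9 := l.h9; have h8 := l.h8; have h7 := l.h7; have h5 := l.h5; have h4 := l.h4
  have h3 := l.h3; have h2 := l.h2; have h1 := l.h1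
  have hloop := Seg.loop (d := l.d) (code := l.code) (x := x) (by omega) (h := 4) (hi := l.aF)
    l.c4 (by omega) (by omega) (fun t => 1 ≤ t ∧ t ≤ 4) (MPass_TI K (rd l.d x) D i) ω
    (by
      intro ξ hξ
      obtain ⟨n, rfl⟩ := Ordinal.lt_omega0.1 hξ
      rw [MPass_TI_succ, MPass_TI_nat]
      refine (l.body x D _ i n).mono le_rfl le_rfl ?_
      intro V hV t ht _ p
      exact hV t ht.1 ht.2 p)
    (by
      intro ζ _ hζ t ht _ p
      have h0ζ : (0 : Ordinal.{0}) < ζ := by
        have := MPass_nat_limit hζ (n := 0) (by simp)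
        exact lt_of_le_of_lt (by simp) this
      obtain ⟨ht1, ht4⟩ := ht
      interval_cases t
      · unfold MPass_TI
        simp only [MPass_t1]
        exact ⟨fun h => ⟨0, h0ζ, h⟩, fun ⟨_, _, h⟩ => h⟩
      · unfold MPass_TI
        simp only [MPass_t2, MPass_th]
        constructor
        · intro h
          by_cases hex : ∃ m : ℕ, (m : Ordinal.{0}) < ζ ∧ Bad K (rd l.d x) D i m
          · rw [if_pos hex] at h
            obtain ⟨m, hm, hb⟩ := hex
            refine ⟨((m + 1 : ℕ) : Ordinal.{0}), MPass_nat_limit hζ hm.le, ?_⟩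
            rw [if_pos ⟨m, by exact_mod_cast Nat.lt_succ_self m, hb⟩]
            exact h
          · rw [if_neg hex] at h
            omega
        · rintro ⟨ξ, hξ, h⟩
          by_cases hex : ∃ m : ℕ, (m : Ordinal.{0}) < ξ ∧ Bad K (rd l.d x) D i m
          · rw [if_pos hex] at h
            obtain ⟨m, hm, hb⟩ := hex
            rw [if_pos ⟨m, hm.trans hξ, hb⟩]
            exact h
          · rw [if_neg hex] at h
            omega
      · unfold MPass_TI
        simp only [MPass_t3]
        exact ⟨fun h => ⟨0, h0ζ, h⟩, fun ⟨_, _, h⟩ => h⟩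
      · unfold MPass_TI
        simp only [MPass_t4, decide_eq_true_eq]
        constructor
        · intro h
          exact ⟨((p + 1 : ℕ) : Ordinal.{0}), MPass_nat_limit hζ h.le,
            by exact_mod_cast Nat.lt_succ_self p⟩
        · rintro ⟨ξ, hξ, h⟩
          exact h.trans hξ)
    (by
      intro ξ _ t ht _ p
      unfold MPass_TI
      rw [MPass_t0 _ _ _ _ (by
        by_contra hcon
        push Not at hcon
        exact ht ⟨by omega, by omega⟩)]
      exact MPass_th0 p)
  have e0 : MPass_TI K (rd l.d x) D i 0 = trk D False (th i) (th 0) := by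
    have := MPass_TI_nat K (rd l.d x) D i 0
    rw [Nat.cast_zero] at this
    rw [this]
    congr 1
    apply propext
    constructor
    · rintro ⟨m, hm, -⟩; omega
    · exact False.elim
  rw [e0, MPass_TI_omega] at hloop
  refine hloop.mono le_rfl le_rfl ?_
  intro V hV
  constructor
  · funext p
    have := hV 1 ⟨by omega, by omega⟩ (by omega) p
    rw [MPass_t1, MPass_t1] at this
    exact Bool.eq_iff_iff.2 ⟨this.2, this.1⟩
  · funext p
    have := hV 3 ⟨by omega, by omega⟩ (by omega) p
    rw [MPass_t3, MPass_t3] at this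
    exact Bool.eq_iff_iff.2 ⟨this.2, this.1⟩

/-- One round of a pass. -/
theorem Lay.round {K : List ℕ → ℕ → ℕ → Prop} (l : Lay K) (x D : ℕ → Bool) (i : ℕ)
    (D' : ℕ → Bool)
    (hD : ((∃ m, Bad K (rd l.d x) D i m) ∧ D' = D) ∨
      ((¬ ∃ m, Bad K (rd l.d x) D i m) ∧ D' = update D i true)) :
    Seg l.d l.code x 2 l.aE
      (fun V => ∀ t, t = 1 ∨ t = 3 → ∀ p,
        (trk D False (th i) (th 0) t p = true → V t p = true) ∧
        (V t p = true → trk D' False (th (i + 1)) (th 0) t p = true))
      3 (trk D False (th i) (th 0)) 2 (trk D' False (th (i + 1)) (th 0)) := by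
  have hd := l.hd
  have hlen := l.len
  have hE := l.hE; have ha := l.ha; have hq := l.hq; have hF := l.hF; have hG := l.hG
  have h9 := l.h9; have h8 := l.h8; have h7 := l.h7; have h5 := l.h5; have h4 := l.h4
  have h3 := l.h3; have h2 := l.h2; have h1 := l.h1
  have hd1 : 1 ≤ l.d := by omega
  set f : Prop := ∃ m, Bad K (rd l.d x) D i m with hf
  have hDD : ∀ p, D p = true → D' p = true := by
    intro p hp
    rcases hD with ⟨-, rfl⟩ | ⟨-, rfl⟩
    · exact hp
    · by_cases h : p = i
      · rw [h, update_self]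
      · rw [update_of_ne h]; exact hp
  have hii : ∀ p, th i p = true → th (i + 1) p = true := by
    intro p hp
    rw [MPass_th] at hp ⊢
    omega
  -- the invariant
  set J : (ℕ → ℕ → Bool) → Prop := fun V => ∀ t, t = 1 ∨ t = 3 → ∀ p,
        (trk D False (th i) (th 0) t p = true → V t p = true) ∧
        (V t p = true → trk D' False (th (i + 1)) (th 0) t p = true) with hJ
  have hJ1 : ∀ V : ℕ → ℕ → Bool, (V 1 = D ∨ V 1 = D') → V 3 = th i → J V := by
    intro V hV1 hV3 t ht p
    rcases ht with rfl | rfl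
    · rw [MPass_t1, MPass_t1]
      rcases hV1 with h | h <;> rw [h]
      · exact ⟨id, hDD p⟩
      · exact ⟨hDD p, id⟩
    · rw [MPass_t3, MPass_t3, hV3]
      exact ⟨id, hii p⟩
  -- address 3
  have s3 : Seg l.d l.code x 2 l.aE J 3 (trk D False (th i) (th 0)) 4
      (trk D False (th i) (th 0)) := by
    have := Seg.one (J := J) (lo := 2) (hi := l.aE) hd1 l.c3
      (full_sw_not (x := x) (T := trk D False (th i) (th 0)) (r := 3) (d := l.d) (by omega) (p := i)
        (by rw [MPass_t3]; simp [th]) l.aE 4)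
      (by norm_num) (by omega) (by omega)
      (hJ1 _ (Or.inl (MPass_t1 _ _ _ _)) (MPass_t3 _ _ _ _))
    exact this
  -- address 4
  have s4 : Seg l.d l.code x 2 l.aE J 4 (trk D False (th i) (th 0)) 5
      (trk D False (th i) (th 0)) := by
    have := Seg.one (J := J) (lo := 2) (hi := l.aE) (T := trk D False (th i) (th 0))
      (T' := trk D False (th i) (th 0)) hd1 l.c4
      (nop_sw (x := x) (d := l.d) hd1 5 (mem l.d (trk D False (th i) (th 0))))
      (by norm_num) (by omega) (by omega)
      (hJ1 _ (Or.inl (MPass_t1 _ _ _ _)) (MPass_t3 _ _ _ _))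
    exact this
  -- inner loop
  have s5 : Seg l.d l.code x 2 l.aE J 5 (trk D False (th i) (th 0)) 5
      (trk D f (th i) (fun _ => true)) :=
    (MPass_inner l x D i).mono (by omega) (by omega) (fun V hV => hJ1 V (Or.inl hV.1) hV.2)
  -- address 5
  have s6 : Seg l.d l.code x 2 l.aE J 5 (trk D f (th i) (fun _ => true)) l.aF
      (trk D f (th i) (fun _ => true)) := by
    have := Seg.one (J := J) (lo := 2) (hi := l.aE) hd1 l.c5
      (full_sw_full (x := x) (T := trk D f (th i) (fun _ => true)) (r := 4) (d := l.d) (by omega)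
        (by intro p; rw [MPass_t4]) l.aF 6)
      (by norm_num) (by omega) (by omega)
      (hJ1 _ (Or.inl (MPass_t1 _ _ _ _)) (MPass_t3 _ _ _ _))
    exact this
  -- address aF
  have s7 : Seg l.d l.code x 2 l.aE J l.aF (trk D f (th i) (fun _ => true)) (l.aF + 1)
      (trk D f (th i) (th 0)) := by
    have := Seg.one (J := J) (lo := 2) (hi := l.aE) hd1 l.cF0
      (clr_sw (x := x) (T := trk D f (th i) (fun _ => true)) (r := 4) (d := l.d) (by omega)
        (l.aF + 1))
      (by norm_num) (by omega) (by omega)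
      (hJ1 _ (Or.inl (MPass_t1 _ _ _ _)) (MPass_t3 _ _ _ _))
    rw [MPass_u4] at this
    exact this
  -- to address a2
  have s8 : Seg l.d l.code x 2 l.aE J (l.aF + 1) (trk D f (th i) (th 0)) l.a2
      (trk D' f (th i) (th 0)) := by
    have htz := Seg.one (J := J) (lo := 2) (hi := l.aE) hd1 l.cF1
      (tz_sw (x := x) (T := trk D f (th i) (th 0)) (r := 2) (d := l.d) (by omega)
        (l.aF + 2) l.a2)
      (by split_ifs <;> norm_num) (by omega) (by omega)
      (hJ1 _ (Or.inl (MPass_t1 _ _ _ _)) (MPass_t3 _ _ _ _))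
    rcases hD with ⟨hfT, rfl⟩ | ⟨hfF, hD'⟩
    · have hz : trk D' f (th i) (th 0) 2 0 = true := by
        rw [MPass_t2, if_pos hfT]; simp [th]
      rw [hz] at htz
      exact htz
    · have hz : trk D f (th i) (th 0) 2 0 = false := by
        rw [MPass_t2, if_neg hfF]; simp [th]
      rw [hz] at htz
      have htz' : Seg l.d l.code x 2 l.aE J (l.aF + 1) (trk D f (th i) (th 0)) (l.aF + 2)
        (trk D f (th i) (th 0)) := htz
      -- copy
      have hc := (l.sI x i (trk D f (th i) (th 0)) (MPass_t3 _ _ _ _)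
        (MPass_t0 _ _ _ _ (Or.inl rfl)) (fun t ht => MPass_t0 _ _ _ _ (Or.inr (by omega))))
      have hc' : Seg l.d l.code x 2 l.aE J (l.aF + 2) (trk D f (th i) (th 0)) l.q1
          (update (trk D f (th i) (th 0)) 0 (th i)) := by
        refine hc.mono (by omega) (by omega) ?_
        intro V hV
        apply hJ1
        · left; rw [hV 1 (by omega) (by omega), MPass_t1]
        · rw [hV 3 (by omega) (by omega), MPass_t3]
      -- write
      set T1 := update (trk D f (th i) (th 0)) 0 (th i) with hT1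
      have hT11 : T1 1 = D := by rw [hT1, update_of_ne (by norm_num), MPass_t1]
      have hT13 : T1 3 = th i := by rw [hT1, update_of_ne (by norm_num), MPass_t3]
      have hw := Seg.one (J := J) (lo := 2) (hi := l.aE) hd1 l.cq1
        (wrD_sw (x := x) (T := T1) (d := l.d) (by omega) (n := i) (by rw [hT1, update_self])
          (l.q1 + 1))
        (by norm_num) (by omega) (by omega) (hJ1 _ (Or.inl hT11) hT13)
      have hw' : Seg l.d l.code x 2 l.aE J l.q1 T1 (l.q1 + 1) (update T1 1 D') := by
        rw [hT11, ← hD'] at hw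
        exact hw
      have hcl := Seg.one (J := J) (lo := 2) (hi := l.aE) hd1 l.cq1'
        (clr_sw (x := x) (T := update T1 1 D') (r := 0) (d := l.d) (by omega) l.a2)
        (by norm_num) (by omega) (by omega)
        (hJ1 _ (Or.inr (by rw [update_self])) (by rw [update_of_ne (by norm_num), hT13]))
      have hfin : update (update T1 1 D') 0 (th 0) = trk D' f (th i) (th 0) := by
        rw [hT1, update_comm (by norm_num), update_idem, MPass_u0, MPass_u1]
      rw [hfin] at hcl
      exact htz'.trans (hc'.trans (hw'.trans hcl))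
  -- address a2
  have s9 : Seg l.d l.code x 2 l.aE J l.a2 (trk D' f (th i) (th 0)) (l.a2 + 1)
      (trk D' False (th i) (th 0)) := by
    have := Seg.one (J := J) (lo := 2) (hi := l.aE) hd1 l.ca2
      (clr_sw (x := x) (T := trk D' f (th i) (th 0)) (r := 2) (d := l.d) (by omega) (l.a2 + 1))
      (by norm_num) (by omega) (by omega)
      (hJ1 _ (Or.inr (MPass_t1 _ _ _ _)) (MPass_t3 _ _ _ _))
    rw [MPass_u2] at this
    exact this
  have s10 : Seg l.d l.code x 2 l.aE J (l.a2 + 1) (trk D' False (th i) (th 0)) 2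
      (trk D' False (th (i + 1)) (th 0)) := by
    have := Seg.one (J := J) (lo := 2) (hi := l.aE) hd1 l.ca2'
      (inc_sw (x := x) (T := trk D' False (th i) (th 0)) (r := 3) (d := l.d) (n := i) (by omega)
        (MPass_t3 _ _ _ _) 2)
      (by norm_num) (by omega) (by omega)
      (hJ1 _ (Or.inr (MPass_t1 _ _ _ _)) (MPass_t3 _ _ _ _))
    rw [MPass_u3] at this
    exact this
  exact s3.trans (s4.trans (s5.trans (s6.trans (s7.trans (s8.trans (s9.trans s10))))))

theorem MPass_pas_step (K : List ℕ → ℕ → ℕ → Prop) (a : ℕ → ℕ) (D : ℕ → Bool) (n p : ℕ)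
    (h : pas K a D n p = true) : pas K a D (n + 1) p = true := by
  classical
  show (if ∃ m, Bad K a (pas K a D n) n m then pas K a D n
      else update (pas K a D n) n true) p = true
  split_ifs
  · exact h
  · by_cases hp : p = n
    · rw [hp, update_self]
    · rw [update_of_ne hp]; exact h

theorem MPass_pas_mono (K : List ℕ → ℕ → ℕ → Prop) (a : ℕ → ℕ) (D : ℕ → Bool) {n m : ℕ}
    (hnm : n ≤ m) (p : ℕ) (h : pas K a D n p = true) : pas K a D m p = true := by
  induction m, hnm using Nat.le_induction with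
  | base => exact h
  | succ m _ ih => exact MPass_pas_step K a D m p ih

open Classical in
/-- The tracks in the outer loop. -/
noncomputable def MPass_TO (K : List ℕ → ℕ → ℕ → Prop) (a : ℕ → ℕ) (D : ℕ → Bool)
    (ξ : Ordinal.{0}) : ℕ → ℕ → Bool :=
  trk (fun p => decide (∃ n : ℕ, (n : Ordinal.{0}) ≤ ξ ∧ pas K a D n p = true)) False
    (fun p => decide ((p : Ordinal.{0}) < ξ)) (th 0)

theorem MPass_TO_nat (K : List ℕ → ℕ → ℕ → Prop) (a : ℕ → ℕ) (D : ℕ → Bool) (n : ℕ) :
    MPass_TO K a D n = trk (pas K a D n) False (th n) (th 0) := by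
  classical
  unfold MPass_TO
  congr 1
  · funext p
    rw [Bool.eq_iff_iff, decide_eq_true_eq]
    constructor
    · rintro ⟨m, hm, h⟩
      exact MPass_pas_mono K a D (by exact_mod_cast hm) p h
    · intro h
      exact ⟨n, le_rfl, h⟩
  · funext p
    simp [th]

theorem MPass_TO_omega (K : List ℕ → ℕ → ℕ → Prop) (a : ℕ → ℕ) (D : ℕ → Bool) :
    MPass_TO K a D ω = trk (TH.pass K a D) False (fun _ => true) (th 0) := by
  classical
  unfold MPass_TO
  congr 1
  · funext p
    unfold TH.pass
    rw [Bool.eq_iff_iff, decide_eq_true_eq, decide_eq_true_eq]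
    constructor
    · rintro ⟨m, -, h⟩; exact ⟨m, h⟩
    · rintro ⟨m, h⟩; exact ⟨m, (Ordinal.natCast_lt_omega0 m).le, h⟩
  · funext p
    simp [Ordinal.natCast_lt_omega0 p]

theorem MPass_pas_succ (K : List ℕ → ℕ → ℕ → Prop) (a : ℕ → ℕ) (D : ℕ → Bool) (n : ℕ) :
    ((∃ m, Bad K a (pas K a D n) n m) ∧ pas K a D (n + 1) = pas K a D n) ∨
      ((¬ ∃ m, Bad K a (pas K a D n) n m) ∧ pas K a D (n + 1) = update (pas K a D n) n true) := by
  classical
  by_cases h : ∃ m, Bad K a (pas K a D n) n m
  · left
    refine ⟨h, ?_⟩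
    show (if ∃ m, Bad K a (pas K a D n) n m then pas K a D n
      else update (pas K a D n) n true) = _
    rw [if_pos h]
  · right
    refine ⟨h, ?_⟩
    show (if ∃ m, Bad K a (pas K a D n) n m then pas K a D n
      else update (pas K a D n) n true) = _
    rw [if_neg h]

/-- The outer loop. -/
theorem MPass_outer {K : List ℕ → ℕ → ℕ → Prop} (l : Lay K) (x D : ℕ → Bool) :
    Seg l.d l.code x 2 l.aE
      (fun V => ∀ p, (D p = true → V 1 p = true) ∧
        (V 1 p = true → TH.pass K (rd l.d x) D p = true))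
      3 (trk D False (th 0) (th 0)) 3
      (trk (TH.pass K (rd l.d x) D) False (fun _ => true) (th 0)) := by
  have hd := l.hd
  have hlen := l.len
  have hE := l.hE; have ha := l.ha; have hq := l.hq; have hF := l.hF; have hG := l.hG
  have h9 := l.h9; have h8 := l.h8; have h7 := l.h7; have h5 := l.h5; have h4 := l.h4
  have h3 := l.h3; have h2 := l.h2; have h1 := l.h1
  have hloop := Seg.loop (d := l.d) (code := l.code) (x := x) (by omega) (h := 2) (hi := l.aE)
    l.c2 (by omega) (by omega) (fun t => t = 1 ∨ t = 3) (MPass_TO K (rd l.d x) D) ω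
    (by
      intro ξ hξ
      obtain ⟨n, rfl⟩ := Ordinal.lt_omega0.1 hξ
      have h1 : ((n : Ordinal.{0}) + 1) = ((n + 1 : ℕ) : Ordinal.{0}) := by push_cast; rfl
      rw [h1, MPass_TO_nat, MPass_TO_nat]
      refine (l.round x (pas K (rd l.d x) D n) n (pas K (rd l.d x) D (n + 1))
        (MPass_pas_succ K (rd l.d x) D n)).mono le_rfl le_rfl ?_
      intro V hV t ht _ p
      exact hV t ht p)
    (by
      intro ζ _ hζ t ht _ p
      have h0ζ : (0 : Ordinal.{0}) < ζ := by
        have := MPass_nat_limit hζ (n := 0) (by simp)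
        exact lt_of_le_of_lt (by simp) this
      rcases ht with rfl | rfl
      · unfold MPass_TO
        simp only [MPass_t1, decide_eq_true_eq]
        constructor
        · rintro ⟨n, hn, h⟩
          have h2 := MPass_nat_limit hζ hn
          refine ⟨(n : Ordinal.{0}), lt_of_le_of_lt ?_ h2, n, le_rfl, h⟩
          exact_mod_cast Nat.le_succ n
        · rintro ⟨ξ, hξ, n, hn, h⟩
          exact ⟨n, hn.trans hξ.le, h⟩
      · unfold MPass_TO
        simp only [MPass_t3, decide_eq_true_eq]
        constructor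
        · intro h
          exact ⟨((p + 1 : ℕ) : Ordinal.{0}), MPass_nat_limit hζ h.le,
            by exact_mod_cast Nat.lt_succ_self p⟩
        · rintro ⟨ξ, hξ, h⟩
          exact h.trans hξ)
    (by
      intro ξ _ t ht _ p
      unfold MPass_TO
      push Not at ht
      by_cases h2 : t = 2
      · subst h2
        rw [MPass_t2, if_neg not_false]
        exact MPass_th0 p
      · by_cases h4 : t = 4
        · subst h4
          rw [MPass_t4]
          exact MPass_th0 p
        · rw [MPass_t0 _ _ _ _ (by omega)]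
          exact MPass_th0 p)
  have e0 : MPass_TO K (rd l.d x) D 0 = trk D False (th 0) (th 0) := by
    have := MPass_TO_nat K (rd l.d x) D 0
    rw [Nat.cast_zero] at this
    rw [this]
    rfl
  rw [e0, MPass_TO_omega] at hloop
  refine hloop.mono le_rfl le_rfl ?_
  intro V hV p
  have := hV 1 (Or.inl rfl) (by omega) p
  rw [MPass_t1, MPass_t1] at this
  exact this

/-- One pass: from address `2` to address `aE + 1`. -/
theorem Lay.pass {K : List ℕ → ℕ → ℕ → Prop} (l : Lay K) (x D : ℕ → Bool) :
    Seg l.d l.code x 1 (l.aE + 1)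
      (fun V => ∀ p, (D p = true → V 1 p = true) ∧
        (V 1 p = true → TH.pass K (rd l.d x) D p = true))
      2 (trk D False (th 0) (th 0)) (l.aE + 1)
      (trk (TH.pass K (rd l.d x) D) False (th 0) (th 0)) := by
  classical
  have hd := l.hd
  have hlen := l.len
  have hE := l.hE; have ha := l.ha; have hq := l.hq; have hF := l.hF; have hG := l.hG
  have h9 := l.h9; have h8 := l.h8; have h7 := l.h7; have h5 := l.h5; have h4 := l.h4
  have h3 := l.h3; have h2 := l.h2; have h1 := l.h1
  have hd1 : 1 ≤ l.d := by omega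
  have hDP : ∀ p, D p = true → TH.pass K (rd l.d x) D p = true := by
    intro p hp
    unfold TH.pass
    rw [decide_eq_true_eq]
    exact ⟨0, hp⟩
  set J : (ℕ → ℕ → Bool) → Prop := fun V => ∀ p, (D p = true → V 1 p = true) ∧
        (V 1 p = true → TH.pass K (rd l.d x) D p = true) with hJ
  have hJ1 : ∀ V : ℕ → ℕ → Bool, V 1 = D → J V := by
    intro V hV p
    rw [hV]
    exact ⟨id, hDP p⟩
  have hJ2 : ∀ V : ℕ → ℕ → Bool, V 1 = TH.pass K (rd l.d x) D → J V := by
    intro V hV p
    rw [hV]
    exact ⟨hDP p, id⟩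
  have s2 : Seg l.d l.code x 1 (l.aE + 1) J 2 (trk D False (th 0) (th 0)) 3
      (trk D False (th 0) (th 0)) := by
    have := Seg.one (J := J) (lo := 1) (hi := l.aE + 1) (T := trk D False (th 0) (th 0))
      (T' := trk D False (th 0) (th 0)) hd1 l.c2
      (nop_sw (x := x) (d := l.d) hd1 3 (mem l.d (trk D False (th 0) (th 0))))
      (by norm_num) (by omega) (by omega) (hJ1 _ (MPass_t1 _ _ _ _))
    exact this
  have s3 : Seg l.d l.code x 1 (l.aE + 1) J 3 (trk D False (th 0) (th 0)) 3
      (trk (TH.pass K (rd l.d x) D) False (fun _ => true) (th 0)) :=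
    (MPass_outer l x D).mono (by omega) (by omega) (fun V hV => hV)
  have s4 : Seg l.d l.code x 1 (l.aE + 1) J 3
      (trk (TH.pass K (rd l.d x) D) False (fun _ => true) (th 0)) l.aE
      (trk (TH.pass K (rd l.d x) D) False (fun _ => true) (th 0)) := by
    have := Seg.one (J := J) (lo := 1) (hi := l.aE + 1) hd1 l.c3
      (full_sw_full (x := x) (T := trk (TH.pass K (rd l.d x) D) False (fun _ => true) (th 0))
        (r := 3) (d := l.d) (by omega)
        (by intro p; rw [MPass_t3]) l.aE 4)
      (by norm_num) (by omega) (by omega) (hJ2 _ (MPass_t1 _ _ _ _))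
    exact this
  have s5 : Seg l.d l.code x 1 (l.aE + 1) J l.aE
      (trk (TH.pass K (rd l.d x) D) False (fun _ => true) (th 0)) (l.aE + 1)
      (trk (TH.pass K (rd l.d x) D) False (th 0) (th 0)) := by
    have := Seg.one (J := J) (lo := 1) (hi := l.aE + 1) hd1 l.cE0
      (clr_sw (x := x) (T := trk (TH.pass K (rd l.d x) D) False (fun _ => true) (th 0))
        (r := 3) (d := l.d) (by omega) (l.aE + 1))
      (by norm_num) (by omega) (by omega) (hJ2 _ (MPass_t1 _ _ _ _))
    rw [MPass_u3] at this
    exact this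
  exact s2.trans (s3.trans (s4.trans s5))

end Pool.Agent.H76.TH
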