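import Pool.Agent.H76.TH.MSeg

/-!
Project THIN, module MPrA: programs for primitive recursive functions, first part.
`Impl f`: for all input registers `ι i < k`, an output register `o < k` different from the inputs, there is a
code `F b` (of a length independent of the address `b`) that computes `f` with scratch tracks `≥ k`.
The registers below `k` other than `o` never change; the scratch tracks are zero at the beginning
and at the end.
* zero: the empty code.
* copy (`get`): `b: cmpI (min o r) (max o r) (b+2) (b+1)`, `b+1: incI o b`, a finite loop (`Seg.iter`) that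
  increases `o` until it equals `r`; exit `b+2`.
* succ: copy, then `incI o`.
* comp: compute `g i` into register `k + i` with scratch `≥ k + n` (one after the other), then `f` with
  inputs `k + i`, output `o`, scratch `≥ k + n`, then clear the registers `k + i` (`clrI`).
-/

set_option autoImplicit false

open Encodable Pool.Agent.H75.EK Pool.Agent.H76.ITTM Ordinal Function

namespace Pool.Agent.H76.TH

/-- `f` can be computed by code segments; `m` is the number of scratch tracks. -/
def Impl {n : ℕ} (f : List.Vector ℕ n → ℕ) : Prop :=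
  ∃ m : ℕ, ∀ (ι : Fin n → ℕ) (o k : ℕ), (∀ i, ι i < k) → o < k → (∀ i, ι i ≠ o) →
    ∃ (L : ℕ) (F : ℕ → List Instr), (∀ b, (F b).length = L) ∧
      ∀ (d : ℕ) (code : List Instr) (b : ℕ) (x : ℕ → Bool), k + m ≤ d → Sub code b (F b) →
      ∀ (v : List.Vector ℕ n) (T : ℕ → ℕ → Bool), (∀ i, T (ι i) = th (v.get i)) → T o = th 0 →
        (∀ t, k ≤ t → T t = th 0) →
        Seg d code x b (b + L) (fun V => ∀ t, t < k → t ≠ o → V t = T t) b T (b + L)
          (update T o (th (f v)))

/-! ### Auxiliary facts -/

theorem MPrA_sub_append {code : List Instr} {b : ℕ} {l₁ l₂ : List Instr} :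
    Sub code b (l₁ ++ l₂) ↔ Sub code b l₁ ∧ Sub code (b + l₁.length) l₂ := by
  constructor
  · intro h
    constructor
    · intro i hi
      rw [h i (by rw [List.length_append]; omega), List.getElem?_append_left hi]
    · intro i hi
      rw [add_assoc, h (l₁.length + i) (by rw [List.length_append]; omega),
        List.getElem?_append_right (by omega)]
      congr 1
      omega
  · rintro ⟨h1, h2⟩ i hi
    rw [List.length_append] at hi
    by_cases h : i < l₁.length
    · rw [h1 i h, List.getElem?_append_left h]
    · push Not at h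
      have := h2 (i - l₁.length) (by omega)
      rw [List.getElem?_append_right h, ← this]
      congr 1
      omega

theorem MPrA_th_inj {a b : ℕ} (h : th a = th b) : a = b := by
  rcases lt_trichotomy a b with h1 | h1 | h1
  · exfalso
    have h2 := congrFun h a
    simp [th, h1] at h2
  · exact h1
  · exfalso
    have h2 := congrFun h b
    simp [th, h1] at h2

/-- Concatenation of pieces of code. -/
def catC (G : ℕ → ℕ → List Instr) (b : ℕ) : ℕ → List Instr
  | 0 => []
  | j + 1 => catC G b j ++ G j (b + (catC G b j).length)

/-- Length of the concatenation. -/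
def sumL (L : ℕ → ℕ) : ℕ → ℕ
  | 0 => 0
  | j + 1 => sumL L j + L j

theorem catC_length {G : ℕ → ℕ → List Instr} {L : ℕ → ℕ} (hG : ∀ j c, (G j c).length = L j)
    (b : ℕ) : ∀ j, (catC G b j).length = sumL L j
  | 0 => rfl
  | j + 1 => by
    rw [catC, List.length_append, hG, catC_length hG b j]
    rfl

theorem sumL_mono (L : ℕ → ℕ) {i j : ℕ} (h : i ≤ j) : sumL L i ≤ sumL L j := by
  induction h with
  | refl => exact le_rfl
  | step _ ih => exact ih.trans (Nat.le_add_right _ _)

theorem catC_sub {G : ℕ → ℕ → List Instr} {L : ℕ → ℕ} (hG : ∀ j c, (G j c).length = L j)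
    {code : List Instr} {b : ℕ} : ∀ {n : ℕ}, Sub code b (catC G b n) → ∀ j, j < n →
      Sub code (b + sumL L j) (G j (b + sumL L j))
  | 0, _, j, hj => absurd hj (Nat.not_lt_zero _)
  | n + 1, h, j, hj => by
    rw [catC, MPrA_sub_append, catC_length hG] at h
    rcases Nat.lt_succ_iff_lt_or_eq.mp hj with h1 | h1
    · exact catC_sub hG h.1 j h1
    · subst h1
      exact h.2

theorem seg_cat {d : ℕ} {code : List Instr} {x : ℕ → Bool} {lo hi : ℕ}
    {J : (ℕ → ℕ → Bool) → Prop} {b : ℕ} {L : ℕ → ℕ} (T : ℕ → ℕ → ℕ → Bool) : ∀ (n : ℕ),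
    (∀ j, j < n → Seg d code x lo hi J (b + sumL L j) (T j) (b + sumL L (j + 1)) (T (j + 1))) →
    Seg d code x lo hi J b (T 0) (b + sumL L n) (T n)
  | 0, _ => Seg.refl
  | n + 1, h => (seg_cat T n fun j hj => h j (by omega)).trans (h n (by omega))

/-! ### The programs -/

theorem impl_zero : Impl (fun _ : List.Vector ℕ 0 => 0) := by
  refine ⟨0, fun ι o k _ _ _ => ⟨0, fun _ => [], fun _ => rfl, ?_⟩⟩
  intro d code b x _ _ v T _ ho _
  have e : update T o (th 0) = T := by rw [← ho, update_eq_self]
  rw [e]
  exact Seg.refl

/-- The copying loop. -/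
theorem MPrA_copy {d : ℕ} {code : List Instr} {b : ℕ} {x : ℕ → Bool} {r o k n e : ℕ}
    (hr : r < k) (ho : o < k) (hro : r ≠ o) (hk : k ≤ d)
    (h0 : code[b]? = some (cmpI (min o r) (max o r) e (b + 1)))
    (h1 : code[b + 1]? = some (incI o b)) {T : ℕ → ℕ → Bool} (hTr : T r = th n)
    (hTo : T o = th 0) :
    Seg d code x b (b + 2) (fun V => ∀ t, t < k → t ≠ o → V t = T t) b T e
      (update T o (th n)) := by
  have hmM : min o r < max o r := by omega
  have hMd : max o r < d := by omega
  have hd : 1 ≤ d := by omega
  have hJ : ∀ j : ℕ, ∀ t, t < k → t ≠ o → update T o (th j) t = T t := by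
    intro j t _ hto
    rw [update_of_ne hto]
  have heqv : ∀ j : ℕ, (update T o (th j)) (min o r) = (update T o (th j)) (max o r) ↔ j = n := by
    intro j
    have e1 : update T o (th j) o = th j := update_self _ _ _
    have e2 : update T o (th j) r = th n := by rw [update_of_ne hro, hTr]
    rcases le_total o r with h | h
    · rw [min_eq_left h, max_eq_right h, e1, e2]
      exact ⟨MPrA_th_inj, fun h => by rw [h]⟩
    · rw [min_eq_right h, max_eq_left h, e1, e2]
      exact ⟨fun h => (MPrA_th_inj h).symm, fun h => by rw [h]⟩
  have hloop : Seg d code x b (b + 2) (fun V => ∀ t, t < k → t ≠ o → V t = T t) b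
      (update T o (th 0)) b (update T o (th n)) := by
    apply Seg.iter (fun j => update T o (th j)) n
    intro j hj
    have s1 : Seg d code x b (b + 2) (fun V => ∀ t, t < k → t ≠ o → V t = T t) b
        (update T o (th j)) (b + 1) (update T o (th j)) := by
      have := Seg.one (lo := b) (hi := b + 2)
        (J := fun V => ∀ t, t < k → t ≠ o → V t = T t) hd h0
        (cmp_sw_ne (x := x) (T := update T o (th j)) hmM hMd
          (fun h => absurd ((heqv j).mp h) (by omega)) e (b + 1))
        (by norm_num) le_rfl (by omega) (hJ j)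
      simpa [cmpI] using this
    have s2 : Seg d code x b (b + 2) (fun V => ∀ t, t < k → t ≠ o → V t = T t) (b + 1)
        (update T o (th j)) b (update T o (th (j + 1))) := by
      have := Seg.one (lo := b) (hi := b + 2)
        (J := fun V => ∀ t, t < k → t ≠ o → V t = T t) hd h1
        (inc_sw (x := x) (T := update T o (th j)) (r := o) (n := j) (by omega)
          (update_self _ _ _) b)
        (by norm_num) (by omega) (by omega) (hJ j)
      rw [update_idem] at this
      simpa [incI] using this
    exact s1.trans s2
  have hlast : Seg d code x b (b + 2) (fun V => ∀ t, t < k → t ≠ o → V t = T t) b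
      (update T o (th n)) e (update T o (th n)) := by
    have := Seg.one (lo := b) (hi := b + 2)
      (J := fun V => ∀ t, t < k → t ≠ o → V t = T t) hd h0
      (cmp_sw_eq (x := x) (T := update T o (th n)) hmM hMd ((heqv n).mpr rfl) e (b + 1))
      (by norm_num) le_rfl (by omega) (hJ n)
    simpa [cmpI] using this
  have e0 : update T o (th 0) = T := by rw [← hTo, update_eq_self]
  rw [e0] at hloop
  exact hloop.trans hlast

theorem impl_get {n : ℕ} (i : Fin n) : Impl (fun v => v.get i) := by
  refine ⟨0, fun ι o k hι ho hne => ⟨2, fun b => [cmpI (min o (ι i)) (max o (ι i)) (b + 2) (b + 1),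
    incI o b], fun _ => rfl, ?_⟩⟩
  intro d code b x hd hsub v T hT hTo _
  have h0 := hsub 0 (by simp)
  have h1 := hsub 1 (by simp)
  simp only [add_zero, List.getElem?_cons_zero, List.getElem?_cons_succ] at h0 h1
  exact MPrA_copy (hι i) ho (hne i) (by omega) h0 h1 (hT i) hTo

theorem impl_succ : Impl (fun v : List.Vector ℕ 1 => v.head.succ) := by
  refine ⟨0, fun ι o k hι ho hne => ⟨3, fun b => [cmpI (min o (ι 0)) (max o (ι 0)) (b + 2) (b + 1),
    incI o b, incI o (b + 3)], fun _ => rfl, ?_⟩⟩
  intro d code b x hd hsub v T hT hTo _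
  have h0 := hsub 0 (by simp)
  have h1 := hsub 1 (by simp)
  have h2 := hsub 2 (by simp)
  simp only [add_zero, List.getElem?_cons_zero, List.getElem?_cons_succ] at h0 h1 h2
  have hv : v.get 0 = v.head := List.Vector.get_zero v
  have s1 := MPrA_copy (x := x) (hι 0) ho (hne 0) (by omega : k ≤ d) h0 h1 (hT 0) hTo
  have s2 : Seg d code x b (b + 3) (fun V => ∀ t, t < k → t ≠ o → V t = T t) (b + 2)
      (update T o (th (v.get 0))) (b + 3) (update T o (th (v.get 0 + 1))) := by
    have := Seg.one (lo := b) (hi := b + 3)
      (J := fun V => ∀ t, t < k → t ≠ o → V t = T t) (by omega : 1 ≤ d) h2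
      (inc_sw (x := x) (T := update T o (th (v.get 0))) (r := o) (n := v.get 0) (by omega)
        (update_self _ _ _) (b + 3))
      (by norm_num) (by omega) (by omega) (by
        intro t _ hto
        rw [update_of_ne hto])
    rw [update_idem] at this
    simpa [incI] using this
  have s1' := s1.mono (le_refl b) (by omega : b + 2 ≤ b + 3) (fun V h => h)
  have := s1'.trans s2
  rw [hv] at this
  exact this

theorem impl_comp {m n : ℕ} {f : List.Vector ℕ n → ℕ} (g : Fin n → List.Vector ℕ m → ℕ)
    (hf : Impl f) (hg : ∀ i, Impl (g i)) :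
    Impl (fun v => f (List.Vector.ofFn fun i => g i v)) := by
  obtain ⟨mf, hf⟩ := hf
  choose mg hg using hg
  refine ⟨n + (mf + ∑ i, mg i), fun ι o k hι ho hne => ?_⟩
  have hιk : ∀ i, ι i < k + n := fun i => (hι i).trans_le (Nat.le_add_right _ _)
  have hg' := fun i : Fin n => hg i ι (k + i) (k + n) hιk (by have := i.2; omega)
    (fun j => by have := hι j; omega)
  choose Lg Fg hLg hFg using hg'
  obtain ⟨Lf, Ff, hLf, hFf⟩ := hf (fun i => k + i) o (k + n) (fun i => by have := i.2; omega)
    (by omega) (fun i => by omega)
  -- code pieces indexed by natural numbers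
  set L : ℕ → ℕ := fun j => if h : j < n then Lg ⟨j, h⟩ else 0 with hL
  set G : ℕ → ℕ → List Instr := fun j c => if h : j < n then Fg ⟨j, h⟩ c else [] with hG
  have hGL : ∀ j c, (G j c).length = L j := by
    intro j c
    simp only [hG, hL]
    split_ifs with h
    · exact hLg ⟨j, h⟩ c
    · rfl
  set C : ℕ → ℕ → List Instr := fun j c => [clrI (k + j) (c + 1)] with hC
  have hCL : ∀ j c, (C j c).length = (fun _ => 1 : ℕ → ℕ) j := fun _ _ => rfl
  set S := sumL L n with hS
  set S' := sumL (fun _ => 1) n with hS'
  refine ⟨S + Lf + S', fun b => catC G b n ++ Ff (b + S) ++ catC C (b + S + Lf) n, ?_, ?_⟩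
  · intro b
    rw [List.length_append, List.length_append, hLf, catC_length hGL, catC_length hCL]
  intro d code b x hd hsub v T hT hTo hT0
  rw [MPrA_sub_append, MPrA_sub_append, catC_length hGL, List.length_append, catC_length hGL,
    hLf] at hsub
  obtain ⟨⟨hsub1, hsub2⟩, hsub3⟩ := hsub
  rw [← add_assoc] at hsub3
  set val : ℕ → ℕ := fun j => if h : j < n then g ⟨j, h⟩ v else 0 with hval
  set R : ℕ := f (List.Vector.ofFn fun i => g i v) with hR
  set J : (ℕ → ℕ → Bool) → Prop := fun V => ∀ t, t < k → t ≠ o → V t = T t with hJ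
  -- first phase
  set T1 : ℕ → ℕ → ℕ → Bool := fun i t => if k ≤ t ∧ t < k + i then th (val (t - k)) else T t
    with hT1
  have hT10 : T1 0 = T := by
    funext t
    simp only [hT1]
    rw [if_neg (by omega)]
  have hT1s : ∀ i, update (T1 i) (k + i) (th (val i)) = T1 (i + 1) := by
    intro i
    funext t
    by_cases ht : t = k + i
    · subst ht
      rw [update_self]
      simp only [hT1]
      rw [if_pos (by omega)]
      congr 2
      omega
    · rw [update_of_ne ht]
      simp only [hT1]
      by_cases h1 : k ≤ t ∧ t < k + i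
      · rw [if_pos h1, if_pos (by omega)]
      · rw [if_neg h1, if_neg (by omega)]
  have hT1lt : ∀ i t, t < k → T1 i t = T t := by
    intro i t ht
    simp only [hT1]
    rw [if_neg (by omega)]
  have hT1ge : ∀ i t, k + i ≤ t → T1 i t = th 0 := by
    intro i t ht
    simp only [hT1]
    rw [if_neg (by omega)]
    exact hT0 t (by omega)
  have phase1 : Seg d code x b (b + (S + Lf + S')) J b (T1 0) (b + S) (T1 n) := by
    apply seg_cat T1 n
    intro j hj
    have hsubj := catC_sub hGL hsub1 j hj
    have hGj : G j (b + sumL L j) = Fg ⟨j, hj⟩ (b + sumL L j) := by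
      simp only [hG]
      rw [dif_pos hj]
    have hLj : L j = Lg ⟨j, hj⟩ := by
      simp only [hL]
      rw [dif_pos hj]
    have hvj : val j = g ⟨j, hj⟩ v := by
      simp only [hval]
      rw [dif_pos hj]
    rw [hGj] at hsubj
    have hmg : mg ⟨j, hj⟩ ≤ ∑ i, mg i := Finset.single_le_sum (fun _ _ => Nat.zero_le _)
      (Finset.mem_univ (⟨j, hj⟩ : Fin n))
    have key := hFg ⟨j, hj⟩ d code (b + sumL L j) x (by omega) hsubj v (T1 j)
      (fun i => by rw [hT1lt j _ (hι i), hT i]) (hT1ge j _ le_rfl)
      (fun t ht => hT1ge j t (by omega))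
    simp only at key
    rw [← hvj, hT1s j, ← hLj] at key
    have hle : sumL L (j + 1) ≤ sumL L n := sumL_mono L hj
    have hstep : sumL L (j + 1) = sumL L j + L j := rfl
    have e1 : b + sumL L j + L j = b + sumL L (j + 1) := by rw [hstep, add_assoc]
    rw [e1] at key
    refine key.mono (by omega) (by omega) ?_
    intro V hV t ht hto
    rw [hV t (by omega) (by omega), hT1lt j t ht]
  -- second phase
  have phase2 : Seg d code x b (b + (S + Lf + S')) J (b + S) (T1 n) (b + S + Lf)
      (update (T1 n) o (th R)) := by
    have key := hFf d code (b + S) x (by omega) hsub2 (List.Vector.ofFn fun i => g i v) (T1 n)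
      (fun i => by
        rw [List.Vector.get_ofFn]
        simp only [hT1]
        rw [if_pos (by have := i.2; omega)]
        have e : k + (i : ℕ) - k = i := by omega
        rw [e]
        simp only [hval]
        rw [dif_pos i.2])
      (by rw [hT1lt n o ho, hTo]) (fun t ht => hT1ge n t ht)
    refine key.mono (by omega) (by omega) ?_
    intro V hV t ht hto
    rw [hV t (by omega) hto, hT1lt n t ht]
  -- third phase
  set U : ℕ → ℕ → ℕ → Bool := fun i t => if k + i ≤ t ∧ t < k + n then th (val (t - k))
    else update T o (th R) t with hU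
  have hU0 : U 0 = update (T1 n) o (th R) := by
    funext t
    by_cases ht : t = o
    · subst ht
      rw [update_self]
      simp only [hU]
      rw [if_neg (by omega), update_self]
    · rw [update_of_ne ht]
      simp only [hU, hT1, add_zero]
      rw [update_of_ne ht]
  have hUn : U n = update T o (th R) := by
    funext t
    simp only [hU]
    rw [if_neg (by omega)]
  have hUs : ∀ i, i < n → update (U i) (k + i) (th 0) = U (i + 1) := by
    intro i hi
    funext t
    by_cases ht : t = k + i
    · subst ht
      rw [update_self]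
      simp only [hU]
      rw [if_neg (by omega), update_of_ne (by omega), hT0 _ (by omega)]
    · rw [update_of_ne ht]
      simp only [hU]
      by_cases h1 : k + i ≤ t ∧ t < k + n
      · rw [if_pos h1, if_pos (by omega)]
      · rw [if_neg h1, if_neg (by omega)]
  have hsum1 : ∀ j, sumL (fun _ => 1) j = j := by
    intro j
    induction j with
    | zero => rfl
    | succ j ih => rw [sumL, ih]
  have phase3 : Seg d code x b (b + (S + Lf + S')) J (b + S + Lf) (U 0) (b + S + Lf + S')
      (U n) := by
    apply seg_cat U n
    intro j hj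
    have hsubj := catC_sub hCL hsub3 j hj 0 (by simp [hC])
    have hSS : S' = n := hsum1 n
    simp only [hC, add_zero, List.getElem?_cons_zero, hsum1] at hsubj
    rw [hsum1, hsum1, ← hUs j hj]
    have := Seg.one (lo := b) (hi := b + (S + Lf + S')) (J := J) (by omega : 1 ≤ d) hsubj
      (clr_sw (x := x) (T := U j) (r := k + j) (by omega) _)
      (by norm_num) (by omega) (by omega) (by
        intro t ht hto
        simp only [hU]
        rw [if_neg (by omega), update_of_ne hto])
    simpa [clrI, add_assoc] using this
  rw [hT10] at phase1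
  rw [hU0, hUn] at phase3
  have := (phase1.trans phase2).trans phase3
  have e2 : b + S + Lf + S' = b + (S + Lf + S') := by omega
  rw [e2] at this
  exact this

end Pool.Agent.H76.TH
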