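import Pool.Agent.H76.TH.MPrA

/-!
Project THIN, module MPrB: programs for primitive recursive functions, primitive recursion.
Inputs `ι 0` (the counter `c`) and `ι (i+1)` (the parameters), output `o`. Registers `y = k`, `u = k + 1`,
scratch of `f` and `g` from `k + 2` on. Code: `f` into `o`; loop: compare `y` with `c`: if equal go to the
end; compute `g` (inputs `y`, `o`, parameters) into `u`; clear `o`; copy `u` to `o` (`impl_get`); clear `u`;
increase `y`; back. End: clear `y`.
-/

set_option autoImplicit false

open Encodable Pool.Agent.H75.EK Pool.Agent.H76.ITTM Ordinal Function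

namespace Pool.Agent.H76.TH

theorem MPrB_sub_append {code : List Instr} {b : ℕ} {l1 l2 : List Instr}
    (h : Sub code b (l1 ++ l2)) : Sub code b l1 ∧ Sub code (b + l1.length) l2 := by
  constructor
  · intro i hi
    rw [h i (by rw [List.length_append]; omega), List.getElem?_append_left hi]
  · intro i hi
    have h1 := h (l1.length + i) (by rw [List.length_append]; omega)
    rw [← Nat.add_assoc] at h1
    rw [h1, List.getElem?_append_right (by omega), Nat.add_sub_cancel_left]

theorem MPrB_sub_cons {code : List Instr} {b : ℕ} {I : Instr} {l : List Instr}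
    (h : Sub code b (I :: l)) : code[b]? = some I ∧ Sub code (b + 1) l := by
  constructor
  · have h1 := h 0 (by simp)
    simpa using h1
  · intro i hi
    have h1 := h (i + 1) (by simp; omega)
    rw [show b + 1 + i = b + (i + 1) by ring, h1]
    simp

theorem MPrB_th_inj {m n : ℕ} (h : th m = th n) : m = n := by
  by_contra hne
  rcases Nat.lt_or_gt_of_ne hne with hlt | hlt
  · have h1 := congrFun h m
    simp only [th] at h1
    simp [hlt] at h1
  · have h1 := congrFun h n
    simp only [th] at h1
    simp [hlt] at h1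

theorem impl_prec {n : ℕ} {f : List.Vector ℕ n → ℕ} {g : List.Vector ℕ (n + 2) → ℕ}
    (hf : Impl f) (hg : Impl g) :
    Impl (fun v : List.Vector ℕ (n + 1) =>
      v.head.rec (f v.tail) fun y IH => g (y ::ᵥ IH ::ᵥ v.tail)) := by
  obtain ⟨mf, Hf⟩ := hf
  obtain ⟨mg, Hg⟩ := hg
  obtain ⟨mc, Hc⟩ := impl_get (n := 1) 0
  refine ⟨2 + mf + mg + mc, fun ι o k hι ho hιo => ?_⟩
  obtain ⟨Lf, Ff, hLf, Hf⟩ := Hf (fun i => ι i.succ) o (k + 2)
    (fun i => by have := hι i.succ; omega) (by omega) (fun i => hιo i.succ)
  obtain ⟨Lg, Fg, hLg, Hg⟩ := Hg (Fin.cons k (Fin.cons o fun i => ι i.succ)) (k + 1) (k + 2)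
    (by
      intro i
      refine Fin.cases ?_ (fun i => ?_) i
      · simp
      · refine Fin.cases ?_ (fun i => ?_) i
        · simp only [Fin.cons_succ, Fin.cons_zero]; omega
        · simp only [Fin.cons_succ]; have := hι i.succ; omega) (by omega)
    (by
      intro i
      refine Fin.cases ?_ (fun i => ?_) i
      · simp
      · refine Fin.cases ?_ (fun i => ?_) i
        · simp only [Fin.cons_succ, Fin.cons_zero]; omega
        · simp only [Fin.cons_succ]; have := hι i.succ; omega)
  obtain ⟨Lc, Fc, hLc, Hc⟩ := Hc (fun _ => k + 1) o (k + 2) (fun _ => by omega) (by omega)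
    (fun _ => by omega)
  refine ⟨Lf + (1 + (Lg + (1 + (Lc + 3)))), fun b => Ff b ++
    (cmpI (ι 0) k (b + Lf + 1 + Lg + 1 + Lc + 2) (b + Lf + 1) ::
      (Fg (b + Lf + 1) ++ (clrI o (b + Lf + 1 + Lg + 1) :: (Fc (b + Lf + 1 + Lg + 1) ++
        [clrI (k + 1) (b + Lf + 1 + Lg + 1 + Lc + 1), incI k (b + Lf),
          clrI k (b + Lf + 1 + Lg + 1 + Lc + 3)])))), ?_, ?_⟩
  · intro b
    simp only [List.length_append, List.length_cons, List.length_nil, hLf, hLg, hLc]
    omega
  intro d code b x hd hsub v T hT hTo hTk
  -- the positions of the blocks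
  obtain ⟨s1, s2⟩ := MPrB_sub_append hsub
  rw [hLf] at s2
  obtain ⟨i1, s3⟩ := MPrB_sub_cons s2
  obtain ⟨s4, s5⟩ := MPrB_sub_append s3
  rw [hLg] at s5
  obtain ⟨i2, s6⟩ := MPrB_sub_cons s5
  obtain ⟨s7, s8⟩ := MPrB_sub_append s6
  rw [hLc] at s8
  obtain ⟨i3, s9⟩ := MPrB_sub_cons s8
  obtain ⟨i4, s10⟩ := MPrB_sub_cons s9
  obtain ⟨i5, -⟩ := MPrB_sub_cons s10
  set L : ℕ := Lf + (1 + (Lg + (1 + (Lc + 3)))) with hL
  set R : ℕ → ℕ := fun i => Nat.rec (f v.tail) (fun y IH => g (y ::ᵥ IH ::ᵥ v.tail)) i with hR
  have hR0 : R 0 = f v.tail := rfl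
  have hRs : ∀ i, R (i + 1) = g (i ::ᵥ R i ::ᵥ v.tail) := fun i => rfl
  set St : ℕ → ℕ → ℕ → Bool := fun i => update (update T o (th (R i))) k (th i) with hSt
  have hok : o ≠ k := by omega
  have St_k : ∀ i, St i k = th i := fun i => by rw [hSt]; simp
  have St_o : ∀ i, St i o = th (R i) := fun i => by
    rw [hSt]; simp only; rw [update_of_ne hok, update_self]
  have St_ne : ∀ i t, t ≠ o → t ≠ k → St i t = T t := fun i t h1 h2 => by
    rw [hSt]; simp only; rw [update_of_ne h2, update_of_ne h1]
  have hι0 : ι 0 < k := hι 0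
  -- the first part
  have A1 : Seg d code x b (b + L) (fun V => ∀ t, t < k → t ≠ o → V t = T t) b T (b + Lf)
      (St 0) := by
    have h1 := Hf d code b x (by omega) s1 v.tail T
      (fun i => by rw [List.Vector.get_tail]; exact hT i.succ) hTo
      (fun t ht => hTk t (by omega))
    have h2 : St 0 = update T o (th (f v.tail)) := by
      funext t
      by_cases h3 : t = k
      · subst h3
        rw [St_k, update_of_ne (fun h => hok h.symm), hTk _ le_rfl]
      · by_cases h4 : t = o
        · subst h4; rw [St_o, update_self, hR0]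
        · rw [St_ne 0 t h4 h3, update_of_ne h4]
    rw [h2]
    exact h1.mono le_rfl (by omega) (fun V hV t h3 h4 => hV t (by omega) h4)
  -- one round
  have A2 : ∀ i, i < v.head → Seg d code x b (b + L) (fun V => ∀ t, t < k → t ≠ o → V t = T t)
      (b + Lf) (St i) (b + Lf) (St (i + 1)) := by
    intro i hi
    have c1 : Seg d code x b (b + L) (fun V => ∀ t, t < k → t ≠ o → V t = T t)
        (b + Lf) (St i) (b + Lf + 1) (St i) := by
      have h1 : St i (ι 0) ≠ St i k := by
        rw [St_k, St_ne i (ι 0) (hιo 0) (by omega), hT 0]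
        intro h
        have := MPrB_th_inj h
        rw [List.Vector.get_zero] at this
        omega
      have h2 := cmp_sw_ne (d := d) (x := x) (T := St i) hι0 (by omega) h1
        (b + Lf + 1 + Lg + 1 + Lc + 2) (b + Lf + 1)
      exact Seg.one (by omega) i1 h2 (by norm_num) (by omega) (by omega)
        (fun t h3 h4 => St_ne i t h4 (by omega))
    have c2 : Seg d code x b (b + L) (fun V => ∀ t, t < k → t ≠ o → V t = T t)
        (b + Lf + 1) (St i) (b + Lf + 1 + Lg) (update (St i) (k + 1) (th (R (i + 1)))) := by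
      have h1 := Hg d code (b + Lf + 1) x (by omega) s4 (i ::ᵥ R i ::ᵥ v.tail) (St i)
        (by
          intro j
          refine Fin.cases ?_ (fun j => ?_) j
          · rw [Fin.cons_zero, St_k, List.Vector.get_cons_zero]
          · refine Fin.cases ?_ (fun j => ?_) j
            · rw [Fin.cons_succ, Fin.cons_zero, St_o, List.Vector.get_cons_succ,
                List.Vector.get_cons_zero]
            · rw [Fin.cons_succ, Fin.cons_succ, List.Vector.get_cons_succ,
                List.Vector.get_cons_succ, List.Vector.get_tail,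
                St_ne i _ (hιo j.succ) (by have := hι j.succ; omega)]
              exact hT j.succ)
        (by rw [St_ne i _ (by omega) (by omega)]; exact hTk _ (by omega))
        (fun t ht => by rw [St_ne i _ (by omega) (by omega)]; exact hTk _ (by omega))
      exact h1.mono (by omega) (by omega) (fun V hV t h3 h4 => by
        rw [hV t (by omega) (by omega), St_ne i t h4 (by omega)])
    set U1 := update (St i) (k + 1) (th (R (i + 1))) with hU1
    have U1_ne : ∀ t, t ≠ k + 1 → U1 t = St i t := fun t h => by rw [hU1, update_of_ne h]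
    have U1_u : U1 (k + 1) = th (R (i + 1)) := by rw [hU1, update_self]
    have c3 : Seg d code x b (b + L) (fun V => ∀ t, t < k → t ≠ o → V t = T t)
        (b + Lf + 1 + Lg) U1 (b + Lf + 1 + Lg + 1) (update U1 o (th 0)) := by
      exact Seg.one (by omega) i2 (clr_sw (T := U1) (by omega) _) (by norm_num) (by omega)
        (by omega) (fun t h3 h4 => by rw [U1_ne t (by omega), St_ne i t h4 (by omega)])
    set U2 := update U1 o (th 0) with hU2
    have U2_ne : ∀ t, t ≠ o → U2 t = U1 t := fun t h => by rw [hU2, update_of_ne h]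
    have U2_o : U2 o = th 0 := by rw [hU2, update_self]
    have c4 : Seg d code x b (b + L) (fun V => ∀ t, t < k → t ≠ o → V t = T t)
        (b + Lf + 1 + Lg + 1) U2 (b + Lf + 1 + Lg + 1 + Lc) (update U2 o (th (R (i + 1)))) := by
      have h1 := Hc d code (b + Lf + 1 + Lg + 1) x (by omega) s7 (R (i + 1) ::ᵥ List.Vector.nil) U2
        (by
          intro j
          have hj : j = 0 := Subsingleton.elim _ _
          subst hj
          rw [List.Vector.get_cons_zero, U2_ne _ (by omega), U1_u]) U2_o
        (fun t ht => by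
          rw [U2_ne t (by omega), U1_ne t (by omega), St_ne i _ (by omega) (by omega)]
          exact hTk _ (by omega))
      have h2 := h1.mono (lo' := b) (hi' := b + L)
        (J' := fun V => ∀ t, t < k → t ≠ o → V t = T t) (by omega) (by omega)
        (fun V hV t h3 h4 => by
          rw [hV t (by omega) h4, U2_ne t h4, U1_ne t (by omega), St_ne i t h4 (by omega)])
      simpa using h2
    set U3 := update U2 o (th (R (i + 1))) with hU3
    have U3_ne : ∀ t, t ≠ o → U3 t = U2 t := fun t h => by rw [hU3, update_of_ne h]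
    have U3_o : U3 o = th (R (i + 1)) := by rw [hU3, update_self]
    have c5 : Seg d code x b (b + L) (fun V => ∀ t, t < k → t ≠ o → V t = T t)
        (b + Lf + 1 + Lg + 1 + Lc) U3 (b + Lf + 1 + Lg + 1 + Lc + 1)
        (update U3 (k + 1) (th 0)) := by
      exact Seg.one (by omega) i3 (clr_sw (T := U3) (by omega) _) (by norm_num) (by omega)
        (by omega) (fun t h3 h4 => by
          rw [U3_ne t h4, U2_ne t h4, U1_ne t (by omega), St_ne i t h4 (by omega)])
    set U4 := update U3 (k + 1) (th 0) with hU4
    have U4_ne : ∀ t, t ≠ k + 1 → U4 t = U3 t := fun t h => by rw [hU4, update_of_ne h]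
    have U4_u : U4 (k + 1) = th 0 := by rw [hU4, update_self]
    have U4_k : U4 k = th i := by
      rw [U4_ne k (by omega), U3_ne k (by omega), U2_ne k (by omega), U1_ne k (by omega), St_k]
    have c6 : Seg d code x b (b + L) (fun V => ∀ t, t < k → t ≠ o → V t = T t)
        (b + Lf + 1 + Lg + 1 + Lc + 1) U4 (b + Lf) (update U4 k (th (i + 1))) := by
      exact Seg.one (by omega) i4 (inc_sw (T := U4) (by omega) U4_k _) (by norm_num) (by omega)
        (by omega) (fun t h3 h4 => by
          rw [U4_ne t (by omega), U3_ne t h4, U2_ne t h4, U1_ne t (by omega),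
            St_ne i t h4 (by omega)])
    have e : update U4 k (th (i + 1)) = St (i + 1) := by
      funext t
      by_cases h1 : t = k
      · rw [h1, update_self]; exact (St_k (i + 1)).symm
      rw [update_of_ne h1]
      by_cases h2 : t = k + 1
      · rw [h2, U4_u]
        exact ((St_ne (i + 1) (k + 1) (by omega) (by omega)).trans (hTk _ (by omega))).symm
      rw [U4_ne t h2]
      by_cases h3 : t = o
      · rw [h3, U3_o]; exact (St_o (i + 1)).symm
      rw [U3_ne t h3, U2_ne t h3, U1_ne t h2]
      exact (St_ne i t h3 h1).trans (St_ne (i + 1) t h3 h1).symm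
    rw [← e]
    exact ((((c1.trans c2).trans c3).trans c4).trans c5).trans c6
  have A3 := Seg.iter St v.head A2
  have A4 : Seg d code x b (b + L) (fun V => ∀ t, t < k → t ≠ o → V t = T t)
      (b + Lf) (St v.head) (b + Lf + 1 + Lg + 1 + Lc + 2) (St v.head) := by
    have h1 : St v.head (ι 0) = St v.head k := by
      rw [St_k, St_ne _ (ι 0) (hιo 0) (by omega), hT 0, List.Vector.get_zero]
    have h2 := cmp_sw_eq (d := d) (x := x) (T := St v.head) hι0 (by omega) h1
      (b + Lf + 1 + Lg + 1 + Lc + 2) (b + Lf + 1)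
    exact Seg.one (by omega) i1 h2 (by norm_num) (by omega) (by omega)
      (fun t h3 h4 => St_ne _ t h4 (by omega))
  have A5 : Seg d code x b (b + L) (fun V => ∀ t, t < k → t ≠ o → V t = T t)
      (b + Lf + 1 + Lg + 1 + Lc + 2) (St v.head) (b + Lf + 1 + Lg + 1 + Lc + 3)
      (update (St v.head) k (th 0)) :=
    Seg.one (by omega) i5 (clr_sw (T := St v.head) (by omega) _) (by norm_num) (by omega)
      (by omega) (fun t h3 h4 => St_ne _ t h4 (by omega))
  have e : update (St v.head) k (th 0) = update T o (th (R v.head)) := by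
    funext t
    by_cases h1 : t = k
    · rw [h1, update_self, update_of_ne (by omega), hTk _ le_rfl]
    rw [update_of_ne h1]
    by_cases h3 : t = o
    · rw [h3, St_o, update_self]
    rw [St_ne _ _ h3 h1, update_of_ne h3]
  rw [e] at A5
  have hend : b + Lf + 1 + Lg + 1 + Lc + 3 = b + L := by omega
  rw [hend] at A5
  exact ((A1.trans A3).trans A4).trans A5

theorem impl_of_primrec' {n : ℕ} {f : List.Vector ℕ n → ℕ} (hf : Nat.Primrec' f) : Impl f := by
  induction hf with
  | zero => exact impl_zero
  | succ => exact impl_succ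
  | get i => exact impl_get i
  | comp g _ _ ihf ihg => exact impl_comp g ihf ihg
  | prec _ _ ihf ihg => exact impl_prec ihf ihg

end Pool.Agent.H76.TH
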