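import Pool.Agent.H76.TH.MDefs

/-!
Project THIN, module MRaw: the sweep machine at multiples of `ω`.
At raw stage `ω * β + n`, `1 ≤ n`, of a sweep of the instruction `I` at address `a` the configuration is:
state `st d a (n % d) (I.zs d x W n)`, head `n`, tape 0 is `x`, tape 1 is `I.out d x W q` for `q < n` and
`W q` for `q ≥ n`, tape 2 is the mark on cell 0 (induction on `n`; the first step is the dispatch).
`sA`, `sT`, `sZ` invert `st` for `t < d`, `z < 4`. At stage `ω * (β + 1)` use `run_limit` /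
`co_run_limit` and `limInf_eq` (`ITTM/Loop.lean`): the lower limit of the states is attained at
multiples of `d`, that of the heads is infinite, hence `0` (`limInf` of an unbounded set is
`sSup` of an unbounded set, which is `0`), and every cell is eventually constant.
For `at_limit`: all raw states from some stage on are at least `st d h 0 0`, and the value
`st d h 0 0` occurs cofinally (in the sweeps of `nopI` at `h`); the content of a cell at a raw stage
`ω * β + n` is its content at stage `ω * β` or at stage `ω * (β + 1)`.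
-/

set_option autoImplicit false

open Encodable Pool.Agent.H75.EK Pool.Agent.H76.ITTM Ordinal

namespace Pool.Agent.H76.TH

variable {d : ℕ} {code : List Instr} {x : ℕ → Bool}

/-! ### State numbers -/

theorem MRaw_sZ {a t z : ℕ} (hz : z < 4) : sZ (st d a t z) = z := by
  unfold sZ st
  omega

theorem MRaw_div {a t z : ℕ} (hz : z < 4) : (st d a t z - 1) / 4 = a * d + t := by
  unfold st
  omega

theorem MRaw_sT {a t z : ℕ} (ht : t < d) (hz : z < 4) : sT d (st d a t z) = t := by
  unfold sT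
  rw [MRaw_div hz, Nat.mul_comm, Nat.mul_add_mod, Nat.mod_eq_of_lt ht]

theorem MRaw_sA {a t z : ℕ} (ht : t < d) (hz : z < 4) : sA d (st d a t z) = a := by
  unfold sA
  rw [MRaw_div hz, Nat.mul_comm, Nat.mul_add_div (by omega), Nat.div_eq_of_lt ht, add_zero]

theorem MRaw_st_pos {a t z : ℕ} : 1 ≤ st d a t z := by
  unfold st
  omega

theorem MRaw_st_le {a t z : ℕ} (ha : a < code.length) (ht : t < d) (hz : z < 4) :
    st d a t z ≤ code.length * d * 4 := by
  unfold st
  have h1 : (a + 1) * d ≤ code.length * d := Nat.mul_le_mul_right d ha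
  have h2 : (a + 1) * d = a * d + d := by ring
  omega

theorem MRaw_st_mono {a a' t z : ℕ} (h : a ≤ a') : st d a 0 0 ≤ st d a' t z := by
  unfold st
  have h1 : a * d ≤ a' * d := Nat.mul_le_mul_right d h
  omega

theorem MRaw_zs_lt (I : Instr) (W : ℕ → Bool) (q : ℕ) : I.zs d x W q < 4 := by
  induction q with
  | zero => exact Nat.succ_pos 3
  | succ q ih => exact I.lt4 _ _ _ _ ih

/-! ### Ordinals -/

theorem MRaw_mul_succ (β : Ordinal.{0}) : ω * (β + 1) = ω * β + ω := by
  rw [mul_add, mul_one]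

theorem MRaw_lt_of_nat (β : Ordinal.{0}) (n : ℕ) : ω * β + n < ω * (β + 1) := by
  rw [MRaw_mul_succ]
  exact (add_lt_add_iff_left _).2 (Ordinal.natCast_lt_omega0 n)

theorem MRaw_block {β γ : Ordinal.{0}} (h1 : ω * β ≤ γ) (h2 : γ < ω * (β + 1)) :
    ∃ n : ℕ, γ = ω * β + n := by
  rw [MRaw_mul_succ] at h2
  have h3 : ω * β + (γ - ω * β) = γ := Ordinal.add_sub_cancel_of_le h1
  have h4 : γ - ω * β < ω := by
    rw [← h3] at h2
    exact (add_lt_add_iff_left _).1 h2
  obtain ⟨n, hn⟩ := Ordinal.lt_omega0.1 h4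
  exact ⟨n, by rw [← hn, h3]⟩

theorem MRaw_lim (β : Ordinal.{0}) : Order.IsSuccLimit (ω * (β + 1)) := by
  rw [MRaw_mul_succ]
  exact Ordinal.isSuccLimit_add _ Ordinal.isSuccLimit_omega0

/-- Every stage below a multiple of `ω` lies in a block. -/
theorem MRaw_stage {Γ γ : Ordinal.{0}} (h : γ < ω * Γ) :
    ∃ β n, β < Γ ∧ γ = ω * β + (n : ℕ) ∧ ∀ α : Ordinal.{0}, ω * α ≤ γ → α ≤ β := by
  have hω : (ω : Ordinal.{0}) ≠ 0 := Ordinal.omega0_ne_zero
  have h1 := Ordinal.div_add_mod γ ω
  have h4 : γ % ω < ω := Ordinal.mod_lt γ hω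
  obtain ⟨n, hn⟩ := Ordinal.lt_omega0.1 h4
  refine ⟨γ / ω, n, (Ordinal.lt_mul_iff_div_lt hω).1 h, ?_, fun α hα => ?_⟩
  · rw [← hn, h1]
  · by_contra hcon
    push Not at hcon
    have h5 : ω * (γ / ω + 1) ≤ ω * α := mul_le_mul_right (Order.add_one_le_of_lt hcon) _
    exact absurd ((Ordinal.lt_mul_succ_div γ hω).trans_le (h5.trans hα)) (lt_irrefl _)

/-! ### The raw configurations -/

/-- The configuration inside a sweep. -/
structure MRawC (d : ℕ) (code : List Instr) (x : ℕ → Bool) (a : ℕ) (I : Instr) (W : ℕ → Bool)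
    (n : ℕ) (c : Config (prog d code)) : Prop where
  state : (c.state : ℕ) = st d a (n % d) (I.zs d x W n)
  head : c.head = n
  cell0 : ∀ q, c.cell 0 q = x q
  cell1 : ∀ q, c.cell 1 q = if q < n then I.out d x W q else W q
  cell2 : ∀ q, c.cell 2 q = decide (q = 0)

theorem MRaw_trans_disp (s : Fin ((prog d code).n + 1)) (r : Fin 3 → Bool)
    (h : (s : ℕ) = 0 ∨ (sT d s = 0 ∧ r 2 = true)) :
    (prog d code).trans s r = proc d code (disp d code s) 0 0 r true := by
  show (if (s : ℕ) = 0 ∨ (sT d s = 0 ∧ r 2 = true) then _ else _) = _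
  rw [if_pos h]

theorem MRaw_trans_go (s : Fin ((prog d code).n + 1)) (r : Fin 3 → Bool)
    (h : (s : ℕ) ≠ 0) (h2 : r 2 = false) :
    (prog d code).trans s r = proc d code (sA d s) (sT d s) (sZ s) r (r 2) := by
  show (if (s : ℕ) = 0 ∨ (sT d s = 0 ∧ r 2 = true) then _ else _) = _
  rw [if_neg]
  rintro (h3 | ⟨_, h3⟩)
  · exact h h3
  · rw [h2] at h3
    exact absurd h3 (by simp)

theorem MRaw_step_of {p : Program} {c : Config p} {q : Fin (p.n + 1)} {w : Fin 3 → Bool}
    {b : Bool} (h : p.trans c.state c.read = some (q, w, b)) :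
    c.step = ⟨q, if b then c.head + 1 else c.head - 1,
      fun i => Function.update (c.cell i) c.head (w i)⟩ := by
  unfold Config.step
  rw [h]

theorem MRaw_at_trans {β : Ordinal.{0}} {a : ℕ} {W : ℕ → Bool} (h : At d code x β a W) :
    (prog d code).trans (run (prog d code) x (ω * β)).state (run (prog d code) x (ω * β)).read =
      proc d code a 0 0 (run (prog d code) x (ω * β)).read true := by
  rw [MRaw_trans_disp, h.disp]
  by_cases h0 : ((run (prog d code) x (ω * β)).state : ℕ) = 0
  · exact Or.inl h0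
  · right
    constructor
    · rcases h.off with h1 | h1
      · exact absurd h1 h0
      · exact h1
    · unfold Config.read
      rw [h.cell2, h.head]
      simp [h0]

theorem MRaw_proc {a t z : ℕ} {I : Instr} (hI : code[a]? = some I) (ht : (t + 1) % d < d)
    (r : Fin 3 → Bool) (m : Bool) (hz : z < 4) :
    ∃ q : Fin ((prog d code).n + 1), (q : ℕ) = st d a ((t + 1) % d) (I.mu t z (r 0) (r 1)).1 ∧
      proc d code a t z r m = some (q, ![r 0, (I.mu t z (r 0) (r 1)).2, m], true) := by
  have ha : a < code.length := (List.getElem?_eq_some_iff.1 hI).1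
  have hb := MRaw_st_le (code := code) (z := (I.mu t z (r 0) (r 1)).1) ha ht
    (I.lt4 t z (r 0) (r 1) hz)
  refine ⟨⟨min (st d a ((t + 1) % d) (I.mu t z (r 0) (r 1)).1) (code.length * d * 4),
        Nat.lt_succ_of_le (min_le_right _ _)⟩, ?_, ?_⟩
  · show min _ _ = _
    exact min_eq_left hb
  · unfold proc
    rw [hI]
    rfl

theorem MRaw_first (hd : 1 ≤ d) {β : Ordinal.{0}} {a : ℕ} {W : ℕ → Bool} {I : Instr}
    (h : At d code x β a W) (hI : code[a]? = some I) :
    MRawC d code x a I W 1 (run (prog d code) x (ω * β + (1 : ℕ))) := by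
  have htr := MRaw_at_trans h
  set c := run (prog d code) x (ω * β) with hc
  obtain ⟨q, hq, hp⟩ := MRaw_proc (d := d) (t := 0) (z := 0) hI (Nat.mod_lt _ (by omega))
    c.read true (by norm_num)
  rw [hp] at htr
  have hr0 : c.read 0 = x 0 := by
    unfold Config.read
    rw [h.cell0, h.head]
  have hr1 : c.read 1 = W 0 := by
    unfold Config.read
    rw [h.cell1, h.head]
  have hstep := MRaw_step_of htr
  rw [h.head, if_pos rfl] at hstep
  have hrun : run (prog d code) x (ω * β + (1 : ℕ)) = c.step := by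
    rw [Nat.cast_one, run_succ]
  rw [hrun, hstep]
  have hz : I.zs d x W 1 = (I.mu 0 0 (x 0) (W 0)).1 := by
    show (I.mu (0 % d) 0 (x 0) (W 0)).1 = _
    rw [Nat.zero_mod]
  have ho : I.out d x W 0 = (I.mu 0 0 (x 0) (W 0)).2 := by
    show (I.mu (0 % d) 0 (x 0) (W 0)).2 = _
    rw [Nat.zero_mod]
  constructor
  · show (q : ℕ) = _
    rw [hq, hr0, hr1, hz, Nat.zero_add]
  · rfl
  · intro k
    show Function.update (c.cell 0) 0 (c.read 0) k = x k
    by_cases hk : k = 0
    · subst hk
      rw [Function.update_self, hr0]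
    · rw [Function.update_of_ne hk, h.cell0]
  · intro k
    show Function.update (c.cell 1) 0 ((I.mu 0 0 (c.read 0) (c.read 1)).2) k = _
    by_cases hk : k = 0
    · subst hk
      rw [Function.update_self, if_pos (by norm_num), hr0, hr1, ho]
    · rw [Function.update_of_ne hk, h.cell1, if_neg (by omega)]
  · intro k
    show Function.update (c.cell 2) 0 true k = _
    by_cases hk : k = 0
    · subst hk
      rw [Function.update_self]
      simp
    · rw [Function.update_of_ne hk, h.cell2]
      simp [hk]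

theorem MRaw_next (hd : 1 ≤ d) {a : ℕ} {W : ℕ → Bool} {I : Instr} (hI : code[a]? = some I)
    {n : ℕ} (hn : 1 ≤ n) {c : Config (prog d code)} (h : MRawC d code x a I W n c) :
    MRawC d code x a I W (n + 1) c.step := by
  have hz4 := MRaw_zs_lt (d := d) (x := x) I W n
  have hnd : n % d < d := Nat.mod_lt _ (by omega)
  have hs0 : (c.state : ℕ) ≠ 0 := by
    rw [h.state]
    have := MRaw_st_pos (d := d) (a := a) (t := n % d) (z := I.zs d x W n)
    omega
  have hr0 : c.read 0 = x n := by
    unfold Config.read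
    rw [h.cell0, h.head]
  have hr1 : c.read 1 = W n := by
    unfold Config.read
    rw [h.cell1, h.head, if_neg (lt_irrefl n)]
  have hr2 : c.read 2 = false := by
    unfold Config.read
    rw [h.cell2, h.head]
    simp
    omega
  have htr := MRaw_trans_go c.state c.read hs0 hr2
  rw [h.state, MRaw_sA hnd hz4, MRaw_sT hnd hz4, MRaw_sZ hz4] at htr
  obtain ⟨q, hq, hp⟩ := MRaw_proc (d := d) (t := n % d) (z := I.zs d x W n) hI
    (Nat.mod_lt _ (by omega)) c.read (c.read 2) hz4
  rw [hp] at htr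
  have hstep := MRaw_step_of htr
  rw [h.head, if_pos rfl] at hstep
  rw [hstep]
  constructor
  · show (q : ℕ) = _
    rw [hq, hr0, hr1, Nat.mod_add_mod]
    rfl
  · rfl
  · intro k
    show Function.update (c.cell 0) n (c.read 0) k = x k
    by_cases hk : k = n
    · subst hk
      rw [Function.update_self, hr0]
    · rw [Function.update_of_ne hk, h.cell0]
  · intro k
    show Function.update (c.cell 1) n ((I.mu (n % d) (I.zs d x W n) (c.read 0) (c.read 1)).2) k = _
    by_cases hk : k = n
    · subst hk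
      rw [Function.update_self, if_pos (Nat.lt_succ_self k), hr0, hr1]
      rfl
    · rw [Function.update_of_ne hk, h.cell1]
      by_cases hk2 : k < n
      · rw [if_pos hk2, if_pos (by omega)]
      · rw [if_neg hk2, if_neg (by omega)]
  · intro k
    show Function.update (c.cell 2) n (c.read 2) k = _
    by_cases hk : k = n
    · subst hk
      rw [Function.update_self, hr2]
      simp
      omega
    · rw [Function.update_of_ne hk, h.cell2]

/-- The raw configurations. -/
theorem MRaw_raw (hd : 1 ≤ d) {β : Ordinal.{0}} {a : ℕ} {W : ℕ → Bool} {I : Instr}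
    (h : At d code x β a W) (hI : code[a]? = some I) :
    ∀ n : ℕ, 1 ≤ n → MRawC d code x a I W n (run (prog d code) x (ω * β + n)) := by
  intro n hn
  induction n, hn using Nat.le_induction with
  | base => exact MRaw_first hd h hI
  | succ n hn ih =>
    have h1 := MRaw_next hd hI hn ih
    rw [← run_succ, add_assoc] at h1
    rw [Nat.cast_succ]
    exact h1

/-! ### Lower limits in a block -/

/-- A coordinate at stage `ω * (β + 1)`. -/
theorem MRaw_co {p : Program} (β : Ordinal.{0}) (k : Option (Option (Fin 3 × ℕ))) (v : ℕ)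
    (h1 : ∃ k₀ : ℕ, ∀ n : ℕ, k₀ ≤ n → v ≤ (run p x (ω * β + n)).co k)
    (h2 : ∀ n₀ : ℕ, ∃ n : ℕ, n₀ ≤ n ∧ (run p x (ω * β + n)).co k ≤ v) :
    (run p x (ω * (β + 1))).co k = v := by
  rw [co_run_limit p x (MRaw_lim β)]
  apply limInf_eq
  · obtain ⟨k₀, hk⟩ := h1
    refine ⟨ω * β + k₀, MRaw_lt_of_nat β k₀, fun γ hγ hle => ?_⟩
    obtain ⟨n, rfl⟩ := MRaw_block (le_self_add.trans hle) hγ
    have : k₀ ≤ n := by
      have := (add_le_add_iff_left (ω * β)).1 hle
      exact_mod_cast this
    exact hk n this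
  · intro γ hγ
    rcases le_or_gt (ω * β) γ with hle | hlt
    · obtain ⟨m, rfl⟩ := MRaw_block hle hγ
      obtain ⟨n, hn, hv⟩ := h2 m
      refine ⟨ω * β + n, MRaw_lt_of_nat β n, ?_, hv⟩
      exact (add_le_add_iff_left _).2 (by exact_mod_cast hn)
    · obtain ⟨n, _, hv⟩ := h2 0
      exact ⟨ω * β + n, MRaw_lt_of_nat β n, hlt.le.trans le_self_add, hv⟩

/-- A cell which is eventually constant. -/
theorem MRaw_cell {p : Program} (β : Ordinal.{0}) (i : Fin 3) (q : ℕ) (b : Bool)
    (h : ∃ k₀ : ℕ, ∀ n : ℕ, k₀ ≤ n → (run p x (ω * β + n)).cell i q = b) :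
    (run p x (ω * (β + 1))).cell i q = b := by
  obtain ⟨k₀, hk⟩ := h
  have h1 := MRaw_co (p := p) (x := x) β (some (some (i, q))) b.toNat
    ⟨k₀, fun n hn => by
      show _ ≤ ((run p x (ω * β + n)).cell i q).toNat
      rw [hk n hn]⟩
    (fun n₀ => ⟨max n₀ k₀, le_max_left _ _, by
      show ((run p x (ω * β + (max n₀ k₀ : ℕ))).cell i q).toNat ≤ _
      rw [hk _ (le_max_right _ _)]⟩)
  have h2 : ((run p x (ω * (β + 1))).cell i q).toNat = b.toNat := h1
  revert h2
  cases (run p x (ω * (β + 1))).cell i q <;> cases b <;> simp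

/-- The tapes after a sweep. -/
theorem MRaw_after (hd : 1 ≤ d) {β : Ordinal.{0}} {a : ℕ} {W : ℕ → Bool} {I : Instr}
    (h : At d code x β a W) (hI : code[a]? = some I) :
    (∀ q, (run (prog d code) x (ω * (β + 1))).cell 0 q = x q) ∧
    (∀ q, (run (prog d code) x (ω * (β + 1))).cell 1 q = I.out d x W q) ∧
    (∀ q, (run (prog d code) x (ω * (β + 1))).cell 2 q = decide (q = 0)) ∧
    (run (prog d code) x (ω * (β + 1))).head = 0 := by
  have hraw := MRaw_raw hd h hI
  refine ⟨fun q => ?_, fun q => ?_, fun q => ?_, ?_⟩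
  · exact MRaw_cell β 0 q _ ⟨1, fun n hn => (hraw n hn).cell0 q⟩
  · refine MRaw_cell β 1 q _ ⟨q + 1, fun n hn => ?_⟩
    rw [(hraw n (by omega)).cell1 q, if_pos (by omega)]
  · exact MRaw_cell β 2 q _ ⟨1, fun n hn => (hraw n hn).cell2 q⟩
  · show (run (prog d code) x (ω * (β + 1))).co (some none) = 0
    rw [co_run_limit _ x (MRaw_lim β)]
    unfold limInf
    have : {s : ℕ | ∃ β' < ω * (β + 1), ∀ γ, ∀ _ : γ < ω * (β + 1), β' ≤ γ →
        s ≤ (run (prog d code) x γ).co (some none)} = Set.univ := by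
      rw [Set.eq_univ_iff_forall]
      intro s
      refine ⟨ω * β + ((s + 1 : ℕ) : Ordinal.{0}), MRaw_lt_of_nat β (s + 1), fun γ hγ hle => ?_⟩
      obtain ⟨n, rfl⟩ := MRaw_block (le_self_add.trans hle) hγ
      have h1 : s + 1 ≤ n := by
        have := (add_le_add_iff_left (ω * β)).1 hle
        exact_mod_cast this
      show s ≤ (run (prog d code) x (ω * β + n)).head
      rw [(hraw n (by omega)).head]
      omega
    rw [this]
    exact csSup_of_not_bddAbove not_bddAbove_univ |>.trans (by simp)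

/-! ### The results -/

theorem at_zero (hd : 1 ≤ d) : At d code x 0 0 (fun _ => false) := by
  have h0 : run (prog d code) x (ω * 0) = init (prog d code) x := by
    rw [mul_zero, run_zero]
  constructor
  · rw [h0]; rfl
  · rw [h0]; rfl
  · rw [h0]; exact Or.inl rfl
  · intro q; rw [h0]; rfl
  · intro q; rw [h0]; rfl
  · intro q
    rw [h0]
    show false = decide (¬ ((0 : ℕ) = 0) ∧ q = 0)
    simp

theorem at_succ (hd : 1 ≤ d) {β : Ordinal.{0}} {a : ℕ} {W W' : ℕ → Bool} {I : Instr} {z : ℕ}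
    (h : At d code x β a W) (hI : code[a]? = some I) (hz : z < 4) (hs : I.Sw d x W W' z) :
    At d code x (β + 1) (I.nxt z) W' := by
  have hraw := MRaw_raw hd h hI
  obtain ⟨c0, c1, c2, hhead⟩ := MRaw_after hd h hI
  obtain ⟨hout, k₀, hk⟩ := hs
  have hstate : ((run (prog d code) x (ω * (β + 1))).state : ℕ) = st d a 0 z := by
    refine MRaw_co (p := prog d code) (x := x) β none (st d a 0 z) ?_ ?_
    · refine ⟨d * k₀ + 1, fun n hn => ?_⟩
      show _ ≤ ((run (prog d code) x (ω * β + n)).state : ℕ)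
      rw [(hraw n (by omega)).state]
      by_cases hnd : n % d = 0
      · have h1 : n = d * (n / d) := by
          have := Nat.div_add_mod n d
          omega
        have h2 : k₀ ≤ n / d := by
          by_contra hcon
          push Not at hcon
          have : d * (n / d) ≤ d * k₀ := Nat.mul_le_mul_left d hcon.le
          omega
        have h3 := hk (n / d) h2
        rw [← h1] at h3
        rw [hnd, h3]
      · unfold st
        omega
    · intro n₀
      refine ⟨d * (max n₀ k₀ + 1), ?_, ?_⟩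
      · have h1 : n₀ ≤ max n₀ k₀ := le_max_left _ _
        have h2 : 1 * (max n₀ k₀ + 1) ≤ d * (max n₀ k₀ + 1) := Nat.mul_le_mul_right _ hd
        omega
      · show ((run (prog d code) x (ω * β + (d * (max n₀ k₀ + 1) : ℕ))).state : ℕ) ≤ _
        have h2 : 1 * (max n₀ k₀ + 1) ≤ d * (max n₀ k₀ + 1) := Nat.mul_le_mul_right _ hd
        rw [(hraw (d * (max n₀ k₀ + 1)) (by omega)).state, Nat.mul_mod_right,
          hk _ ((le_max_right _ _).trans (Nat.le_succ _))]
  constructor
  · exact hhead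
  · rw [hstate]
    unfold disp
    have h1 := MRaw_st_pos (d := d) (a := a) (t := 0) (z := z)
    rw [if_neg (by omega), MRaw_sA (by omega) hz, MRaw_sZ hz, hI]
    rfl
  · right
    rw [hstate, MRaw_sT (by omega) hz]
  · exact c0
  · intro q
    rw [c1, hout]
  · intro q
    rw [c2, hstate]
    have h1 := MRaw_st_pos (d := d) (a := a) (t := 0) (z := z)
    have h2 : st d a 0 z ≠ 0 := by omega
    simp [h2]

/-- Addresses outside the program: the machine has halted. -/
theorem at_halted {β : Ordinal.{0}} {a : ℕ} {W : ℕ → Bool} (h : At d code x β a W)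
    (ha : code.length ≤ a) : (run (prog d code) x (ω * β)).Halted := by
  unfold Config.Halted
  rw [MRaw_at_trans h]
  unfold proc
  rw [List.getElem?_eq_none ha]
  rfl

/-- If the machine is always about to execute an instruction, then it never halts. -/
theorem not_halts (hd : 1 ≤ d) (h : ∀ β, ∃ a W, At d code x β a W ∧ a < code.length) :
    ¬ Halts (prog d code) x := by
  rintro ⟨α, hα⟩
  obtain ⟨a, W, hat, ha⟩ := h α
  have h1 : α ≤ ω * α := le_mul_of_one_le_left' (Order.one_le_iff_pos.2 Ordinal.omega0_pos)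
  have h2 := haltsBy_mono h1 hα
  unfold HaltsBy Config.Halted at h2
  rw [MRaw_at_trans hat] at h2
  obtain ⟨q, _, hp⟩ := MRaw_proc (d := d) (t := 0) (z := 0) (List.getElem?_eq_getElem ha)
    (Nat.mod_lt _ (by omega)) (run (prog d code) x (ω * α)).read true (by norm_num)
  rw [hp] at h2
  exact absurd h2 (by simp)

/-- The address and the work tape are determined. -/
theorem at_unique {β : Ordinal.{0}} {a a' : ℕ} {W W' : ℕ → Bool} (h : At d code x β a W)
    (h' : At d code x β a' W') : a = a' ∧ W = W' := by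
  refine ⟨?_, ?_⟩
  · rw [← h.disp, ← h'.disp]
  · funext q
    rw [← h.cell1, ← h'.cell1]

/-- Limit stages: the machine has just executed the instruction with the least address that was
executed cofinally, which has to be a `nopI`. -/
theorem at_limit (hd : 1 ≤ d) {Γ α₀ : Ordinal.{0}} (hΓ : Order.IsSuccLimit Γ) (hα : α₀ < Γ)
    {h a' : ℕ} (hh : code[h]? = some (nopI a')) (a : Ordinal.{0} → ℕ)
    (V : Ordinal.{0} → ℕ → Bool)
    (hAt : ∀ β, α₀ ≤ β → β < Γ → At d code x β (a β) (V β) ∧ h ≤ a β ∧ a β < code.length)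
    (hcof : ∀ β, β < Γ → ∃ β', β ≤ β' ∧ β' < Γ ∧ a β' = h)
    {W : ℕ → Bool} (hW : ∀ q, W q = true ↔ ∃ β, α₀ ≤ β ∧ β < Γ ∧
      ∀ β', β ≤ β' → β' < Γ → V β' q = true) :
    At d code x Γ a' W := by
  have hω0 : (0 : Ordinal.{0}) < ω := Ordinal.omega0_pos
  have hlim : Order.IsSuccLimit (ω * Γ) := isSuccLimit_mul_right hω0 hΓ
  -- multiples of `ω`
  have hmul : ∀ {β γ : Ordinal.{0}}, β < γ → ω * β < ω * γ := fun h =>
    (mul_lt_mul_iff_right₀ hω0).2 h
  have hmulle : ∀ {β γ : Ordinal.{0}}, β ≤ γ → ω * β ≤ ω * γ := fun h =>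
    mul_le_mul_right h _
  have hlt : ∀ {β : Ordinal.{0}} (n : ℕ), β < Γ → ω * β + n < ω * Γ := fun n hβ =>
    (MRaw_lt_of_nat _ n).trans (hmul (hΓ.add_one_lt hβ))
  -- instructions
  have hI : ∀ β, α₀ ≤ β → β < Γ → ∃ I, code[a β]? = some I := fun β h1 h2 =>
    ⟨_, List.getElem?_eq_getElem (hAt β h1 h2).2.2⟩
  -- cofinal stages
  have hcof2 : ∀ γ < ω * Γ, ∃ β, α₀ ≤ β ∧ β < Γ ∧ γ ≤ ω * β := by
    intro γ hγ
    obtain ⟨β, n, hβ, rfl, _⟩ := MRaw_stage hγ
    refine ⟨max α₀ (β + 1), le_max_left _ _, max_lt hα (hΓ.add_one_lt hβ), ?_⟩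
    exact (MRaw_lt_of_nat β n).le.trans (hmulle (le_max_right _ _))
  -- the states are large
  have hbig : ∀ γ, ω * α₀ < γ → γ < ω * Γ →
      st d h 0 0 ≤ ((run (prog d code) x γ).state : ℕ) := by
    intro γ
    induction γ using WellFoundedLT.induction with
    | _ γ ih =>
      intro h1 h2
      obtain ⟨β, n, hβ, rfl, hαβ⟩ := MRaw_stage h2
      have hα' : α₀ ≤ β := hαβ _ h1.le
      rcases Nat.eq_zero_or_pos n with hn | hn
      · subst hn
        rw [Nat.cast_zero, add_zero] at ih h1 h2 ⊢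
        have hlim' : Order.IsSuccLimit (ω * β) := by
          apply isSuccLimit_mul_left Ordinal.isSuccLimit_omega0
          rcases eq_or_ne β 0 with h0 | h0
          · rw [h0, mul_zero] at h1
            exact absurd h1 not_lt_bot
          · exact pos_iff_ne_zero.2 h0
        have h3 : ((run (prog d code) x (ω * β)).state : ℕ) =
            limInf (ω * β) fun γ _ => ((run (prog d code) x γ).state : ℕ) :=
          co_run_limit (prog d code) x hlim' none
        rw [h3]
        unfold limInf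
        apply le_csSup
        · refine ⟨(prog d code).n, ?_⟩
          rintro s ⟨γ, hγ, hs⟩
          exact (hs γ hγ le_rfl).trans (Nat.le_of_lt_succ (run (prog d code) x γ).state.2)
        · refine ⟨ω * α₀ + 1, ?_, fun γ hγ hle => ?_⟩
          · exact hlim'.add_one_lt h1
          · exact ih γ hγ ((lt_add_one _).trans_le hle) (hγ.trans h2)
      · obtain ⟨hat, ha1, ha2⟩ := hAt β hα' hβ
        obtain ⟨I, hI⟩ := hI β hα' hβ
        rw [(MRaw_raw hd hat hI n hn).state]
        exact MRaw_st_mono ha1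
  -- the state
  have hstate : ((run (prog d code) x (ω * Γ)).state : ℕ) = st d h 0 0 := by
    have h3 : ((run (prog d code) x (ω * Γ)).state : ℕ) =
        limInf (ω * Γ) fun γ _ => ((run (prog d code) x γ).state : ℕ) :=
      co_run_limit (prog d code) x hlim none
    rw [h3]
    apply limInf_eq
    · exact ⟨ω * α₀ + 1, hlim.add_one_lt (hmul hα), fun γ hγ hle =>
        hbig γ ((lt_add_one _).trans_le hle) hγ⟩
    · intro γ hγ
      obtain ⟨β, hβ1, hβ2, hβ3⟩ := hcof2 γ hγ
      obtain ⟨β', hβ'1, hβ'2, hβ'3⟩ := hcof β hβ2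
      obtain ⟨hat, _, _⟩ := hAt β' (hβ1.trans hβ'1) hβ'2
      rw [hβ'3] at hat
      refine ⟨ω * β' + (d : ℕ), hlt d hβ'2, ?_, ?_⟩
      · exact (hβ3.trans (hmulle hβ'1)).trans le_self_add
      · rw [(MRaw_raw hd hat hh d hd).state, Nat.mod_self]
        have : (nopI a').zs d x (V β') d = 0 := by
          obtain ⟨e, rfl⟩ : ∃ e, d = e + 1 := ⟨d - 1, by omega⟩
          rfl
        rw [this]
  -- the cells
  have hcell : ∀ (i : Fin 3) (q : ℕ) (b : Bool),
      (b = true → ∃ γ < ω * Γ, ∀ γ', γ ≤ γ' → γ' < ω * Γ →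
        (run (prog d code) x γ').cell i q = true) →
      (b = false → ∀ γ < ω * Γ, ∃ γ', γ ≤ γ' ∧ γ' < ω * Γ ∧
        (run (prog d code) x γ').cell i q = false) →
      (run (prog d code) x (ω * Γ)).cell i q = b := by
    intro i q b h1 h2
    have h3 : ((run (prog d code) x (ω * Γ)).cell i q).toNat =
        limInf (ω * Γ) fun γ _ => ((run (prog d code) x γ).cell i q).toNat :=
      co_run_limit (prog d code) x hlim (some (some (i, q)))
    have h4 : ((run (prog d code) x (ω * Γ)).cell i q).toNat = b.toNat := by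
      rw [h3]
      cases b with
      | true =>
        obtain ⟨γ, hγ, hγ2⟩ := h1 rfl
        apply limInf_eq
        · refine ⟨γ, hγ, fun γ' hγ' hle => ?_⟩
          rw [hγ2 γ' hle hγ']
        · intro γ' hγ'
          refine ⟨max γ γ', max_lt hγ hγ', le_max_right _ _, ?_⟩
          exact Bool.toNat_le _
      | false =>
        have h5 := h2 rfl
        apply limInf_eq
        · exact ⟨0, hlim.bot_lt, fun γ _ _ => Nat.zero_le _⟩
        · intro γ hγ
          obtain ⟨γ', ha, hb, hc⟩ := h5 γ hγ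
          refine ⟨γ', hb, ha, ?_⟩
          rw [hc]
    revert h4
    cases (run (prog d code) x (ω * Γ)).cell i q <;> cases b <;> simp
  -- the cells of tape 1 at a raw stage
  have hV : ∀ β, α₀ ≤ β → β < Γ → ∀ (n : ℕ) (q : ℕ),
      (run (prog d code) x (ω * β + n)).cell 1 q = V β q ∨
        (run (prog d code) x (ω * β + n)).cell 1 q = V (β + 1) q := by
    intro β h1 h2 n q
    obtain ⟨hat, _, _⟩ := hAt β h1 h2
    obtain ⟨I, hI⟩ := hI β h1 h2
    rcases Nat.eq_zero_or_pos n with hn | hn
    · subst hn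
      rw [Nat.cast_zero, add_zero]
      exact Or.inl (hat.cell1 q)
    · rw [(MRaw_raw hd hat hI n hn).cell1 q]
      split_ifs with hq
      · right
        obtain ⟨hat', _, _⟩ := hAt (β + 1) (h1.trans (le_self_add)) (hΓ.add_one_lt h2)
        rw [← hat'.cell1 q, (MRaw_after hd hat hI).2.1 q]
      · exact Or.inl rfl
  constructor
  · -- head
    show (run (prog d code) x (ω * Γ)).co (some none) = 0
    rw [co_run_limit _ x hlim]
    apply limInf_eq
    · exact ⟨0, hlim.bot_lt, fun γ _ _ => Nat.zero_le _⟩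
    · intro γ hγ
      obtain ⟨β, hβ1, hβ2, hβ3⟩ := hcof2 γ hγ
      refine ⟨ω * β, hmul hβ2, hβ3, ?_⟩
      show (run (prog d code) x (ω * β)).head ≤ 0
      rw [(hAt β hβ1 hβ2).1.head]
  · rw [hstate]
    unfold disp
    have h1 := MRaw_st_pos (d := d) (a := h) (t := 0) (z := 0)
    rw [if_neg (by omega), MRaw_sA (by omega) (by omega), MRaw_sZ (by omega), hh]
    rfl
  · right
    rw [hstate, MRaw_sT (by omega) (by omega)]
  · intro q
    have hx : ∀ γ, ω * α₀ ≤ γ → γ < ω * Γ → (run (prog d code) x γ).cell 0 q = x q := by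
      intro γ h1 h2
      obtain ⟨β, n, hβ, rfl, hαβ⟩ := MRaw_stage h2
      obtain ⟨hat, _, _⟩ := hAt β (hαβ _ h1) hβ
      obtain ⟨I, hI⟩ := hI β (hαβ _ h1) hβ
      rcases Nat.eq_zero_or_pos n with hn | hn
      · subst hn
        rw [Nat.cast_zero, add_zero]
        exact hat.cell0 q
      · exact (MRaw_raw hd hat hI n hn).cell0 q
    apply hcell
    · intro hb
      exact ⟨ω * α₀, hmul hα, fun γ h1 h2 => by rw [hx γ h1 h2, hb]⟩
    · intro hb γ hγ
      refine ⟨max γ (ω * α₀), le_max_left _ _, max_lt hγ (hmul hα), ?_⟩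
      rw [hx _ (le_max_right _ _) (max_lt hγ (hmul hα)), hb]
  · intro q
    apply hcell
    · intro hb
      obtain ⟨β, hβ1, hβ2, hβ3⟩ := (hW q).1 hb
      refine ⟨ω * β, hmul hβ2, fun γ h1 h2 => ?_⟩
      obtain ⟨δ, n, hδ, rfl, hαδ⟩ := MRaw_stage h2
      have hβδ := hαδ _ h1
      rcases hV δ (hβ1.trans hβδ) hδ n q with h3 | h3
      · rw [h3]
        exact hβ3 δ hβδ hδ
      · rw [h3]
        exact hβ3 (δ + 1) (hβδ.trans le_self_add) (hΓ.add_one_lt hδ)
    · intro hb γ hγ
      obtain ⟨β, hβ1, hβ2, hβ3⟩ := hcof2 γ hγ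
      have hnot : ¬ (W q = true) := by
        rw [hb]
        simp
      rw [hW] at hnot
      push Not at hnot
      obtain ⟨β', h1, h2, h3⟩ := hnot β hβ1 hβ2
      refine ⟨ω * β', hβ3.trans (hmulle h1), hmul h2, ?_⟩
      rw [(hAt β' (hβ1.trans h1) h2).1.cell1 q]
      simpa using h3
  · intro q
    rw [hstate]
    have h1 := MRaw_st_pos (d := d) (a := h) (t := 0) (z := 0)
    have h2 : st d h 0 0 ≠ 0 := by omega
    have hx : ∀ γ, ω * α₀ < γ → γ < ω * Γ →
        (run (prog d code) x γ).cell 2 q = decide (q = 0) := by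
      intro γ h3 h4
      have hb := hbig γ h3 h4
      obtain ⟨β, n, hβ, rfl, hαβ⟩ := MRaw_stage h4
      obtain ⟨hat, _, _⟩ := hAt β (hαβ _ h3.le) hβ
      obtain ⟨I, hI⟩ := hI β (hαβ _ h3.le) hβ
      rcases Nat.eq_zero_or_pos n with hn | hn
      · subst hn
        rw [Nat.cast_zero, add_zero] at hb ⊢
        rw [hat.cell2 q]
        have h5 : ((run (prog d code) x (ω * β)).state : ℕ) ≠ 0 := by omega
        simp [h5]
      · exact (MRaw_raw hd hat hI n hn).cell2 q
    have h6 : decide (st d h 0 0 ≠ 0 ∧ q = 0) = decide (q = 0) := by simp [h2]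
    rw [h6]
    apply hcell
    · intro hb
      exact ⟨ω * α₀ + 1, hlim.add_one_lt (hmul hα), fun γ h3 h4 => by
        rw [hx γ ((lt_add_one _).trans_le h3) h4, hb]⟩
    · intro hb γ hγ
      refine ⟨max γ (ω * α₀ + 1), le_max_left _ _, max_lt hγ (hlim.add_one_lt (hmul hα)), ?_⟩
      rw [hx _ ((lt_add_one _).trans_le (le_max_right _ _))
        (max_lt hγ (hlim.add_one_lt (hmul hα))), hb]

end Pool.Agent.H76.TH
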