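import Pool.Agent.H76.TH.Defs
import Pool.Agent.H75.EK.Mansfield

/-!
The theorem of Mansfield and Solovay for thin sets, in the form used here.
-/

set_option autoImplicit false

open Encodable Pool.Agent.H75.EK Pool.Agent.H76.ITTM

namespace Pool.Agent.H76.TH

theorem constr_of_thin {K : List ℕ → ℕ → ℕ → Prop} (hK : KDef K) {A : Set (ℕ → Bool)}
    (hA : ∀ x, x ∈ A ↔ ∃ w, Bk K (join (toN x) w)) (hthin : Thin A) {x : ℕ → Bool} (hx : x ∈ A) :
    Constr x := by
  have hE : MFun (fun n : ℕ => (Nat.unpair n).1) := by fun_prop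
  refine thin_inL hK hE (A := A) (fun y => ?_) hthin hx
  rw [hA y]
  constructor
  · rintro ⟨w, hw⟩
    exact ⟨_, hw, fun i => by simp [join, toN]⟩
  · rintro ⟨a, ha, h⟩
    refine ⟨fun i => (Nat.unpair (a i)).2, ?_⟩
    have h1 : join (toN y) (fun i => (Nat.unpair (a i)).2) = a := by
      funext i
      unfold join toN
      rw [← h i, Nat.pair_unpair]
    rw [h1]
    exact ha

end Pool.Agent.H76.TH
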