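import Pool.Agent.H76.TH.MRaw
import Pool.Agent.H76.TH.MIns

/-!
Project THIN, module MSeg: calculus of program segments, finite loops and transfinite loops.
For `Seg.loop`: by transfinite recursion define stages `b ξ`: `b 0 = β`; `b (ξ + 1)` is one more than a stage
given by the body hypothesis at `b ξ` (the header at `h` is then executed once); at limits the
supremum. Show by induction on `ξ ≤ lam` that `At (b ξ) (h + 1) (mem d (T ξ))` and that for all
stages `γ` in `[β, b ξ)` some `At γ a (mem d V)` holds with `h ≤ a < hi` and `T 0 t ≤ V t ≤ T ξ t` on the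
tracks in `M`; at a limit `ζ` use `at_limit` with `Γ = b ζ`: on a track in `M` (`t < d`) the content is
monotone along the loop, so the lower limit is the union of the `T ξ t`, `ξ < ζ`; on the other
tracks the boundary values are zero, so the lower limit is zero.
-/

set_option autoImplicit false

open Encodable Pool.Agent.H75.EK Pool.Agent.H76.ITTM Ordinal Function

namespace Pool.Agent.H76.TH

variable {d : ℕ} {code : List Instr} {x : ℕ → Bool} {lo hi : ℕ} {J : (ℕ → ℕ → Bool) → Prop}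

theorem mseg_zle (a : Ordinal.{0}) : 0 ≤ a := zero_le

theorem mseg_ls (a : Ordinal.{0}) : a < a + 1 := Order.lt_add_one_iff.2 le_rfl

theorem Seg.refl {b : ℕ} {T : ℕ → ℕ → Bool} : Seg d code x lo hi J b T b T := by
  intro β h
  exact ⟨β, le_rfl, h, fun γ h1 h2 => absurd h2 (not_lt.2 h1)⟩

theorem Seg.trans {b c e : ℕ} {T T' T'' : ℕ → ℕ → Bool} (h1 : Seg d code x lo hi J b T c T')
    (h2 : Seg d code x lo hi J c T' e T'') : Seg d code x lo hi J b T e T'' := by
  intro β h
  obtain ⟨β', h3, h4, h5⟩ := h1 β h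
  obtain ⟨β'', h6, h7, h8⟩ := h2 β' h4
  refine ⟨β'', h3.trans h6, h7, fun γ g1 g2 => ?_⟩
  rcases lt_or_ge γ β' with g | g
  · exact h5 γ g1 g
  · exact h8 γ g g2

theorem Seg.mono {lo' hi' : ℕ} {J' : (ℕ → ℕ → Bool) → Prop} {b e : ℕ} {T T' : ℕ → ℕ → Bool}
    (h : Seg d code x lo hi J b T e T') (hlo : lo' ≤ lo) (hhi : hi ≤ hi')
    (hJ : ∀ V, J V → J' V) : Seg d code x lo' hi' J' b T e T' := by
  intro β h0
  obtain ⟨β', h3, h4, h5⟩ := h β h0
  refine ⟨β', h3, h4, fun γ g1 g2 => ?_⟩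
  obtain ⟨a, V, g3, g4, g5, g6⟩ := h5 γ g1 g2
  exact ⟨a, V, g3, hlo.trans g4, lt_of_lt_of_le g5 hhi, hJ V g6⟩

/-- One instruction. -/
theorem Seg.one (hd : 1 ≤ d) {b z : ℕ} {T T' : ℕ → ℕ → Bool} {I : Instr}
    (hI : code[b]? = some I) (hs : I.Sw d x (mem d T) (mem d T') z) (hz : z < 4) (hlo : lo ≤ b)
    (hhi : b < hi) (hJ : J T) : Seg d code x lo hi J b T (I.nxt z) T' := by
  intro β h
  refine ⟨β + 1, (mseg_ls β).le, at_succ hd h hI hz hs, fun γ g1 g2 => ?_⟩
  have g3 : γ ≤ β := Order.lt_add_one_iff.1 g2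
  have g4 : γ = β := le_antisymm g3 g1
  subst g4
  exact ⟨b, T, h, hlo, hhi, hJ⟩

/-- A finite loop. -/
theorem Seg.iter {b : ℕ} (T : ℕ → ℕ → ℕ → Bool) (n : ℕ)
    (h : ∀ i, i < n → Seg d code x lo hi J b (T i) b (T (i + 1))) :
    Seg d code x lo hi J b (T 0) b (T n) := by
  induction n with
  | zero => exact Seg.refl
  | succ n ih => exact (ih fun i hi => h i (by omega)).trans (h n (by omega))

/-! ### The stages of a loop -/

/-- The stages at which the body of the loop is entered. -/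
noncomputable def msegB (nx : Ordinal.{0} → Ordinal.{0} → Ordinal.{0}) (β ξ : Ordinal.{0}) :
    Ordinal.{0} :=
  Ordinal.limitRecOn ξ β (fun ξ y => nx ξ y) (fun ζ _ f => ⨆ η : Set.Iio ζ, f η.1 η.2)

theorem msegB_zero (nx : Ordinal.{0} → Ordinal.{0} → Ordinal.{0}) (β : Ordinal.{0}) :
    msegB nx β 0 = β := by
  unfold msegB
  rw [Ordinal.limitRecOn_zero]

theorem msegB_succ (nx : Ordinal.{0} → Ordinal.{0} → Ordinal.{0}) (β ξ : Ordinal.{0}) :
    msegB nx β (ξ + 1) = nx ξ (msegB nx β ξ) := by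
  unfold msegB
  rw [Ordinal.limitRecOn_add_one]

theorem msegB_limit (nx : Ordinal.{0} → Ordinal.{0} → Ordinal.{0}) (β : Ordinal.{0})
    {ζ : Ordinal.{0}} (h : Order.IsSuccLimit ζ) :
    msegB nx β ζ = ⨆ η : Set.Iio ζ, msegB nx β η.1 := by
  unfold msegB
  rw [Ordinal.limitRecOn_limit _ _ _ _ h]

theorem mseg_mem_inj (hd : 1 ≤ d) {V V' : ℕ → ℕ → Bool} (h : mem d V = mem d V') {t : ℕ}
    (ht : t < d) (p : ℕ) : V t p = V' t p := by
  have h1 := congrFun h (d * p + t)
  have h2 : (d * p + t) % d = t := by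
    rw [Nat.mul_add_mod]
    exact Nat.mod_eq_of_lt ht
  have h3 : (d * p + t) / d = p := by
    rw [Nat.mul_add_div hd, Nat.div_eq_of_lt ht, Nat.add_zero]
  have h4 : V ((d * p + t) % d) ((d * p + t) / d) = V' ((d * p + t) % d) ((d * p + t) / d) := h1
  rw [h2, h3] at h4
  exact h4

theorem mseg_core (hd : 1 ≤ d) {h hi : ℕ} (hh : code[h]? = some (nopI (h + 1))) (hhi : h < hi)
    (hlen : hi ≤ code.length) (M : ℕ → Prop) (T : Ordinal.{0} → ℕ → ℕ → Bool)
    (lam : Ordinal.{0})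
    (hbody : ∀ ξ, ξ < lam → Seg d code x h hi
      (fun V => ∀ t, M t → t < d → ∀ p, (T ξ t p = true → V t p = true) ∧
        (V t p = true → T (ξ + 1) t p = true)) (h + 1) (T ξ) h (T (ξ + 1)))
    (hlim : ∀ ζ, ζ ≤ lam → Order.IsSuccLimit ζ → ∀ t, M t → t < d →
      ∀ p, T ζ t p = true ↔ ∃ ξ, ξ < ζ ∧ T ξ t p = true)
    (hz : ∀ ξ, ξ ≤ lam → ∀ t, ¬ M t → t < d → ∀ p, T ξ t p = false)
    {β : Ordinal.{0}} (hβ : At d code x β (h + 1) (mem d (T 0))) :
    ∃ b : Ordinal.{0} → Ordinal.{0}, b 0 = β ∧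
      (∀ ξ, ξ ≤ lam → At d code x (b ξ) (h + 1) (mem d (T ξ))) ∧
      (∀ η ξ, η < ξ → ξ ≤ lam → b η < b ξ) ∧
      ∀ η ξ, η ≤ ξ → ξ ≤ lam → ∀ γ, b η ≤ γ → γ < b ξ → ∃ a V, At d code x γ a (mem d V) ∧
        h ≤ a ∧ a < hi ∧ ∀ t, M t → t < d → ∀ p, (T η t p = true → V t p = true) ∧
          (V t p = true → T ξ t p = true) := by
  classical
  -- the next stage
  have hex : ∀ ξ y, ξ < lam → At d code x y (h + 1) (mem d (T ξ)) →
      ∃ β', y ≤ β' ∧ At d code x β' h (mem d (T (ξ + 1))) ∧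
        ∀ γ, y ≤ γ → γ < β' → ∃ a V, At d code x γ a (mem d V) ∧ h ≤ a ∧ a < hi ∧
          ∀ t, M t → t < d → ∀ p, (T ξ t p = true → V t p = true) ∧
            (V t p = true → T (ξ + 1) t p = true) :=
    fun ξ y hξ hy => hbody ξ hξ y hy
  obtain ⟨nx, hnx⟩ : ∃ nx : Ordinal.{0} → Ordinal.{0} → Ordinal.{0}, ∀ ξ y, ξ < lam →
      At d code x y (h + 1) (mem d (T ξ)) →
      ∃ β', nx ξ y = β' + 1 ∧ y ≤ β' ∧ At d code x β' h (mem d (T (ξ + 1))) ∧
        ∀ γ, y ≤ γ → γ < β' → ∃ a V, At d code x γ a (mem d V) ∧ h ≤ a ∧ a < hi ∧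
          ∀ t, M t → t < d → ∀ p, (T ξ t p = true → V t p = true) ∧
            (V t p = true → T (ξ + 1) t p = true) := by
    refine ⟨fun ξ y => if hc : ξ < lam ∧ At d code x y (h + 1) (mem d (T ξ)) then
      (hex ξ y hc.1 hc.2).choose + 1 else 0, fun ξ y hξ hy => ?_⟩
    refine ⟨(hex ξ y hξ hy).choose, ?_, (hex ξ y hξ hy).choose_spec⟩
    exact dif_pos ⟨hξ, hy⟩
  obtain ⟨b, hb⟩ : ∃ b, b = msegB nx β := ⟨_, rfl⟩
  have hb0 : b 0 = β := by rw [hb, msegB_zero]
  have hbs : ∀ ξ, b (ξ + 1) = nx ξ (b ξ) := fun ξ => by rw [hb, msegB_succ]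
  have hbl : ∀ ζ, Order.IsSuccLimit ζ → b ζ = ⨆ η : Set.Iio ζ, b η.1 := fun ζ hζ => by
    rw [hb, msegB_limit _ _ hζ]
  have hne : h + 1 ≠ h := by omega
  have main : ∀ ξ, ξ ≤ lam → At d code x (b ξ) (h + 1) (mem d (T ξ)) ∧
      (∀ η, η < ξ → b η < b ξ) ∧
      (∀ η, η ≤ ξ → ∀ t, M t → t < d → ∀ p, T η t p = true → T ξ t p = true) ∧
      (∀ η, η ≤ ξ → ∀ γ, b η ≤ γ → γ < b ξ → ∃ a V, At d code x γ a (mem d V) ∧
        h ≤ a ∧ a < hi ∧ ∀ t, M t → t < d → ∀ p, (T η t p = true → V t p = true) ∧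
          (V t p = true → T ξ t p = true)) := by
    intro ξ
    induction ξ using Ordinal.limitRecOn with
    | zero =>
      intro _
      refine ⟨by rw [hb0]; exact hβ, fun η hη => absurd hη (not_lt.2 (mseg_zle η)), ?_, ?_⟩
      · intro η hη t _ _ p hp
        have : η = 0 := nonpos_iff_eq_zero.1 hη
        subst this
        exact hp
      · intro η hη γ h1 h2
        have : η = 0 := nonpos_iff_eq_zero.1 hη
        subst this
        exact absurd h2 (not_lt.2 h1)
    | add_one ξ ih =>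
      intro hξ'
      have hξ : ξ < lam := lt_of_lt_of_le (Order.lt_add_one_iff.2 le_rfl) hξ'
      obtain ⟨i1, i2, i3, i4⟩ := ih hξ.le
      obtain ⟨β', n1, n2, n3, n4⟩ := hnx ξ (b ξ) hξ i1
      have e : b (ξ + 1) = β' + 1 := by rw [hbs, n1]
      have hnp : (nopI (h + 1)).nxt 0 = h + 1 := rfl
      have hAt : At d code x (b (ξ + 1)) (h + 1) (mem d (T (ξ + 1))) := by
        rw [e]
        have := at_succ hd n3 hh (by omega : 0 < 4) (nop_sw (x := x) hd (h + 1) (mem d (T (ξ + 1))))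
        exact this
      have hlt : b ξ < β' := by
        refine lt_of_le_of_ne n2 ?_
        intro he
        rw [← he] at n3
        exact hne (at_unique i1 n3).1
      have hTT : ∀ t, M t → t < d → ∀ p, T ξ t p = true → T (ξ + 1) t p = true := by
        intro t ht1 ht2 p hp
        obtain ⟨a, V, v1, -, -, v4⟩ := n4 (b ξ) le_rfl hlt
        have := v4 t ht1 ht2 p
        exact this.2 (this.1 hp)
      have hlt1 : b ξ < b (ξ + 1) := by
        rw [e]
        exact hlt.trans (mseg_ls _)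
      refine ⟨hAt, ?_, ?_, ?_⟩
      · intro η hη
        rcases (Order.lt_add_one_iff.1 hη).lt_or_eq with h1 | h1
        · exact (i2 η h1).trans hlt1
        · rw [h1]
          exact hlt1
      · intro η hη t ht1 ht2 p hp
        rcases hη.lt_or_eq with h1 | h1
        · exact hTT t ht1 ht2 p (i3 η (Order.lt_add_one_iff.1 h1) t ht1 ht2 p hp)
        · rw [← h1]
          exact hp
      · intro η hη γ g1 g2
        rcases hη.lt_or_eq with h1 | h1
        · have hη' : η ≤ ξ := Order.lt_add_one_iff.1 h1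
          rcases lt_or_ge γ (b ξ) with g3 | g3
          · obtain ⟨a, V, v1, v2, v3, v4⟩ := i4 η hη' γ g1 g3
            refine ⟨a, V, v1, v2, v3, fun t ht1 ht2 p => ⟨(v4 t ht1 ht2 p).1, fun hp => ?_⟩⟩
            exact hTT t ht1 ht2 p ((v4 t ht1 ht2 p).2 hp)
          · rcases lt_or_ge γ β' with g4 | g4
            · obtain ⟨a, V, v1, v2, v3, v4⟩ := n4 γ g3 g4
              refine ⟨a, V, v1, v2, v3, fun t ht1 ht2 p => ⟨fun hp => ?_, (v4 t ht1 ht2 p).2⟩⟩
              exact (v4 t ht1 ht2 p).1 (i3 η hη' t ht1 ht2 p hp)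
            · rw [e] at g2
              have g5 : γ = β' := le_antisymm (Order.lt_add_one_iff.1 g2) g4
              subst g5
              refine ⟨h, T (ξ + 1), n3, le_rfl, hhi, fun t ht1 ht2 p => ⟨fun hp => ?_, id⟩⟩
              exact hTT t ht1 ht2 p (i3 η hη' t ht1 ht2 p hp)
        · rw [h1] at g1
          exact absurd g2 (not_lt.2 g1)
    | limit ζ hζ ih =>
      intro hζlam
      have hz0 : (0 : Ordinal.{0}) < ζ := hζ.bot_lt
      have hsucc : ∀ η, η < ζ → η + 1 < ζ := fun η hη => hζ.add_one_lt hη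
      have hile : ∀ η, η < ζ → η ≤ lam := fun η hη => hη.le.trans hζlam
      have hble : ∀ η, η < ζ → b η ≤ b ζ := by
        intro η hη
        rw [hbl ζ hζ]
        exact Ordinal.le_iSup (fun η : Set.Iio ζ => b η.1) ⟨η, hη⟩
      have hblt : ∀ η, η < ζ → b η < b ζ := by
        intro η hη
        refine lt_of_lt_of_le ?_ (hble _ (hsucc η hη))
        exact (ih _ (hsucc η hη) (hile _ (hsucc η hη))).2.1 η (Order.lt_add_one_iff.2 le_rfl)
      have hsup : ∀ γ, γ < b ζ → ∃ η, η < ζ ∧ γ < b η := by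
        intro γ hγ
        rw [hbl ζ hζ, Ordinal.lt_iSup_iff] at hγ
        obtain ⟨⟨η, hη⟩, h1⟩ := hγ
        exact ⟨η, hη, h1⟩
      have hbmono : ∀ η η', η ≤ η' → η' < ζ → b η ≤ b η' := by
        intro η η' h1 h2
        rcases h1.lt_or_eq with h3 | h3
        · exact ((ih η' h2 (hile _ h2)).2.1 η h3).le
        · rw [h3]
      have hβlt : β < b ζ := by
        have := hblt 0 hz0
        rwa [hb0] at this
      have hΓ : Order.IsSuccLimit (b ζ) := by
        rw [Ordinal.isSuccLimit_iff]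
        refine ⟨(lt_of_le_of_lt (mseg_zle β) hβlt).ne', ?_⟩
        refine Order.isSuccPrelimit_of_succ_lt ?_
        intro γ hγ
        obtain ⟨η, h1, h2⟩ := hsup γ hγ
        exact lt_of_le_of_lt (Order.succ_le_of_lt h2) (hblt η h1)
      -- monotonicity of `T` up to `ζ`
      have hTζ : ∀ η, η ≤ ζ → ∀ t, M t → t < d → ∀ p, T η t p = true → T ζ t p = true := by
        intro η hη t ht1 ht2 p hp
        rcases hη.lt_or_eq with h1 | h1
        · exact (hlim ζ hζlam hζ t ht1 ht2 p).2 ⟨η, h1, hp⟩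
        · rw [← h1]
          exact hp
      have hst : ∀ η, η < ζ → ∀ γ, b η ≤ γ → γ < b ζ → ∃ a V, At d code x γ a (mem d V) ∧
          h ≤ a ∧ a < hi ∧ ∀ t, M t → t < d → ∀ p, (T η t p = true → V t p = true) ∧
            (V t p = true → ∃ η', η' < ζ ∧ T η' t p = true) := by
        intro η hη γ g1 g2
        obtain ⟨η', h1, h2⟩ := hsup γ g2
        have h3 : max η η' < ζ := max_lt hη h1
        obtain ⟨-, -, -, i4⟩ := ih (max η η') h3 (hile _ h3)
        obtain ⟨a, V, v1, v2, v3, v4⟩ := i4 η (le_max_left _ _) γ g1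
          (lt_of_lt_of_le h2 (hbmono _ _ (le_max_right _ _) h3))
        exact ⟨a, V, v1, v2, v3, fun t ht1 ht2 p => ⟨(v4 t ht1 ht2 p).1,
          fun hp => ⟨_, h3, (v4 t ht1 ht2 p).2 hp⟩⟩⟩
      have hall : ∀ γ, β ≤ γ → γ < b ζ → ∃ a V, At d code x γ a (mem d V) ∧ h ≤ a ∧ a < hi := by
        intro γ g1 g2
        rw [← hb0] at g1
        obtain ⟨a, V, v1, v2, v3, -⟩ := hst 0 hz0 γ g1 g2
        exact ⟨a, V, v1, v2, v3⟩
      choose! a V v1 v2 v3 using hall
      -- the value of the tracks at the stages of the loop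
      have hval : ∀ η, η < ζ → ∀ t, t < d → ∀ p, V (b η) t p = T η t p := by
        intro η hη t ht p
        have h1 : β ≤ b η := by
          rw [← hb0]
          exact hbmono 0 η (mseg_zle η) hη
        have h2 := at_unique (v1 (b η) h1 (hblt η hη)) (ih η hη (hile η hη)).1
        exact mseg_mem_inj hd h2.2 ht p
      have hAtζ : At d code x (b ζ) (h + 1) (mem d (T ζ)) := by
        refine at_limit hd hΓ hβlt hh a (fun γ => mem d (V γ)) ?_ ?_ ?_
        · intro γ g1 g2
          exact ⟨v1 γ g1 g2, v2 γ g1 g2, lt_of_lt_of_le (v3 γ g1 g2) hlen⟩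
        · intro γ hγ
          obtain ⟨η, h1, h2⟩ := hsup γ hγ
          have h3 := ih η h1 (hile η h1)
          obtain ⟨β', n1, n2, n3, -⟩ := hnx η (b η) (lt_of_lt_of_le h1 hζlam) h3.1
          have h4 : β' < b ζ := by
            refine lt_of_lt_of_le ?_ (hble _ (hsucc η h1))
            rw [hbs, n1]
            exact Order.lt_add_one_iff.2 le_rfl
          have h5 : β ≤ β' := by
            refine le_trans ?_ n2
            rw [← hb0]
            exact hbmono 0 η (mseg_zle η) h1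
          refine ⟨β', h2.le.trans n2, h4, ?_⟩
          exact (at_unique (v1 β' h5 h4) n3).1
        · intro q
          have hq : q % d < d := Nat.mod_lt _ hd
          have hmem : ∀ W : ℕ → ℕ → Bool, mem d W q = W (q % d) (q / d) := fun W => rfl
          simp only [hmem]
          by_cases hM : M (q % d)
          · rw [hlim ζ hζlam hζ _ hM hq]
            constructor
            · rintro ⟨η, h1, h2⟩
              refine ⟨b η, ?_, hblt η h1, ?_⟩
              · rw [← hb0]
                exact hbmono 0 η (mseg_zle η) h1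
              · intro γ g1 g2
                obtain ⟨a', V', w1, -, -, w4⟩ := hst η h1 γ g1 g2
                have g3 : β ≤ γ := by
                  refine le_trans ?_ g1
                  rw [← hb0]
                  exact hbmono 0 η (mseg_zle η) h1
                have h4 := (at_unique (v1 γ g3 g2) w1).2
                rw [mseg_mem_inj hd h4 hq]
                exact (w4 _ hM hq _).1 h2
            · rintro ⟨γ, g1, g2, g3⟩
              obtain ⟨η, h1, h2⟩ := hsup γ g2
              refine ⟨η, h1, ?_⟩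
              rw [← hval η h1 _ hq]
              exact g3 (b η) h2.le (hblt η h1)
          · rw [hz ζ hζlam _ hM hq]
            constructor
            · intro hf
              exact absurd hf (by simp)
            · rintro ⟨γ, g1, g2, g3⟩
              obtain ⟨η, h1, h2⟩ := hsup γ g2
              have h3 := g3 (b η) h2.le (hblt η h1)
              rw [hval η h1 _ hq, hz η (hile η h1) _ hM hq] at h3
              exact h3
      refine ⟨hAtζ, hblt, hTζ, ?_⟩
      intro η hη γ g1 g2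
      rcases hη.lt_or_eq with h1 | h1
      · obtain ⟨a', V', w1, w2, w3, w4⟩ := hst η h1 γ g1 g2
        refine ⟨a', V', w1, w2, w3, fun t ht1 ht2 p => ⟨(w4 t ht1 ht2 p).1, fun hp => ?_⟩⟩
        obtain ⟨η', h5, h6⟩ := (w4 t ht1 ht2 p).2 hp
        exact hTζ η' h5.le t ht1 ht2 p h6
      · rw [h1] at g1
        exact absurd g2 (not_lt.2 g1)
  refine ⟨b, hb0, fun ξ hξ => (main ξ hξ).1, fun η ξ hη hξ => (main ξ hξ).2.1 η hη, ?_⟩
  intro η ξ hη hξ γ g1 g2
  exact (main ξ hξ).2.2.2 η hη γ g1 g2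

/-- A transfinite loop with header `nopI (h + 1)` at `h`. `M` is the set of the tracks that grow
along the loop; the other tracks are zero at the beginning of every round. -/
theorem Seg.loop (hd : 1 ≤ d) {h hi : ℕ} (hh : code[h]? = some (nopI (h + 1))) (hhi : h < hi)
    (hlen : hi ≤ code.length) (M : ℕ → Prop) (T : Ordinal.{0} → ℕ → ℕ → Bool)
    (lam : Ordinal.{0})
    (hbody : ∀ ξ, ξ < lam → Seg d code x h hi
      (fun V => ∀ t, M t → t < d → ∀ p, (T ξ t p = true → V t p = true) ∧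
        (V t p = true → T (ξ + 1) t p = true)) (h + 1) (T ξ) h (T (ξ + 1)))
    (hlim : ∀ ζ, ζ ≤ lam → Order.IsSuccLimit ζ → ∀ t, M t → t < d →
      ∀ p, T ζ t p = true ↔ ∃ ξ, ξ < ζ ∧ T ξ t p = true)
    (hz : ∀ ξ, ξ ≤ lam → ∀ t, ¬ M t → t < d → ∀ p, T ξ t p = false) :
    Seg d code x h hi (fun V => ∀ t, M t → t < d → ∀ p, (T 0 t p = true → V t p = true) ∧
        (V t p = true → T lam t p = true)) (h + 1) (T 0) (h + 1) (T lam) := by
  intro β hβ
  obtain ⟨b, b0, b1, b2, b3⟩ := mseg_core hd hh hhi hlen M T lam hbody hlim hz hβ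
  refine ⟨b lam, ?_, b1 lam le_rfl, fun γ g1 g2 => ?_⟩
  · rcases (mseg_zle lam).lt_or_eq with h1 | h1
    · rw [← b0]
      exact (b2 0 lam h1 le_rfl).le
    · rw [← h1, b0]
  · rw [← b0] at g1
    exact b3 0 lam (mseg_zle lam) le_rfl γ g1 g2

/-- An infinite loop with header `nopI (h + 1)` at `h` that is never left: the machine does not
halt. -/
theorem Seg.forever (hd : 1 ≤ d) {h hi : ℕ} (hh : code[h]? = some (nopI (h + 1))) (hhi : h < hi)
    (hlen : hi ≤ code.length) (M : ℕ → Prop) (T : Ordinal.{0} → ℕ → ℕ → Bool)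
    (hbody : ∀ ξ, Seg d code x h hi
      (fun V => ∀ t, M t → t < d → ∀ p, (T ξ t p = true → V t p = true) ∧
        (V t p = true → T (ξ + 1) t p = true)) (h + 1) (T ξ) h (T (ξ + 1)))
    (hlim : ∀ ζ, Order.IsSuccLimit ζ → ∀ t, M t → t < d →
      ∀ p, T ζ t p = true ↔ ∃ ξ, ξ < ζ ∧ T ξ t p = true)
    (hz : ∀ ξ, ∀ t, ¬ M t → t < d → ∀ p, T ξ t p = false)
    {β : Ordinal.{0}} (hβ : At d code x β (h + 1) (mem d (T 0)))
    (hpre : ∀ γ, γ < β → ∃ a W, At d code x γ a W ∧ a < code.length) :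
    ¬ Halts (prog d code) x := by
  refine not_halts hd fun γ => ?_
  rcases lt_or_ge γ β with g | g
  · exact hpre γ g
  obtain ⟨b, b0, b1, b2, b3⟩ := mseg_core hd hh hhi hlen M T (γ + 1) (fun ξ _ => hbody ξ)
    (fun ζ _ => hlim ζ) (fun ξ _ => hz ξ) hβ
  have hle : ∀ ξ, ξ ≤ γ + 1 → ξ ≤ b ξ := by
    intro ξ
    induction ξ using WellFoundedLT.induction with
    | _ ξ ih =>
      intro hξ
      by_contra hlt
      push Not at hlt
      have h1 := ih (b ξ) hlt (hlt.le.trans hξ)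
      exact absurd (b2 (b ξ) ξ hlt hξ) (not_lt.2 h1)
  have h1 : γ < b (γ + 1) := lt_of_lt_of_le (Order.lt_add_one_iff.2 le_rfl) (hle _ le_rfl)
  rw [← b0] at g
  obtain ⟨a, V, v1, -, v3, -⟩ := b3 0 (γ + 1) (mseg_zle _) le_rfl γ g h1
  exact ⟨a, mem d V, v1, lt_of_lt_of_le v3 hlen⟩

end Pool.Agent.H76.TH
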