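import Pool.Agent.H76.TH.Defs
import Pool.Agent.H75.EK.Tree

/-!
Project THIN, module NFa: closure properties of the normal form `NF` (first part).
-/

set_option autoImplicit false

open Encodable Pool.Agent.H75.EK

namespace Pool.Agent.H76.TH

theorem take_res {α : Type*} (a : ℕ → α) {k n : ℕ} (h : k ≤ n) : (res a n).take k = res a k := by
  apply List.ext_getElem?
  intro i
  rw [List.getElem?_take, getElem?_res, getElem?_res]
  split_ifs <;> first | rfl | omega

theorem tail_res {α : Type*} (a : ℕ → α) (n : ℕ) :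
    (res a (n + 1)).tail = res (fun i => a (i + 1)) n := by
  apply List.ext_getElem?
  intro i
  rw [List.getElem?_tail, getElem?_res, getElem?_res]
  split_ifs <;> first | rfl | omega

theorem getD_res {α : Type*} (a : ℕ → α) {k n : ℕ} (d : α) (h : k < n) :
    (res a n).getD k d = a k := by
  rw [List.getD_eq_getElem?_getD, getElem?_res, if_pos h]
  rfl

theorem NF.congr {P Q : (ℕ → ℕ) → ℕ → Prop} (h : NF P) (hPQ : ∀ z n, P z n ↔ Q z n) : NF Q := by
  obtain ⟨R, hR, h⟩ := h
  exact ⟨R, hR, fun z n => by rw [← hPQ, h]⟩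

theorem NF.dec {P : ℕ → Prop} (h : PrimrecPred P) : NF (fun _ n => P n) :=
  ⟨fun p => P p.2.1, h.comp (Primrec.fst.comp Primrec.snd), fun z n =>
    ⟨fun hn _ => ⟨0, hn⟩, fun hn => (hn (fun _ => 0)).elim fun _ h => h⟩⟩

theorem NF.orc : NF (fun z n => z n.unpair.1 = n.unpair.2) := by
  refine ⟨fun p => p.1[p.2.1.unpair.1]? = some p.2.1.unpair.2, ?_, ?_⟩
  · exact Primrec.eq.comp (Primrec.list_getElem?.comp Primrec.fst (Primrec.fst.comp
      (Primrec.unpair.comp (Primrec.fst.comp Primrec.snd)))) (Primrec.option_some.comp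
      (Primrec.snd.comp (Primrec.unpair.comp (Primrec.fst.comp Primrec.snd))))
  · intro z n
    constructor
    · intro h v
      exact ⟨n.unpair.1 + 1, getElem?_res_eq_some.2 ⟨Nat.lt_succ_self _, h⟩⟩
    · intro h
      obtain ⟨k, hk⟩ := h (fun _ => 0)
      exact (getElem?_res_eq_some.1 hk).2

theorem NF.norc : NF (fun z n => ¬ z n.unpair.1 = n.unpair.2) := by
  refine ⟨fun p => p.2.1.unpair.1 < p.1.length ∧ ¬ p.1[p.2.1.unpair.1]? = some p.2.1.unpair.2,
    ?_, ?_⟩
  · refine PrimrecPred.and (Primrec.nat_lt.comp (Primrec.fst.comp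
      (Primrec.unpair.comp (Primrec.fst.comp Primrec.snd))) (Primrec.list_length.comp Primrec.fst))
      (PrimrecPred.not ?_)
    exact Primrec.eq.comp (Primrec.list_getElem?.comp Primrec.fst (Primrec.fst.comp
      (Primrec.unpair.comp (Primrec.fst.comp Primrec.snd)))) (Primrec.option_some.comp
      (Primrec.snd.comp (Primrec.unpair.comp (Primrec.fst.comp Primrec.snd))))
  · intro z n
    constructor
    · intro h v
      refine ⟨n.unpair.1 + 1, ?_, ?_⟩
      · simp
      · show ¬ (res z _)[_]? = some _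
        rw [getElem?_res_eq_some]
        exact fun h' => h h'.2
    · intro h he
      obtain ⟨k, hk, hk2⟩ := h (fun _ => 0)
      rw [length_res] at hk
      exact hk2 (getElem?_res_eq_some.2 ⟨hk, he⟩)

theorem NF.and {P Q : (ℕ → ℕ) → ℕ → Prop} (hP : NF P) (hQ : NF Q) :
    NF (fun z n => P z n ∧ Q z n) := by
  obtain ⟨A, hA, h1⟩ := hP
  obtain ⟨B, hB, h2⟩ := hQ
  refine ⟨fun p => 0 < p.2.2.length ∧
    ((p.2.2.getD 0 0 = 0 ∧ A (p.1.take (p.2.2.length - 1), p.2.1, p.2.2.tail)) ∨
    (¬ p.2.2.getD 0 0 = 0 ∧ B (p.1.take (p.2.2.length - 1), p.2.1, p.2.2.tail))), ?_, ?_⟩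
  · have e1 : Primrec fun p : List ℕ × ℕ × List ℕ => p.2.2 := Primrec.snd.comp Primrec.snd
    have e2 : Primrec fun p : List ℕ × ℕ × List ℕ => p.2.2.length := Primrec.list_length.comp e1
    have e3 : Primrec fun p : List ℕ × ℕ × List ℕ =>
        (p.1.take (p.2.2.length - 1), p.2.1, p.2.2.tail) :=
      Primrec.pair (Primrec.list_take.comp (Primrec.nat_sub.comp e2 (Primrec.const 1))
        Primrec.fst) (Primrec.pair (Primrec.fst.comp Primrec.snd) (Primrec.list_tail.comp e1))
    have e4 : PrimrecPred fun p : List ℕ × ℕ × List ℕ => p.2.2.getD 0 0 = 0 :=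
      Primrec.eq.comp ((Primrec.list_getD 0).comp e1 (Primrec.const 0)) (Primrec.const 0)
    exact (Primrec.nat_lt.comp (Primrec.const 0) e2).and
      ((e4.and (hA.comp e3)).or (e4.not.and (hB.comp e3)))
  · intro z n
    constructor
    · rintro ⟨p1, p2⟩ v
      by_cases h0 : v 0 = 0
      · obtain ⟨k, hk⟩ := (h1 z n).1 p1 (fun i => v (i + 1))
        refine ⟨k + 1, ?_, Or.inl ⟨?_, ?_⟩⟩
        · simp
        · show (res v (k + 1)).getD 0 0 = 0
          rw [getD_res v 0 (Nat.succ_pos k), h0]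
        · simp only [length_res, Nat.add_sub_cancel]
          rw [take_res z (Nat.le_succ k), tail_res]
          exact hk
      · obtain ⟨k, hk⟩ := (h2 z n).1 p2 (fun i => v (i + 1))
        refine ⟨k + 1, ?_, Or.inr ⟨?_, ?_⟩⟩
        · simp
        · show ¬ (res v (k + 1)).getD 0 0 = 0
          rw [getD_res v 0 (Nat.succ_pos k)]
          exact h0
        · simp only [length_res, Nat.add_sub_cancel]
          rw [take_res z (Nat.le_succ k), tail_res]
          exact hk
    · intro H
      constructor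
      · rw [h1]
        intro v
        obtain ⟨k, h0, hk⟩ := H (fun i => Nat.casesOn i 0 v)
        simp only [length_res] at h0 hk
        obtain ⟨k, rfl⟩ : ∃ k', k = k' + 1 := ⟨k - 1, by omega⟩
        rw [Nat.add_sub_cancel, take_res z (Nat.le_succ k), tail_res, getD_res _ 0 h0] at hk
        rcases hk with hk | hk
        · exact ⟨k, hk.2⟩
        · exact absurd rfl hk.1
      · rw [h2]
        intro v
        obtain ⟨k, h0, hk⟩ := H (fun i => Nat.casesOn i 1 v)
        simp only [length_res] at h0 hk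
        obtain ⟨k, rfl⟩ : ∃ k', k = k' + 1 := ⟨k - 1, by omega⟩
        rw [Nat.add_sub_cancel, take_res z (Nat.le_succ k), tail_res, getD_res _ 0 h0] at hk
        rcases hk with hk | hk
        · exact absurd hk.1 Nat.one_ne_zero
        · exact ⟨k, hk.2⟩

theorem NF.or {P Q : (ℕ → ℕ) → ℕ → Prop} (hP : NF P) (hQ : NF Q) :
    NF (fun z n => P z n ∨ Q z n) := by
  obtain ⟨A, hA, h1⟩ := hP
  obtain ⟨B, hB, h2⟩ := hQ
  refine ⟨fun p => A (p.1, p.2.1, p.2.2.map (fun y => y.unpair.1)) ∨
    B (p.1, p.2.1, p.2.2.map (fun y => y.unpair.2)), ?_, ?_⟩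
  · refine PrimrecPred.or (hA.comp ?_) (hB.comp ?_)
    · exact Primrec.pair Primrec.fst (Primrec.pair (Primrec.fst.comp Primrec.snd)
        (Primrec.list_map (Primrec.snd.comp Primrec.snd)
          (Primrec.fst.comp (Primrec.unpair.comp Primrec.snd))))
    · exact Primrec.pair Primrec.fst (Primrec.pair (Primrec.fst.comp Primrec.snd)
        (Primrec.list_map (Primrec.snd.comp Primrec.snd)
          (Primrec.snd.comp (Primrec.unpair.comp Primrec.snd))))
  · intro z n
    have e1 : ∀ (f : ℕ → ℕ) (v : ℕ → ℕ) (k : ℕ), (res v k).map f = res (fun i => f (v i)) k := by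
      intro f v k
      unfold res
      rw [List.map_map]
      rfl
    constructor
    · rintro (p | p) v
      · obtain ⟨k, hk⟩ := (h1 z n).1 p (fun i => (v i).unpair.1)
        exact ⟨k, Or.inl (by rw [e1]; exact hk)⟩
      · obtain ⟨k, hk⟩ := (h2 z n).1 p (fun i => (v i).unpair.2)
        exact ⟨k, Or.inr (by rw [e1]; exact hk)⟩
    · intro H
      by_contra hc
      push Not at hc
      obtain ⟨c1, c2⟩ := hc
      rw [h1] at c1
      rw [h2] at c2
      push Not at c1 c2
      obtain ⟨v1, c1⟩ := c1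
      obtain ⟨v2, c2⟩ := c2
      obtain ⟨k, hk⟩ := H (fun i => Nat.pair (v1 i) (v2 i))
      simp only [e1, Nat.unpair_pair] at hk
      rcases hk with hk | hk
      · exact c1 k hk
      · exact c2 k hk

theorem NF.comp {P : (ℕ → ℕ) → ℕ → Prop} {f : ℕ → ℕ} (hf : Primrec f) (hP : NF P) :
    NF (fun z n => P z (f n)) := by
  obtain ⟨A, hA, h1⟩ := hP
  refine ⟨fun p => A (p.1, f p.2.1, p.2.2), ?_, fun z n => h1 z (f n)⟩
  exact hA.comp (Primrec.pair Primrec.fst (Primrec.pair (hf.comp (Primrec.fst.comp Primrec.snd))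
    (Primrec.snd.comp Primrec.snd)))

end Pool.Agent.H76.TH
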