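import Pool.Agent.H76.TH.NFa
import Pool.Agent.H75.EK.Tree

/-!
Project THIN, module NFb: closure of the normal form `NF` under number quantifiers.
-/

set_option autoImplicit false

open Encodable Pool.Agent.H75.EK

namespace Pool.Agent.H76.TH

theorem ex_lt' {β : Type*} [Primcodable β] {R : ℕ → β → Prop} (hf : PrimrecRel R) :
    PrimrecRel fun n y => ∃ x < n, R x y :=
  (hf.exists_mem_list.comp (Primrec.list_range.comp Primrec.fst) Primrec.snd).of_eq (by simp)

theorem all_lt' {β : Type*} [Primcodable β] {R : ℕ → β → Prop} (hf : PrimrecRel R) :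
    PrimrecRel fun n y => ∀ x < n, R x y :=
  (hf.forall_mem_list.comp (Primrec.list_range.comp Primrec.fst) Primrec.snd).of_eq (by simp)

theorem NF.all {P : (ℕ → ℕ) → ℕ → Prop} (hP : NF P) :
    NF (fun z n => ∀ m, P z (Nat.pair n m)) := by
  obtain ⟨Q, hQ, h⟩ := hP
  refine ⟨fun p => 0 < p.2.2.length ∧
    Q (p.1.take (p.2.2.length - 1), Nat.pair p.2.1 (p.2.2.getD 0 0), p.2.2.tail), ?_, ?_⟩
  · have h1 : Primrec fun p : List ℕ × ℕ × List ℕ => p.2.2 := Primrec.snd.comp Primrec.snd
    have h2 : Primrec fun p : List ℕ × ℕ × List ℕ => p.2.2.length := Primrec.list_length.comp h1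
    refine PrimrecPred.and (Primrec.nat_lt.comp (Primrec.const 0) h2) (hQ.comp ?_)
    refine Primrec.pair (Primrec.list_take.comp (Primrec.nat_sub.comp h2 (Primrec.const 1))
      Primrec.fst) (Primrec.pair (Primrec₂.natPair.comp (Primrec.fst.comp Primrec.snd)
      ((Primrec.list_getD 0).comp h1 (Primrec.const 0))) (Primrec.list_tail.comp h1))
  · intro z n
    constructor
    · intro hm v
      obtain ⟨k, hk⟩ := (h z _).1 (hm (v 0)) (fun i => v (i + 1))
      refine ⟨k + 1, ?_, ?_⟩
      · simp
      · simp only [length_res, Nat.add_sub_cancel]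
        rw [take_res z (Nat.le_succ k), tail_res, getD_res v 0 (Nat.succ_pos k)]
        exact hk
    · intro H m
      rw [h]
      intro v
      obtain ⟨k, h0, hk⟩ := H (fun i => Nat.casesOn i m v)
      simp only [length_res] at h0 hk
      obtain ⟨k, rfl⟩ : ∃ k', k = k' + 1 := ⟨k - 1, by omega⟩
      rw [Nat.add_sub_cancel, take_res z (Nat.le_succ k), tail_res, getD_res _ 0 h0] at hk
      exact ⟨k, hk⟩

theorem NF.ex {P : (ℕ → ℕ) → ℕ → Prop} (hP : NF P) :
    NF (fun z n => ∃ m, P z (Nat.pair n m)) := by
  obtain ⟨Q, hQ, h⟩ := hP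
  refine ⟨fun p => ∃ m < p.2.2.length + 1, ∃ k < p.2.2.length + 1,
    (∀ i < k, Nat.pair m i < p.2.2.length) ∧
    Q (p.1.take k, Nat.pair p.2.1 m, (List.range k).map (fun i => p.2.2.getD (Nat.pair m i) 0)),
    ?_, ?_⟩
  · -- `R (m, k) p`
    have hA : PrimrecRel fun (i : ℕ) (q : ℕ × ℕ × List ℕ × ℕ × List ℕ) =>
        Nat.pair q.2.1 i < q.2.2.2.2.length := by
      refine Primrec.nat_lt.comp (Primrec₂.natPair.comp
        (Primrec.fst.comp (Primrec.snd.comp Primrec.snd)) Primrec.fst) ?_
      exact Primrec.list_length.comp (Primrec.snd.comp (Primrec.snd.comp (Primrec.snd.comp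
        (Primrec.snd.comp Primrec.snd))))
    have hA' : PrimrecPred fun q : ℕ × ℕ × List ℕ × ℕ × List ℕ =>
        ∀ i < q.1, Nat.pair q.2.1 i < q.2.2.2.2.length := by
      have h1 := all_lt' hA
      exact h1.comp Primrec.fst Primrec.id
    have hB : PrimrecPred fun q : ℕ × ℕ × List ℕ × ℕ × List ℕ =>
        Q (q.2.2.1.take q.1, Nat.pair q.2.2.2.1 q.2.1,
          (List.range q.1).map (fun i => q.2.2.2.2.getD (Nat.pair q.2.1 i) 0)) := by
      refine hQ.comp (Primrec.pair (Primrec.list_take.comp Primrec.fst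
        (Primrec.fst.comp (Primrec.snd.comp Primrec.snd))) (Primrec.pair
        (Primrec₂.natPair.comp (Primrec.fst.comp (Primrec.snd.comp (Primrec.snd.comp Primrec.snd)))
          (Primrec.fst.comp Primrec.snd)) (Primrec.list_map (Primrec.list_range.comp Primrec.fst)
          ?_)))
      refine (Primrec.list_getD 0).comp (Primrec.snd.comp (Primrec.snd.comp (Primrec.snd.comp
        (Primrec.snd.comp Primrec.fst)))) (Primrec₂.natPair.comp
          (Primrec.fst.comp (Primrec.snd.comp Primrec.fst)) Primrec.snd)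
    have hC : PrimrecRel fun (k : ℕ) (q : ℕ × List ℕ × ℕ × List ℕ) =>
        (∀ i < k, Nat.pair q.1 i < q.2.2.2.length) ∧
        Q (q.2.1.take k, Nat.pair q.2.2.1 q.1,
          (List.range k).map (fun i => q.2.2.2.getD (Nat.pair q.1 i) 0)) := hA'.and hB
    have hD : PrimrecPred fun q : ℕ × List ℕ × ℕ × List ℕ =>
        ∃ k < q.2.2.2.length + 1, (∀ i < k, Nat.pair q.1 i < q.2.2.2.length) ∧
        Q (q.2.1.take k, Nat.pair q.2.2.1 q.1,
          (List.range k).map (fun i => q.2.2.2.getD (Nat.pair q.1 i) 0)) :=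
      (ex_lt' hC).comp (Primrec.succ.comp (Primrec.list_length.comp
        (Primrec.snd.comp (Primrec.snd.comp Primrec.snd)))) Primrec.id
    have hE : PrimrecRel fun (m : ℕ) (p : List ℕ × ℕ × List ℕ) =>
        ∃ k < p.2.2.length + 1, (∀ i < k, Nat.pair m i < p.2.2.length) ∧
        Q (p.1.take k, Nat.pair p.2.1 m,
          (List.range k).map (fun i => p.2.2.getD (Nat.pair m i) 0)) := hD
    exact (ex_lt' hE).comp (Primrec.succ.comp (Primrec.list_length.comp
        (Primrec.snd.comp Primrec.snd))) Primrec.id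
  · intro z n
    constructor
    · rintro ⟨m, hm⟩ V
      obtain ⟨k, hk⟩ := (h z _).1 hm (fun i => V (Nat.pair m i))
      have h1 : m ≤ Nat.pair m k := Nat.left_le_pair m k
      have h2 : k ≤ Nat.pair m k := Nat.right_le_pair m k
      have h3 : ∀ i < k, Nat.pair m i < Nat.pair m k + 1 := fun i hi =>
        (Nat.pair_lt_pair_right m hi).trans (Nat.lt_succ_self _)
      refine ⟨Nat.pair m k + 1, m, ?_, k, ?_, ?_, ?_⟩
      · simp only [length_res]; omega
      · simp only [length_res]; omega
      · simpa only [length_res] using h3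
      · rw [take_res z (by omega)]
        have h4 : (List.range k).map (fun i => (res V (Nat.pair m k + 1)).getD (Nat.pair m i) 0) =
            res (fun i => V (Nat.pair m i)) k := by
          unfold res
          apply List.map_congr_left
          intro i hi
          exact getD_res V 0 (h3 i (List.mem_range.1 hi))
        show Q (_, _, (List.range k).map (fun i => (res V (Nat.pair m k + 1)).getD
          (Nat.pair m i) 0))
        rw [h4]
        exact hk
    · intro H
      by_contra hc
      push Not at hc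
      have h1 : ∀ m, ∃ v : ℕ → ℕ, ∀ k, ¬ Q (res z k, Nat.pair n m, res v k) := by
        intro m
        have := hc m
        rw [h] at this
        push Not at this
        exact this
      choose v hv using h1
      obtain ⟨K, m, hm, k, hk, h2, h3⟩ := H (fun p => v p.unpair.1 p.unpair.2)
      simp only [length_res] at hm hk h2
      refine hv m k ?_
      rw [take_res z (by omega)] at h3
      have h4 : (List.range k).map (fun i =>
          (res (fun p => v (Nat.unpair p).1 (Nat.unpair p).2) K).getD (Nat.pair m i) 0) =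
          res (v m) k := by
        unfold res
        apply List.map_congr_left
        intro i hi
        have := getD_res (fun p => v (Nat.unpair p).1 (Nat.unpair p).2) 0
          (h2 i (List.mem_range.1 hi))
        unfold res at this
        rw [this, Nat.unpair_pair]
      have h5 : Q (res z k, Nat.pair n m, (List.range k).map (fun i =>
          (res (fun p => v (Nat.unpair p).1 (Nat.unpair p).2) K).getD (Nat.pair m i) 0)) := h3
      rw [h4] at h5
      exact h5

theorem Ar0.nf {P : (ℕ → ℕ) → ℕ → Prop} (h : Ar0 P) : NF P ∧ NF (fun z n => ¬ P z n) := by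
  induction h with
  | dec h => exact ⟨NF.dec h, NF.dec h.not⟩
  | orc => exact ⟨NF.orc, NF.norc⟩
  | not _ ih => exact ⟨ih.2, ih.1.congr fun z n => by simp⟩
  | and _ _ ih1 ih2 => exact ⟨ih1.1.and ih2.1, (ih1.2.or ih2.2).congr fun z n => by tauto⟩
  | comp hf _ ih => exact ⟨ih.1.comp hf, ih.2.comp hf⟩
  | all _ ih => exact ⟨ih.1.all, ih.2.ex.congr fun z n => by simp⟩

end Pool.Agent.H76.TH
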