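import Pool.Agent.H76.TH.Fin

/-!
Project THIN: uncountably many reals are constructible if and only if no countable ordinal is
uncountable in `L`.
-/

set_option autoImplicit false

open Encodable Pool.Agent.H75.EK Pool.Agent.H76.ITTM Ordinal Set

namespace Pool.Agent.H76.TH

universe u

/-- The function `f` from the natural numbers to the ordinals, as a set of ordered pairs. -/
noncomputable def ordGraph (f : ℕ → Ordinal.{0}) : ZFSet.{0} :=
  ZFSet.range (fun n : ℕ => ZFSet.pair (n : Ordinal.{0}).toZFSet (f n).toZFSet)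

/-- The ordinal `α` is countable in `L`: some constructible function maps `ω` onto a set of
ordinals that contains all ordinals below `α`. -/
def CountableInL (α : Ordinal.{0}) : Prop :=
  ∃ f : ℕ → Ordinal.{0}, InL (ordGraph f) ∧ ∀ β < α, ∃ n, f n = β

theorem mFun_iff_inL {κ : Ordinal.{0}} (f : ℕ → Set.Iio κ) :
    MFun f ↔ InL (ordGraph fun n => (f n).1) := by
  have key : ∀ x : ZFSet.{0}, x ∈ ordGraph (fun n => (f n).1) ↔
      ∃ t : ℕ × Set.Iio κ, f t.1 = t.2 ∧ code t = x := by
    intro x
    rw [ordGraph, ZFSet.mem_range]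
    constructor
    · rintro ⟨n, rfl⟩
      exact ⟨(n, f n), rfl, rfl⟩
    · rintro ⟨⟨n, o⟩, hn, rfl⟩
      have hn' : f n = o := hn
      refine ⟨n, ?_⟩
      rw [hn']
      rfl
  constructor
  · rintro ⟨s, hs, h⟩
    have : ordGraph (fun n => (f n).1) = s := by
      ext x
      rw [key, h]
    rwa [this]
  · intro h
    exact ⟨_, h, key⟩

/-- The rank function of a constructible well-founded relation on `ℕ` is constructible. -/
theorem mFun_rank {lt : ℕ → ℕ → Prop} (hlt : MDef (fun p : ℕ × ℕ => lt p.1 p.2))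
    (hwf : WellFounded lt) : ∃ (κ : Ordinal.{0}) (f : ℕ → Set.Iio κ), MFun f ∧
      ∀ n, ∀ β, β < (f n).1 ↔ ∃ m, lt m n ∧ β ≤ (f m).1 := by
  have hW : IsWellFounded ℕ lt := ⟨hwf⟩
  let r : ℕ → Ordinal.{0} := fun n => IsWellFounded.rank lt n
  have hr : ∀ n β, β < r n ↔ ∃ m, lt m n ∧ β ≤ r m := by
    intro n β
    constructor
    · intro h
      by_contra hno
      push Not at hno
      have : r n ≤ β := by
        change IsWellFounded.rank lt n ≤ β
        rw [IsWellFounded.rank_eq]
        refine Ordinal.iSup_le fun m => ?_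
        exact Order.succ_le_of_lt (hno m.1 m.2)
      exact absurd h (not_lt.2 this)
    · rintro ⟨m, hm, h⟩
      exact lt_of_le_of_lt h (IsWellFounded.rank_lt_of_rel hm)
  let κ : Ordinal.{0} := Order.succ (⨆ n, r n)
  have hκ : ∀ n, r n < κ := fun n => Order.lt_succ_of_le (Ordinal.le_iSup r n)
  let f : ℕ → Set.Iio κ := fun n => ⟨r n, hκ n⟩
  refine ⟨κ, f, ?_, hr⟩
  let G : Set ℕ → Set ℕ := fun S => {n | ∃ m : ℕ, m ∈ S ∧ lt m n}
  have hmono : Monotone G := by
    rintro S S' h n ⟨m, h1, h2⟩
    exact ⟨m, h h1, h2⟩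
  have hG : UDef G := by
    intro Γ _ Q hQ
    refine MDef.ex (MDef.and ?_ ?_)
    · exact hQ.comp (f := fun q : (Γ × ℕ) × ℕ => (q.1.1, q.2)) (by fun_prop)
    · exact hlt.comp (f := fun q : (Γ × ℕ) × ℕ => (q.2, q.1.2)) (by fun_prop)
  have hstage : ∀ ξ : Ordinal.{0}, ∀ n, n ∈ stage G ξ ↔ ξ ≤ r n := by
    intro ξ
    induction ξ using WellFoundedLT.induction with
    | _ ξ ih =>
      intro n
      rw [mem_stage]
      constructor
      · intro h
        by_contra hlt'
        push Not at hlt'
        obtain ⟨m, h1, h2⟩ := h (r n) hlt'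
        rw [ih _ hlt'] at h1
        exact absurd ((hr n (r n)).2 ⟨m, h2, h1⟩) (lt_irrefl _)
      · intro h η hη
        obtain ⟨m, h1, h2⟩ := (hr n η).1 (hη.trans_le h)
        exact ⟨m, (ih η hη m).2 h2, h1⟩
  have hstep := mDef_step hmono hG κ
  have hle : MDef (fun p : ℕ × Set.Iio κ => r p.1 ≤ p.2.1) := by
    refine hstep.congr ?_
    rintro ⟨n, ξ⟩
    dsimp only
    rw [← not_lt, hr n ξ.1]
    refine not_congr ?_
    constructor
    · rintro ⟨m, h1, h2⟩
      exact ⟨m, h2, (hstage _ _).1 h1⟩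
    · rintro ⟨m, h1, h2⟩
      exact ⟨m, (hstage _ _).2 h2, h1⟩
  unfold MFun
  refine MDef.congr (P := fun p : ℕ × Set.Iio κ => r p.1 ≤ p.2.1 ∧
    ¬ ∃ η : Set.Iio κ, η < p.2 ∧ r p.1 ≤ η.1) ?_ ?_
  · refine MDef.and hle (MDef.not (MDef.ex (MDef.and (MDef.olt (by fun_prop) (by fun_prop)) ?_)))
    exact hle.comp (f := fun q : (ℕ × Set.Iio κ) × Set.Iio κ => (q.1.1, q.2)) (by fun_prop)
  · rintro ⟨n, ξ⟩
    dsimp only
    constructor
    · rintro ⟨h1, h2⟩
      rcases h1.eq_or_lt with h3 | h3
      · exact Subtype.ext h3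
      · exact absurd ⟨f n, h3, le_rfl⟩ h2
    · rintro rfl
      exact ⟨le_rfl, fun ⟨η, h1, h2⟩ => absurd h1 (not_lt.2 h2)⟩

theorem mFun_toN_of_constr {x : ℕ → Bool} (h : Constr x) : MFun (toN x) := by
  have h1 : MDef (· ∈ {n | x n = true}) := mDef_iff_inL.2 h
  unfold MFun
  refine MDef.congr (P := fun p : ℕ × ℕ => (p.1 ∈ {n | x n = true} ∧ p.2 = 1) ∨
    (¬ p.1 ∈ {n | x n = true} ∧ p.2 = 0)) ?_ ?_
  · exact MDef.or (MDef.and (h1.comp (by fun_prop)) (MDef.eq (by fun_prop) (by fun_prop)))
      (MDef.and (MDef.not (h1.comp (by fun_prop))) (MDef.eq (by fun_prop) (by fun_prop)))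
  · rintro ⟨n, k⟩
    simp only [Set.mem_ofPred_eq, toN]
    cases x n <;> simp [eq_comm]

theorem constr_of_mDef {X : Set ℕ} (h : MDef (· ∈ X)) [DecidablePred (· ∈ X)] :
    Constr (fun n => decide (n ∈ X)) := by
  unfold Constr
  have h1 : {n | decide (n ∈ X) = true} = X := by ext n; simp
  rw [h1]
  exact mDef_iff_inL.1 h

/-- Uncountably many reals are constructible iff every countable ordinal is countable in `L`. -/
theorem uncountable_iff : ¬ {x : ℕ → Bool | Constr x}.Countable ↔
    ∀ α : Ordinal.{0}, α < ω₁ → CountableInL α := by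
  classical
  constructor
  · intro hC α hα
    obtain ⟨K, hK, hKc⟩ := exists_K_cert
    obtain ⟨K', hK', hsub, hex, huniq⟩ := kondo hK
    -- a constructible real outside a countable level
    obtain ⟨x, hx, hxα⟩ : ∃ x : ℕ → Bool, Constr x ∧ ¬ natSet {k | x k = true} ∈ Lset α := by
      by_contra hno
      push Not at hno
      apply hC
      refine Set.MapsTo.countable_of_injOn (f := fun x : ℕ → Bool => natSet {k | x k = true})
        (t := {y : ZFSet.{0} | y ∈ Lset α}) (fun x hx => hno x hx) ?_ (countable_Lset hα)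
      intro x _ y _ hxy
      have h := natSet_injective hxy
      funext k
      have h1 : k ∈ {k | x k = true} ↔ k ∈ {k | y k = true} := by rw [h]
      simp only [Set.mem_ofPred_eq] at h1
      cases hX : x k <;> cases hY : y k <;> simp_all
    obtain ⟨w₀, hw₀, hwf₀⟩ := exists_wCert hx
    obtain ⟨w, hw⟩ := hex (toN x) ⟨w₀, (hKc _ _).2 ⟨hw₀, hwf₀⟩⟩
    obtain ⟨hwc, hwf⟩ := (hKc _ _).1 (hsub _ _ hw)
    -- the certificate is constructible
    have hxm : MFun (toN x) := mFun_toN_of_constr hx
    have hwm : MFun w := by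
      let C : List ℕ → Prop := fun l => ∀ i y : ℕ, l[i]? = some y → (Nat.unpair y).1 = toN x i
      have hCm : MDef C := by
        refine MDef.all (MDef.all (MDef.imp (MDef.getElem? ?_ ?_ ?_) (MDef.eq ?_ ?_)))
        · fun_prop
        · fun_prop
        · fun_prop
        · fun_prop
        · exact mFun_comp hxm (by fun_prop)
      have hCa : ∀ a : ℕ → ℕ, (∀ n, C (res a n)) ↔ ∀ i, (Nat.unpair (a i)).1 = toN x i := by
        intro a
        constructor
        · intro h i
          exact h (i + 1) i _ (by rw [getElem?_res_eq_some]; exact ⟨by omega, rfl⟩)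
        · intro h n i y hy
          rw [getElem?_res_eq_some] at hy
          rw [← hy.2]
          exact h i
      have hE : MFun (fun n : ℕ => (Nat.unpair n).2) := by fun_prop
      refine mFun_of_unique (kDef_sum (kDef_closed hCm) hK'.kDef) hE
        ⟨join (toN x) w, ?_⟩ ?_
      · rw [bk_sum, bk_closed, hCa]
        exact ⟨fun i => by simp [join], hw⟩
      · intro a ha i
        rw [bk_sum, bk_closed, hCa] at ha
        have h1 : join (toN x) (fun i => (Nat.unpair (a i)).2) = a := by
          funext i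
          unfold join
          rw [← ha.1 i, Nat.pair_unpair]
        have h2 := ha.2
        rw [← h1] at h2
        exact congrFun (huniq _ _ _ h2 hw) i
    have hlt : MDef (fun p : ℕ × ℕ => wlt w p.1 p.2) := by
      unfold wlt
      exact MDef.eq (mFun_comp hwm (by fun_prop)) (by fun_prop)
    obtain ⟨κ, f, hf, hfr⟩ := mFun_rank hlt hwf
    refine ⟨fun n => (f n).1, (mFun_iff_inL f).1 hf, ?_⟩
    -- some value is at least `α`
    obtain ⟨n₀, hn₀⟩ : ∃ n, α ≤ (f n).1 := by
      by_contra hno
      push Not at hno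
      apply hxα
      obtain ⟨-, hcert, t, ht⟩ := hwc
      have h1 := hcert.sound (α := α) (r₀ := fun n => (f n).1)
        (fun n m hnm => (hfr m _).2 ⟨n, hnm, le_rfl⟩) hno ht
      have h2 : {k | x k = true} = {k | toN x k = 1} := by ext k; simp [toN]
      rw [h2]
      exact h1
    have hall : ∀ ξ : Ordinal.{0}, ∀ n, (f n).1 = ξ → ∀ β < ξ, ∃ m, (f m).1 = β := by
      intro ξ
      induction ξ using WellFoundedLT.induction with
      | _ ξ ih =>
        intro n hn β hβ
        obtain ⟨m, h1, h2⟩ := (hfr n β).1 (by rw [hn]; exact hβ)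
        rcases h2.eq_or_lt with h3 | h3
        · exact ⟨m, h3.symm⟩
        · have h4 : (f m).1 < ξ := by
            rw [← hn]
            exact (hfr n _).2 ⟨m, h1, le_rfl⟩
          exact ih _ h4 m rfl β h3
    intro β hβ
    exact hall _ n₀ rfl β (hβ.trans_le hn₀)
  · intro h hcount
    -- ranks of the constructible well-founded relations
    let R : (ℕ → Bool) → ℕ → ℕ → Prop := fun x i j => x (Nat.pair i j) = true
    let ρ : (ℕ → Bool) → ℕ → Ordinal.{0} := fun x n =>
      if hwf : WellFounded (R x) then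
        @IsWellFounded.rank ℕ (R x) ⟨hwf⟩ n else 0
    have hρ : ∀ x n, ρ x n < ω₁ := by
      intro x n
      simp only [ρ]
      split_ifs with hwf
      · have hW : IsWellFounded ℕ (R x) := ⟨hwf⟩
        induction n using hwf.induction with
        | _ n ih =>
          rw [IsWellFounded.rank_eq]
          refine Ordinal.iSup_lt_omega_one fun m => ?_
          exact (Cardinal.isSuccLimit_omega 1).succ_lt (ih m.1 m.2)
      · exact (Cardinal.isSuccLimit_omega 1).bot_lt
    have hcs : Countable {x : ℕ → Bool | Constr x} := hcount.to_subtype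
    let α : Ordinal.{0} := Order.succ (⨆ p : {x : ℕ → Bool | Constr x} × ℕ, ρ p.1.1 p.2)
    have hα : α < ω₁ := (Cardinal.isSuccLimit_omega 1).succ_lt
      (Ordinal.iSup_lt_omega_one fun p => hρ _ _)
    obtain ⟨f, hf, hfα⟩ := h (Order.succ α) ((Cardinal.isSuccLimit_omega 1).succ_lt hα)
    let κ : Ordinal.{0} := Order.succ (⨆ n, f n)
    have hκ : ∀ n, f n < κ := fun n => Order.lt_succ_of_le (Ordinal.le_iSup f n)
    have hfm : MFun (fun n => (⟨f n, hκ n⟩ : Set.Iio κ)) := (mFun_iff_inL _).2 hf
    let X : Set ℕ := {n | f n.unpair.1 < f n.unpair.2}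
    have hX : MDef (· ∈ X) := by
      have h1 : MDef (fun n : ℕ => (⟨f n.unpair.1, hκ _⟩ : Set.Iio κ) < ⟨f n.unpair.2, hκ _⟩) :=
        MDef.olt (mFun_comp (f := fun n => (⟨f n, hκ n⟩ : Set.Iio κ)) hfm (by fun_prop))
          (mFun_comp (f := fun n => (⟨f n, hκ n⟩ : Set.Iio κ)) hfm (by fun_prop))
      exact h1
    let x : ℕ → Bool := fun n => decide (n ∈ X)
    have hx : Constr x := constr_of_mDef hX
    have hR : ∀ i j, R x i j ↔ f i < f j := by
      intro i j
      simp [R, x, X]
    have hwf : WellFounded (R x) := by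
      have : R x = fun i j => f i < f j := by
        funext i j
        exact propext (hR i j)
      rw [this]
      exact InvImage.wf f wellFounded_lt
    have hW : IsWellFounded ℕ (R x) := ⟨hwf⟩
    have hge : ∀ β ≤ α, ∀ n, f n = β → β ≤ ρ x n := by
      intro β
      induction β using WellFoundedLT.induction with
      | _ β ih =>
        intro hβ n hn
        by_contra hlt
        push Not at hlt
        obtain ⟨m, hm⟩ := hfα (ρ x n) (Order.lt_succ_of_le (hlt.le.trans hβ))
        have h1 := ih _ hlt (hlt.le.trans hβ) m hm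
        have h2 : R x m n := by rw [hR, hm, hn]; exact hlt
        have h3 : ρ x m < ρ x n := by
          simp only [ρ, hwf, dite_true]
          exact IsWellFounded.rank_lt_of_rel h2
        exact absurd h1 (not_le.2 h3)
    obtain ⟨n, hn⟩ := hfα α (Order.lt_succ α)
    have h1 := hge α le_rfl n hn
    have h2 : ρ x n ≤ ⨆ p : {x : ℕ → Bool | Constr x} × ℕ, ρ p.1.1 p.2 :=
      Ordinal.le_iSup (fun p : {x : ℕ → Bool | Constr x} × ℕ => ρ p.1.1 p.2) (⟨x, hx⟩, n)
    exact absurd (h1.trans h2) (not_le.2 (Order.lt_succ _))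

end Pool.Agent.H76.TH
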