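import Pool.Agent.H76.TH.Defs
import Pool.Agent.H76.ITTM.Loop

/-!
Project THIN, module RunA: a program halts if and only if there is a countable well-ordered
sequence of configurations which is a run up to a halted configuration.
(→) The halting time is countable (`haltingTime_lt` in `ITTM/Loop.lean` or `ITTM/Borel.lean`); take a
countably infinite ordinal `β` above it, a bijection `e : ℕ ≃ Set.Iio β`,
`lt i j := e i < e j`, `c i := run p x (e i)`.
(←) By induction `c i = run p x (rank i)`, where `rank i` is the order type of `{j | lt j i}`.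
-/

set_option autoImplicit false

open Encodable Pool.Agent.H75.EK Pool.Agent.H76.ITTM

namespace Pool.Agent.H76.TH

/-- From some stage before `j` on, the values of `f` are at least `s`. -/
def Ev (lt : ℕ → ℕ → Prop) (j : ℕ) (f : ℕ → ℕ) (s : ℕ) : Prop :=
  ∃ b, lt b j ∧ ∀ g, lt g j → g = b ∨ lt b g → s ≤ f g

/-- `v` is the lower limit of `f` at `j` (zero if the lower limit is infinite). -/
def IsLI (lt : ℕ → ℕ → Prop) (j : ℕ) (f : ℕ → ℕ) (v : ℕ) : Prop :=
  (Ev lt j f v ∧ ¬ Ev lt j f (v + 1)) ∨ (v = 0 ∧ ∀ s, Ev lt j f s)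

/-- The sequence of configurations `c`, indexed by `(ℕ, lt)`, is a run of `p` on `x`. -/
structure IsRun (p : Program) (x : ℕ → Bool) (lt : ℕ → ℕ → Prop) (c : ℕ → Config p) : Prop where
  irrefl : ∀ a, ¬ lt a a
  trans : ∀ a b d, lt a b → lt b d → lt a d
  total : ∀ a b, lt a b ∨ a = b ∨ lt b a
  zero : ∀ i, (∀ j, ¬ lt j i) → c i = init p x
  succ : ∀ i j, lt i j → (∀ k, ¬ (lt i k ∧ lt k j)) → c j = (c i).step
  lim : ∀ j, (∃ i, lt i j) → (∀ i, lt i j → ∃ k, lt i k ∧ lt k j) →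
    IsLI lt j (fun i => ((c i).state : ℕ)) ((c j).state : ℕ) ∧
    IsLI lt j (fun i => (c i).head) (c j).head ∧
    ∀ t k, IsLI lt j (fun i => ((c i).cell t k).toNat) ((c j).cell t k).toNat

section RunA

variable {lt : ℕ → ℕ → Prop} {ρ : ℕ → Ordinal.{0}}

theorem RunA_ev (h1 : ∀ a b, lt a b ↔ ρ a < ρ b) (h2 : ∀ j, ∀ β < ρ j, ∃ i, ρ i = β)
    (h3 : ∀ a b, ρ a = ρ b → a = b) {j : ℕ} {f : ℕ → ℕ} {F : Ordinal.{0} → ℕ}
    (hf : ∀ i, lt i j → f i = F (ρ i)) (s : ℕ) :
    Ev lt j f s ↔ ∃ β < ρ j, ∀ γ, ∀ _ : γ < ρ j, β ≤ γ → s ≤ F γ := by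
  constructor
  · rintro ⟨b, hb, h⟩
    refine ⟨ρ b, (h1 _ _).1 hb, fun γ hγ hbγ => ?_⟩
    obtain ⟨g, rfl⟩ := h2 j γ hγ
    have hg : lt g j := (h1 _ _).2 hγ
    rw [← hf g hg]
    apply h g hg
    rcases hbγ.eq_or_lt with h4 | h4
    · exact Or.inl (h3 _ _ h4).symm
    · exact Or.inr ((h1 _ _).2 h4)
  · rintro ⟨β, hβ, h⟩
    obtain ⟨b, rfl⟩ := h2 j β hβ
    refine ⟨b, (h1 _ _).2 hβ, fun g hg h4 => ?_⟩
    rw [hf g hg]
    apply h _ ((h1 _ _).1 hg)
    rcases h4 with rfl | h4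
    · exact le_rfl
    · exact ((h1 _ _).1 h4).le

theorem RunA_li (h1 : ∀ a b, lt a b ↔ ρ a < ρ b) (h2 : ∀ j, ∀ β < ρ j, ∃ i, ρ i = β)
    (h3 : ∀ a b, ρ a = ρ b → a = b) {j : ℕ} (hj : 0 < ρ j) {f : ℕ → ℕ} {F : Ordinal.{0} → ℕ}
    (hf : ∀ i, lt i j → f i = F (ρ i)) (v : ℕ) :
    IsLI lt j f v ↔ limInf (ρ j) (fun γ _ => F γ) = v := by
  unfold IsLI
  simp only [RunA_ev h1 h2 h3 hf]
  unfold limInf
  set S : Set ℕ := {s | ∃ β < ρ j, ∀ γ, ∀ _ : γ < ρ j, β ≤ γ → s ≤ F γ} with hS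
  have hmem : ∀ s, (∃ β < ρ j, ∀ γ, ∀ _ : γ < ρ j, β ≤ γ → s ≤ F γ) ↔ s ∈ S := fun s => Iff.rfl
  simp only [hmem]
  have hdown : ∀ s s', s' ≤ s → s ∈ S → s' ∈ S := by
    rintro s s' hss ⟨β, hβ, h⟩
    exact ⟨β, hβ, fun γ hγ hβγ => hss.trans (h γ hγ hβγ)⟩
  have h0 : 0 ∈ S := ⟨0, hj, fun _ _ _ => Nat.zero_le _⟩
  by_cases hb : BddAbove S
  · have hsup : sSup S ∈ S := Nat.sSup_mem ⟨0, h0⟩ hb
    have hsup' : sSup S + 1 ∉ S := fun h => by
      have := le_csSup hb h
      omega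
    constructor
    · rintro (⟨h4, h5⟩ | ⟨rfl, h4⟩)
      · have h6 := le_csSup hb h4
        by_contra hne
        exact h5 (hdown _ _ (by omega) hsup)
      · exact absurd (h4 _) hsup'
    · rintro rfl
      exact Or.inl ⟨hsup, hsup'⟩
  · have hall : ∀ s, s ∈ S := by
      intro s
      by_contra hs
      apply hb
      refine ⟨s, fun s' hs' => ?_⟩
      by_contra hlt
      exact hs (hdown _ _ (by omega) hs')
    rw [Nat.sSup_of_not_bddAbove hb]
    constructor
    · rintro (⟨h4, h5⟩ | ⟨rfl, h4⟩)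
      · exact absurd (hall _) h5
      · rfl
    · rintro rfl
      exact Or.inr ⟨rfl, hall⟩

theorem RunA_fwd (p : Program) (x : ℕ → Bool) (h : Halts p x) :
    ∃ (lt : ℕ → ℕ → Prop) (c : ℕ → Config p), WellFounded lt ∧ IsRun p x lt c ∧
      ∃ i, (c i).Halted := by
  have hα := haltingTime_lt h
  have hh := haltsBy_haltingTime h
  set α := haltingTime p x with hαdef
  set β : Ordinal.{0} := max (α + 1) Ordinal.omega0 with hβdef
  have hαβ : α < β := lt_of_lt_of_le (lt_add_one α) (le_max_left _ _)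
  have hβ1 : β < Ordinal.omega 1 := by
    refine max_lt ?_ Ordinal.omega0_lt_omega_one
    exact (Cardinal.isSuccLimit_omega 1).add_one_lt hα
  have hcard : β.card = Cardinal.aleph0 := by
    apply le_antisymm
    · rw [← Cardinal.lt_aleph_one_iff, ← Cardinal.lt_omega_iff_card_lt]
      exact hβ1
    · rw [Ordinal.aleph0_le_card]
      exact le_max_right _ _
  have hmk : Cardinal.mk (Set.Iio β) = Cardinal.aleph0 := by
    rw [Cardinal.mk_Iio_ordinal, hcard, Cardinal.lift_aleph0]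
  have hc : Countable (Set.Iio β) := Cardinal.mk_le_aleph0_iff.1 hmk.le
  have hi : Infinite (Set.Iio β) := Cardinal.infinite_iff.2 hmk.ge
  obtain ⟨e⟩ : Nonempty (ℕ ≃ Set.Iio β) := nonempty_equiv_of_countable
  let ρ : ℕ → Ordinal.{0} := fun i => (e i).1
  have hρβ : ∀ i, ρ i < β := fun i => (e i).2
  have hex : ∀ γ < β, ∃ i, ρ i = γ := by
    intro γ hγ
    exact ⟨e.symm ⟨γ, hγ⟩, by simp [ρ]⟩
  have h2 : ∀ j, ∀ γ < ρ j, ∃ i, ρ i = γ := fun j γ hγ => hex γ (hγ.trans (hρβ j))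
  have h3 : ∀ a b, ρ a = ρ b → a = b := fun a b h => e.injective (Subtype.ext h)
  have hlimρ : ∀ j, (∃ i, ρ i < ρ j) → (∀ i, ρ i < ρ j → ∃ k, ρ i < ρ k ∧ ρ k < ρ j) →
      Order.IsSuccLimit (ρ j) := by
    intro j h4 h5
    rw [Order.isSuccLimit_iff_of_orderBot]
    refine ⟨?_, ?_⟩
    · obtain ⟨i, hi⟩ := h4
      exact (lt_of_le_of_lt bot_le hi).ne'
    · rw [Order.isSuccPrelimit_iff_succ_lt]
      intro γ hγ
      obtain ⟨i, rfl⟩ := h2 j γ hγ
      obtain ⟨k, h6, h7⟩ := h5 i hγ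
      exact lt_of_le_of_lt (Order.succ_le_of_lt h6) h7
  obtain ⟨iα, hiα⟩ := hex α hαβ
  refine ⟨fun a b => ρ a < ρ b, fun i => run p x (ρ i), ?_, ?_, iα, ?_⟩
  · exact InvImage.wf ρ (wellFounded_lt)
  · refine ⟨fun a => lt_irrefl _, fun a b d => lt_trans, ?_, ?_, ?_, ?_⟩
    · intro a b
      rcases lt_trichotomy (ρ a) (ρ b) with h | h | h
      · exact Or.inl h
      · exact Or.inr (Or.inl (h3 _ _ h))
      · exact Or.inr (Or.inr h)
    · intro i h4
      have : ρ i = 0 := by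
        by_contra hne
        have hpos : 0 < ρ i := pos_iff_ne_zero.2 hne
        obtain ⟨k, hk⟩ := h2 i 0 hpos
        exact h4 k (by rw [hk]; exact hpos)
      rw [this, run_zero]
    · intro i j h4 h5
      have : ρ j = ρ i + 1 := by
        apply le_antisymm _ (Order.add_one_le_of_lt h4)
        by_contra hlt
        push Not at hlt
        obtain ⟨k, hk⟩ := h2 j _ hlt
        exact h5 k ⟨by rw [hk]; exact lt_add_one _, by rw [hk]; exact hlt⟩
      rw [this, run_succ]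
    · intro j h4 h5
      have hl := hlimρ j h4 h5
      have hj : 0 < ρ j := hl.bot_lt
      have key : ∀ k, IsLI (fun a b => ρ a < ρ b) j (fun i => (run p x (ρ i)).co k)
          ((run p x (ρ j)).co k) := by
        intro k
        rw [RunA_li (fun a b => Iff.rfl) h2 h3 hj (F := fun γ => (run p x γ).co k)
          (fun i _ => rfl), co_run_limit p x hl]
      exact ⟨key none, key (some none), fun t k => key (some (some (t, k)))⟩
  · simp only
    rw [hiα]
    exact hh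

theorem RunA_bwd (p : Program) (x : ℕ → Bool) {lt : ℕ → ℕ → Prop} {c : ℕ → Config p}
    (hwf : WellFounded lt) (hr : IsRun p x lt c) {i0 : ℕ} (hi0 : (c i0).Halted) : Halts p x := by
  have hw : IsWellFounded ℕ lt := ⟨hwf⟩
  let ρ : ℕ → Ordinal.{0} := IsWellFounded.rank lt
  have h1 : ∀ a b, lt a b ↔ ρ a < ρ b := by
    intro a b
    refine ⟨IsWellFounded.rank_lt_of_rel, fun h => ?_⟩
    rcases hr.total a b with h4 | rfl | h4
    · exact h4
    · exact absurd h (lt_irrefl _)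
    · exact absurd (IsWellFounded.rank_lt_of_rel h4) (not_lt.2 h.le)
  have h2 : ∀ j, ∀ β < ρ j, ∃ i, ρ i = β := by
    intro j β hβ
    exact IsWellFounded.mem_range_rank_of_le (r := lt) hβ.le
  have h3 : ∀ a b, ρ a = ρ b → a = b := by
    intro a b h
    rcases hr.total a b with h4 | rfl | h4
    · exact absurd ((h1 _ _).1 h4) (by rw [h]; exact lt_irrefl _)
    · rfl
    · exact absurd ((h1 _ _).1 h4) (by rw [h]; exact lt_irrefl _)
  have key : ∀ i, c i = run p x (ρ i) := by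
    intro i
    induction i using hwf.induction with
    | _ j ih =>
      rcases Ordinal.zero_or_succ_or_isSuccLimit (ρ j) with h4 | ⟨β, hβ⟩ | h4
      · rw [h4, run_zero]
        apply hr.zero
        intro k hk
        have := (h1 _ _).1 hk
        rw [h4] at this
        exact absurd this (by simp)
      · rw [Order.succ_eq_add_one] at hβ
        have hlt : β < ρ j := by rw [← hβ]; exact lt_add_one _
        obtain ⟨i, rfl⟩ := h2 j β hlt
        have hij : lt i j := (h1 _ _).2 hlt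
        rw [hr.succ i j hij, ih i hij, ← hβ, run_succ]
        rintro k ⟨h5, h6⟩
        rw [h1] at h5 h6
        rw [← hβ] at h6
        exact absurd (Order.lt_add_one_iff.1 h6) (not_le.2 h5)
      · have hj : 0 < ρ j := h4.bot_lt
        obtain ⟨i, hi⟩ := h2 j 0 hj
        obtain ⟨h5, h6, h7⟩ := hr.lim j ⟨i, (h1 _ _).2 (by rw [hi]; exact hj)⟩ (by
          intro i hi
          rw [h1] at hi
          have h5 := h4.add_one_lt hi
          obtain ⟨k, hk⟩ := h2 j _ h5
          refine ⟨k, ?_, ?_⟩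
          · rw [h1, hk]; exact lt_add_one _
          · rw [h1, hk]; exact h5)
        apply co_injective
        funext k
        rw [co_run_limit p x h4]
        symm
        rw [← RunA_li h1 h2 h3 hj (f := fun i => (c i).co k) (fun i hi => by rw [ih i hi])]
        rcases k with _ | _ | ⟨t, k⟩
        · exact h5
        · exact h6
        · exact h7 t k
  refine ⟨ρ i0, ?_⟩
  unfold HaltsBy
  rw [← key]
  exact hi0

end RunA

theorem halts_iff (p : Program) (x : ℕ → Bool) : Halts p x ↔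
    ∃ (lt : ℕ → ℕ → Prop) (c : ℕ → Config p), WellFounded lt ∧ IsRun p x lt c ∧
      ∃ i, (c i).Halted :=
  ⟨RunA_fwd p x, fun ⟨_, _, h1, h2, _, h3⟩ => RunA_bwd p x h1 h2 h3⟩

end Pool.Agent.H76.TH
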